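import Mathlib

/-!
# Varieties generated by free alternative algebras: definitions

Everything is over a commutative ring `Φ`; algebras are not assumed associative or unital.
-/

namespace MP6489b8

universe u v w

/-- `A` is alternative: `x² y = x (x y)` and `(y x) x = y x²`. -/
def IsAlt (A : Type*) [Mul A] : Prop :=
  ∀ x y : A, (x * x) * y = x * (x * y) ∧ (y * x) * x = y * (x * x)

/-- The free (nonassociative, nonunital) `Φ`-algebra on the set `X`. -/
abbrev FreeNA (Φ : Type u) [CommRing Φ] (X : Type v) : Type (max u v) :=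
  FreeNonUnitalNonAssocAlgebra Φ X

section FreeAlt

variable (Φ : Type u) [CommRing Φ] (X : Type v)

/-- Membership in the ideal of the free algebra generated by all
`x² y - x (x y)` and all `(y x) x - y x²`. -/
inductive InAltIdeal : FreeNA Φ X → Prop
  | left (x y : FreeNA Φ X) : InAltIdeal ((x * x) * y - x * (x * y))
  | right (x y : FreeNA Φ X) : InAltIdeal ((y * x) * x - y * (x * x))
  | zero : InAltIdeal 0
  | add {a b : FreeNA Φ X} : InAltIdeal a → InAltIdeal b → InAltIdeal (a + b)
  | smul (c : Φ) {a : FreeNA Φ X} : InAltIdeal a → InAltIdeal (c • a)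
  | mul_left (a : FreeNA Φ X) {b : FreeNA Φ X} : InAltIdeal b → InAltIdeal (a * b)
  | mul_right {a : FreeNA Φ X} (b : FreeNA Φ X) : InAltIdeal a → InAltIdeal (a * b)

/-- The ideal of the free algebra generated by the alternative laws, as a submodule. -/
def altIdeal : Submodule Φ (FreeNA Φ X) where
  carrier := {a | InAltIdeal Φ X a}
  add_mem' ha hb := InAltIdeal.add ha hb
  zero_mem' := InAltIdeal.zero
  smul_mem' c _ ha := InAltIdeal.smul c ha

/-- The free alternative `Φ`-algebra on the set `X`. -/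
def FreeAlt : Type (max u v) := FreeNA Φ X ⧸ altIdeal Φ X

noncomputable instance : AddCommGroup (FreeAlt Φ X) :=
  inferInstanceAs (AddCommGroup (FreeNA Φ X ⧸ altIdeal Φ X))

noncomputable instance : Module Φ (FreeAlt Φ X) :=
  inferInstanceAs (Module Φ (FreeNA Φ X ⧸ altIdeal Φ X))

variable {Φ X}

/-- The quotient map from the free algebra to the free alternative algebra. -/
noncomputable def toFreeAlt : FreeNA Φ X →ₗ[Φ] FreeAlt Φ X := (altIdeal Φ X).mkQ

theorem toFreeAlt_surjective : Function.Surjective (toFreeAlt (Φ := Φ) (X := X)) :=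
  (altIdeal Φ X).mkQ_surjective

theorem toFreeAlt_eq_zero {a : FreeNA Φ X} : toFreeAlt a = 0 ↔ InAltIdeal Φ X a :=
  Submodule.Quotient.mk_eq_zero _

theorem toFreeAlt_eq {a b : FreeNA Φ X} : toFreeAlt a = toFreeAlt b ↔ InAltIdeal Φ X (a - b) :=
  Submodule.Quotient.eq _

/-- The multiplication of the free alternative algebra, induced from the free algebra. -/
noncomputable instance : Mul (FreeAlt Φ X) where
  mul := Quotient.map₂ (fun a b : FreeNA Φ X => a * b) (by
    intro a a' ha b b' hb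
    have ha' : InAltIdeal Φ X (a - a') := toFreeAlt_eq.1 (Quotient.sound ha)
    have hb' : InAltIdeal Φ X (b - b') := toFreeAlt_eq.1 (Quotient.sound hb)
    have : InAltIdeal Φ X (a * b - a' * b') := by
      have h := (InAltIdeal.mul_right b ha').add (InAltIdeal.mul_left a' hb')
      have e : (a - a') * b + a' * (b - b') = a * b - a' * b' := by
        rw [sub_mul, mul_sub]; abel
      rwa [e] at h
    exact Quotient.exact (toFreeAlt_eq.2 this))

theorem toFreeAlt_mul (a b : FreeNA Φ X) : toFreeAlt (a * b) = toFreeAlt a * toFreeAlt b := rfl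

noncomputable instance : NonUnitalNonAssocRing (FreeAlt Φ X) where
  left_distrib a b c := by
    obtain ⟨a, rfl⟩ := toFreeAlt_surjective a
    obtain ⟨b, rfl⟩ := toFreeAlt_surjective b
    obtain ⟨c, rfl⟩ := toFreeAlt_surjective c
    rw [← map_add, ← toFreeAlt_mul, ← toFreeAlt_mul, ← toFreeAlt_mul, ← map_add, mul_add]
  right_distrib a b c := by
    obtain ⟨a, rfl⟩ := toFreeAlt_surjective a
    obtain ⟨b, rfl⟩ := toFreeAlt_surjective b
    obtain ⟨c, rfl⟩ := toFreeAlt_surjective c
    rw [← map_add, ← toFreeAlt_mul, ← toFreeAlt_mul, ← toFreeAlt_mul, ← map_add, add_mul]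
  zero_mul a := by
    obtain ⟨a, rfl⟩ := toFreeAlt_surjective a
    rw [← map_zero toFreeAlt, ← toFreeAlt_mul, zero_mul]
  mul_zero a := by
    obtain ⟨a, rfl⟩ := toFreeAlt_surjective a
    rw [← map_zero toFreeAlt, ← toFreeAlt_mul, mul_zero]

instance : IsScalarTower Φ (FreeAlt Φ X) (FreeAlt Φ X) where
  smul_assoc c a b := by
    obtain ⟨a, rfl⟩ := toFreeAlt_surjective a
    obtain ⟨b, rfl⟩ := toFreeAlt_surjective b
    rw [smul_eq_mul, smul_eq_mul, ← map_smul, ← toFreeAlt_mul, ← toFreeAlt_mul, ← map_smul,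
      smul_mul_assoc]

instance : SMulCommClass Φ (FreeAlt Φ X) (FreeAlt Φ X) where
  smul_comm c a b := by
    obtain ⟨a, rfl⟩ := toFreeAlt_surjective a
    obtain ⟨b, rfl⟩ := toFreeAlt_surjective b
    rw [smul_eq_mul, smul_eq_mul, ← map_smul, ← toFreeAlt_mul, ← toFreeAlt_mul, ← map_smul,
      mul_smul_comm]

theorem isAlt_freeAlt : IsAlt (FreeAlt Φ X) := by
  intro x y
  obtain ⟨x, rfl⟩ := toFreeAlt_surjective x
  obtain ⟨y, rfl⟩ := toFreeAlt_surjective y
  simp only [← toFreeAlt_mul]
  exact ⟨toFreeAlt_eq.2 (InAltIdeal.left x y), toFreeAlt_eq.2 (InAltIdeal.right x y)⟩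

/-- The quotient map as a homomorphism of algebras. -/
noncomputable def toFreeAltHom : FreeNA Φ X →ₙₐ[Φ] FreeAlt Φ X where
  toFun a := toFreeAlt a
  map_smul' c a := map_smul toFreeAlt c a
  map_zero' := map_zero toFreeAlt
  map_add' a b := map_add toFreeAlt a b
  map_mul' := toFreeAlt_mul

@[simp] theorem toFreeAltHom_apply (a : FreeNA Φ X) : toFreeAltHom a = toFreeAlt a := rfl

/-- The free generators of the free alternative algebra. -/
noncomputable def gen (i : X) : FreeAlt Φ X := toFreeAlt (FreeNonUnitalNonAssocAlgebra.of Φ i)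

section UP

variable {A : Type w} [NonUnitalNonAssocRing A] [Module Φ A] [IsScalarTower Φ A A]
  [SMulCommClass Φ A A]

omit [IsScalarTower Φ A A] [SMulCommClass Φ A A] in
theorem hom_of_inAltIdeal (hA : IsAlt A) (φ : FreeNA Φ X →ₙₐ[Φ] A) {a : FreeNA Φ X}
    (h : InAltIdeal Φ X a) : φ a = 0 := by
  induction h with
  | left x y => rw [map_sub, map_mul, map_mul, map_mul, map_mul, (hA _ _).1, sub_self]
  | right x y => rw [map_sub, map_mul, map_mul, map_mul, map_mul, (hA _ _).2, sub_self]
  | zero => exact map_zero _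
  | add _ _ ha hb => rw [map_add, ha, hb, add_zero]
  | smul c _ ha => rw [map_smul, ha, smul_zero]
  | mul_left a _ hb => rw [map_mul, hb, mul_zero]
  | mul_right b _ ha => rw [map_mul, ha, zero_mul]

/-- The linear map underlying a homomorphism from the free algebra. -/
noncomputable def linOf (φ : FreeNA Φ X →ₙₐ[Φ] A) : FreeNA Φ X →ₗ[Φ] A where
  toFun a := φ a
  map_add' a b := map_add φ a b
  map_smul' c a := map_smul φ c a

/-- The linear map underlying `liftAlt`. -/
noncomputable def liftAltLin (hA : IsAlt A) (g : X → A) : FreeAlt Φ X →ₗ[Φ] A :=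
  (altIdeal Φ X).liftQ (linOf (FreeNonUnitalNonAssocAlgebra.lift Φ g))
    (fun a ha => by
      have h := hom_of_inAltIdeal hA (FreeNonUnitalNonAssocAlgebra.lift Φ g) (a := a) ha
      rw [LinearMap.mem_ker]
      exact h)

theorem liftAltLin_toFreeAlt (hA : IsAlt A) (g : X → A) (a : FreeNA Φ X) :
    liftAltLin hA g (toFreeAlt a) = FreeNonUnitalNonAssocAlgebra.lift Φ g a := by
  have h := (altIdeal Φ X).liftQ_apply (linOf (FreeNonUnitalNonAssocAlgebra.lift Φ g))
    (h := fun a ha => by
      have h := hom_of_inAltIdeal hA (FreeNonUnitalNonAssocAlgebra.lift Φ g) (a := a) ha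
      rw [LinearMap.mem_ker]
      exact h) a
  exact h

/-- The homomorphism of the free alternative algebra into an alternative algebra with
prescribed values on the free generators. -/
noncomputable def liftAlt (hA : IsAlt A) (g : X → A) : FreeAlt Φ X →ₙₐ[Φ] A where
  toFun := liftAltLin hA g
  map_smul' c a := map_smul (liftAltLin hA g) c a
  map_zero' := map_zero (liftAltLin hA g)
  map_add' a b := map_add (liftAltLin hA g) a b
  map_mul' := by
    intro a b
    obtain ⟨a, rfl⟩ := toFreeAlt_surjective a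
    obtain ⟨b, rfl⟩ := toFreeAlt_surjective b
    rw [← toFreeAlt_mul, liftAltLin_toFreeAlt, liftAltLin_toFreeAlt, liftAltLin_toFreeAlt, map_mul]

theorem liftAlt_toFreeAlt (hA : IsAlt A) (g : X → A) (a : FreeNA Φ X) :
    liftAlt hA g (toFreeAlt a) = FreeNonUnitalNonAssocAlgebra.lift Φ g a :=
  liftAltLin_toFreeAlt hA g a

@[simp] theorem liftAlt_gen (hA : IsAlt A) (g : X → A) (i : X) :
    liftAlt (Φ := Φ) hA g (gen i) = g i := by
  rw [gen, liftAlt_toFreeAlt, FreeNonUnitalNonAssocAlgebra.lift_of_apply]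

/-- Uniqueness in the universal property of the free alternative algebra. -/
theorem freeAlt_hom_ext {φ ψ : FreeAlt Φ X →ₙₐ[Φ] A} (h : ∀ i, φ (gen i) = ψ (gen i)) :
    φ = ψ := by
  have h1 : φ.comp toFreeAltHom = ψ.comp toFreeAltHom := by
    apply FreeNonUnitalNonAssocAlgebra.hom_ext
    intro i
    exact h i
  apply NonUnitalAlgHom.ext
  intro a
  obtain ⟨a, rfl⟩ := toFreeAlt_surjective a
  exact DFunLike.congr_fun h1 a

end UP

end FreeAlt

section Varieties

variable (Φ : Type u) [CommRing Φ]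

/-- The nonassociative polynomial `f` (in the variables `0, 1, 2, …`, with coefficients in `Φ`)
is an identity of the algebra `A`. -/
def IsIdentity (A : Type w) [NonUnitalNonAssocRing A] [Module Φ A] [IsScalarTower Φ A A]
    [SMulCommClass Φ A A] (f : FreeNA Φ ℕ) : Prop :=
  ∀ g : ℕ → A, FreeNonUnitalNonAssocAlgebra.lift Φ g f = 0

/-- The algebra `A` belongs to the variety `Alt_m(Φ)` generated by the free alternative algebra
on `m` generators: it satisfies every identity of that algebra. -/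
def InVariety (m : ℕ) (A : Type w) [NonUnitalNonAssocRing A] [Module Φ A] [IsScalarTower Φ A A]
    [SMulCommClass Φ A A] : Prop :=
  ∀ f : FreeNA Φ ℕ, IsIdentity Φ (FreeAlt Φ (Fin m)) f → IsIdentity Φ A f

/-- The containment `Alt_m(Φ) ⊂ Alt_{m+1}(Φ)` is strict: every algebra of `Alt_m(Φ)` is
in `Alt_{m+1}(Φ)`, and some algebra of `Alt_{m+1}(Φ)` is not in `Alt_m(Φ)`. -/
def StrictStep (m : ℕ) : Prop :=
  (∀ (A : Type u) [NonUnitalNonAssocRing A] [Module Φ A] [IsScalarTower Φ A A]
    [SMulCommClass Φ A A], InVariety Φ m A → InVariety Φ (m + 1) A) ∧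
  ∃ (A : Type u) (_ : NonUnitalNonAssocRing A) (_ : Module Φ A) (_ : IsScalarTower Φ A A)
    (_ : SMulCommClass Φ A A), InVariety Φ (m + 1) A ∧ ¬ InVariety Φ m A

variable {Φ}

theorem IsIdentity.of_surjective {A : Type v} {B : Type w}
    [NonUnitalNonAssocRing A] [Module Φ A] [IsScalarTower Φ A A] [SMulCommClass Φ A A]
    [NonUnitalNonAssocRing B] [Module Φ B] [IsScalarTower Φ B B] [SMulCommClass Φ B B]
    (φ : A →ₙₐ[Φ] B) (hφ : Function.Surjective φ) {f : FreeNA Φ ℕ} (h : IsIdentity Φ A f) :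
    IsIdentity Φ B f := by
  intro g
  choose s hs using hφ
  have h1 : φ.comp (FreeNonUnitalNonAssocAlgebra.lift Φ (fun i => s (g i))) =
      FreeNonUnitalNonAssocAlgebra.lift Φ g := by
    apply FreeNonUnitalNonAssocAlgebra.hom_ext
    intro i
    rw [NonUnitalAlgHom.comp_apply, FreeNonUnitalNonAssocAlgebra.lift_of_apply,
      FreeNonUnitalNonAssocAlgebra.lift_of_apply, hs]
  rw [← h1, NonUnitalAlgHom.comp_apply, h, map_zero]

theorem IsIdentity.of_injective {A : Type v} {B : Type w}
    [NonUnitalNonAssocRing A] [Module Φ A] [IsScalarTower Φ A A] [SMulCommClass Φ A A]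
    [NonUnitalNonAssocRing B] [Module Φ B] [IsScalarTower Φ B B] [SMulCommClass Φ B B]
    (φ : A →ₙₐ[Φ] B) (hφ : Function.Injective φ) {f : FreeNA Φ ℕ} (h : IsIdentity Φ B f) :
    IsIdentity Φ A f := by
  intro g
  have h1 : φ.comp (FreeNonUnitalNonAssocAlgebra.lift Φ g) =
      FreeNonUnitalNonAssocAlgebra.lift Φ (fun i => φ (g i)) := by
    apply FreeNonUnitalNonAssocAlgebra.hom_ext
    intro i
    rw [NonUnitalAlgHom.comp_apply, FreeNonUnitalNonAssocAlgebra.lift_of_apply,
      FreeNonUnitalNonAssocAlgebra.lift_of_apply]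
  apply hφ
  rw [← NonUnitalAlgHom.comp_apply, h1, h, map_zero]

/-- Every identity of the free alternative algebra on `m + 1` generators is an identity of the
free alternative algebra on `m` generators, if `1 ≤ m`. -/
theorem identity_mono {m : ℕ} (hm : 1 ≤ m) {f : FreeNA Φ ℕ}
    (h : IsIdentity Φ (FreeAlt Φ (Fin (m + 1))) f) : IsIdentity Φ (FreeAlt Φ (Fin m)) f := by
  have hm' : 0 < m := hm
  let s : Fin (m + 1) → Fin m := fun i => if h : i.1 < m then ⟨i.1, h⟩ else ⟨0, hm'⟩
  let φ : FreeAlt Φ (Fin (m + 1)) →ₙₐ[Φ] FreeAlt Φ (Fin m) :=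
    liftAlt isAlt_freeAlt (fun i => gen (s i))
  let ψ : FreeAlt Φ (Fin m) →ₙₐ[Φ] FreeAlt Φ (Fin (m + 1)) :=
    liftAlt isAlt_freeAlt (fun i => gen i.castSucc)
  have h1 : φ.comp ψ = NonUnitalAlgHom.id Φ (FreeAlt Φ (Fin m)) := by
    apply freeAlt_hom_ext
    intro i
    rw [NonUnitalAlgHom.comp_apply, liftAlt_gen, liftAlt_gen]
    simp [s]
  refine h.of_surjective φ (fun a => ⟨ψ a, ?_⟩)
  rw [← NonUnitalAlgHom.comp_apply, h1]
  rfl

/-- A separating identity shows that the step is strict. -/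
theorem strictStep_of {m : ℕ} (hm : 1 ≤ m)
    (h : ∃ f : FreeNA Φ ℕ, IsIdentity Φ (FreeAlt Φ (Fin m)) f ∧
      ¬ IsIdentity Φ (FreeAlt Φ (Fin (m + 1))) f) : StrictStep Φ m := by
  refine ⟨fun A _ _ _ _ hA f hf => hA f (identity_mono hm hf), ?_⟩
  obtain ⟨f, hf, hf'⟩ := h
  refine ⟨FreeAlt Φ (Fin (m + 1)), inferInstance, inferInstance, inferInstance, inferInstance,
    fun f hf => hf, fun hA => hf' (hA f hf)⟩

end Varieties

end MP6489b8
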