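import Mathlib
import Pool.Agent.Lib.MP_6489b8_al.Defs

/-!
# Polynomials over a nonassociative ring, and alternative rings given by generators
-/

namespace MP6489b8

universe u v w

/-- A ring which is additively generated by a set on which the alternative laws and their
linearisations hold is alternative. -/
theorem isAlt_of_gen {R : Type*} [NonUnitalNonAssocRing R] (S : Set R)
    (hS : ∀ x : R, x ∈ AddSubmonoid.closure S)
    (h1 : ∀ s ∈ S, ∀ u ∈ S, (s * s) * u = s * (s * u))
    (h2 : ∀ s ∈ S, ∀ t ∈ S, ∀ u ∈ S, (s * t) * u + (t * s) * u = s * (t * u) + t * (s * u))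
    (h3 : ∀ s ∈ S, ∀ u ∈ S, (u * s) * s = u * (s * s))
    (h4 : ∀ s ∈ S, ∀ t ∈ S, ∀ u ∈ S, (u * s) * t + (u * t) * s = u * (s * t) + u * (t * s)) :
    IsAlt R := by
  have L : ∀ x y z : R, (x * y) * z + (y * x) * z = x * (y * z) + y * (x * z) := by
    have a1 : ∀ x : R, ∀ t ∈ S, ∀ u ∈ S,
        (x * t) * u + (t * x) * u = x * (t * u) + t * (x * u) := by
      intro x t ht u hu
      induction hS x using AddSubmonoid.closure_induction with
      | mem s hs => exact h2 s hs t ht u hu
      | zero => simp
      | add a b _ _ ha hb =>
        calc (a + b) * t * u + t * (a + b) * u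
            = ((a * t) * u + (t * a) * u) + ((b * t) * u + (t * b) * u) := by
              simp only [add_mul, mul_add]; abel
          _ = _ := by rw [ha, hb]; simp only [add_mul, mul_add]; abel
    have a2 : ∀ x y : R, ∀ u ∈ S,
        (x * y) * u + (y * x) * u = x * (y * u) + y * (x * u) := by
      intro x y u hu
      induction hS y using AddSubmonoid.closure_induction with
      | mem s hs => exact a1 x s hs u hu
      | zero => simp
      | add a b _ _ ha hb =>
        calc (x * (a + b)) * u + ((a + b) * x) * u
            = ((x * a) * u + (a * x) * u) + ((x * b) * u + (b * x) * u) := by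
              simp only [add_mul, mul_add]; abel
          _ = _ := by rw [ha, hb]; simp only [add_mul, mul_add]; abel
    intro x y z
    induction hS z using AddSubmonoid.closure_induction with
    | mem s hs => exact a2 x y s hs
    | zero => simp
    | add a b _ _ ha hb =>
      calc (x * y) * (a + b) + (y * x) * (a + b)
          = ((x * y) * a + (y * x) * a) + ((x * y) * b + (y * x) * b) := by
            simp only [mul_add]; abel
        _ = _ := by rw [ha, hb]; simp only [mul_add]; abel
  have M : ∀ x y z : R, (z * x) * y + (z * y) * x = z * (x * y) + z * (y * x) := by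
    have a1 : ∀ x : R, ∀ t ∈ S, ∀ u ∈ S,
        (u * x) * t + (u * t) * x = u * (x * t) + u * (t * x) := by
      intro x t ht u hu
      induction hS x using AddSubmonoid.closure_induction with
      | mem s hs => exact h4 s hs t ht u hu
      | zero => simp
      | add a b _ _ ha hb =>
        calc (u * (a + b)) * t + (u * t) * (a + b)
            = ((u * a) * t + (u * t) * a) + ((u * b) * t + (u * t) * b) := by
              simp only [add_mul, mul_add]; abel
          _ = _ := by rw [ha, hb]; simp only [add_mul, mul_add]; abel
    have a2 : ∀ x y : R, ∀ u ∈ S,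
        (u * x) * y + (u * y) * x = u * (x * y) + u * (y * x) := by
      intro x y u hu
      induction hS y using AddSubmonoid.closure_induction with
      | mem s hs => exact a1 x s hs u hu
      | zero => simp
      | add a b _ _ ha hb =>
        calc (u * x) * (a + b) + (u * (a + b)) * x
            = ((u * x) * a + (u * a) * x) + ((u * x) * b + (u * b) * x) := by
              simp only [add_mul, mul_add]; abel
          _ = _ := by rw [ha, hb]; simp only [add_mul, mul_add]; abel
    intro x y z
    induction hS z using AddSubmonoid.closure_induction with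
    | mem s hs => exact a2 x y s hs
    | zero => simp
    | add a b _ _ ha hb =>
      calc ((a + b) * x) * y + ((a + b) * y) * x
          = ((a * x) * y + (a * y) * x) + ((b * x) * y + (b * y) * x) := by
            simp only [add_mul]; abel
        _ = _ := by rw [ha, hb]; simp only [add_mul]; abel
  have L1 : ∀ x z : R, z ∈ S → (x * x) * z = x * (x * z) := by
    intro x z hz
    induction hS x using AddSubmonoid.closure_induction with
    | mem s hs => exact h1 s hs z hz
    | zero => simp
    | add a b _ _ ha hb =>
      calc ((a + b) * (a + b)) * z
          = (a * a) * z + (b * b) * z + ((a * b) * z + (b * a) * z) := by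
            simp only [add_mul, mul_add]; abel
        _ = _ := by rw [ha, hb, L]; simp only [add_mul, mul_add]; abel
  have M1 : ∀ x z : R, z ∈ S → (z * x) * x = z * (x * x) := by
    intro x z hz
    induction hS x using AddSubmonoid.closure_induction with
    | mem s hs => exact h3 s hs z hz
    | zero => simp
    | add a b _ _ ha hb =>
      calc (z * (a + b)) * (a + b)
          = (z * a) * a + (z * b) * b + ((z * a) * b + (z * b) * a) := by
            simp only [add_mul, mul_add]; abel
        _ = _ := by rw [ha, hb, M]; simp only [add_mul, mul_add]; abel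
  intro x y
  constructor
  · induction hS y using AddSubmonoid.closure_induction with
    | mem s hs => exact L1 x s hs
    | zero => simp
    | add a b _ _ ha hb => rw [mul_add, ha, hb, mul_add, mul_add]
  · induction hS y using AddSubmonoid.closure_induction with
    | mem s hs => exact M1 x s hs
    | zero => simp
    | add a b _ _ ha hb => rw [add_mul, add_mul, ha, hb, add_mul]

/-- Linearised alternative laws. -/
theorem IsAlt.lin_left {A : Type*} [NonUnitalNonAssocRing A] (hA : IsAlt A) (x y z : A) :
    (x * y) * z + (y * x) * z = x * (y * z) + y * (x * z) := by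
  have h := (hA (x + y) z).1
  simp only [add_mul, mul_add] at h
  have h1 := (hA x z).1
  have h2 := (hA y z).1
  rw [h1, h2] at h
  have e : (x * y) * z + (y * x) * z =
      (x * (x * z) + y * x * z + (x * y * z + y * (y * z))) - x * (x * z) - y * (y * z) := by abel
  rw [e, h]; abel

theorem IsAlt.lin_right {A : Type*} [NonUnitalNonAssocRing A] (hA : IsAlt A) (x y z : A) :
    (z * x) * y + (z * y) * x = z * (x * y) + z * (y * x) := by
  have h := (hA (x + y) z).2
  simp only [add_mul, mul_add] at h
  have h1 := (hA x z).2
  have h2 := (hA y z).2
  rw [h1, h2] at h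
  have e : (z * x) * y + (z * y) * x =
      (z * (x * x) + z * y * x + (z * x * y + z * (y * y))) - z * (x * x) - z * (y * y) := by abel
  rw [e, h]; abel

/-- Polynomials in one variable with coefficients in a nonassociative ring. -/
def Pol (A : Type u) [NonUnitalNonAssocRing A] : Type u := ℕ →₀ A

namespace Pol

variable {A : Type u} [NonUnitalNonAssocRing A]

noncomputable instance : AddCommGroup (Pol A) := inferInstanceAs (AddCommGroup (ℕ →₀ A))

/-- The coefficient of `λ^n`. -/
def coeff (n : ℕ) : Pol A →+ A := Finsupp.applyAddHom n

/-- The monomial `a λ^n`. -/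
noncomputable def mono (n : ℕ) : A →+ Pol A := Finsupp.singleAddHom n

theorem ext {f g : Pol A} (h : ∀ n, coeff n f = coeff n g) : f = g := Finsupp.ext h

theorem coeff_mono (n m : ℕ) (a : A) : coeff n (mono m a) = if m = n then a else 0 :=
  Finsupp.single_apply

theorem induction {p : Pol A → Prop} (f : Pol A) (h0 : p 0) (hadd : ∀ f g, p f → p g → p (f + g))
    (hmono : ∀ n a, p (mono n a)) : p f :=
  Finsupp.induction_linear f h0 hadd hmono

/-- Additive extension of maps given on monomials. -/
noncomputable def liftHom {M : Type*} [AddCommMonoid M] (F : ℕ → A →+ M) : Pol A →+ M :=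
  Finsupp.liftAddHom F

@[simp] theorem liftHom_mono {M : Type*} [AddCommMonoid M] (F : ℕ → A →+ M) (n : ℕ) (a : A) :
    liftHom F (mono n a) = F n a := by
  have := Finsupp.liftAddHom_apply_single F n a
  exact this

/-- Multiplication as a biadditive map. -/
noncomputable def mulHom : Pol A →+ Pol A →+ Pol A :=
  liftHom (fun i => AddMonoidHom.mk' (fun a => liftHom (fun j =>
      (mono (i + j)).comp (AddMonoidHom.mulLeft a))) (by
    intro a b
    apply AddMonoidHom.ext
    intro f
    induction f using Pol.induction with
    | h0 => simp
    | hadd f g hf hg => rw [map_add, hf, hg, map_add]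
    | hmono n c => simp [add_mul]))

noncomputable instance : Mul (Pol A) := ⟨fun f g => mulHom f g⟩

theorem mul_def (f g : Pol A) : f * g = mulHom f g := rfl

noncomputable instance : NonUnitalNonAssocRing (Pol A) where
  left_distrib f g h := by simp only [mul_def, map_add]
  right_distrib f g h := by simp only [mul_def, map_add, AddMonoidHom.add_apply]
  zero_mul f := by simp only [mul_def, map_zero, AddMonoidHom.zero_apply]
  mul_zero f := by simp only [mul_def, map_zero]

@[simp] theorem mono_mul_mono (i j : ℕ) (a b : A) :
    mono i a * mono j b = mono (i + j) (a * b) := by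
  rw [mul_def, mulHom, liftHom_mono]
  simp

theorem mem_closure (f : Pol A) :
    f ∈ AddSubmonoid.closure {g : Pol A | ∃ n a, g = mono n a} := by
  induction f using Pol.induction with
  | h0 => exact zero_mem _
  | hadd f g hf hg => exact add_mem hf hg
  | hmono n a => exact AddSubmonoid.subset_closure ⟨n, a, rfl⟩

theorem isAlt (hA : IsAlt A) : IsAlt (Pol A) := by
  apply isAlt_of_gen {g : Pol A | ∃ n a, g = mono n a} mem_closure
  · rintro _ ⟨i, a, rfl⟩ _ ⟨k, c, rfl⟩
    simp only [mono_mul_mono, (hA a c).1, add_assoc]
  · rintro _ ⟨i, a, rfl⟩ _ ⟨j, b, rfl⟩ _ ⟨k, c, rfl⟩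
    simp only [mono_mul_mono]
    rw [show i + (j + k) = i + j + k by omega, show j + i + k = i + j + k by omega,
      show j + (i + k) = i + j + k by omega, ← map_add, ← map_add, hA.lin_left]
  · rintro _ ⟨i, a, rfl⟩ _ ⟨k, c, rfl⟩
    simp only [mono_mul_mono, (hA a c).2, add_assoc]
  · rintro _ ⟨i, a, rfl⟩ _ ⟨j, b, rfl⟩ _ ⟨k, c, rfl⟩
    simp only [mono_mul_mono]
    rw [show k + (i + j) = k + i + j by omega, show k + j + i = k + i + j by omega,
      show k + (j + i) = k + i + j by omega, ← map_add, ← map_add, hA.lin_right]

theorem coeff_mul_mono_zero (n : ℕ) (f : Pol A) (b : A) :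
    coeff n (f * mono 0 b) = coeff n f * b := by
  induction f using Pol.induction with
  | h0 => simp
  | hadd f g hf hg => rw [add_mul, map_add, hf, hg, map_add, add_mul]
  | hmono m a =>
    rw [mono_mul_mono, add_zero, coeff_mono, coeff_mono]
    split_ifs <;> simp

theorem coeff_mono_zero_mul (n : ℕ) (f : Pol A) (b : A) :
    coeff n (mono 0 b * f) = b * coeff n f := by
  induction f using Pol.induction with
  | h0 => simp
  | hadd f g hf hg => rw [mul_add, map_add, hf, hg, map_add, mul_add]
  | hmono m a =>
    rw [mono_mul_mono, zero_add, coeff_mono, coeff_mono]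
    split_ifs <;> simp

/-- The constant coefficient as a homomorphism of rings. -/
noncomputable def const : Pol A →ₙ+* A where
  toFun f := coeff 0 f
  map_zero' := map_zero _
  map_add' f g := map_add _ f g
  map_mul' f g := by
    induction f using Pol.induction with
    | h0 => simp
    | hadd f f' hf hf' => rw [add_mul, map_add, hf, hf', map_add, add_mul]
    | hmono m a =>
      induction g using Pol.induction with
      | h0 => simp
      | hadd g g' hg hg' => rw [mul_add, map_add, hg, hg', map_add, mul_add]
      | hmono k b =>
        rw [mono_mul_mono, coeff_mono, coeff_mono, coeff_mono]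
        rcases Nat.eq_zero_or_pos m with hm | hm
        · subst hm
          rcases Nat.eq_zero_or_pos k with hk | hk
          · subst hk; simp
          · have : ¬ (0 + k = 0) := by omega
            have h2 : ¬ (k = 0) := by omega
            simp [h2]
        · have : ¬ (m + k = 0) := by omega
          have h2 : ¬ (m = 0) := by omega
          simp [h2]

@[simp] theorem const_apply (f : Pol A) : const f = coeff 0 f := rfl

end Pol

/-- An additive map commuting with all multiplications. -/
structure Centr (A : Type*) [NonUnitalNonAssocRing A] where
  /-- the underlying additive map -/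
  f : A →+ A
  left : ∀ a b, f (a * b) = f a * b
  right : ∀ a b, f (a * b) = a * f b

namespace Centr

/-- Multiplication by a scalar. -/
def smul {Φ : Type*} [CommRing Φ] (A : Type*) [NonUnitalNonAssocRing A] [Module Φ A]
    [IsScalarTower Φ A A] [SMulCommClass Φ A A] (c : Φ) : Centr A where
  f := DistribSMul.toAddMonoidHom A c
  left a b := (smul_mul_assoc c a b).symm
  right a b := (mul_smul_comm c a b).symm

@[simp] theorem smul_f {Φ : Type*} [CommRing Φ] (A : Type*) [NonUnitalNonAssocRing A] [Module Φ A]
    [IsScalarTower Φ A A] [SMulCommClass Φ A A] (c : Φ) (a : A) : (smul A c).f a = c • a := rfl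

variable {A : Type u} [NonUnitalNonAssocRing A]

/-- Multiplication by the variable. -/
noncomputable def shift : Centr (Pol A) where
  f := Pol.liftHom (fun i => Pol.mono (i + 1))
  left f g := by
    induction f using Pol.induction with
    | h0 => simp
    | hadd f f' hf hf' => rw [add_mul, map_add, hf, hf', map_add, add_mul]
    | hmono m a =>
      induction g using Pol.induction with
      | h0 => simp
      | hadd g g' hg hg' => rw [mul_add, map_add, hg, hg', mul_add]
      | hmono k b =>
        simp only [Pol.mono_mul_mono, Pol.liftHom_mono]
        rw [show m + k + 1 = m + 1 + k by omega]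
  right f g := by
    induction f using Pol.induction with
    | h0 => simp
    | hadd f f' hf hf' => rw [add_mul, map_add, hf, hf', add_mul]
    | hmono m a =>
      induction g using Pol.induction with
      | h0 => simp
      | hadd g g' hg hg' => rw [mul_add, map_add, hg, hg', map_add, mul_add]
      | hmono k b =>
        simp only [Pol.mono_mul_mono, Pol.liftHom_mono]
        rw [show m + k + 1 = m + (k + 1) by omega]

@[simp] theorem shift_mono (n : ℕ) (a : A) : (shift (A := A)).f (Pol.mono n a) = Pol.mono (n + 1) a :=
  Pol.liftHom_mono _ _ _

theorem coeff_succ_shift (n : ℕ) (f : Pol A) :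
    Pol.coeff (n + 1) ((shift (A := A)).f f) = Pol.coeff n f := by
  induction f using Pol.induction with
  | h0 => simp
  | hadd f f' hf hf' => rw [map_add, map_add, hf, hf', map_add]
  | hmono m a => simp [Pol.coeff_mono]

/-- A centroid map of `A` acts on the coefficients of polynomials. -/
noncomputable def polMap (S : Centr A) : Centr (Pol A) where
  f := Pol.liftHom (fun i => (Pol.mono i).comp S.f)
  left f g := by
    induction f using Pol.induction with
    | h0 => simp
    | hadd f f' hf hf' => rw [add_mul, map_add, hf, hf', map_add, add_mul]
    | hmono m a =>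
      induction g using Pol.induction with
      | h0 => simp
      | hadd g g' hg hg' => rw [mul_add, map_add, hg, hg', mul_add]
      | hmono k b => simp [S.left]
  right f g := by
    induction f using Pol.induction with
    | h0 => simp
    | hadd f f' hf hf' => rw [add_mul, map_add, hf, hf', add_mul]
    | hmono m a =>
      induction g using Pol.induction with
      | h0 => simp
      | hadd g g' hg hg' => rw [mul_add, map_add, hg, hg', map_add, mul_add]
      | hmono k b => simp [S.right]

@[simp] theorem polMap_mono (S : Centr A) (n : ℕ) (a : A) :
    (polMap S).f (Pol.mono n a) = Pol.mono n (S.f a) := Pol.liftHom_mono _ _ _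

theorem coeff_polMap (S : Centr A) (n : ℕ) (f : Pol A) :
    Pol.coeff n ((polMap S).f f) = S.f (Pol.coeff n f) := by
  induction f using Pol.induction with
  | h0 => simp
  | hadd f f' hf hf' => rw [map_add, map_add, hf, hf', map_add, map_add]
  | hmono m a =>
    rw [polMap_mono, Pol.coeff_mono, Pol.coeff_mono]
    split_ifs <;> simp

end Centr

end MP6489b8
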