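import Mathlib
import Pool.Agent.Lib.MP_6489b8_al.Poly

/-!
# A certificate checker for identities of alternative rings

An identity is given by an expression `e : E`.  A certificate is a list of integer multiples of
expressions which vanish in alternative rings because they contain an instance of the
(linearised) alternative laws, or an instance of a hypothesis.  The checker expands everything
into nonassociative monomials, sorts, and compares.
-/

namespace MP6489b8

namespace Cert

/-- Nonassociative monomials. -/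
inductive Tr
  | v (n : ℕ)
  | m (l r : Tr)

/-- Expressions, with special nodes for the alternative laws. -/
inductive E
  | V (n : ℕ)
  | M (a b : E)
  | S (a b : E)
  | P (a b : E)
  | L (a b c : E)
  | R (a b c : E)
  | LL (a c : E)
  | RR (a c : E)
  | Z (k : ℤ) (a : E)
  | H (i : ℕ)

/-- Structural equality of monomials. -/
def Tr.beq : Tr → Tr → Bool
  | .v n, .v k => Nat.beq n k
  | .m a b, .m c d => Tr.beq a c && Tr.beq b d
  | _, _ => false

theorem Tr.eq_of_beq : ∀ {s t : Tr}, Tr.beq s t = true → s = t
  | .v n, .v k, h => by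
    simp only [Tr.beq] at h
    rw [Nat.eq_of_beq_eq_true h]
  | .m a b, .m c d, h => by
    simp only [Tr.beq, Bool.and_eq_true] at h
    rw [Tr.eq_of_beq h.1, Tr.eq_of_beq h.2]
  | .v n, .m c d, h => by simp [Tr.beq] at h
  | .m a b, .v k, h => by simp [Tr.beq] at h

/-- Terms: a key, the power of 16 of the length of the key, the monomial, the coefficient. -/
structure KT where
  k : ℕ
  w : ℕ
  t : Tr
  c : ℤ

/-- Product of terms. -/
def KT.mul (x y : KT) : KT := ⟨(15 * x.w + x.k) * y.w + y.k, 16 * (x.w * y.w), .m x.t y.t, x.c * y.c⟩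

/-- Multiple of a term. -/
def KT.smul (c : ℤ) (x : KT) : KT := ⟨x.k, x.w, x.t, c * x.c⟩

/-- Concatenation (defined by the recursor, for fast reduction in the kernel). -/
noncomputable def app (p q : List KT) : List KT :=
  @List.rec KT (fun _ => List KT) q (fun x _ ih => x :: ih) p

theorem app_eq (p q : List KT) : app p q = p ++ q := by
  induction p with
  | nil => rfl
  | cons x p ih => exact congrArg (List.cons x) ih

/-- Multiply by a fixed term on the left. -/
noncomputable def mulL (x : KT) (q : List KT) : List KT :=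
  @List.rec KT (fun _ => List KT) [] (fun y _ ih => x.mul y :: ih) q

theorem mulL_nil (x : KT) : mulL x [] = [] := rfl
theorem mulL_cons (x y : KT) (q : List KT) : mulL x (y :: q) = x.mul y :: mulL x q := rfl

/-- Product of two polynomials. -/
noncomputable def mulP (p q : List KT) : List KT :=
  @List.rec KT (fun _ => List KT) [] (fun x _ ih => app (mulL x q) ih) p

theorem mulP_nil (q : List KT) : mulP [] q = [] := rfl
theorem mulP_cons (x : KT) (p q : List KT) : mulP (x :: p) q = app (mulL x q) (mulP p q) := rfl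

/-- Integer multiple of a polynomial. -/
noncomputable def smulP (c : ℤ) (p : List KT) : List KT :=
  @List.rec KT (fun _ => List KT) [] (fun x _ ih => x.smul c :: ih) p

theorem smulP_nil (c : ℤ) : smulP c [] = [] := rfl
theorem smulP_cons (c : ℤ) (x : KT) (p : List KT) : smulP c (x :: p) = x.smul c :: smulP c p := rfl

section Sem

variable {A : Type*} [NonUnitalNonAssocRing A] (ρ : ℕ → A)

/-- Value of a monomial. -/
def Tr.ev : Tr → A
  | .v n => ρ n
  | .m a b => Tr.ev a * Tr.ev b

/-- Value of an expression. -/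
def E.ev : E → A
  | .V n => ρ n
  | .M a b => E.ev a * E.ev b
  | .S a b => E.ev a - E.ev b
  | .P a b => E.ev a + E.ev b
  | .L a b c => (E.ev a * E.ev b) * E.ev c - E.ev a * (E.ev b * E.ev c) +
      ((E.ev b * E.ev a) * E.ev c - E.ev b * (E.ev a * E.ev c))
  | .R a b c => (E.ev a * E.ev b) * E.ev c - E.ev a * (E.ev b * E.ev c) +
      ((E.ev a * E.ev c) * E.ev b - E.ev a * (E.ev c * E.ev b))
  | .LL a c => (E.ev a * E.ev a) * E.ev c - E.ev a * (E.ev a * E.ev c)
  | .RR a c => (E.ev c * E.ev a) * E.ev a - E.ev c * (E.ev a * E.ev a)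
  | .Z k a => k • E.ev a
  | .H _ => 0

/-- Value of a list of terms. -/
def evK : List KT → A
  | [] => 0
  | x :: l => x.c • x.t.ev ρ + evK l

theorem evK_append (p q : List KT) : evK ρ (p ++ q) = evK ρ p + evK ρ q := by
  induction p with
  | nil => simp [evK]
  | cons x p ih => simp only [List.cons_append, evK, ih, add_assoc]

theorem evK_app (p q : List KT) : evK ρ (app p q) = evK ρ p + evK ρ q := by
  rw [app_eq, evK_append]

theorem evK_smulP (c : ℤ) (p : List KT) : evK ρ (smulP c p) = c • evK ρ p := by
  induction p with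
  | nil => simp [evK, smulP_nil]
  | cons x p ih => rw [smulP_cons, evK, ih, evK, smul_add, KT.smul, mul_smul]

theorem evK_mulL (x : KT) (q : List KT) : evK ρ (mulL x q) = (x.c • x.t.ev ρ) * evK ρ q := by
  induction q with
  | nil => simp [evK, mulL_nil]
  | cons y q ih =>
    rw [mulL_cons, evK, ih, evK, mul_add, KT.mul]
    congr 1
    rw [smul_mul_assoc, mul_smul_comm, mul_smul, Tr.ev]

theorem evK_mulP (p q : List KT) : evK ρ (mulP p q) = evK ρ p * evK ρ q := by
  induction p with
  | nil => simp [evK, mulP_nil]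
  | cons x p ih => rw [mulP_cons, evK_app, evK_mulL, ih, evK, add_mul]

end Sem

/-- Expansion of an expression; `hp` gives the expansions of the hypotheses. -/
noncomputable def E.expand (hp : ℕ → List KT) (e : E) : List KT :=
  @E.rec (fun _ => List KT)
    (fun n => [⟨n + 1, 16, .v n, 1⟩])
    (fun _ _ a b => mulP a b)
    (fun _ _ a b => app a (smulP (-1) b))
    (fun _ _ a b => app a b)
    (fun _ _ _ a b c => app (app (mulP (mulP a b) c) (smulP (-1) (mulP a (mulP b c))))
      (app (mulP (mulP b a) c) (smulP (-1) (mulP b (mulP a c)))))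
    (fun _ _ _ a b c => app (app (mulP (mulP a b) c) (smulP (-1) (mulP a (mulP b c))))
      (app (mulP (mulP a c) b) (smulP (-1) (mulP a (mulP c b)))))
    (fun _ _ a c => app (mulP (mulP a a) c) (smulP (-1) (mulP a (mulP a c))))
    (fun _ _ a c => app (mulP (mulP c a) a) (smulP (-1) (mulP c (mulP a a))))
    (fun k _ a => smulP k a)
    (fun i => hp i) e

section Sem

variable {A : Type*} [NonUnitalNonAssocRing A] (ρ : ℕ → A)

theorem evK_expand (hp : ℕ → List KT) (hh : ∀ i, evK ρ (hp i) = 0) (e : E) :
    evK ρ (e.expand hp) = e.ev ρ := by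
  induction e with
  | V n =>
    change evK ρ [⟨n + 1, 16, .v n, 1⟩] = _
    simp [evK, E.ev, Tr.ev]
  | M a b iha ihb =>
    change evK ρ (mulP (a.expand hp) (b.expand hp)) = _
    rw [evK_mulP, iha, ihb, E.ev]
  | S a b iha ihb =>
    change evK ρ (app (a.expand hp) (smulP (-1) (b.expand hp))) = _
    rw [evK_app, evK_smulP, iha, ihb, E.ev, neg_one_smul, sub_eq_add_neg]
  | P a b iha ihb =>
    change evK ρ (app (a.expand hp) (b.expand hp)) = _
    rw [evK_app, iha, ihb, E.ev]
  | L a b c iha ihb ihc =>
    change evK ρ (app (app (mulP (mulP (a.expand hp) (b.expand hp)) (c.expand hp))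
      (smulP (-1) (mulP (a.expand hp) (mulP (b.expand hp) (c.expand hp)))))
      (app (mulP (mulP (b.expand hp) (a.expand hp)) (c.expand hp))
      (smulP (-1) (mulP (b.expand hp) (mulP (a.expand hp) (c.expand hp)))))) = _
    simp only [evK_app, evK_smulP, evK_mulP, iha, ihb, ihc, E.ev, neg_one_smul,
      sub_eq_add_neg]
  | R a b c iha ihb ihc =>
    change evK ρ (app (app (mulP (mulP (a.expand hp) (b.expand hp)) (c.expand hp))
      (smulP (-1) (mulP (a.expand hp) (mulP (b.expand hp) (c.expand hp)))))
      (app (mulP (mulP (a.expand hp) (c.expand hp)) (b.expand hp))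
      (smulP (-1) (mulP (a.expand hp) (mulP (c.expand hp) (b.expand hp)))))) = _
    simp only [evK_app, evK_smulP, evK_mulP, iha, ihb, ihc, E.ev, neg_one_smul,
      sub_eq_add_neg]
  | LL a c iha ihc =>
    change evK ρ (app (mulP (mulP (a.expand hp) (a.expand hp)) (c.expand hp))
      (smulP (-1) (mulP (a.expand hp) (mulP (a.expand hp) (c.expand hp))))) = _
    simp only [evK_app, evK_smulP, evK_mulP, iha, ihc, E.ev, neg_one_smul,
      sub_eq_add_neg]
  | RR a c iha ihc =>
    change evK ρ (app (mulP (mulP (c.expand hp) (a.expand hp)) (a.expand hp))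
      (smulP (-1) (mulP (c.expand hp) (mulP (a.expand hp) (a.expand hp))))) = _
    simp only [evK_app, evK_smulP, evK_mulP, iha, ihc, E.ev, neg_one_smul,
      sub_eq_add_neg]
  | Z k a iha =>
    change evK ρ (smulP k (a.expand hp)) = _
    rw [evK_smulP, iha, E.ev]
  | H i =>
    change evK ρ (hp i) = _
    rw [hh, E.ev]

end Sem

/-- The expression vanishes in alternative rings for an obvious reason. -/
def E.isZ : E → Bool
  | .V _ => false
  | .M a b => a.isZ || b.isZ
  | .S a b => a.isZ && b.isZ
  | .P a b => a.isZ && b.isZ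
  | .L _ _ _ => true
  | .R _ _ _ => true
  | .LL _ _ => true
  | .RR _ _ => true
  | .Z _ a => a.isZ
  | .H _ => true

theorem E.ev_eq_zero {A : Type*} [NonUnitalNonAssocRing A] (hA : IsAlt A) (ρ : ℕ → A) (e : E)
    (h : e.isZ = true) : e.ev ρ = 0 := by
  induction e with
  | V n => simp [E.isZ] at h
  | M a b iha ihb =>
    simp only [E.isZ, Bool.or_eq_true] at h
    rcases h with h | h
    · rw [E.ev, iha h, zero_mul]
    · rw [E.ev, ihb h, mul_zero]
  | S a b iha ihb =>
    simp only [E.isZ, Bool.and_eq_true] at h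
    rw [E.ev, iha h.1, ihb h.2, sub_zero]
  | P a b iha ihb =>
    simp only [E.isZ, Bool.and_eq_true] at h
    rw [E.ev, iha h.1, ihb h.2, add_zero]
  | L a b c _ _ _ =>
    have := hA.lin_left (a.ev ρ) (b.ev ρ) (c.ev ρ)
    rw [E.ev, sub_add_sub_comm, this, sub_self]
  | R a b c _ _ _ =>
    have := hA.lin_right (b.ev ρ) (c.ev ρ) (a.ev ρ)
    rw [E.ev, sub_add_sub_comm, this, sub_self]
  | LL a c _ _ => rw [E.ev, (hA _ _).1, sub_self]
  | RR a c _ _ => rw [E.ev, (hA _ _).2, sub_self]
  | Z k a iha =>
    simp only [E.isZ] at h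
    rw [E.ev, iha h, smul_zero]
  | H i => rfl

/-- Auxiliary function for merging. -/
noncomputable def mergeAux (x : KT) (f : List KT → List KT) (ys : List KT) : List KT :=
  @List.rec KT (fun _ => List KT) (x :: f [])
    (fun y ys ih => @Bool.rec (fun _ => List KT) (y :: ih) (x :: f (y :: ys)) (Nat.ble x.k y.k)) ys

theorem mergeAux_nil (x : KT) (f : List KT → List KT) : mergeAux x f [] = x :: f [] := rfl
theorem mergeAux_cons (x y : KT) (f : List KT → List KT) (ys : List KT) :
    mergeAux x f (y :: ys) =
      bif Nat.ble x.k y.k then x :: f (y :: ys) else y :: mergeAux x f ys := by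
  change @Bool.rec (fun _ => List KT) (y :: mergeAux x f ys) (x :: f (y :: ys))
    (Nat.ble x.k y.k) = _
  cases Nat.ble x.k y.k <;> rfl

/-- Merging of sorted lists. -/
noncomputable def merge (xs : List KT) : List KT → List KT :=
  @List.rec KT (fun _ => List KT → List KT) (fun ys => ys) (fun x _ ih => mergeAux x ih) xs

theorem merge_nil (ys : List KT) : merge [] ys = ys := rfl
theorem merge_cons (x : KT) (xs ys : List KT) :
    merge (x :: xs) ys = mergeAux x (merge xs) ys := rfl

theorem evK_mergeAux {A : Type*} [NonUnitalNonAssocRing A] (ρ : ℕ → A) (x : KT)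
    (f : List KT → List KT) (a : A) (hf : ∀ ys, evK ρ (f ys) = a + evK ρ ys) (ys : List KT) :
    evK ρ (mergeAux x f ys) = x.c • x.t.ev ρ + a + evK ρ ys := by
  induction ys with
  | nil =>
    have h : evK ρ (f []) = a + evK ρ [] := hf []
    rw [mergeAux_nil]
    change x.c • x.t.ev ρ + evK ρ (f []) = _
    rw [h, add_assoc]
  | cons y ys ih =>
    rw [mergeAux_cons]
    cases Nat.ble x.k y.k with
    | true => rw [cond_true, evK, hf, add_assoc]
    | false => rw [cond_false, evK, ih, evK]; abel

theorem evK_merge {A : Type*} [NonUnitalNonAssocRing A] (ρ : ℕ → A) (xs ys : List KT) :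
    evK ρ (merge xs ys) = evK ρ xs + evK ρ ys := by
  induction xs generalizing ys with
  | nil => rw [merge_nil, evK, zero_add]
  | cons x xs ih => rw [merge_cons, evK_mergeAux ρ x (merge xs) (evK ρ xs) ih, evK]

/-- Sum of the values of lists. -/
def evKK {A : Type*} [NonUnitalNonAssocRing A] (ρ : ℕ → A) : List (List KT) → A
  | [] => 0
  | x :: l => evK ρ x + evKK ρ l

/-- Merge neighbouring lists. -/
noncomputable def mergePairs : List (List KT) → List (List KT)
  | [] => []
  | [x] => [x]
  | x :: y :: l => merge x y :: mergePairs l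

theorem evKK_mergePairs {A : Type*} [NonUnitalNonAssocRing A] (ρ : ℕ → A) :
    ∀ l : List (List KT), evKK ρ (mergePairs l) = evKK ρ l
  | [] => rfl
  | [x] => rfl
  | x :: y :: l => by
    rw [mergePairs, evKK, evKK_mergePairs ρ l, evK_merge, evKK, evKK, add_assoc]

/-- Concatenation. -/
def flat : List (List KT) → List KT
  | [] => []
  | x :: l => x ++ flat l

/-- Merge all lists; the first argument is fuel. -/
noncomputable def mergeAll : ℕ → List (List KT) → List KT
  | 0, l => flat l
  | n + 1, l => match l with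
    | [] => []
    | [x] => x
    | x :: y :: l => mergeAll n (mergePairs (x :: y :: l))

theorem evK_flat {A : Type*} [NonUnitalNonAssocRing A] (ρ : ℕ → A) (l : List (List KT)) :
    evK ρ (flat l) = evKK ρ l := by
  induction l with
  | nil => rfl
  | cons x l ih => rw [flat, evK_append, ih, evKK]

theorem evK_mergeAll {A : Type*} [NonUnitalNonAssocRing A] (ρ : ℕ → A) (n : ℕ) :
    ∀ l : List (List KT), evK ρ (mergeAll n l) = evKK ρ l := by
  induction n with
  | zero => intro l; exact evK_flat ρ l
  | succ n ih =>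
    intro l
    match l with
    | [] => rfl
    | [x] => simp [mergeAll, evKK]
    | x :: y :: l =>
      have h := ih (mergePairs (x :: y :: l))
      rw [evKK_mergePairs] at h
      exact h

/-- Singletons. -/
def single : List KT → List (List KT)
  | [] => []
  | x :: l => [x] :: single l

theorem evKK_single {A : Type*} [NonUnitalNonAssocRing A] (ρ : ℕ → A) (l : List KT) :
    evKK ρ (single l) = evK ρ l := by
  induction l with
  | nil => rfl
  | cons x l ih => rw [single, evKK, ih, evK, evK, evK, add_zero]

/-- The identity function (its unfolding keeps the recursion depth of the kernel low). -/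
def tick (b : Bool) : Bool := b

/-- Check that the coefficients of equal neighbouring terms add up to multiples of `n`;
`t`, `c` is the current term. -/
noncomputable def allZ (n : ℕ) (k : ℕ) (t : Tr) (c : ℤ) (l : List KT) : Bool :=
  @List.rec KT (fun _ => ℕ → Tr → ℤ → Bool)
    (fun _ _ c => Nat.beq (c.natAbs % n) 0)
    (fun x _ ih k t c => @Bool.rec (fun _ => Bool)
      (@Bool.rec (fun _ => Bool) false (tick (ih x.k x.t x.c)) (Nat.beq (c.natAbs % n) 0))
      (tick (ih k t (c + x.c)))
      (@Bool.rec (fun _ => Bool) false (Tr.beq t x.t) (Nat.beq k x.k))) l k t c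

theorem allZ_nil (n : ℕ) (k : ℕ) (t : Tr) (c : ℤ) :
    allZ n k t c [] = Nat.beq (c.natAbs % n) 0 := rfl
theorem allZ_cons (n : ℕ) (k : ℕ) (t : Tr) (c : ℤ) (x : KT) (l : List KT) :
    allZ n k t c (x :: l) = bif Nat.beq k x.k && Tr.beq t x.t then allZ n k t (c + x.c) l
    else Nat.beq (c.natAbs % n) 0 && allZ n x.k x.t x.c l := by
  change @Bool.rec (fun _ => Bool)
      (@Bool.rec (fun _ => Bool) false (allZ n x.k x.t x.c l) (Nat.beq (c.natAbs % n) 0))
      (allZ n k t (c + x.c) l)
      (@Bool.rec (fun _ => Bool) false (Tr.beq t x.t) (Nat.beq k x.k)) = _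
  cases Nat.beq k x.k <;> cases Tr.beq t x.t <;> cases Nat.beq (c.natAbs % n) 0 <;> rfl

theorem smul_eq_zero_of_mod {A : Type*} [NonUnitalNonAssocRing A] (n : ℕ)
    (hn : ∀ a : A, n • a = 0) (c : ℤ) (a : A) (h : Nat.beq (c.natAbs % n) 0 = true) :
    c • a = 0 := by
  have h1 : (n : ℤ) ∣ c :=
    Int.natCast_dvd.2 (Nat.dvd_of_mod_eq_zero (Nat.eq_of_beq_eq_true h))
  obtain ⟨d, hd⟩ := h1
  rw [hd, mul_comm, mul_smul]
  simp [hn]

theorem evK_allZ {A : Type*} [NonUnitalNonAssocRing A] (ρ : ℕ → A) (n : ℕ)
    (hn : ∀ a : A, n • a = 0) (k : ℕ) (t : Tr) (c : ℤ) (l : List KT)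
    (h : allZ n k t c l = true) : c • t.ev ρ + evK ρ l = 0 := by
  induction l generalizing k t c with
  | nil =>
    rw [evK, add_zero]
    exact smul_eq_zero_of_mod n hn c _ h
  | cons x l ih =>
    rw [allZ_cons] at h
    cases h2 : Nat.beq k x.k && Tr.beq t x.t with
    | true =>
      rw [h2, cond_true] at h
      rw [Bool.and_eq_true] at h2
      have := ih k t (c + x.c) h
      rw [evK, ← this, Tr.eq_of_beq h2.2, add_smul, add_assoc]
    | false =>
      rw [h2, cond_false, Bool.and_eq_true] at h
      rw [evK, smul_eq_zero_of_mod n hn c _ h.1, zero_add]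
      exact ih x.k x.t x.c h.2

/-- Sort and check that everything cancels. -/
noncomputable def cancels (n : ℕ) (l : List KT) : Bool :=
  allZ n 0 (.v 0) 0 (mergeAll 64 (single l))

theorem evK_of_cancels {A : Type*} [NonUnitalNonAssocRing A] (ρ : ℕ → A) (n : ℕ)
    (hn : ∀ a : A, n • a = 0) (l : List KT) (h : cancels n l = true) : evK ρ l = 0 := by
  have := evK_allZ ρ n hn _ _ _ _ h
  rw [zero_smul, zero_add, evK_mergeAll, evKK_single] at this
  exact this

/-- The certificate as a polynomial. -/
noncomputable def certPoly (hp : ℕ → List KT) (l : List (ℤ × E)) : List KT :=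
  @List.rec (ℤ × E) (fun _ => List KT) []
    (fun x _ ih => app (smulP x.1 (x.2.expand hp)) ih) l

theorem certPoly_cons (hp : ℕ → List KT) (x : ℤ × E) (l : List (ℤ × E)) :
    certPoly hp (x :: l) = app (smulP x.1 (x.2.expand hp)) (certPoly hp l) := rfl

/-- All items of the certificate vanish for an obvious reason. -/
def certOk : List (ℤ × E) → Bool
  | [] => true
  | x :: l => x.2.isZ && certOk l

theorem ev_certPoly {A : Type*} [NonUnitalNonAssocRing A] (hA : IsAlt A) (ρ : ℕ → A)
    (hp : ℕ → List KT) (hh : ∀ i, evK ρ (hp i) = 0)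
    (l : List (ℤ × E)) (h : certOk l = true) : evK ρ (certPoly hp l) = 0 := by
  induction l with
  | nil => rfl
  | cons x l ih =>
    simp only [certOk, Bool.and_eq_true] at h
    rw [certPoly_cons, evK_app, evK_smulP, evK_expand ρ hp hh, E.ev_eq_zero hA ρ x.2 h.1, smul_zero,
      ih h.2, add_zero]

/-- Expansions of a list of hypotheses. -/
noncomputable def hypExp : List E → ℕ → List KT
  | [], _ => []
  | h :: _, 0 => h.expand (fun _ => [])
  | _ :: l, i + 1 => hypExp l i

/-- All hypotheses hold. -/
def HypsOK {A : Type*} [NonUnitalNonAssocRing A] (ρ : ℕ → A) : List E → Prop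
  | [] => True
  | h :: l => h.ev ρ = 0 ∧ HypsOK ρ l

theorem ev_hypExp {A : Type*} [NonUnitalNonAssocRing A] (ρ : ℕ → A) (l : List E)
    (h : HypsOK ρ l) (i : ℕ) : evK ρ (hypExp l i) = 0 := by
  induction l generalizing i with
  | nil => rfl
  | cons x l ih =>
    cases i with
    | zero =>
      rw [hypExp, evK_expand ρ (fun _ => []) (fun _ => rfl)]
      exact h.1
    | succ i => exact ih h.2 i

/-- The checker: `e` is the sum of the items of the certificate, modulo `n`. -/
noncomputable def check (n : ℕ) (hyps : List E) (e : E) (cert : List (ℤ × E)) : Bool :=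
  certOk cert && cancels n (app (smulP (-1) (e.expand (hypExp hyps)))
    (certPoly (hypExp hyps) cert))

/-- **Soundness of the checker.** -/
theorem eq_zero_of_check {A : Type*} [NonUnitalNonAssocRing A] (n : ℕ) (hyps : List E) (e : E)
    (cert : List (ℤ × E)) (h : check n hyps e cert = true)
    (hA : IsAlt A ∧ ∀ a : A, n • a = 0) (ρ : ℕ → A) (hh : HypsOK ρ hyps) :
    e.ev ρ = 0 := by
  simp only [check, Bool.and_eq_true] at h
  have h1 := evK_of_cancels ρ n hA.2 _ h.2
  rw [evK_app, ev_certPoly hA.1 ρ _ (ev_hypExp ρ hyps hh) _ h.1, evK_smulP,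
    evK_expand ρ _ (ev_hypExp ρ hyps hh)] at h1
  simpa using h1

end Cert

/-- The associator. -/
def asr {A : Type*} [NonUnitalNonAssocRing A] (a b c : A) : A := (a * b) * c - a * (b * c)

/-- The commutator. -/
def com {A : Type*} [NonUnitalNonAssocRing A] (a b : A) : A := a * b - b * a

/-- The Jordan product (without the factor one half). -/
def jor {A : Type*} [NonUnitalNonAssocRing A] (a b : A) : A := a * b + b * a

/-- Evaluation of the first variables. -/
def env {A : Type*} [NonUnitalNonAssocRing A] : List A → ℕ → A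
  | [], _ => 0
  | a :: _, 0 => a
  | _ :: l, i + 1 => env l i

end MP6489b8
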