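import Mathlib
import Pool.Agent.Lib.MP_6489b8_al.Cert

/-!
# Identities for commuting elements, by certificates
-/

namespace MP6489b8

open Cert.E

theorem cert_3asr {A : Type*} [NonUnitalNonAssocRing A] (hA : IsAlt A) (k u v : A)
    (h0 : (com k u) = 0)
    (h1 : (com k v) = 0)
    (h2 : (com k (u * v)) = 0)
    (h3 : (com k (v * u)) = 0) :
    ((3 : ℤ) • (asr k u v)) = 0 :=
  Cert.eq_zero_of_check 0 [(S (M (V 0) (V 1)) (M (V 1) (V 0))), (S (M (V 0) (V 2)) (M (V 2) (V 0))), (S (M (V 0) (M (V 1) (V 2))) (M (M (V 1) (V 2)) (V 0))), (S (M (V 0) (M (V 2) (V 1))) (M (M (V 2) (V 1)) (V 0)))]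
    (Z 3 (S (M (M (V 0) (V 1)) (V 2)) (M (V 0) (M (V 1) (V 2)))))
    [(-1, (H 2)),
     (1, (M (V 1) (H 1))),
     (1, (M (H 0) (V 2))),
     (2, (L (V 0) (V 1) (V 2))),
     (-1, (R (V 1) (V 0) (V 2)))]
    (by decide +kernel) ⟨hA, fun a => zero_smul _ a⟩ (env [k, u, v]) ⟨h0, h1, h2, h3, trivial⟩

theorem cert_fk {A : Type*} [NonUnitalNonAssocRing A] (hA : IsAlt A) (k u v w : A)
    (h0 : (com k u) = 0)
    (h1 : (com k v) = 0)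
    (h2 : (com k w) = 0)
    (h3 : (com k (u * v)) = 0)
    (h4 : (com k (u * w)) = 0)
    (h5 : (com k (v * u)) = 0)
    (h6 : (com k (v * w)) = 0)
    (h7 : (com k (w * u)) = 0)
    (h8 : (com k (w * v)) = 0)
    (h9 : (com k ((u * v) * w)) = 0)
    (h10 : (com k (u * (v * w))) = 0)
    (h11 : (com k ((u * w) * v)) = 0)
    (h12 : (com k (u * (w * v))) = 0)
    (h13 : (com k ((v * u) * w)) = 0)
    (h14 : (com k (v * (u * w))) = 0)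
    (h15 : (com k ((v * w) * u)) = 0)
    (h16 : (com k (v * (w * u))) = 0)
    (h17 : (com k ((w * u) * v)) = 0)
    (h18 : (com k (w * (u * v))) = 0)
    (h19 : (com k ((w * v) * u)) = 0)
    (h20 : (com k (w * (v * u))) = 0) :
    ((asr k u (com v w)) + (asr k v (com u w))) = 0 :=
  Cert.eq_zero_of_check 0 [(S (M (V 0) (V 1)) (M (V 1) (V 0))), (S (M (V 0) (V 2)) (M (V 2) (V 0))), (S (M (V 0) (V 3)) (M (V 3) (V 0))), (S (M (V 0) (M (V 1) (V 2))) (M (M (V 1) (V 2)) (V 0))), (S (M (V 0) (M (V 1) (V 3))) (M (M (V 1) (V 3)) (V 0))), (S (M (V 0) (M (V 2) (V 1))) (M (M (V 2) (V 1)) (V 0))), (S (M (V 0) (M (V 2) (V 3))) (M (M (V 2) (V 3)) (V 0))), (S (M (V 0) (M (V 3) (V 1))) (M (M (V 3) (V 1)) (V 0))), (S (M (V 0) (M (V 3) (V 2))) (M (M (V 3) (V 2)) (V 0))), (S (M (V 0) (M (M (V 1) (V 2)) (V 3))) (M (M (M (V 1) (V 2)) (V 3)) (V 0))), (S (M (V 0)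 (M (V 1) (M (V 2) (V 3)))) (M (M (V 1) (M (V 2) (V 3))) (V 0))), (S (M (V 0) (M (M (V 1) (V 3)) (V 2))) (M (M (M (V 1) (V 3)) (V 2)) (V 0))), (S (M (V 0) (M (V 1) (M (V 3) (V 2)))) (M (M (V 1) (M (V 3) (V 2))) (V 0))), (S (M (V 0) (M (M (V 2) (V 1)) (V 3))) (M (M (M (V 2) (V 1)) (V 3)) (V 0))), (S (M (V 0) (M (V 2) (M (V 1) (V 3)))) (M (M (V 2) (M (V 1) (V 3))) (V 0))), (S (M (V 0) (M (M (V 2) (V 3)) (V 1))) (M (M (M (V 2) (V 3)) (V 1)) (V 0))), (S (M (V 0) (M (V 2) (M (V 3) (V 1)))) (M (M (V 2) (M (V 3) (V 1))) (V 0))), (S (M (V 0) (M (M (V 3) (V 1)) (V 2))) (M (M (M (V 3) (V 1)) (V 2)) (V 0))), (S (M (V 0) (M (V 3) (M (V 1) (V 2)))) (M (M (V 3) (M (V 1) (V 2))) (V 0))), (S (M (V 0) (M (M (V 3) (V 2)) (V 1))) (M (M (M (V 3) (V 2)) (V 1)) (V 0))), (S (M (V 0) (M (V 3) (M (V 2) (V 1)))) (M (M (V 3) (M (V 2) (V 1))) (V 0)))]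
    (P (S (M (M (V 0) (V 1)) (S (M (V 2) (V 3)) (M (V 3) (V 2)))) (M (V 0) (M (V 1) (S (M (V 2) (V 3)) (M (V 3) (V 2)))))) (S (M (M (V 0) (V 2)) (S (M (V 1) (V 3)) (M (V 3) (V 1)))) (M (V 0) (M (V 2) (S (M (V 1) (V 3)) (M (V 3) (V 1)))))))
    [(-1, (H 13)),
     (1, (H 14)),
     (-1, (H 15)),
     (1, (H 16)),
     (1, (M (V 3) (M (H 1) (V 1)))),
     (-1, (M (V 1) (L (V 0) (V 2) (V 3)))),
     (-1, (M (R (V 2) (V 1) (V 3)) (V 0))),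
     (2, (M (V 0) (L (V 1) (V 2) (V 3)))),
     (-1, (M (V 0) (R (V 3) (V 1) (V 2)))),
     (1, (M (V 0) (L (V 1) (V 3) (V 2)))),
     (-1, (M (V 0) (R (V 1) (V 2) (V 3)))),
     (-1, (M (M (V 3) (H 1)) (V 1))),
     (-1, (M (R (V 0) (V 2) (V 3)) (V 1))),
     (1, (M (H 0) (M (V 2) (V 3)))),
     (-1, (M (M (H 0) (V 2)) (V 3))),
     (-1, (M (R (V 1) (V 0) (V 2)) (V 3))),
     (1, (M (R (V 0) (V 1) (V 2)) (V 3))),
     (-1, (R (V 3) (V 1) (M (V 2) (V 0)))),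
     (-1, (L (V 1) (M (V 0) (V 2)) (V 3))),
     (1, (L (V 0) (M (V 1) (V 2)) (V 3))),
     (-1, (R (V 2) (V 1) (M (V 0) (V 3)))),
     (1, (L (V 0) (V 1) (M (V 2) (V 3)))),
     (-1, (R (V 1) (V 3) (M (V 2) (V 0)))),
     (1, (L (V 3) (M (V 0) (V 2)) (V 1))),
     (1, (L (V 2) (M (V 0) (V 3)) (V 1))),
     (1, (R (V 0) (V 3) (M (V 2) (V 1)))),
     (-1, (R (V 0) (V 1) (M (V 3) (V 2)))),
     (-1, (R (V 0) (V 1) (M (V 2) (V 3)))),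
     (1, (L (V 1) (V 2) (M (V 0) (V 3)))),
     (1, (L (V 1) (V 3) (M (V 2) (V 0))))]
    (by decide +kernel) ⟨hA, fun a => zero_smul _ a⟩ (env [k, u, v, w]) ⟨h0, h1, h2, h3, h4, h5, h6, h7, h8, h9, h10, h11, h12, h13, h14, h15, h16, h17, h18, h19, h20, trivial⟩

end MP6489b8
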