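import Mathlib
import Pool.Agent.Lib.MP_6489b8_al.Poly

/-!
# Alternating derivations and the separation mechanism
-/

namespace MP6489b8

universe u v w

open Function

/-- `T` is additive, alternating and a derivation in its `r` arguments, and commutes with
the centroid. -/
structure IsAltDer {A : Type u} [NonUnitalNonAssocRing A] (r : ℕ) (T : (Fin r → A) → A) :
    Prop where
  add : ∀ (x : Fin r → A) (i : Fin r) (a b : A),
    T (update x i (a + b)) = T (update x i a) + T (update x i b)
  mul : ∀ (x : Fin r → A) (i : Fin r) (a b : A),
    T (update x i (a * b)) = T (update x i a) * b + a * T (update x i b)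
  centr : ∀ (S : Centr A) (x : Fin r → A) (i : Fin r) (a : A),
    T (update x i (S.f a)) = S.f (T (update x i a))
  alt : ∀ (x : Fin r → A) (i j : Fin r), i ≠ j → x i = x j → T x = 0

namespace IsAltDer

variable {A : Type u} [NonUnitalNonAssocRing A] {r : ℕ} {T : (Fin r → A) → A}

/-- The associated alternating map over the integers. -/
def toAlt (h : IsAltDer r T) : AlternatingMap ℤ A A (Fin r) where
  toFun := T
  map_update_add' := by
    intro inst x i a b
    have : inst = instDecidableEqFin r := Subsingleton.elim _ _
    subst this
    exact h.add x i a b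
  map_update_smul' := by
    intro inst x i c a
    have : inst = instDecidableEqFin r := Subsingleton.elim _ _
    subst this
    let f : A →+ A := AddMonoidHom.mk' (fun a => T (update x i a)) (h.add x i)
    exact map_zsmul f c a
  map_eq_zero_of_eq' x i j hx hij := h.alt x i j hij hx

@[simp] theorem toAlt_apply (h : IsAltDer r T) (x : Fin r → A) : h.toAlt x = T x := rfl

theorem zero (h : IsAltDer r T) (x : Fin r → A) (i : Fin r) : T (update x i 0) = 0 := by
  have := h.add x i 0 0
  rw [add_zero] at this
  exact left_eq_add.1 this

end IsAltDer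

/-- The elements generated by `g` (by sums, products and centroid maps). -/
inductive Gen {A : Type u} [NonUnitalNonAssocRing A] {ι : Type*} (g : ι → A) : A → Prop
  | of (i : ι) : Gen g (g i)
  | zero : Gen g 0
  | add {a b : A} : Gen g a → Gen g b → Gen g (a + b)
  | mul {a b : A} : Gen g a → Gen g b → Gen g (a * b)
  | centr (S : Centr A) {a : A} : Gen g a → Gen g (S.f a)

section

variable {A : Type u} [NonUnitalNonAssocRing A] {r : ℕ} {T : (Fin r → A) → A}

/-- An alternating derivation vanishes as soon as it vanishes on the generators. -/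
theorem IsAltDer.eq_zero_of_gen (h : IsAltDer r T) (g : Fin r → A) (hg : ∀ a : A, Gen g a)
    (h0 : T g = 0) (x : Fin r → A) : T x = 0 := by
  have h1 : ∀ σ : Fin r → Fin r, T (g ∘ σ) = 0 := by
    intro σ
    by_cases hσ : Injective σ
    · have hb : Bijective σ := Finite.injective_iff_bijective.1 hσ
      have := h.toAlt.map_perm g (Equiv.ofBijective σ hb)
      have e : (g ∘ (Equiv.ofBijective σ hb)) = g ∘ σ := rfl
      have e2 : (fun i => g ((Equiv.ofBijective σ hb) i)) = g ∘ σ := rfl
      simp only [toAlt_apply] at this
      rw [h0, smul_zero] at this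
      exact this
    · unfold Injective at hσ
      push Not at hσ
      obtain ⟨i, j, hij, hne⟩ := hσ
      exact h.alt _ i j hne (by simp [hij])
  have h2 : ∀ s : Finset (Fin r), ∀ x : Fin r → A, (∀ i ∉ s, ∃ j, x i = g j) → T x = 0 := by
    intro s
    induction s using Finset.induction_on with
    | empty =>
      intro x hx
      choose σ hσ using fun i => hx i (Finset.notMem_empty i)
      have : x = g ∘ σ := funext hσ
      rw [this]
      exact h1 σ
    | insert i s hi ih =>
      intro x hx
      have key : ∀ a : A, Gen g a → T (update x i a) = 0 := by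
        intro a ha
        induction ha with
        | of j =>
          apply ih
          intro k hk
          by_cases hki : k = i
          · subst hki; exact ⟨j, by simp⟩
          · obtain ⟨l, hl⟩ := hx k (by simp [hki, hk])
            exact ⟨l, by rw [update_of_ne hki, hl]⟩
        | zero => exact h.zero x i
        | add _ _ ha hb => rw [h.add, ha, hb, add_zero]
        | mul _ _ ha hb => rw [h.mul, ha, hb, zero_mul, mul_zero, add_zero]
        | centr S _ ha => rw [h.centr, ha, map_zero]
      have := key (x i) (hg _)
      rwa [update_eq_self] at this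
  exact h2 Finset.univ x (fun i hi => absurd (Finset.mem_univ i) hi)

end

/-- Alternative rings of additive exponent dividing `n` (no condition if `n = 0`). -/
def IsAltN (n : ℕ) (A : Type*) [NonUnitalNonAssocRing A] : Prop :=
  IsAlt A ∧ ∀ a : A, n • a = 0

theorem IsAltN.pol {n : ℕ} {A : Type u} [NonUnitalNonAssocRing A] (h : IsAltN n A) :
    IsAltN n (Pol A) := by
  refine ⟨Pol.isAlt h.1, fun f => ?_⟩
  apply Pol.ext
  intro k
  rw [map_nsmul, map_zero, h.2]

/-- A function `T`, defined for all nonassociative rings and natural for homomorphisms, which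
in the alternative rings of exponent `n` is an alternating derivation in its first `r` arguments,
and vanishes as soon as one of these arguments is equal to the last one. -/
structure Good (n r : ℕ) (T : ∀ (B : Type u) [NonUnitalNonAssocRing B], (Fin r → B) → B → B) :
    Prop where
  nat : ∀ (B C : Type u) [NonUnitalNonAssocRing B] [NonUnitalNonAssocRing C] (φ : B →ₙ+* C)
    (x : Fin r → B) (y : B), φ (T B x y) = T C (fun i => φ (x i)) (φ y)
  der : ∀ (B : Type u) [NonUnitalNonAssocRing B], IsAltN n B → ∀ y : B,
    IsAltDer r (fun x => T B x y)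
  self : ∀ (B : Type u) [NonUnitalNonAssocRing B], IsAltN n B → ∀ (x : Fin r → B) (i : Fin r),
    T B x (x i) = 0

section Mech

variable {n r : ℕ} {T : ∀ (B : Type u) [NonUnitalNonAssocRing B], (Fin r → B) → B → B}

/-- The mechanism: a good function of order `r` vanishes in every ring generated by `r`
elements. -/
theorem Good.vanish (hT : Good n r T) (hr : 0 < r) {A : Type u} [NonUnitalNonAssocRing A]
    (hA : IsAltN n A) (g : Fin r → A) (hg : ∀ a : A, Gen g a) (x : Fin r → A) (y : A) :
    T A x y = 0 := by
  refine (hT.der A hA y).eq_zero_of_gen g hg ?_ x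
  let i0 : Fin r := ⟨0, hr⟩
  let G : Fin r → Pol A := fun i => Pol.mono 0 (g i)
  let Y : Pol A := Pol.mono 1 (g i0) + Pol.mono 0 y
  let c : Pol A := T (Pol A) G Y
  have hP : IsAltN n (Pol A) := hA.pol
  have hd := hT.der (Pol A) hP Y
  -- the constant coefficient
  have hc0 : Pol.coeff 0 c = T A g y := by
    have := hT.nat (Pol A) A Pol.const G Y
    rw [Pol.const_apply] at this
    rw [this]
    have e1 : (fun i => Pol.const (G i)) = g := by
      funext i; simp [G, Pol.coeff_mono]
    have e2 : Pol.const Y = y := by
      simp [Y, Pol.coeff_mono]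
    rw [e1, e2]
  -- the relation
  have hE : Centr.shift.f c + T (Pol A) (update G i0 (Pol.mono 0 y)) Y = 0 := by
    have h1 := hT.self (Pol A) hP (update G i0 Y) i0
    rw [update_self] at h1
    have h2 := hd.add G i0 (Pol.mono 1 (g i0)) (Pol.mono 0 y)
    rw [show Pol.mono 1 (g i0) + Pol.mono 0 y = Y from rfl, h1] at h2
    have h3 := hd.centr Centr.shift G i0 (Pol.mono 0 (g i0))
    simp only [Centr.shift_mono] at h3
    rw [zero_add] at h3
    rw [h3] at h2
    have h4 : update G i0 (Pol.mono 0 (g i0)) = G := update_eq_self i0 G
    rw [h4] at h2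
    exact h2.symm
  have key : ∀ k : ℕ, Pol.coeff k c = 0 → ∀ a : A, Gen g a →
      Pol.coeff k (T (Pol A) (update G i0 (Pol.mono 0 a)) Y) = 0 := by
    intro k hk a ha
    induction ha with
    | of j =>
      by_cases hj : j = i0
      · have h4 : update G i0 (Pol.mono 0 (g j)) = G := by
          rw [hj]; exact update_eq_self i0 G
        rw [h4]; exact hk
      · have : T (Pol A) (update G i0 (Pol.mono 0 (g j))) Y = 0 := by
          refine hd.alt _ i0 j (Ne.symm hj) ?_
          rw [update_self, update_of_ne hj]
        rw [this, map_zero]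
    | zero => rw [map_zero]; rw [hd.zero G i0, map_zero]
    | @add a b _ _ ha hb =>
      have := hd.add G i0 (Pol.mono 0 a) (Pol.mono 0 b)
      rw [map_add, this, map_add, ha, hb, add_zero]
    | @mul a b _ _ ha hb =>
      have := hd.mul G i0 (Pol.mono 0 a) (Pol.mono 0 b)
      rw [Pol.mono_mul_mono, add_zero] at this
      rw [this, map_add, Pol.coeff_mul_mono_zero, Pol.coeff_mono_zero_mul, ha, hb, zero_mul,
        mul_zero, add_zero]
    | @centr S a _ ha =>
      have := hd.centr S.polMap G i0 (Pol.mono 0 a)
      simp only [Centr.polMap_mono] at this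
      rw [this, Centr.coeff_polMap, ha, map_zero]
  have step : ∀ k : ℕ, Pol.coeff (k + 1) c = 0 → Pol.coeff k c = 0 := by
    intro k hk
    have h1 := congrArg (Pol.coeff (k + 1)) hE
    rw [map_add, map_zero, Centr.coeff_succ_shift, key (k + 1) hk y (hg y), add_zero] at h1
    exact h1
  obtain ⟨N, hN⟩ : ∃ N : ℕ, ∀ k, N ≤ k → Pol.coeff k c = 0 := by
    refine ⟨(Finsupp.support c).sup id + 1, fun k hk => ?_⟩
    by_contra hne
    have : k ∈ Finsupp.support c := Finsupp.mem_support_iff.2 hne
    have := Finset.le_sup (f := id) this
    simp only [id] at this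
    omega
  have all : ∀ d k : ℕ, k + d = N → Pol.coeff k c = 0 := by
    intro d
    induction d with
    | zero => intro k hk; exact hN k (by omega)
    | succ d ih => intro k hk; exact step k (ih (k + 1) (by omega))
  change T A g y = 0
  rw [← hc0]
  exact all N 0 (by omega)

end Mech

end MP6489b8
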