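import Mathlib
import Pool.Agent.Lib.MP_6489b8_al.Mech

/-!
# Constructing alternating derivations
-/

namespace MP6489b8

universe u

open Function Equiv

variable {A : Type u} [NonUnitalNonAssocRing A]

theorem perm_of_adjacent {n : ℕ} {T : (Fin (n + 1) → A) → A}
    (hs : ∀ (i : Fin n) (x : Fin (n + 1) → A), T (x ∘ swap i.castSucc i.succ) = -T x)
    (σ : Perm (Fin (n + 1))) (x : Fin (n + 1) → A) : T (x ∘ σ) = (Perm.sign σ : ℤ) • T x := by
  have hσ : σ ∈ Submonoid.closure (Set.range fun i : Fin n => swap i.castSucc i.succ) := by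
    rw [Perm.mclosure_swap_castSucc_succ]; trivial
  induction hσ using Submonoid.closure_induction generalizing x with
  | mem σ hσ =>
    obtain ⟨i, rfl⟩ := hσ
    rw [hs, Perm.sign_swap (Fin.castSucc_lt_succ).ne]
    simp
  | one => simp
  | mul σ τ _ _ hσ hτ =>
    have e : x ∘ (σ * τ : Perm (Fin (n + 1))) = (x ∘ σ) ∘ τ := rfl
    rw [e, hτ, hσ, Perm.sign_mul, smul_smul, mul_comm]
    simp

theorem swap_of_adjacent {n : ℕ} {T : (Fin (n + 1) → A) → A}
    (hs : ∀ (i : Fin n) (x : Fin (n + 1) → A), T (x ∘ swap i.castSucc i.succ) = -T x)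
    {i j : Fin (n + 1)} (hij : i ≠ j) (x : Fin (n + 1) → A) : T (x ∘ swap i j) = -T x := by
  rw [perm_of_adjacent hs, Perm.sign_swap hij]; simp

omit [NonUnitalNonAssocRing A] in
theorem update_comp_swap {n : ℕ} (x : Fin (n + 1) → A) (i : Fin (n + 1)) (a : A) :
    update x i a = update (x ∘ swap 0 i) 0 a ∘ swap 0 i := by
  funext k
  rcases eq_or_ne k i with rfl | hk
  · simp
  · rcases eq_or_ne k 0 with rfl | hk0
    · rw [update_of_ne hk, comp_apply, swap_apply_left, update_of_ne hk.symm, comp_apply,
        swap_apply_right]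
    · rw [update_of_ne hk, comp_apply, swap_apply_of_ne_of_ne hk0 hk, update_of_ne hk0,
        comp_apply, swap_apply_of_ne_of_ne hk0 hk]

/-- To be an alternating derivation it is enough to change sign under adjacent transpositions,
to vanish if the first two arguments are equal, and to be a derivation in the first argument. -/
theorem IsAltDer.of_swap {n : ℕ} {T : (Fin (n + 2) → A) → A}
    (hs : ∀ (i : Fin (n + 1)) (x : Fin (n + 2) → A), T (x ∘ swap i.castSucc i.succ) = -T x)
    (h01 : ∀ x : Fin (n + 2) → A, x 0 = x 1 → T x = 0)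
    (hadd : ∀ (x : Fin (n + 2) → A) (a b : A),
      T (update x 0 (a + b)) = T (update x 0 a) + T (update x 0 b))
    (hmul : ∀ (x : Fin (n + 2) → A) (a b : A),
      T (update x 0 (a * b)) = T (update x 0 a) * b + a * T (update x 0 b))
    (hcentr : ∀ (S : Centr A) (x : Fin (n + 2) → A) (a : A),
      T (update x 0 (S.f a)) = S.f (T (update x 0 a))) :
    IsAltDer (n + 2) T := by
  have key : ∀ (x : Fin (n + 2) → A) (i : Fin (n + 2)), i ≠ 0 → ∀ a : A,
      T (update x i a) = -T (update (x ∘ swap 0 i) 0 a) := by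
    intro x i hi a
    rw [update_comp_swap x i a, swap_of_adjacent hs hi.symm]
  refine ⟨?_, ?_, ?_, ?_⟩
  · intro x i a b
    by_cases hi : i = 0
    · subst hi; exact hadd x a b
    · rw [key x i hi, key x i hi, key x i hi, hadd]; abel
  · intro x i a b
    by_cases hi : i = 0
    · subst hi; exact hmul x a b
    · rw [key x i hi, key x i hi, key x i hi, hmul, neg_mul, mul_neg]; abel
  · intro S x i a
    by_cases hi : i = 0
    · subst hi; exact hcentr S x a
    · rw [key x i hi, key x i hi, hcentr, map_neg]
  · intro x i j hij hx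
    -- move `i`, `j` to the first two places
    have h01' : (0 : Fin (n + 2)) ≠ 1 := by
      intro h
      have := congrArg Fin.val h
      simp at this
    obtain ⟨σ, h0, h1⟩ : ∃ σ : Perm (Fin (n + 2)), σ 0 = i ∧ σ 1 = j := by
      let τ := swap 0 i
      refine ⟨swap (τ 1) j * τ, ?_, ?_⟩
      · have e1 : τ 0 = i := swap_apply_left _ _
        rw [Perm.mul_apply, e1]
        apply swap_apply_of_ne_of_ne
        · intro h
          have : τ 0 = τ 1 := by rw [e1]; exact h
          exact h01' (τ.injective this)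
        · exact hij
      · rw [Perm.mul_apply, swap_apply_left]
    have h2 := perm_of_adjacent hs σ x
    have h3 : T (x ∘ σ) = 0 := h01 _ (by simp [h0, h1, hx])
    rw [h3] at h2
    rcases Int.units_eq_one_or (Perm.sign σ) with h | h
    · rw [h] at h2; simpa using h2.symm
    · rw [h] at h2; simpa using h2.symm

end MP6489b8
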