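import Mathlib
import Pool.Agent.Lib.MP_6489b8_al.Cert

/-!
# Identities of degree at most five, by certificates
-/

namespace MP6489b8

open Cert.E

theorem cert_M1 {A : Type*} [NonUnitalNonAssocRing A] (hA : IsAlt A) (u v y : A) :
    ((asr u (v * y) y) - (y * (asr u v y))) = 0 :=
  Cert.eq_zero_of_check 0 []
    (S (S (M (M (V 0) (M (V 1) (V 2))) (V 2)) (M (V 0) (M (M (V 1) (V 2)) (V 2)))) (M (V 2) (S (M (M (V 0) (V 1)) (V 2)) (M (V 0) (M (V 1) (V 2))))))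
    [(-1, (M (V 1) (LL (V 2) (V 0)))),
     (-1, (M (RR (V 2) (V 1)) (V 0))),
     (-1, (M (V 0) (RR (V 2) (V 1)))),
     (1, (M (L (V 0) (V 2) (V 1)) (V 2))),
     (-1, (M (R (V 0) (V 1) (V 2)) (V 2))),
     (1, (L (V 2) (M (V 0) (V 1)) (V 2))),
     (-1, (L (V 1) (M (V 2) (V 0)) (V 2))),
     (-1, (L (V 0) (M (V 1) (V 2)) (V 2))),
     (1, (L (V 0) (V 1) (M (V 2) (V 2)))),
     (1, (R (V 1) (V 2) (M (V 2) (V 0)))),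
     (-1, (R (V 1) (V 0) (M (V 2) (V 2)))),
     (-1, (L (V 0) (V 2) (M (V 1) (V 2)))),
     (1, (R (M (V 1) (V 2)) (V 0) (V 2))),
     (1, (R (V 0) (V 2) (M (V 1) (V 2))))]
    (by decide +kernel) ⟨hA, fun a => zero_smul _ a⟩ (env [u, v, y]) trivial

theorem cert_M2 {A : Type*} [NonUnitalNonAssocRing A] (hA : IsAlt A) (u v y : A) :
    ((asr u (y * v) y) - ((asr u v y) * y)) = 0 :=
  Cert.eq_zero_of_check 0 []
    (S (S (M (M (V 0) (M (V 2) (V 1))) (V 2)) (M (V 0) (M (M (V 2) (V 1)) (V 2)))) (M (S (M (M (V 0) (V 1)) (V 2)) (M (V 0) (M (V 1) (V 2)))) (V 2)))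
    [(1, (M (V 1) (RR (V 2) (V 0)))),
     (-1, (M (V 0) (L (V 1) (V 2) (V 2)))),
     (2, (M (V 0) (RR (V 2) (V 1)))),
     (1, (M (L (V 0) (V 1) (V 2)) (V 2))),
     (-1, (M (R (V 0) (V 1) (V 2)) (V 2))),
     (1, (L (V 1) (M (V 0) (V 2)) (V 2))),
     (-1, (L (V 0) (V 1) (M (V 2) (V 2)))),
     (1, (R (V 0) (V 2) (M (V 1) (V 2)))),
     (-1, (RR (V 2) (M (V 1) (V 0)))),
     (-1, (RR (V 2) (M (V 0) (V 1))))]
    (by decide +kernel) ⟨hA, fun a => zero_smul _ a⟩ (env [u, v, y]) trivial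

theorem cert_R_mul {A : Type*} [NonUnitalNonAssocRing A] (hA : IsAlt A) (u v c y : A) :
    ((((asr (u * v) c y) - (u * (asr v c y))) - ((asr u c y) * v)) + (asr (com c y) u v)) = 0 :=
  Cert.eq_zero_of_check 0 []
    (P (S (S (S (M (M (M (V 0) (V 1)) (V 2)) (V 3)) (M (M (V 0) (V 1)) (M (V 2) (V 3)))) (M (V 0) (S (M (M (V 1) (V 2)) (V 3)) (M (V 1) (M (V 2) (V 3)))))) (M (S (M (M (V 0) (V 2)) (V 3)) (M (V 0) (M (V 2) (V 3)))) (V 1))) (S (M (M (S (M (V 2) (V 3)) (M (V 3) (V 2))) (V 0)) (V 1)) (M (S (M (V 2) (V 3)) (M (V 3) (V 2))) (M (V 0) (V 1)))))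
    [(-1, (M (V 3) (R (V 2) (V 0) (V 1)))),
     (-1, (M (V 2) (R (V 3) (V 0) (V 1)))),
     (1, (M (V 2) (L (V 0) (V 3) (V 1)))),
     (-1, (M (L (V 2) (V 3) (V 1)) (V 0))),
     (-1, (M (V 0) (L (V 1) (V 2) (V 3)))),
     (1, (M (V 0) (R (V 2) (V 1) (V 3)))),
     (-1, (M (V 0) (L (V 2) (V 3) (V 1)))),
     (1, (M (R (V 2) (V 0) (V 3)) (V 1))),
     (-1, (M (L (V 2) (V 3) (V 0)) (V 1))),
     (-1, (M (R (V 0) (V 2) (V 3)) (V 1))),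
     (1, (L (V 2) (M (V 0) (V 1)) (V 3))),
     (-1, (R (V 3) (V 0) (M (V 2) (V 1)))),
     (-1, (R (V 2) (V 3) (M (V 0) (V 1)))),
     (-1, (R (V 2) (V 0) (M (V 3) (V 1)))),
     (1, (R (M (V 3) (V 2)) (V 0) (V 1))),
     (1, (R (M (V 2) (V 3)) (V 0) (V 1))),
     (-1, (L (V 3) (M (V 2) (V 0)) (V 1))),
     (1, (L (V 2) (M (V 0) (V 3)) (V 1))),
     (-1, (L (V 0) (M (V 3) (V 2)) (V 1))),
     (1, (L (V 0) (V 3) (M (V 2) (V 1)))),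
     (1, (L (V 2) (V 3) (M (V 1) (V 0)))),
     (1, (L (V 2) (V 3) (M (V 0) (V 1))))]
    (by decide +kernel) ⟨hA, fun a => zero_smul _ a⟩ (env [u, v, c, y]) trivial

theorem cert_PR {A : Type*} [NonUnitalNonAssocRing A] (hA : IsAlt A) (u c y : A) :
    ((asr (asr u c y) c y) - ((com c y) * (asr u c y))) = 0 :=
  Cert.eq_zero_of_check 0 []
    (S (S (M (M (S (M (M (V 0) (V 1)) (V 2)) (M (V 0) (M (V 1) (V 2)))) (V 1)) (V 2)) (M (S (M (M (V 0) (V 1)) (V 2)) (M (V 0) (M (V 1) (V 2)))) (M (V 1) (V 2)))) (M (S (M (V 1) (V 2)) (M (V 2) (V 1))) (S (M (M (V 0) (V 1)) (V 2)) (M (V 0) (M (V 1) (V 2))))))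
    [(-8, (L (V 1) (M (V 0) (M (V 1) (V 2))) (V 2))),
     (4, (R (V 1) (V 2) (M (V 0) (M (V 1) (V 2))))),
     (1, (R (V 1) (V 2) (M (M (V 0) (V 1)) (V 2)))),
     (11, (L (V 1) (M (M (V 0) (V 1)) (V 2)) (V 2))),
     (-5, (M (M (V 2) (V 1)) (L (V 0) (V 2) (V 1)))),
     (5, (M (M (V 2) (V 1)) (R (V 0) (V 1) (V 2)))),
     (-3, (LL (M (V 2) (V 1)) (V 0))),
     (-3, (M (M (V 2) (V 1)) (R (V 2) (V 0) (V 1)))),
     (-3, (LL (M (V 1) (V 2)) (V 0))),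
     (12, (L (V 2) (M (M (V 0) (V 1)) (V 2)) (V 1))),
     (-8, (R (M (M (V 0) (V 1)) (V 2)) (V 1) (V 2))),
     (-4, (M (M (V 1) (V 2)) (L (V 0) (V 1) (V 2)))),
     (-5, (L (V 1) (V 2) (M (V 0) (M (V 1) (V 2))))),
     (-4, (R (V 2) (V 1) (M (M (V 0) (V 1)) (V 2)))),
     (-1, (M (V 2) (L (V 1) (M (V 1) (V 2)) (V 0)))),
     (-1, (M (M (V 1) (V 2)) (R (V 1) (V 0) (V 2)))),
     (3, (L (V 1) (M (V 1) (V 2)) (M (V 2) (V 0)))),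
     (-1, (L (V 2) (M (M (V 1) (V 2)) (V 1)) (V 0))),
     (-3, (M (L (V 1) (M (V 1) (V 2)) (V 2)) (V 0))),
     (-1, (M (V 2) (M (V 1) (L (V 0) (V 1) (V 2))))),
     (5, (M (V 2) (LL (V 1) (M (V 2) (V 0))))),
     (6, (M (V 1) (M (V 2) (R (V 0) (V 1) (V 2))))),
     (4, (M (V 1) (M (V 2) (L (V 0) (V 2) (V 1))))),
     (3, (L (V 2) (M (V 2) (V 1)) (M (V 1) (V 0)))),
     (3, (M (V 1) (M (V 2) (R (V 2) (V 0) (V 1))))),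
     (3, (M (V 1) (L (V 2) (M (V 2) (V 1)) (V 0)))),
     (-3, (M (L (V 2) (M (V 2) (V 1)) (V 1)) (V 0))),
     (3, (L (V 1) (M (M (V 2) (V 1)) (V 2)) (V 0))),
     (3, (L (V 1) (M (V 2) (M (V 2) (V 1))) (V 0))),
     (-3, (M (M (V 1) (L (V 1) (V 2) (V 2))) (V 0))),
     (3, (M (V 1) (L (V 1) (V 2) (M (V 2) (V 0))))),
     (6, (M (V 1) (M (V 2) (L (V 0) (V 1) (V 2))))),
     (11, (L (V 2) (M (V 1) (M (V 1) (V 2))) (V 0))),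
     (-1, (M (V 2) (L (V 1) (V 2) (M (V 1) (V 0))))),
     (-5, (M (V 1) (M (V 2) (R (V 1) (V 0) (V 2))))),
     (1, (M (M (V 2) (L (V 1) (V 2) (V 1))) (V 0))),
     (4, (M (V 2) (M (V 2) (LL (V 1) (V 0))))),
     (-1, (M (LL (V 1) (V 2)) (M (V 2) (V 0)))),
     (5, (LL (V 1) (M (V 2) (M (V 2) (V 0))))),
     (2, (L (V 1) (M (V 2) (M (V 1) (V 2))) (V 0))),
     (1, (M (L (V 2) (M (V 1) (V 1)) (V 2)) (V 0))),
     (-1, (M (M (LL (V 1) (V 2)) (V 2)) (V 0))),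
     (-3, (M (V 1) (LL (V 2) (M (V 1) (V 0))))),
     (3, (M (M (V 1) (LL (V 2) (V 1))) (V 0))),
     (-4, (L (V 2) (M (M (V 2) (V 1)) (V 1)) (V 0))),
     (-8, (M (V 1) (L (V 1) (M (V 2) (V 2)) (V 0)))),
     (-3, (L (V 1) (M (V 2) (V 2)) (M (V 1) (V 0)))),
     (-8, (M (V 1) (M (V 1) (LL (V 2) (V 0))))),
     (1, (M (V 2) (M (V 1) (R (V 2) (V 0) (V 1))))),
     (-4, (M (V 2) (L (V 1) (M (V 2) (V 1)) (V 0)))),
     (-2, (L (V 1) (V 2) (M (M (V 1) (V 2)) (V 0)))),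
     (-2, (M (V 2) (M (V 1) (R (V 0) (V 1) (V 2))))),
     (3, (M (L (V 1) (M (V 2) (V 2)) (V 1)) (V 0))),
     (2, (M (V 2) (M (V 1) (L (V 0) (V 2) (V 1))))),
     (5, (LL (V 2) (M (V 1) (M (V 1) (V 0))))),
     (-1, (M (R (V 2) (V 2) (M (V 1) (V 1))) (V 0))),
     (-2, (M (M (V 1) (RR (V 2) (V 1))) (V 0))),
     (-3, (L (V 1) (M (M (V 2) (V 2)) (V 1)) (V 0))),
     (1, (L (V 2) (M (V 1) (M (V 2) (V 1))) (V 0))),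
     (2, (M (L (V 1) (V 2) (M (V 1) (V 2))) (V 0))),
     (-2, (M (R (V 1) (V 2) (M (V 1) (V 2))) (V 0))),
     (1, (M (L (V 1) (M (V 1) (V 2)) (V 0)) (V 2))),
     (-6, (M (V 1) (LL (V 2) (M (V 0) (V 1))))),
     (1, (M (V 2) (LL (V 1) (M (V 0) (V 2))))),
     (1, (L (V 1) (M (V 1) (V 2)) (M (V 0) (V 2)))),
     (-4, (M (V 1) (L (V 0) (M (V 2) (V 1)) (V 2)))),
     (4, (M (V 1) (L (V 2) (M (V 1) (V 0)) (V 2)))),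
     (-23, (RR (M (V 1) (V 2)) (V 0))),
     (4, (L (V 0) (M (V 1) (V 2)) (M (V 1) (V 2)))),
     (-8, (M (V 1) (L (V 0) (V 2) (M (V 1) (V 2))))),
     (-2, (L (M (V 1) (V 2)) (M (V 2) (V 1)) (V 0))),
     (-8, (M (M (V 2) (LL (V 1) (V 0))) (V 2))),
     (-3, (M (R (V 1) (V 1) (M (V 2) (V 2))) (V 0))),
     (4, (L (V 1) (M (M (V 1) (V 2)) (V 0)) (V 2))),
     (18, (M (R (V 1) (V 0) (M (V 1) (V 2))) (V 2))),
     (4, (M (M (V 1) (V 1)) (R (V 2) (V 0) (V 2)))),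
     (-1, (M (V 1) (R (V 2) (V 2) (M (V 0) (V 1))))),
     (13, (M (M (V 1) (L (V 0) (V 2) (V 1))) (V 2))),
     (1, (M (V 2) (R (V 1) (V 2) (M (V 0) (V 1))))),
     (3, (M (V 2) (R (M (V 0) (V 1)) (V 1) (V 2)))),
     (4, (R (M (M (V 2) (V 1)) (V 1)) (V 0) (V 2))),
     (-10, (M (V 1) (RR (V 2) (M (V 1) (V 0))))),
     (-1, (M (V 2) (L (V 1) (M (V 1) (V 0)) (V 2)))),
     (-4, (M (V 2) (L (V 1) (V 2) (M (V 0) (V 1))))),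
     (5, (M (R (V 0) (V 1) (M (V 1) (V 2))) (V 2))),
     (3, (M (L (V 1) (M (V 0) (V 2)) (V 2)) (V 1))),
     (-4, (M (L (V 2) (M (V 1) (V 1)) (V 0)) (V 2))),
     (-3, (L (M (V 0) (V 2)) (M (V 1) (V 2)) (V 1))),
     (-2, (M (M (V 1) (V 2)) (R (V 0) (V 1) (V 2)))),
     (4, (M (L (V 1) (V 2) (V 1)) (M (V 0) (V 2)))),
     (-8, (R (V 2) (V 2) (M (V 1) (M (V 1) (V 0))))),
     (-12, (M (L (V 0) (V 1) (V 2)) (M (V 1) (V 2)))),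
     (-3, (R (M (M (V 0) (V 2)) (V 1)) (V 1) (V 2))),
     (5, (L (V 2) (M (V 1) (M (V 0) (V 1))) (V 2))),
     (-4, (M (LL (V 1) (V 2)) (M (V 0) (V 2)))),
     (8, (LL (V 1) (M (V 2) (M (V 0) (V 2))))),
     (7, (M (V 1) (L (V 2) (M (V 2) (V 0)) (V 1)))),
     (-5, (M (V 2) (M (L (V 0) (V 2) (V 1)) (V 1)))),
     (3, (R (V 1) (M (V 1) (V 0)) (M (V 2) (V 2)))),
     (5, (M (V 2) (L (V 0) (V 1) (M (V 1) (V 2))))),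
     (9, (M (R (V 2) (V 0) (V 1)) (M (V 1) (V 2)))),
     (4, (L (V 2) (M (V 0) (V 1)) (M (V 2) (V 1)))),
     (12, (M (V 1) (L (V 2) (M (V 0) (V 1)) (V 2)))),
     (-4, (M (V 1) (M (V 0) (RR (V 2) (V 1))))),
     (4, (LL (V 2) (M (V 1) (M (V 0) (V 1))))),
     (-10, (L (V 2) (M (V 1) (V 2)) (M (V 0) (V 1)))),
     (-18, (M (LL (V 1) (M (V 2) (V 0))) (V 2))),
     (5, (M (V 1) (R (M (V 2) (V 2)) (V 0) (V 1)))),
     (-4, (M (V 2) (M (L (V 0) (V 1) (V 1)) (V 2)))),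
     (-8, (L (M (V 1) (V 0)) (M (V 1) (V 2)) (V 2))),
     (4, (M (LL (V 2) (V 1)) (M (V 0) (V 1)))),
     (2, (R (V 1) (V 2) (M (V 1) (M (V 2) (V 0))))),
     (-3, (M (V 1) (L (V 2) (M (V 0) (V 2)) (V 1)))),
     (-8, (R (M (V 2) (M (V 0) (V 1))) (V 1) (V 2))),
     (-7, (R (M (V 1) (M (V 1) (V 2))) (V 0) (V 2))),
     (3, (M (V 1) (M (RR (V 2) (V 0)) (V 1)))),
     (10, (R (M (V 1) (V 2)) (V 2) (M (V 0) (V 1)))),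
     (7, (M (V 2) (M (LL (V 1) (V 0)) (V 2)))),
     (2, (R (M (V 1) (V 2)) (V 0) (M (V 2) (V 1)))),
     (-1, (R (M (V 1) (M (V 2) (V 1))) (V 0) (V 2))),
     (-11, (M (V 1) (L (V 1) (V 2) (M (V 0) (V 2))))),
     (3, (M (V 2) (R (V 1) (V 0) (M (V 1) (V 2))))),
     (-3, (M (V 2) (L (V 0) (M (V 1) (V 1)) (V 2)))),
     (5, (M (V 2) (M (R (V 0) (V 1) (V 2)) (V 1)))),
     (7, (M (V 1) (M (R (V 2) (V 0) (V 2)) (V 1)))),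
     (8, (M (L (V 2) (M (V 0) (V 1)) (V 2)) (V 1))),
     (-8, (R (V 1) (V 2) (M (M (V 2) (V 0)) (V 1)))),
     (8, (L (V 1) (M (V 2) (M (V 0) (V 1))) (V 2))),
     (-4, (M (V 1) (R (V 0) (V 2) (M (V 1) (V 2))))),
     (7, (M (V 1) (R (V 0) (V 2) (M (V 2) (V 1))))),
     (4, (L (M (V 1) (V 1)) (M (V 2) (V 2)) (V 0))),
     (-10, (M (V 1) (L (V 0) (V 2) (M (V 2) (V 1))))),
     (4, (M (V 1) (M (L (V 1) (V 2) (V 0)) (V 2)))),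
     (-1, (M (M (L (V 1) (V 2) (V 1)) (V 0)) (V 2))),
     (3, (R (V 1) (V 2) (M (M (V 0) (V 2)) (V 1)))),
     (8, (L (V 2) (M (V 2) (V 1)) (M (V 0) (V 1)))),
     (-5, (M (L (V 0) (V 1) (M (V 1) (V 2))) (V 2))),
     (-11, (M (LL (V 1) (M (V 0) (V 2))) (V 2))),
     (10, (M (V 1) (R (V 2) (V 1) (M (V 0) (V 2))))),
     (1, (R (M (V 1) (V 1)) (V 2) (M (V 2) (V 0)))),
     (-2, (M (M (L (V 0) (V 1) (V 2)) (V 1)) (V 2))),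
     (3, (M (V 1) (M (V 0) (R (V 2) (V 1) (V 2))))),
     (4, (R (M (M (V 1) (V 2)) (V 1)) (V 0) (V 2))),
     (5, (M (V 0) (L (V 1) (M (V 1) (V 2)) (V 2)))),
     (12, (M (M (LL (V 1) (V 2)) (V 0)) (V 2))),
     (-12, (M (RR (V 2) (M (V 0) (V 1))) (V 1))),
     (3, (M (V 1) (M (L (V 0) (V 2) (V 1)) (V 2)))),
     (-12, (R (V 1) (M (V 0) (V 2)) (M (V 1) (V 2)))),
     (-4, (M (V 2) (M (RR (V 1) (V 0)) (V 2)))),
     (5, (L (V 2) (M (V 0) (M (V 1) (V 1))) (V 2))),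
     (-12, (R (V 2) (M (V 0) (V 1)) (M (V 2) (V 1)))),
     (4, (R (V 2) (V 2) (M (M (V 1) (V 1)) (V 0)))),
     (-9, (M (R (M (V 1) (V 2)) (V 0) (V 1)) (V 2))),
     (3, (L (M (V 0) (V 2)) (M (V 1) (V 1)) (V 2))),
     (-8, (M (R (V 2) (V 1) (V 2)) (M (V 0) (V 1)))),
     (8, (L (V 1) (V 2) (M (M (V 2) (V 0)) (V 1)))),
     (-9, (L (V 0) (M (V 2) (V 1)) (M (V 1) (V 2)))),
     (15, (M (V 1) (R (V 0) (V 1) (M (V 2) (V 2))))),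
     (-13, (M (M (V 1) (R (V 0) (V 1) (V 2))) (V 2))),
     (-8, (M (V 2) (M (V 0) (LL (V 1) (V 2))))),
     (-17, (M (V 1) (R (M (V 2) (V 0)) (V 1) (V 2)))),
     (3, (M (V 1) (M (V 1) (L (V 0) (V 2) (V 2))))),
     (-2, (M (V 2) (R (V 0) (V 1) (M (V 1) (V 2))))),
     (5, (M (R (V 1) (V 1) (M (V 2) (V 0))) (V 2))),
     (4, (L (V 2) (M (V 1) (V 1)) (M (V 0) (V 2)))),
     (5, (M (V 2) (M (V 0) (R (V 1) (V 1) (V 2))))),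
     (6, (M (V 1) (L (V 1) (M (V 2) (V 0)) (V 2)))),
     (3, (M (L (V 1) (M (V 0) (V 2)) (V 1)) (V 2))),
     (-3, (M (M (RR (V 1) (V 2)) (V 0)) (V 2))),
     (-5, (R (V 1) (V 0) (M (V 2) (M (V 1) (V 2))))),
     (-12, (M (V 1) (L (V 0) (M (V 2) (V 2)) (V 1)))),
     (-5, (L (V 2) (M (M (V 1) (V 0)) (V 1)) (V 2))),
     (-9, (M (V 0) (L (V 1) (V 2) (M (V 1) (V 2))))),
     (-3, (R (V 1) (V 2) (M (M (V 1) (V 0)) (V 2)))),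
     (-2, (M (R (M (V 1) (V 2)) (V 0) (V 2)) (V 1))),
     (-5, (M (R (V 1) (V 2) (M (V 0) (V 1))) (V 2))),
     (5, (M (M (V 2) (L (V 0) (V 1) (V 1))) (V 2))),
     (-5, (M (V 2) (L (V 0) (V 1) (M (V 2) (V 1))))),
     (4, (R (M (V 1) (V 2)) (V 1) (M (V 0) (V 2)))),
     (3, (R (V 1) (M (V 0) (V 2)) (M (V 2) (V 1)))),
     (-5, (M (V 2) (M (L (V 1) (V 2) (V 0)) (V 1)))),
     (-14, (L (M (V 0) (V 1)) (M (V 1) (V 2)) (V 2))),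
     (-4, (L (M (V 0) (V 1)) (M (V 2) (V 2)) (V 1))),
     (-4, (M (M (V 1) (L (V 0) (V 1) (V 2))) (V 2))),
     (-3, (M (M (V 1) (RR (V 2) (V 0))) (V 1))),
     (5, (M (L (V 1) (M (V 1) (V 0)) (V 2)) (V 2))),
     (7, (M (V 2) (L (V 0) (M (V 1) (V 2)) (V 1)))),
     (-5, (RR (V 2) (M (V 1) (M (V 1) (V 0))))),
     (3, (M (M (V 0) (V 2)) (LL (V 1) (V 2)))),
     (3, (M (M (V 0) (V 2)) (L (V 1) (V 2) (V 1)))),
     (9, (L (V 0) (V 2) (M (V 1) (M (V 1) (V 2))))),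
     (-3, (L (V 1) (M (M (V 1) (V 0)) (V 2)) (V 2))),
     (8, (M (LL (V 1) (V 0)) (M (V 2) (V 2)))),
     (-8, (M (R (M (V 1) (V 1)) (V 0) (V 2)) (V 2))),
     (3, (LL (V 1) (M (M (V 0) (V 2)) (V 2)))),
     (6, (R (M (V 0) (V 2)) (V 1) (M (V 1) (V 2)))),
     (-5, (M (V 2) (R (V 1) (V 1) (M (V 2) (V 0))))),
     (5, (M (V 2) (M (R (V 2) (V 0) (V 1)) (V 1)))),
     (-5, (M (V 0) (R (V 1) (V 2) (M (V 1) (V 2))))),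
     (5, (L (V 0) (M (M (V 1) (V 2)) (V 1)) (V 2))),
     (4, (R (M (V 2) (V 2)) (V 1) (M (V 0) (V 1)))),
     (-9, (M (L (V 0) (V 2) (V 1)) (M (V 1) (V 2)))),
     (14, (R (M (V 0) (V 1)) (V 2) (M (V 1) (V 2)))),
     (-9, (R (V 2) (V 0) (M (V 1) (M (V 1) (V 2))))),
     (14, (L (V 0) (V 1) (M (V 2) (M (V 1) (V 2))))),
     (-3, (M (V 1) (L (V 0) (V 1) (M (V 2) (V 2))))),
     (15, (M (M (V 1) (R (V 1) (V 0) (V 2))) (V 2))),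
     (-2, (R (M (V 2) (M (V 1) (V 2))) (V 0) (V 1))),
     (2, (M (L (V 2) (M (V 1) (V 2)) (V 0)) (V 1))),
     (-3, (M (R (V 1) (V 2) (M (V 0) (V 2))) (V 1))),
     (2, (L (V 2) (M (M (V 1) (V 2)) (V 0)) (V 1))),
     (-8, (R (V 1) (V 0) (M (V 1) (M (V 2) (V 2))))),
     (-3, (L (V 1) (M (V 0) (V 2)) (M (V 2) (V 1)))),
     (-5, (L (V 2) (M (M (V 0) (V 1)) (V 1)) (V 2))),
     (5, (M (M (RR (V 1) (V 0)) (V 2)) (V 2))),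
     (-8, (M (M (V 1) (V 0)) (RR (V 2) (V 1)))),
     (5, (M (V 2) (R (V 1) (V 0) (M (V 2) (V 1))))),
     (-4, (M (M (V 0) (V 1)) (LL (V 2) (V 1)))),
     (5, (M (M (R (V 1) (V 0) (V 2)) (V 1)) (V 2))),
     (9, (L (V 2) (M (V 1) (V 0)) (M (V 1) (V 2)))),
     (-3, (M (M (V 0) (V 2)) (RR (V 1) (V 2)))),
     (-3, (M (V 1) (R (V 2) (V 0) (M (V 1) (V 2))))),
     (8, (RR (V 2) (M (M (V 1) (V 1)) (V 0)))),
     (-5, (M (L (V 0) (V 1) (V 1)) (M (V 2) (V 2)))),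
     (-3, (R (V 1) (V 1) (M (M (V 2) (V 0)) (V 2)))),
     (3, (M (M (V 1) (L (V 0) (V 2) (V 2))) (V 1)))]
    (by decide +kernel) ⟨hA, fun a => zero_smul _ a⟩ (env [u, c, y]) trivial

end MP6489b8
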