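import Mathlib
import Pool.Agent.Lib.MP_6489b8_al.Certs1

/-!
# Basic identities of alternative rings and the identity (I1)
-/

namespace MP6489b8

variable {A : Type*} [NonUnitalNonAssocRing A]

theorem asr_add_left (a a' b c : A) : asr (a + a') b c = asr a b c + asr a' b c := by
  simp only [asr, add_mul]; abel
theorem asr_add_mid (a b b' c : A) : asr a (b + b') c = asr a b c + asr a b' c := by
  simp only [asr, add_mul, mul_add]; abel
theorem asr_add_right (a b c c' : A) : asr a b (c + c') = asr a b c + asr a b c' := by
  simp only [asr, mul_add]; abel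
theorem asr_sub_left (a a' b c : A) : asr (a - a') b c = asr a b c - asr a' b c := by
  simp only [asr, sub_mul]; abel
theorem asr_sub_mid (a b b' c : A) : asr a (b - b') c = asr a b c - asr a b' c := by
  simp only [asr, sub_mul, mul_sub]; abel
theorem asr_sub_right (a b c c' : A) : asr a b (c - c') = asr a b c - asr a b c' := by
  simp only [asr, mul_sub]; abel
theorem asr_neg_left (a b c : A) : asr (-a) b c = -asr a b c := by
  simp only [asr, neg_mul]; abel
theorem asr_neg_mid (a b c : A) : asr a (-b) c = -asr a b c := by
  simp only [asr, neg_mul, mul_neg]; abel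
theorem asr_neg_right (a b c : A) : asr a b (-c) = -asr a b c := by
  simp only [asr, mul_neg]; abel
theorem com_add_left (a a' b : A) : com (a + a') b = com a b + com a' b := by
  simp only [com, add_mul, mul_add]; abel
theorem com_add_right (a b b' : A) : com a (b + b') = com a b + com a b' := by
  simp only [com, add_mul, mul_add]; abel
theorem com_sub_left (a a' b : A) : com (a - a') b = com a b - com a' b := by
  simp only [com, sub_mul, mul_sub]; abel
theorem com_sub_right (a b b' : A) : com a (b - b') = com a b - com a b' := by
  simp only [com, sub_mul, mul_sub]; abel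
theorem com_neg_left (a b : A) : com (-a) b = -com a b := by
  simp only [com, neg_mul, mul_neg]; abel
theorem com_neg_right (a b : A) : com a (-b) = -com a b := by
  simp only [com, neg_mul, mul_neg]; abel
theorem com_self (a : A) : com a a = 0 := sub_self _
theorem com_swap (a b : A) : com a b = -com b a := by
  simp only [com]; abel

section Alt

variable (hA : IsAlt A)
include hA

theorem asr_self_left (a b : A) : asr a a b = 0 := by
  rw [asr, (hA a b).1, sub_self]

theorem asr_self_right (a b : A) : asr b a a = 0 := by
  rw [asr, (hA a b).2, sub_self]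

theorem asr_sw12 (a b c : A) : asr a b c = -asr b a c := by
  have h := hA.lin_left a b c
  have : asr a b c + asr b a c = 0 := by
    simp only [asr]
    rw [sub_add_sub_comm, h, sub_self]
  exact eq_neg_of_add_eq_zero_left this

theorem asr_sw23 (a b c : A) : asr a b c = -asr a c b := by
  have h := hA.lin_right b c a
  have : asr a b c + asr a c b = 0 := by
    simp only [asr]
    rw [sub_add_sub_comm, h, sub_self]
  exact eq_neg_of_add_eq_zero_left this

theorem asr_sw13 (a b c : A) : asr a b c = -asr c b a := by
  rw [asr_sw12 hA a b c, asr_sw23 hA b a c, asr_sw12 hA b c a, neg_neg]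

theorem asr_cyc (a b c : A) : asr a b c = asr b c a := by
  rw [asr_sw12 hA a b c, asr_sw23 hA b a c, neg_neg]

theorem asr_cyc' (a b c : A) : asr a b c = asr c a b := by
  rw [asr_cyc hA c a b]

theorem asr_self_mid (a b : A) : asr a b a = 0 := by
  rw [asr_sw23 hA, asr_self_left hA, neg_zero]

theorem asr_mul_right (u v y : A) : asr u (v * y) y = y * asr u v y := by
  have h := cert_M1 hA u v y
  exact sub_eq_zero.1 h

theorem asr_mul_left (u v y : A) : asr u (y * v) y = asr u v y * y := by
  have h := cert_M2 hA u v y
  exact sub_eq_zero.1 h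

theorem asr_com (u v y : A) : asr u (com v y) y = -com (asr u v y) y := by
  rw [com, asr_sub_mid, asr_mul_right hA, asr_mul_left hA, com]; abel

/-- `(u v, c, y)`. -/
theorem asr_mul (u v c y : A) :
    asr (u * v) c y = u * asr v c y + asr u c y * v - asr (com c y) u v := by
  have h := cert_R_mul hA u v c y
  have : asr (u * v) c y = (asr (u * v) c y - u * asr v c y - asr u c y * v + asr (com c y) u v) +
      (u * asr v c y + asr u c y * v - asr (com c y) u v) := by abel
  rw [this, h, zero_add]

end Alt

/-- `((u,c,y),c,y) = [c,y] (u,c,y)`. -/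
theorem asr_asr (hA : IsAlt A) (u c y : A) :
    asr (asr u c y) c y = com c y * asr u c y := by
  rw [← sub_eq_zero]
  exact cert_PR hA u c y

theorem asr_asr_lin (hA : IsAlt A) (u c d y : A) :
    asr (asr u c y) d y + asr (asr u d y) c y = com d y * asr u c y + com c y * asr u d y := by
  have h := asr_asr hA u (c + d) y
  simp only [asr_add_mid, asr_add_left, com_add_left, add_mul, mul_add] at h
  rw [asr_asr hA u c y, asr_asr hA u d y] at h
  have e1 : asr (asr u c y) d y + asr (asr u d y) c y =
      (com c y * asr u c y + asr (asr u d y) c y + (asr (asr u c y) d y + com d y * asr u d y)) -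
        com c y * asr u c y - com d y * asr u d y := by abel
  rw [e1, h]; abel

/-- The function `E(v, a, c) = ((v,a,y),c,y) - [c,y] (v,a,y)`. -/
def EE (y v a c : A) : A := asr (asr v a y) c y - com c y * asr v a y

section EE

variable (hA : IsAlt A)
include hA

theorem EE_sw12 (y v a c : A) : EE y v a c = -EE y a v c := by
  rw [EE, EE, asr_sw12 hA v a y, asr_neg_left, mul_neg]; abel

theorem EE_sw23 (y v a c : A) : EE y v a c = -EE y v c a := by
  have h := asr_asr_lin hA v a c y
  have e : EE y v a c = (asr (asr v a y) c y + asr (asr v c y) a y) -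
      asr (asr v c y) a y - com c y * asr v a y := by rw [EE]; abel
  rw [e, h, EE]; abel

theorem EE_cyc (y v a c : A) : EE y v a c = EE y a c v := by
  rw [EE_sw12 hA, EE_sw23 hA, neg_neg]

omit hA in
theorem EE_sub_left (y v v' a c : A) : EE y (v - v') a c = EE y v a c - EE y v' a c := by
  simp only [EE, asr_sub_left, mul_sub]; abel

/-- `E([v,y],a,c) = E(v,[a,y],c)`. -/
theorem EE_com12 (y v a c : A) : EE y (com v y) a c = EE y v (com a y) c := by
  have h : asr (com v y) a y = asr v (com a y) y := by
    rw [asr_sw12 hA (com v y) a y, asr_com hA a v y, asr_com hA v a y, asr_sw12 hA a v y,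
      com_neg_left, neg_neg]
  rw [EE, h, EE]

/-- `E(v,[a,y],c) = E(v,a,[c,y])`. -/
theorem EE_com23 (y v a c : A) : EE y v (com a y) c = EE y v a (com c y) := by
  rw [EE_cyc hA y v (com a y) c, EE_com12 hA y a c v, ← EE_cyc hA y v a (com c y)]

theorem EE_mul_y (y v a c : A) : EE y (v * y) a c = EE y v a c * y - EE y (com a y) v c := by
  have h1 : asr (v * y) a y = asr v a y * y - asr (com a y) v y := by
    rw [asr_mul hA v y a y, asr_self_mid hA, mul_zero, zero_add]
  have h3 : asr (asr v a y * y) c y = asr (asr v a y) c y * y - asr (com c y) (asr v a y) y := by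
    rw [asr_mul hA _ y c y, asr_self_mid hA, mul_zero, zero_add]
  have h4 : asr (com c y) (asr v a y) y =
      (com c y * asr v a y) * y - com c y * (asr v a y * y) := rfl
  rw [EE, h1, asr_sub_left, h3, mul_sub, EE, EE, sub_mul, h4]
  abel

theorem EE_y_mul (y v a c : A) : EE y (y * v) a c =
    y * EE y v a c + y * (com c y * asr v a y) + asr (com c y) (asr v a y) y -
      com c y * (y * asr v a y) + EE y (com a y) v c := by
  have h1 : asr (y * v) a y = y * asr v a y + asr (com a y) v y := by
    rw [asr_mul hA y v a y, asr_self_mid hA, zero_mul, add_zero, asr_sw23 hA (com a y) y v,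
      sub_neg_eq_add]
  have h3 : asr (y * asr v a y) c y = y * asr (asr v a y) c y + asr (com c y) (asr v a y) y := by
    rw [asr_mul hA y _ c y, asr_self_mid hA, zero_mul, add_zero, asr_sw23 hA (com c y) y,
      sub_neg_eq_add]
  rw [EE, h1, asr_add_left, h3, mul_add, EE, EE, mul_sub]
  abel

/-- **(I1)**, left form: `y ([c,y] (v,a,y)) = [c,y] ((v,a,y) y)`. -/
theorem I1_left (y v a c : A) : y * (com c y * asr v a y) = com c y * (asr v a y * y) := by
  set s := asr v a y with hs
  set w := com c y with hw
  -- the value of `E([v,y],a,c)` from the two product formulas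
  have d1 : EE y (com v y) a c = EE y (v * y) a c - EE y (y * v) a c := by
    rw [com, EE_sub_left]
  rw [EE_mul_y hA, EE_y_mul hA, ← hs, ← hw] at d1
  have d2 : EE y (com a y) v c = -EE y v (com a y) c := EE_sw12 hA _ _ _ _
  have d3 : EE y (com v y) a c = EE y v (com a y) c := EE_com12 hA _ _ _ _
  have d4 : EE y v (com a y) c = EE y v a w := EE_com23 hA _ _ _ _
  have d5 : EE y v a w = asr s w y - com w y * s := by rw [EE, hs]
  -- the commutator of `E` with `y`
  have d6 : EE y v a c * y - y * EE y v a c = asr w s y - (w * s) * y + y * (w * s) := by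
    have h1 : asr s w y = -com (asr s c y) y := asr_com hA s c y
    have h3 : EE y v a c * y - y * EE y v a c =
        com (asr s c y) y - (w * s) * y + y * (w * s) := by
      rw [EE, ← hs, ← hw, sub_mul, mul_sub, com]; abel
    have h4 : com (asr s c y) y = asr w s y := by
      rw [asr_sw12 hA w s y, h1, neg_neg]
    rw [h3, h4]
  rw [d3, d2, d4] at d1
  have d7 : EE y v a w = (w * s) * y - w * (y * s) := by
    have e : asr w s y = (w * s) * y - w * (s * y) := rfl
    rw [e] at d1 d6
    linear_combination (norm := abel) -d6 - d1
  have d8 : com w y * s = (w * y) * s - (y * w) * s := by rw [com, sub_mul]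
  have d9 : asr s w y = (w * y) * s - w * (y * s) := by
    rw [asr_cyc hA s w y, asr]
  have d10 : (y * w) * s = (w * s) * y := by
    linear_combination (norm := abel) d7 - d5 + d8 - d9
  have d11 : asr y w s = asr w s y := asr_cyc hA y w s
  simp only [asr] at d11
  linear_combination (norm := abel) d10 - d11

end EE

end MP6489b8
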