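import Mathlib
import Pool.Agent.Lib.MP_6489b8_al.Basic
import Pool.Agent.Lib.MP_6489b8_al.AltDer

/-!
# The alternating derivation of order four
-/

namespace MP6489b8

universe u

open Function Equiv

section

variable {A : Type*} [NonUnitalNonAssocRing A]

/-- `F(a,b,c,d) = (E(a,b,c), d, y)`. -/
def FF (y a b c d : A) : A := asr (EE y a b c) d y

variable (hA : IsAlt A)
include hA

/-- `[E, y] = 0`. -/
theorem com_EE (y v a c : A) : com (EE y v a c) y = 0 := by
  have h1 : asr (asr v a y) (com c y) y = -com (asr (asr v a y) c y) y := asr_com hA _ c y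
  have h2 := I1_left hA y v a c
  have h3 : asr (com c y) (asr v a y) y = -asr (asr v a y) (com c y) y := asr_sw12 hA _ _ _
  rw [EE, com_sub_left]
  have h4 : com (com c y * asr v a y) y =
    (com c y * asr v a y) * y - y * (com c y * asr v a y) := rfl
  have h5 : asr (com c y) (asr v a y) y =
    (com c y * asr v a y) * y - com c y * (asr v a y * y) := rfl
  rw [h4]
  linear_combination (norm := abel) h1 + h2 - h3 + h5

/-- `R_c P_c = 0`. -/
theorem asr_EE_self (y v a c : A) : asr (EE y v a c) c y = 0 := by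
  have h1 : asr (com c y) c y = 0 := by
    rw [asr_sw12 hA, asr_com hA, asr_self_left hA]
    simp [com]
  have h2 : asr (com c y * asr v a y) c y = com c y * asr (asr v a y) c y := by
    rw [asr_mul hA, h1, zero_mul, asr_self_left hA]; abel
  rw [EE, asr_sub_left, asr_asr hA, h2, sub_self]

theorem FF_sw12 (y a b c d : A) : FF y a b c d = -FF y b a c d := by
  rw [FF, EE_sw12 hA, asr_neg_left, FF]

theorem FF_sw23 (y a b c d : A) : FF y a b c d = -FF y a c b d := by
  rw [FF, EE_sw23 hA, asr_neg_left, FF]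

omit hA in
theorem EE_add_right (y v a c c' : A) : EE y v a (c + c') = EE y v a c + EE y v a c' := by
  simp only [EE, asr_add_mid, com_add_left, add_mul]; abel

omit hA in
theorem EE_add_mid (y v a a' c : A) : EE y v (a + a') c = EE y v a c + EE y v a' c := by
  simp only [EE, asr_add_mid, asr_add_left, mul_add]; abel

omit hA in
theorem EE_add_left (y v v' a c : A) : EE y (v + v') a c = EE y v a c + EE y v' a c := by
  simp only [EE, asr_add_left, mul_add]; abel

theorem FF_sw34 (y a b c d : A) : FF y a b c d = -FF y a b d c := by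
  have h := asr_EE_self hA y a b (c + d)
  rw [EE_add_right, asr_add_mid, asr_add_left, asr_add_left, asr_EE_self hA y a b c,
    asr_EE_self hA y a b d] at h
  rw [FF, FF]
  linear_combination (norm := abel) h

omit hA in
theorem FF_add (y a b c d d' : A) : FF y a b c (d + d') = FF y a b c d + FF y a b c d' := by
  rw [FF, asr_add_mid, FF, FF]

theorem FF_mul (y a b c d d' : A) :
    FF y a b c (d * d') = FF y a b c d * d' + d * FF y a b c d' := by
  rw [FF, asr_sw12 hA, asr_mul hA, com_EE hA, FF, FF, asr_sw12 hA (EE y a b c) d y,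
    asr_sw12 hA (EE y a b c) d' y]
  simp only [asr, zero_mul, neg_mul, mul_neg]
  abel

theorem FF_self (y a b c : A) : FF y a b c y = 0 := asr_self_right hA _ _

omit hA in
theorem asr_centr (S : Centr A) (a b c : A) : asr a (S.f b) c = S.f (asr a b c) := by
  simp only [asr, map_sub]
  rw [← S.right a b, ← S.left, ← S.left, ← S.right]

omit hA in
theorem FF_centr (S : Centr A) (y a b c d : A) : FF y a b c (S.f d) = S.f (FF y a b c d) := by
  rw [FF, asr_centr, FF]

end

/-- The function `F` in the form used by the mechanism. -/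
def T4 (B : Type u) [NonUnitalNonAssocRing B] (x : Fin 4 → B) (y : B) : B :=
  FF y (x 0) (x 1) (x 2) (x 3)

theorem map_asr {B C : Type*} [NonUnitalNonAssocRing B] [NonUnitalNonAssocRing C]
    (φ : B →ₙ+* C) (a b c : B) : φ (asr a b c) = asr (φ a) (φ b) (φ c) := by
  simp only [asr, map_sub, map_mul]

theorem map_com {B C : Type*} [NonUnitalNonAssocRing B] [NonUnitalNonAssocRing C]
    (φ : B →ₙ+* C) (a b : B) : φ (com a b) = com (φ a) (φ b) := by
  simp only [com, map_sub, map_mul]

theorem map_EE {B C : Type*} [NonUnitalNonAssocRing B] [NonUnitalNonAssocRing C]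
    (φ : B →ₙ+* C) (y a b c : B) : φ (EE y a b c) = EE (φ y) (φ a) (φ b) (φ c) := by
  simp only [EE, map_sub, map_mul, map_asr, map_com]

theorem map_FF {B C : Type*} [NonUnitalNonAssocRing B] [NonUnitalNonAssocRing C]
    (φ : B →ₙ+* C) (y a b c d : B) : φ (FF y a b c d) = FF (φ y) (φ a) (φ b) (φ c) (φ d) := by
  simp only [FF, map_asr, map_EE]

theorem isAltDer_T4 {B : Type u} [NonUnitalNonAssocRing B] (hB : IsAlt B) (y : B) :
    IsAltDer 4 (fun x => T4 B x y) := by
  have sw : ∀ (i : Fin 3) (x : Fin 4 → B),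
      T4 B (x ∘ swap i.castSucc i.succ) y = -T4 B x y := by
    intro i x
    fin_cases i
    · exact FF_sw12 hB y (x 1) (x 0) (x 2) (x 3)
    · exact FF_sw23 hB y (x 0) (x 2) (x 1) (x 3)
    · exact FF_sw34 hB y (x 0) (x 1) (x 3) (x 2)
  have mv : ∀ (x : Fin 4 → B) (a : B), T4 B (update x 0 a) y = -FF y (x 1) (x 2) (x 3) a := by
    intro x a
    change FF y a (x 1) (x 2) (x 3) = _
    rw [FF_sw12 hB, FF_sw23 hB, FF_sw34 hB]; abel
  refine IsAltDer.of_swap (n := 2) sw ?_ ?_ ?_ ?_
  · intro x h
    change FF y (x 0) (x 1) (x 2) (x 3) = 0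
    rw [h, FF, EE, asr_self_left hB]
    simp [asr]
  · intro x a b
    rw [mv, mv, mv, FF_add]; abel
  · intro x a b
    rw [mv, mv, mv, FF_mul hB]; simp only [neg_mul, mul_neg]; abel
  · intro S x a
    rw [mv, mv, FF_centr, map_neg]

/-- `F` is a good function of order four (over the integers). -/
theorem good_T4 : Good.{u} 0 4 T4 := by
  refine ⟨?_, ?_, ?_⟩
  · intro B C _ _ φ x y
    exact map_FF φ _ _ _ _ _
  · intro B _ hB y
    exact isAltDer_T4 hB.1 y
  · intro B _ hB x i
    have h := isAltDer_T4 hB.1 (x i)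
    have h3 : ∀ x : Fin 4 → B, ∀ y, x 3 = y → T4 B x y = 0 := by
      intro x y hx
      change FF y (x 0) (x 1) (x 2) (x 3) = 0
      rw [hx]; exact FF_self hB.1 _ _ _ _
    by_cases hi : i = 3
    · subst hi; exact h3 x _ rfl
    · have h4 := h.toAlt.map_swap x hi
      simp only [IsAltDer.toAlt_apply] at h4
      have h5 : T4 B (x ∘ swap i 3) (x i) = 0 := h3 _ _ (by simp)
      rw [h5] at h4
      exact neg_eq_zero.1 h4.symm

end MP6489b8
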