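import Mathlib
import Pool.Agent.Lib.MP_6489b8_al.Certs2
import Pool.Agent.Lib.MP_6489b8_al.F4

/-!
# Multiplication of a commuting alternating derivation by a commutator
-/

namespace MP6489b8

universe u

open Function Equiv

section

variable {A : Type*} [NonUnitalNonAssocRing A]

/-- The element commutes with everything. -/
def IsComm (k : A) : Prop := ∀ z : A, k * z = z * k

theorem IsComm.com {k : A} (h : IsComm k) (z : A) : com k z = 0 := sub_eq_zero.2 (h z)

theorem IsComm.three (hA : IsAlt A) {k : A} (h : IsComm k) (u v : A) : 3 • asr k u v = 0 := by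
  have := cert_3asr hA k u v (h.com _) (h.com _) (h.com _) (h.com _)
  rw [← this, ← Nat.cast_smul_eq_nsmul ℤ]; rfl

/-- For commuting `k` the function `(k, u, [v, w])` is skew-symmetric in `u`, `v`. -/
theorem IsComm.skew (hA : IsAlt A) {k : A} (h : IsComm k) (u v w : A) :
    asr k u (MP6489b8.com v w) = -asr k v (MP6489b8.com u w) := by
  have := cert_fk hA k u v w (h.com _) (h.com _) (h.com _) (h.com _) (h.com _) (h.com _)
    (h.com _) (h.com _) (h.com _) (h.com _) (h.com _) (h.com _) (h.com _) (h.com _) (h.com _)
    (h.com _) (h.com _) (h.com _) (h.com _) (h.com _) (h.com _)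
  exact eq_neg_of_add_eq_zero_left this

theorem IsComm.skew' (hA : IsAlt A) {k : A} (h : IsComm k) (u v w : A) :
    asr k u (MP6489b8.com v w) = -asr k w (MP6489b8.com v u) := by
  rw [com_swap v w, asr_neg_right, h.skew hA u w v, com_swap u v, asr_neg_right, neg_neg]

/-- `[u v, w] = u [v,w] + [u,w] v + 3 (u,v,w)`. -/
theorem com_mul_left (hA : IsAlt A) (u v w : A) :
    com (u * v) w = u * com v w + com u w * v + 3 • asr u v w := by
  have h2 : asr u v w = -asr u w v := asr_sw23 hA u v w
  have h3 : 3 • asr u v w = asr u v w + asr u v w + asr u v w := by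
    rw [succ_nsmul, two_nsmul]
  have h4 : asr w u v = asr u v w := asr_cyc hA w u v
  simp only [com, mul_sub, sub_mul]
  rw [h3]
  simp only [asr] at *
  linear_combination (norm := abel) h4 - h2

theorem mul_mul_of_comm (hA : IsAlt A) {k : A} (h : IsComm k) (b w : A) :
    k * (b * w) = b * (k * w) + asr k b w := by
  have h3 := h.three hA b w
  have h1 : asr b k w = -asr k b w := asr_sw12 hA _ _ _
  have h2 : 3 • asr k b w = asr k b w + asr k b w + asr k b w := by
    rw [succ_nsmul, two_nsmul]
  rw [h2] at h3
  have e1 : asr k b w = (k * b) * w - k * (b * w) := rfl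
  have e2 : asr b k w = (b * k) * w - b * (k * w) := rfl
  rw [← h b] at e2
  linear_combination (norm := abel) -h3 + h1 + e1 - e2

theorem mul_mul_of_comm' (hA : IsAlt A) {k : A} (w c : A) :
    k * (w * c) = (k * w) * c + asr k c w := by
  rw [asr_sw23 hA k c w, asr]; abel

end

section

variable {A : Type u} [NonUnitalNonAssocRing A] (hA : IsAlt A) {r : ℕ}
  {t : (Fin r → A) → A} (ht : IsAltDer r t) (hc : ∀ x, IsComm (t x))
include hA ht hc

theorem kap_R1 (x : Fin r → A) (i : Fin r) (a b e : A) :
    t (update x i a) * com b e + t (update x i b) * com a e = 0 := by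
  have h1 : com (t (update x i (a * b))) e = 0 := (hc _).com e
  have h2 : 3 • asr a (t (update x i b)) e = 0 := by
    rw [asr_sw12 hA, smul_neg, (hc _).three hA, neg_zero]
  rw [ht.mul, com_add_left, com_mul_left hA, com_mul_left hA, (hc (update x i a)).com,
    (hc (update x i b)).com, (hc (update x i a)).three hA, h2, zero_mul, mul_zero,
    ← (hc (update x i b)) (com a e)] at h1
  simpa using h1

omit hA in
theorem kap_T0 (x : Fin r → A) (i : Fin r) (u v : A) : t (update x i (com u v)) = 0 := by
  have h : com u v = u * v + -(v * u) := sub_eq_add_neg _ _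
  have hn : t (update x i (-(v * u))) = -t (update x i (v * u)) := by
    have := ht.add x i (v * u) (-(v * u))
    rw [add_neg_cancel, ht.zero] at this
    exact (neg_eq_of_add_eq_zero_right this.symm).symm
  rw [h, ht.add, hn, ht.mul, ht.mul, (hc (update x i u)) v, (hc (update x i v)) u]
  abel

theorem kap_R2 (x : Fin r → A) (i : Fin r) (a b u v : A) :
    t (update x i a) * com b (com u v) = 0 := by
  have h := kap_R1 hA ht hc x i a (com u v) b
  rw [kap_T0 ht hc, zero_mul, add_zero] at h
  rw [com_swap, mul_neg, h, neg_zero]

theorem kap_G1 (x : Fin r → A) (i : Fin r) (a b c e : A) :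
    asr (t (update x i b)) c (com a e) + asr (t (update x i c)) b (com a e) =
      3 • (t (update x i a) * asr b c e) := by
  set ta := t (update x i a) with hta
  set tb := t (update x i b) with htb
  set tc := t (update x i c) with htc
  have ca : IsComm ta := hc _
  have cb : IsComm tb := hc _
  have cc : IsComm tc := hc _
  have h := kap_R1 hA ht hc x i a (b * c) e
  rw [ht.mul, ← hta, ← htb, ← htc, com_mul_left hA, mul_add, mul_add, add_mul] at h
  have e1 : ta * (b * com c e) = b * (ta * com c e) + asr ta b (com c e) :=
    mul_mul_of_comm hA ca _ _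
  have e2 : ta * (com b e * c) = (ta * com b e) * c + asr ta c (com b e) :=
    mul_mul_of_comm' hA _ _
  have e3 : (tb * c) * com a e = (tb * com a e) * c - asr tb c (com a e) := by
    have f1 : tb * (com a e * c) = (tb * com a e) * c + asr tb c (com a e) :=
      mul_mul_of_comm' hA _ _
    have f2 : tb * com c (com a e) = 0 := kap_R2 hA ht hc x i b c a e
    have f3 : com c (com a e) = c * com a e - com a e * c := rfl
    rw [f3, mul_sub, sub_eq_zero] at f2
    have f4 : asr tb c (com a e) = (tb * c) * com a e - tb * (c * com a e) := rfl
    have f5 : 3 • asr tb c (com a e) = 0 := cb.three hA _ _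
    have f6 : 3 • asr tb c (com a e) = asr tb c (com a e) + asr tb c (com a e) +
      asr tb c (com a e) := by rw [succ_nsmul, two_nsmul]
    rw [f6] at f5
    linear_combination (norm := abel) f5 + f1 + f2 - f4
  have e4 : (b * tc) * com a e = b * (tc * com a e) - asr tc b (com a e) := by
    have f1 : asr b tc (com a e) = -asr tc b (com a e) := asr_sw12 hA _ _ _
    have f2 : asr b tc (com a e) = (b * tc) * com a e - b * (tc * com a e) := rfl
    linear_combination (norm := abel) f1 - f2
  have r1 := kap_R1 hA ht hc x i a c e
  have r2 := kap_R1 hA ht hc x i a b e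
  rw [← hta, ← htc] at r1
  rw [← hta, ← htb] at r2
  have r1' : b * (ta * com c e) + b * (tc * com a e) = 0 := by rw [← mul_add, r1, mul_zero]
  have r2' : (ta * com b e) * c + (tb * com a e) * c = 0 := by rw [← add_mul, r2, zero_mul]
  have s := ca.skew hA b c e
  have h7 : ta * (3 • asr b c e) = 3 • (ta * asr b c e) := mul_smul_comm _ _ _
  rw [e1, e2, e3, e4, h7] at h
  linear_combination (norm := abel) -h + r1' + r2' + s

theorem kap_G (x : Fin r → A) (i : Fin r) (a b c e : A) :
    2 • (asr (t (update x i b)) c (com a e) + asr (t (update x i c)) b (com a e)) = 0 := by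
  have h1 := kap_G1 hA ht hc x i a b c e
  have h2 := kap_G1 hA ht hc x i a c b e
  rw [asr_sw12 hA c b e, mul_neg, smul_neg] at h2
  rw [two_nsmul]
  linear_combination (norm := abel) h1 + h2

/-- The derivation property after multiplication by a commutator. -/
theorem kap_der (x : Fin r → A) (i : Fin r) (a b u v : A) :
    2 • (t (update x i (a * b)) * com u v) =
      (2 • (t (update x i a) * com u v)) * b + a * (2 • (t (update x i b) * com u v)) := by
  set ta := t (update x i a) with hta
  set tb := t (update x i b) with htb
  have ca : IsComm ta := hc _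
  have cb : IsComm tb := hc _
  set w := com u v with hw
  have f1 : ta * (w * b) = (ta * w) * b + asr ta b w := mul_mul_of_comm' hA _ _
  have f2 : ta * com b w = 0 := kap_R2 hA ht hc x i a b u v
  have f3 : com b w = b * w - w * b := rfl
  rw [f3, mul_sub, sub_eq_zero] at f2
  have f4 : asr ta b w = (ta * b) * w - ta * (b * w) := rfl
  have f5 : 3 • asr ta b w = 0 := ca.three hA _ _
  have f6 : 3 • asr ta b w = asr ta b w + asr ta b w + asr ta b w := by
    rw [succ_nsmul, two_nsmul]
  rw [f6] at f5
  have g1 : asr a tb w = -asr tb a w := asr_sw12 hA _ _ _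
  have g2 : asr a tb w = (a * tb) * w - a * (tb * w) := rfl
  have G := kap_G hA ht hc x i u a b v
  rw [← hta, ← htb, ← hw, two_nsmul] at G
  rw [ht.mul, ← hta, ← htb, smul_mul_assoc, mul_smul_comm, add_mul, two_nsmul, two_nsmul,
    two_nsmul]
  linear_combination (norm := abel) -G + f5 + f5 + f1 + f1 + f2 + f2 - f4 - f4 + g1 + g1 - g2 - g2

theorem kap_comm (x : Fin r → A) (i : Fin r) (u v : A) : IsComm (2 • (t x * com u v)) := by
  intro e
  have h1 : com (t x * com u v) e = 0 := by
    rw [com_mul_left hA, (hc x).com, (hc x).three hA, zero_mul, add_zero, add_zero]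
    have := kap_R2 hA ht hc x i (x i) e u v
    rw [update_eq_self] at this
    rw [com_swap, mul_neg, this, neg_zero]
  rw [smul_mul_assoc, mul_smul_comm, sub_eq_zero.1 h1]

end

/-- Multiplication of a function of `r` arguments by twice the commutator of two new
arguments. -/
def kap {r : ℕ} (T : ∀ (B : Type u) [NonUnitalNonAssocRing B], (Fin r → B) → B → B) :
    ∀ (B : Type u) [NonUnitalNonAssocRing B], (Fin (r + 2) → B) → B → B :=
  fun B _ x y => 2 • (T B (Fin.init (Fin.init x)) y *
    com (x (Fin.last r).castSucc) (x (Fin.last (r + 1))))

/-- Good functions with commuting values. -/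
structure GoodC (n r : ℕ) (T : ∀ (B : Type u) [NonUnitalNonAssocRing B], (Fin r → B) → B → B) :
    Prop extends Good n r T where
  comm : ∀ (B : Type u) [NonUnitalNonAssocRing B], IsAltN n B → ∀ x y, IsComm (T B x y)

theorem init_update_castSucc {A : Type u} {n : ℕ} (x : Fin (n + 1) → A) (i : Fin n) (a : A) :
    Fin.init (update x i.castSucc a) = update (Fin.init x) i a := by
  funext k
  by_cases h : k = i
  · subst h; simp [Fin.init]
  · have h' : k.castSucc ≠ i.castSucc := fun e => h (Fin.castSucc_injective _ e)
    rw [update_of_ne h]
    simp only [Fin.init]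
    rw [update_of_ne h']

theorem init_comp_swap {A : Type u} {n : ℕ} (x : Fin (n + 1) → A) (i j : Fin n) :
    Fin.init (x ∘ swap i.castSucc j.castSucc) = Fin.init x ∘ swap i j := by
  funext k
  simp only [Fin.init, comp_apply]
  rw [(Fin.castSucc_injective n).swap_apply]

theorem isAltDer_kap {A : Type u} [NonUnitalNonAssocRing A] (hA : IsAlt A) {m : ℕ}
    {t : (Fin (m + 1) → A) → A} (ht : IsAltDer (m + 1) t) (hc : ∀ x, IsComm (t x)) :
    IsAltDer (m + 3) (fun x : Fin (m + 3) → A => 2 • (t (Fin.init (Fin.init x)) *
      com (x (Fin.last (m + 1)).castSucc) (x (Fin.last (m + 2))))) := by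
  have upd : ∀ (x : Fin (m + 3) → A) (a : A),
      2 • (t (Fin.init (Fin.init (update x 0 a))) *
        com (update x 0 a (Fin.last (m + 1)).castSucc) (update x 0 a (Fin.last (m + 2)))) =
      2 • (t (update (Fin.init (Fin.init x)) 0 a) *
        com (x (Fin.last (m + 1)).castSucc) (x (Fin.last (m + 2)))) := by
    intro x a
    have e0 : (0 : Fin (m + 3)) = (0 : Fin (m + 2)).castSucc := rfl
    have e1 : (0 : Fin (m + 2)) = (0 : Fin (m + 1)).castSucc := rfl
    have e2 : Fin.init (Fin.init (update x 0 a)) = update (Fin.init (Fin.init x)) 0 a := by
      rw [e0, init_update_castSucc, e1, init_update_castSucc]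
    have e3 : update x 0 a (Fin.last (m + 1)).castSucc = x (Fin.last (m + 1)).castSucc := by
      apply update_of_ne
      intro h
      have := congrArg Fin.val h
      simp at this
    have e4 : update x 0 a (Fin.last (m + 2)) = x (Fin.last (m + 2)) := by
      apply update_of_ne
      intro h
      have := congrArg Fin.val h
      simp at this
    rw [e2, e3, e4]
  refine IsAltDer.of_swap (n := m + 1) ?_ ?_ ?_ ?_ ?_
  · -- adjacent transpositions
    intro i x
    refine Fin.lastCases ?_ (fun j => ?_) i
    · -- the last two arguments
      have e1 : Fin.init (Fin.init (x ∘ swap (Fin.last (m + 1)).castSucc (Fin.last (m + 1)).succ))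
          = Fin.init (Fin.init x) := by
        funext k
        simp only [Fin.init, comp_apply]
        rw [swap_apply_of_ne_of_ne]
        · intro h
          have := congrArg Fin.val h
          simp at this
          omega
        · intro h
          have := congrArg Fin.val h
          simp at this
          omega
      have e2 : (x ∘ swap (Fin.last (m + 1)).castSucc (Fin.last (m + 1)).succ)
          (Fin.last (m + 1)).castSucc = x (Fin.last (m + 2)) := by
        simp only [comp_apply, swap_apply_left]; rfl
      have e3 : (x ∘ swap (Fin.last (m + 1)).castSucc (Fin.last (m + 1)).succ)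
          (Fin.last (m + 2)) = x (Fin.last (m + 1)).castSucc := by
        have : Fin.last (m + 2) = (Fin.last (m + 1)).succ := rfl
        rw [this]
        simp only [comp_apply, swap_apply_right]
      change 2 • (t _ * com _ _) = -(2 • (t _ * com _ _))
      rw [e1, e2, e3, com_swap, mul_neg, smul_neg]
    · refine Fin.lastCases ?_ (fun k => ?_) j
      · -- the boundary
        set a := x (Fin.last m).castSucc.castSucc with ha
        set b := x (Fin.last (m + 1)).castSucc with hb
        set e := x (Fin.last (m + 2)) with he
        have hne : (Fin.last (m + 1)).castSucc ≠ (Fin.last m).castSucc.castSucc := by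
          intro h
          have := congrArg Fin.val h
          simp at this
        have e0 : (Fin.last m).castSucc.succ = (Fin.last (m + 1)).castSucc := rfl
        have e1 : Fin.init (Fin.init (x ∘ swap (Fin.last m).castSucc.castSucc
            (Fin.last m).castSucc.succ)) = update (Fin.init (Fin.init x)) (Fin.last m) b := by
          funext k
          by_cases hk : k = Fin.last m
          · subst hk
            rw [update_self]
            simp only [Fin.init, comp_apply, swap_apply_left]
            rfl
          · rw [update_of_ne hk]
            simp only [Fin.init, comp_apply]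
            rw [swap_apply_of_ne_of_ne]
            · intro h
              exact hk (Fin.castSucc_injective _ (Fin.castSucc_injective _ h))
            · intro h
              have := congrArg Fin.val h
              simp at this
              omega
        have e2 : (x ∘ swap (Fin.last m).castSucc.castSucc (Fin.last m).castSucc.succ)
            (Fin.last (m + 1)).castSucc = a := by
          rw [e0]
          simp only [comp_apply, swap_apply_right]
          rfl
        have e3 : (x ∘ swap (Fin.last m).castSucc.castSucc (Fin.last m).castSucc.succ)
            (Fin.last (m + 2)) = e := by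
          simp only [comp_apply]
          rw [swap_apply_of_ne_of_ne]
          · intro h
            have := congrArg Fin.val h
            simp at this
          · intro h
            have := congrArg Fin.val h
            simp at this
        have e4 : Fin.init (Fin.init x) = update (Fin.init (Fin.init x)) (Fin.last m) a := by
          rw [ha]
          exact (update_eq_self (Fin.last m) (Fin.init (Fin.init x))).symm
        have key := kap_R1 hA ht hc (Fin.init (Fin.init x)) (Fin.last m) a b e
        change 2 • (t _ * com _ _) = -(2 • (t _ * com _ _))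
        rw [e1, e2, e3, e4, ← smul_neg]
        congr 1
        rw [update_idem]
        exact eq_neg_of_add_eq_zero_right key
      · -- inside
        have e1 : Fin.init (Fin.init (x ∘ swap k.castSucc.castSucc.castSucc
            k.castSucc.castSucc.succ)) =
            Fin.init (Fin.init x) ∘ swap k.castSucc k.succ := by
          have h1 : k.castSucc.castSucc.succ = k.succ.castSucc.castSucc := rfl
          rw [h1, init_comp_swap, init_comp_swap]
        have e2 : (x ∘ swap k.castSucc.castSucc.castSucc k.castSucc.castSucc.succ)
            (Fin.last (m + 1)).castSucc = x (Fin.last (m + 1)).castSucc := by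
          simp only [comp_apply]
          rw [swap_apply_of_ne_of_ne]
          · intro h
            have := congrArg Fin.val h
            simp at this
            omega
          · intro h
            have := congrArg Fin.val h
            simp at this
            omega
        have e3 : (x ∘ swap k.castSucc.castSucc.castSucc k.castSucc.castSucc.succ)
            (Fin.last (m + 2)) = x (Fin.last (m + 2)) := by
          simp only [comp_apply]
          rw [swap_apply_of_ne_of_ne]
          · intro h
            have := congrArg Fin.val h
            simp at this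
            omega
          · intro h
            have := congrArg Fin.val h
            simp at this
            omega
        have key := ht.toAlt.map_swap (Fin.init (Fin.init x)) (i := k.castSucc) (j := k.succ)
          (Fin.castSucc_lt_succ).ne
        simp only [IsAltDer.toAlt_apply] at key
        change 2 • (t _ * com _ _) = -(2 • (t _ * com _ _))
        rw [e1, e2, e3, key, neg_mul, smul_neg]
  · intro x h

    cases m with
    | zero =>
      have key := kap_R1 hA ht hc (Fin.init (Fin.init x)) 0 (x 0) (x 0) (x (Fin.last 2))
      have e4 : update (Fin.init (Fin.init x)) 0 (x 0) = Fin.init (Fin.init x) :=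
        update_eq_self 0 (Fin.init (Fin.init x))
      rw [e4] at key
      have e5 : x (Fin.last (0 + 1)).castSucc = x 0 := h.symm
      rw [e5, two_nsmul]
      exact key
    | succ m =>
      have : t (Fin.init (Fin.init x)) = 0 := by
        refine ht.alt _ 0 1 ?_ h
        intro h
        have := congrArg Fin.val h
        simp at this
      rw [this, zero_mul, smul_zero]
  · intro x a b
    rw [upd, upd, upd, ht.add, add_mul, smul_add]
  · intro x a b
    rw [upd, upd, upd, kap_der hA ht hc]
  · intro S x a
    rw [upd, upd, ht.centr, map_nsmul, S.left]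

theorem init_init_natural {A B : Type*} {r : ℕ} (f : A → B) (x : Fin (r + 2) → A) :
    Fin.init (Fin.init (fun i => f (x i))) = fun i => f (Fin.init (Fin.init x) i) := rfl

/-- **Lemma kappa.** -/
theorem GoodC.kap {n m : ℕ}
    {T : ∀ (B : Type u) [NonUnitalNonAssocRing B], (Fin (m + 1) → B) → B → B}
    (hT : GoodC n (m + 1) T) : GoodC n (m + 3) (kap T) := by
  have hder : ∀ (B : Type u) [NonUnitalNonAssocRing B], IsAltN n B → ∀ y : B,
      IsAltDer (m + 3) (fun x => MP6489b8.kap T B x y) := by
    intro B _ hB y
    exact isAltDer_kap hB.1 (hT.der B hB y) (fun x => hT.comm B hB x y)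
  refine { nat := ?_, der := hder, self := ?_, comm := ?_ }
  · intro B C _ _ φ x y
    simp only [MP6489b8.kap]
    rw [map_nsmul, map_mul, map_com, hT.nat]
    rfl
  · intro B _ hB x i
    have h0 : ∀ (x : Fin (m + 3) → B) (y : B), x 0 = y → MP6489b8.kap T B x y = 0 := by
      intro x y hx
      simp only [MP6489b8.kap]
      have : T B (Fin.init (Fin.init x)) y = 0 := by
        have := hT.self B hB (Fin.init (Fin.init x)) 0
        have e : Fin.init (Fin.init x) 0 = y := hx
        rwa [e] at this
      rw [this, zero_mul, smul_zero]
    by_cases hi : i = 0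
    · subst hi; exact h0 x _ rfl
    · have h4 := (hder B hB (x i)).toAlt.map_swap x hi
      simp only [IsAltDer.toAlt_apply] at h4
      have h5 : MP6489b8.kap T B (x ∘ swap i 0) (x i) = 0 := h0 _ _ (by simp)
      rw [h5] at h4
      exact neg_eq_zero.1 h4.symm
  · intro B _ hB x y
    exact kap_comm hB.1 (hT.der B hB y) (fun x => hT.comm B hB x y) _ 0 _ _

end MP6489b8
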