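import Mathlib
import Pool.Agent.Lib.MP_6489b8_al.F4

/-!
# Identities used as building blocks of certificates
-/

namespace MP6489b8

open Cert.E

theorem lem_asr_mul {A : Type*} [NonUnitalNonAssocRing A] (hA : IsAlt A) (x1 x2 x3 x4 : A) :
    ((((asr (x1 * x2) x3 x4) - (x1 * (asr x2 x3 x4))) - ((asr x1 x3 x4) * x2)) + (asr (com x3 x4) x1 x2)) = 0 :=
  Cert.eq_zero_of_check 0 []
    (P (S (S (S (M (M (M (V 0) (V 1)) (V 2)) (V 3)) (M (M (V 0) (V 1)) (M (V 2) (V 3)))) (M (V 0) (S (M (M (V 1) (V 2)) (V 3)) (M (V 1) (M (V 2) (V 3)))))) (M (S (M (M (V 0) (V 2)) (V 3)) (M (V 0) (M (V 2) (V 3)))) (V 1))) (S (M (M (S (M (V 2) (V 3)) (M (V 3) (V 2))) (V 0)) (V 1)) (M (S (M (V 2) (V 3)) (M (V 3) (V 2))) (M (V 0) (V 1)))))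
    [(1, (M (V 1) (R (V 0) (V 2) (V 3)))),
     (-1, (M (V 0) (R (V 3) (V 1) (V 2)))),
     (1, (M (V 0) (L (V 2) (V 3) (V 1)))),
     (1, (M (L (V 0) (V 1) (V 3)) (V 2))),
     (-1, (M (R (V 0) (V 1) (V 3)) (V 2))),
     (1, (M (L (V 0) (V 1) (V 2)) (V 3))),
     (1, (L (V 1) (M (V 0) (V 2)) (V 3))),
     (1, (R (V 2) (V 1) (M (V 0) (V 3)))),
     (-1, (R (M (V 3) (V 2)) (V 0) (V 1))),
     (-1, (L (V 0) (V 1) (M (V 2) (V 3)))),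
     (-1, (L (V 2) (M (V 0) (V 3)) (V 1))),
     (1, (R (V 1) (V 2) (M (V 0) (V 3)))),
     (-1, (R (V 1) (V 0) (M (V 3) (V 2)))),
     (1, (L (V 0) (M (V 2) (V 3)) (V 1))),
     (1, (R (V 0) (V 3) (M (V 1) (V 2)))),
     (-1, (R (V 0) (V 2) (M (V 3) (V 1)))),
     (1, (L (V 1) (M (V 3) (V 2)) (V 0))),
     (-1, (L (V 1) (V 2) (M (V 0) (V 3)))),
     (1, (R (M (V 0) (V 3)) (V 1) (V 2))),
     (-1, (R (M (V 0) (V 2)) (V 1) (V 3))),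
     (-1, (R (M (V 1) (V 0)) (V 2) (V 3)))]
    (by decide +kernel) ⟨hA, fun a => zero_smul _ a⟩ (env [x1, x2, x3, x4]) trivial

theorem lem_com_mul {A : Type*} [NonUnitalNonAssocRing A] (hA : IsAlt A) (x1 x2 x3 : A) :
    ((((com (x1 * x2) x3) - (x1 * (com x2 x3))) - ((com x1 x3) * x2)) - ((3 : ℤ) • (asr x1 x2 x3))) = 0 :=
  Cert.eq_zero_of_check 0 []
    (S (S (S (S (M (M (V 0) (V 1)) (V 2)) (M (V 2) (M (V 0) (V 1)))) (M (V 0) (S (M (V 1) (V 2)) (M (V 2) (V 1))))) (M (S (M (V 0) (V 2)) (M (V 2) (V 0))) (V 1))) (Z 3 (S (M (M (V 0) (V 1)) (V 2)) (M (V 0) (M (V 1) (V 2))))))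
    [(1, (L (V 0) (V 2) (V 1))),
     (-2, (R (V 0) (V 1) (V 2)))]
    (by decide +kernel) ⟨hA, fun a => zero_smul _ a⟩ (env [x1, x2, x3]) trivial

theorem lem_prlin {A : Type*} [NonUnitalNonAssocRing A] (hA : IsAlt A) (x1 x2 x3 x4 : A) :
    ((((asr (asr x1 x2 x4) x3 x4) - ((com x3 x4) * (asr x1 x2 x4))) + (asr (asr x1 x3 x4) x2 x4)) -
      ((com x2 x4) * (asr x1 x3 x4))) = 0 := by
  linear_combination (norm := abel) asr_asr_lin hA x1 x2 x3 x4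

end MP6489b8
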