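import Mathlib
import Pool.Agent.Lib.MP_6489b8_al.Macros

/-!
# The cyclic identity and a formula for the two-form, by certificates
-/

namespace MP6489b8

open Cert.E

theorem cert_psi {A : Type*} [NonUnitalNonAssocRing A] (hA : IsAlt A) (p u v y : A) :
    ((4 : ℤ) • (((asr ((asr p u y) - ((com u y) * p)) v y) - (p * ((asr u v y) * y))) + (y * (p * (asr u v y))))) = 0 :=
  Cert.eq_zero_of_check 0 [(P (S (S (S (M (M (M (V 0) (V 2)) (V 1)) (V 3)) (M (M (V 0) (V 2)) (M (V 1) (V 3)))) (M (V 0) (S (M (M (V 2) (V 1)) (V 3)) (M (V 2) (M (V 1) (V 3)))))) (M (S (M (M (V 0) (V 1)) (V 3)) (M (V 0) (M (V 1) (V 3)))) (V 2))) (S (M (M (S (M (V 1) (V 3)) (M (V 3) (V 1))) (V 0)) (V 2)) (M (S (M (V 1) (V 3)) (M (V 3) (V 1))) (M (V 0) (V 2))))),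
    (S (S (S (S (M (M (V 1) (V 3)) (M (V 0) (V 2))) (M (M (V 0) (V 2)) (M (V 1) (V 3)))) (M (V 1) (S (M (V 3) (M (V 0) (V 2))) (M (M (V 0) (V 2)) (V 3))))) (M (S (M (V 1) (M (V 0) (V 2))) (M (M (V 0) (V 2)) (V 1))) (V 3))) (Z 3 (S (M (M (V 1) (V 3)) (M (V 0) (V 2))) (M (V 1) (M (V 3) (M (V 0) (V 2))))))),
    (S (S (S (S (M (M (V 2) (V 3)) (V 1)) (M (V 1) (M (V 2) (V 3)))) (M (V 2) (S (M (V 3) (V 1)) (M (V 1) (V 3))))) (M (S (M (V 2) (V 1)) (M (V 1) (V 2))) (V 3))) (Z 3 (S (M (M (V 2) (V 3)) (V 1)) (M (V 2) (M (V 3) (V 1)))))),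
    (P (S (S (S (M (M (M (V 2) (V 3)) (V 1)) (V 3)) (M (M (V 2) (V 3)) (M (V 1) (V 3)))) (M (V 2) (S (M (M (V 3) (V 1)) (V 3)) (M (V 3) (M (V 1) (V 3)))))) (M (S (M (M (V 2) (V 1)) (V 3)) (M (V 2) (M (V 1) (V 3)))) (V 3))) (S (M (M (S (M (V 1) (V 3)) (M (V 3) (V 1))) (V 2)) (V 3)) (M (S (M (V 1) (V 3)) (M (V 3) (V 1))) (M (V 2) (V 3))))),
    (S (S (S (S (M (M (V 2) (V 3)) (M (V 1) (V 3))) (M (M (V 1) (V 3)) (M (V 2) (V 3)))) (M (V 2) (S (M (V 3) (M (V 1) (V 3))) (M (M (V 1) (V 3)) (V 3))))) (M (S (M (V 2) (M (V 1) (V 3))) (M (M (V 1) (V 3)) (V 2))) (V 3))) (Z 3 (S (M (M (V 2) (V 3)) (M (V 1) (V 3))) (M (V 2) (M (V 3) (M (V 1) (V 3))))))),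
    (S (S (S (S (M (M (V 1) (V 3)) (V 0)) (M (V 0) (M (V 1) (V 3)))) (M (V 1) (S (M (V 3) (V 0)) (M (V 0) (V 3))))) (M (S (M (V 1) (V 0)) (M (V 0) (V 1))) (V 3))) (Z 3 (S (M (M (V 1) (V 3)) (V 0)) (M (V 1) (M (V 3) (V 0)))))),
    (P (S (S (S (M (M (M (V 3) (V 0)) (V 1)) (V 3)) (M (M (V 3) (V 0)) (M (V 1) (V 3)))) (M (V 3) (S (M (M (V 0) (V 1)) (V 3)) (M (V 0) (M (V 1) (V 3)))))) (M (S (M (M (V 3) (V 1)) (V 3)) (M (V 3) (M (V 1) (V 3)))) (V 0))) (S (M (M (S (M (V 1) (V 3)) (M (V 3) (V 1))) (V 3)) (V 0)) (M (S (M (V 1) (V 3)) (M (V 3) (V 1))) (M (V 3) (V 0))))),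
    (S (S (S (S (M (M (V 3) (V 1)) (M (V 3) (V 0))) (M (M (V 3) (V 0)) (M (V 3) (V 1)))) (M (V 3) (S (M (V 1) (M (V 3) (V 0))) (M (M (V 3) (V 0)) (V 1))))) (M (S (M (V 3) (M (V 3) (V 0))) (M (M (V 3) (V 0)) (V 3))) (V 1))) (Z 3 (S (M (M (V 3) (V 1)) (M (V 3) (V 0))) (M (V 3) (M (V 1) (M (V 3) (V 0))))))),
    (S (S (S (S (M (M (V 3) (M (V 3) (V 1))) (V 0)) (M (V 0) (M (V 3) (M (V 3) (V 1))))) (M (V 3) (S (M (M (V 3) (V 1)) (V 0)) (M (V 0) (M (V 3) (V 1)))))) (M (S (M (V 3) (V 0)) (M (V 0) (V 3))) (M (V 3) (V 1)))) (Z 3 (S (M (M (V 3) (M (V 3) (V 1))) (V 0)) (M (V 3) (M (M (V 3) (V 1)) (V 0)))))),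
    (S (S (S (S (M (M (V 0) (M (V 3) (V 1))) (V 3)) (M (V 3) (M (V 0) (M (V 3) (V 1))))) (M (V 0) (S (M (M (V 3) (V 1)) (V 3)) (M (V 3) (M (V 3) (V 1)))))) (M (S (M (V 0) (V 3)) (M (V 3) (V 0))) (M (V 3) (V 1)))) (Z 3 (S (M (M (V 0) (M (V 3) (V 1))) (V 3)) (M (V 0) (M (M (V 3) (V 1)) (V 3)))))),
    (S (S (S (S (M (M (M (V 3) (V 0)) (V 1)) (V 3)) (M (V 3) (M (M (V 3) (V 0)) (V 1)))) (M (M (V 3) (V 0)) (S (M (V 1) (V 3)) (M (V 3) (V 1))))) (M (S (M (M (V 3) (V 0)) (V 3)) (M (V 3) (M (V 3) (V 0)))) (V 1))) (Z 3 (S (M (M (M (V 3) (V 0)) (V 1)) (V 3)) (M (M (V 3) (V 0)) (M (V 1) (V 3)))))),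
    (P (S (S (S (M (M (M (V 3) (M (V 0) (V 2))) (V 1)) (V 3)) (M (M (V 3) (M (V 0) (V 2))) (M (V 1) (V 3)))) (M (V 3) (S (M (M (M (V 0) (V 2)) (V 1)) (V 3)) (M (M (V 0) (V 2)) (M (V 1) (V 3)))))) (M (S (M (M (V 3) (V 1)) (V 3)) (M (V 3) (M (V 1) (V 3)))) (M (V 0) (V 2)))) (S (M (M (S (M (V 1) (V 3)) (M (V 3) (V 1))) (V 3)) (M (V 0) (V 2))) (M (S (M (V 1) (V 3)) (M (V 3) (V 1))) (M (V 3) (M (V 0) (V 2)))))),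
    (P (S (S (S (M (M (M (V 0) (V 2)) (M (V 3) (V 1))) (V 3)) (M (M (V 0) (V 2)) (M (M (V 3) (V 1)) (V 3)))) (M (V 0) (S (M (M (V 2) (M (V 3) (V 1))) (V 3)) (M (V 2) (M (M (V 3) (V 1)) (V 3)))))) (M (S (M (M (V 0) (M (V 3) (V 1))) (V 3)) (M (V 0) (M (M (V 3) (V 1)) (V 3)))) (V 2))) (S (M (M (S (M (M (V 3) (V 1)) (V 3)) (M (V 3) (M (V 3) (V 1)))) (V 0)) (V 2)) (M (S (M (M (V 3) (V 1)) (V 3)) (M (V 3) (M (V 3) (V 1)))) (M (V 0) (V 2))))),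
    (S (S (S (S (M (M (V 3) (V 1)) (M (V 3) (M (V 0) (V 2)))) (M (M (V 3) (M (V 0) (V 2))) (M (V 3) (V 1)))) (M (V 3) (S (M (V 1) (M (V 3) (M (V 0) (V 2)))) (M (M (V 3) (M (V 0) (V 2))) (V 1))))) (M (S (M (V 3) (M (V 3) (M (V 0) (V 2)))) (M (M (V 3) (M (V 0) (V 2))) (V 3))) (V 1))) (Z 3 (S (M (M (V 3) (V 1)) (M (V 3) (M (V 0) (V 2)))) (M (V 3) (M (V 1) (M (V 3) (M (V 0) (V 2)))))))),
    (S (S (S (S (M (M (V 3) (M (V 3) (V 1))) (M (V 0) (V 2))) (M (M (V 0) (V 2)) (M (V 3) (M (V 3) (V 1))))) (M (V 3) (S (M (M (V 3) (V 1)) (M (V 0) (V 2))) (M (M (V 0) (V 2)) (M (V 3) (V 1)))))) (M (S (M (V 3) (M (V 0) (V 2))) (M (M (V 0) (V 2)) (V 3))) (M (V 3) (V 1)))) (Z 3 (S (M (M (V 3) (M (V 3) (V 1))) (M (V 0) (V 2))) (M (V 3) (M (M (V 3) (V 1)) (M (V 0) (V 2))))))),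
    (S (S (S (S (M (M (M (V 0) (V 2)) (M (V 3) (V 1))) (V 3)) (M (V 3) (M (M (V 0) (V 2)) (M (V 3) (V 1))))) (M (M (V 0) (V 2)) (S (M (M (V 3) (V 1)) (V 3)) (M (V 3) (M (V 3) (V 1)))))) (M (S (M (M (V 0) (V 2)) (V 3)) (M (V 3) (M (V 0) (V 2)))) (M (V 3) (V 1)))) (Z 3 (S (M (M (M (V 0) (V 2)) (M (V 3) (V 1))) (V 3)) (M (M (V 0) (V 2)) (M (M (V 3) (V 1)) (V 3)))))),
    (S (S (S (S (M (M (M (V 3) (M (V 0) (V 2))) (V 1)) (V 3)) (M (V 3) (M (M (V 3) (M (V 0) (V 2))) (V 1)))) (M (M (V 3) (M (V 0) (V 2))) (S (M (V 1) (V 3)) (M (V 3) (V 1))))) (M (S (M (M (V 3) (M (V 0) (V 2))) (V 3)) (M (V 3) (M (V 3) (M (V 0) (V 2))))) (V 1))) (Z 3 (S (M (M (M (V 3) (M (V 0) (V 2))) (V 1)) (V 3)) (M (M (V 3) (M (V 0) (V 2))) (M (V 1) (V 3)))))),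
    (S (S (S (S (M (M (M (M (V 3) (V 1)) (V 0)) (V 3)) (V 2)) (M (V 2) (M (M (M (V 3) (V 1)) (V 0)) (V 3)))) (M (M (M (V 3) (V 1)) (V 0)) (S (M (V 3) (V 2)) (M (V 2) (V 3))))) (M (S (M (M (M (V 3) (V 1)) (V 0)) (V 2)) (M (V 2) (M (M (V 3) (V 1)) (V 0)))) (V 3))) (Z 3 (S (M (M (M (M (V 3) (V 1)) (V 0)) (V 3)) (V 2)) (M (M (M (V 3) (V 1)) (V 0)) (M (V 3) (V 2)))))),
    (S (S (S (S (M (M (M (M (V 3) (V 1)) (V 0)) (V 2)) (V 3)) (M (V 3) (M (M (M (V 3) (V 1)) (V 0)) (V 2)))) (M (M (M (V 3) (V 1)) (V 0)) (S (M (V 2) (V 3)) (M (V 3) (V 2))))) (M (S (M (M (M (V 3) (V 1)) (V 0)) (V 3)) (M (V 3) (M (M (V 3) (V 1)) (V 0)))) (V 2))) (Z 3 (S (M (M (M (M (V 3) (V 1)) (V 0)) (V 2)) (V 3)) (M (M (M (V 3) (V 1)) (V 0)) (M (V 2) (V 3)))))),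
    (S (S (S (S (M (M (M (M (V 1) (V 3)) (V 0)) (V 2)) (V 3)) (M (V 3) (M (M (M (V 1) (V 3)) (V 0)) (V 2)))) (M (M (M (V 1) (V 3)) (V 0)) (S (M (V 2) (V 3)) (M (V 3) (V 2))))) (M (S (M (M (M (V 1) (V 3)) (V 0)) (V 3)) (M (V 3) (M (M (V 1) (V 3)) (V 0)))) (V 2))) (Z 3 (S (M (M (M (M (V 1) (V 3)) (V 0)) (V 2)) (V 3)) (M (M (M (V 1) (V 3)) (V 0)) (M (V 2) (V 3)))))),
    (S (S (S (S (M (M (M (V 0) (M (V 1) (V 3))) (V 2)) (V 3)) (M (V 3) (M (M (V 0) (M (V 1) (V 3))) (V 2)))) (M (M (V 0) (M (V 1) (V 3))) (S (M (V 2) (V 3)) (M (V 3) (V 2))))) (M (S (M (M (V 0) (M (V 1) (V 3))) (V 3)) (M (V 3) (M (V 0) (M (V 1) (V 3))))) (V 2))) (Z 3 (S (M (M (M (V 0) (M (V 1) (V 3))) (V 2)) (V 3)) (M (M (V 0) (M (V 1) (V 3))) (M (V 2) (V 3)))))),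
    (S (S (S (S (M (M (M (M (V 0) (V 1)) (V 3)) (V 2)) (V 3)) (M (V 3) (M (M (M (V 0) (V 1)) (V 3)) (V 2)))) (M (M (M (V 0) (V 1)) (V 3)) (S (M (V 2) (V 3)) (M (V 3) (V 2))))) (M (S (M (M (M (V 0) (V 1)) (V 3)) (V 3)) (M (V 3) (M (M (V 0) (V 1)) (V 3)))) (V 2))) (Z 3 (S (M (M (M (M (V 0) (V 1)) (V 3)) (V 2)) (V 3)) (M (M (M (V 0) (V 1)) (V 3)) (M (V 2) (V 3))))))]
    (Z 4 (P (S (S (M (M (S (S (M (M (V 0) (V 1)) (V 3)) (M (V 0) (M (V 1) (V 3)))) (M (S (M (V 1) (V 3)) (M (V 3) (V 1))) (V 0))) (V 2)) (V 3)) (M (S (S (M (M (V 0) (V 1)) (V 3)) (M (V 0) (M (V 1) (V 3)))) (M (S (M (V 1) (V 3)) (M (V 3) (V 1))) (V 0))) (M (V 2) (V 3)))) (M (V 0) (M (S (M (M (V 1) (V 2)) (V 3)) (M (V 1) (M (V 2) (V 3)))) (V 3)))) (M (V 3) (M (V 0) (S (M (M (V 1) (V 2)) (V 3)) (M (V 1) (M (V 2) (V 3))))))))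
    [(4, (M (V 3) (M (V 0) (L (V 1) (V 2) (V 3))))),
     (-1, (M (V 3) (L (V 1) (M (V 0) (V 2)) (V 3)))),
     (4, (M (V 3) (H 0))),
     (-1, (M (V 3) (H 1))),
     (-3, (M (V 0) (M (L (V 1) (V 2) (V 3)) (V 3)))),
     (-1, (M (V 0) (M (H 2) (V 3)))),
     (-2, (M (V 0) (L (V 2) (M (V 3) (V 1)) (V 3)))),
     (1, (M (V 0) (L (V 2) (M (V 1) (V 3)) (V 3)))),
     (-2, (M (V 0) (H 3))),
     (1, (M (V 0) (H 4))),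
     (1, (M (M (V 3) (L (V 0) (V 1) (V 3))) (V 2))),
     (1, (M (M (V 3) (H 5)) (V 2))),
     (2, (M (L (V 3) (M (V 1) (V 3)) (V 0)) (V 2))),
     (-2, (M (H 6) (V 2))),
     (-1, (M (H 7) (V 2))),
     (2, (M (H 8) (V 2))),
     (2, (M (H 9) (V 2))),
     (-1, (M (H 10) (V 2))),
     (-2, (L (V 2) (M (M (V 3) (V 1)) (V 0)) (V 3))),
     (2, (L (V 3) (M (M (V 1) (V 3)) (V 0)) (V 2))),
     (2, (L (V 3) (M (V 0) (M (V 1) (V 3))) (V 2))),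
     (-2, (L (V 3) (M (M (V 0) (V 1)) (V 3)) (V 2))),
     (-2, (L (V 3) (M (V 1) (V 3)) (M (V 0) (V 2)))),
     (2, (H 11)),
     (-4, (H 12)),
     (1, (H 13)),
     (-2, (H 14)),
     (-2, (H 15)),
     (1, (H 16)),
     (2, (H 17)),
     (-4, (H 18)),
     (2, (H 19)),
     (2, (H 20)),
     (-2, (H 21))]
    (by decide +kernel) ⟨hA, fun a => zero_smul _ a⟩ (env [p, u, v, y]) ⟨(lem_asr_mul hA p v u y),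
      (lem_com_mul hA u y (p * v)),
      (lem_com_mul hA v y u),
      (lem_asr_mul hA v y u y),
      (lem_com_mul hA v y (u * y)),
      (lem_com_mul hA u y p),
      (lem_asr_mul hA y p u y),
      (lem_com_mul hA y u (y * p)),
      (lem_com_mul hA y (y * u) p),
      (lem_com_mul hA p (y * u) y),
      (lem_com_mul hA (y * p) u y),
      (lem_asr_mul hA y (p * v) u y),
      (lem_asr_mul hA p v (y * u) y),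
      (lem_com_mul hA y u (y * (p * v))),
      (lem_com_mul hA y (y * u) (p * v)),
      (lem_com_mul hA (p * v) (y * u) y),
      (lem_com_mul hA (y * (p * v)) u y),
      (lem_com_mul hA ((y * u) * p) y v),
      (lem_com_mul hA ((y * u) * p) v y),
      (lem_com_mul hA ((u * y) * p) v y),
      (lem_com_mul hA (p * (u * y)) v y),
      (lem_com_mul hA ((p * u) * y) v y),
      trivial⟩

theorem cert_cyc {A : Type*} [NonUnitalNonAssocRing A] (hA : IsAlt A) (p a b c y : A)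
    (h2 : (com ((asr p a y) - ((com a y) * p)) y) = 0)
    (h5 : (com ((asr p b y) - ((com b y) * p)) y) = 0)
    (h8 : (com ((asr p c y) - ((com c y) * p)) y) = 0)
    (h28 : (((p * (com (a * (b * c)) y)) * y) - ((y * p) * (com (a * (b * c)) y))) = 0)
    (h31 : (((p * (com (a * (c * b)) y)) * y) - ((y * p) * (com (a * (c * b)) y))) = 0)
    (h34 : (((p * (com (b * (a * c)) y)) * y) - ((y * p) * (com (b * (a * c)) y))) = 0)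
    (h37 : (((p * (com (b * (c * a)) y)) * y) - ((y * p) * (com (b * (c * a)) y))) = 0)
    (h40 : (((p * (com (c * (a * b)) y)) * y) - ((y * p) * (com (c * (a * b)) y))) = 0)
    (h43 : (((p * (com (c * (b * a)) y)) * y) - ((y * p) * (com (c * (b * a)) y))) = 0)
    (h46 : (((p * (com ((a * b) * c) y)) * y) - ((y * p) * (com ((a * b) * c) y))) = 0)
    (h49 : (((p * (com ((b * a) * c) y)) * y) - ((y * p) * (com ((b * a) * c) y))) = 0)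
    (h52 : (((p * (com ((a * c) * b) y)) * y) - ((y * p) * (com ((a * c) * b) y))) = 0)
    (h55 : (((p * (com ((c * a) * b) y)) * y) - ((y * p) * (com ((c * a) * b) y))) = 0)
    (h58 : (((p * (com ((b * c) * a) y)) * y) - ((y * p) * (com ((b * c) * a) y))) = 0)
    (h61 : (((p * (com ((c * b) * a) y)) * y) - ((y * p) * (com ((c * b) * a) y))) = 0)
    (h63 : ((asr ((asr p a y) - ((com a y) * p)) b y) + (asr ((asr p b y) - ((com b y) * p)) a y)) = 0)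
    (h65 : ((asr ((asr p a y) - ((com a y) * p)) c y) + (asr ((asr p c y) - ((com c y) * p)) a y)) = 0)
    (h67 : ((4 : ℤ) • (((asr ((asr p a y) - ((com a y) * p)) (b * c) y) - (p * ((asr a (b * c) y) * y))) + (y * (p * (asr a (b * c) y))))) = 0)
    (h68 : ((4 : ℤ) • (((asr ((asr p a y) - ((com a y) * p)) (c * b) y) - (p * ((asr a (c * b) y) * y))) + (y * (p * (asr a (c * b) y))))) = 0)
    (h70 : ((asr ((asr p b y) - ((com b y) * p)) c y) + (asr ((asr p c y) - ((com c y) * p)) b y)) = 0)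
    (h72 : ((4 : ℤ) • (((asr ((asr p b y) - ((com b y) * p)) (a * c) y) - (p * ((asr b (a * c) y) * y))) + (y * (p * (asr b (a * c) y))))) = 0)
    (h73 : ((4 : ℤ) • (((asr ((asr p b y) - ((com b y) * p)) (c * a) y) - (p * ((asr b (c * a) y) * y))) + (y * (p * (asr b (c * a) y))))) = 0)
    (h76 : ((4 : ℤ) • (((asr ((asr p c y) - ((com c y) * p)) (a * b) y) - (p * ((asr c (a * b) y) * y))) + (y * (p * (asr c (a * b) y))))) = 0)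
    (h77 : ((4 : ℤ) • (((asr ((asr p c y) - ((com c y) * p)) (b * a) y) - (p * ((asr c (b * a) y) * y))) + (y * (p * (asr c (b * a) y))))) = 0)
    (h78 : ((asr ((asr p (a * b) y) - ((com (a * b) y) * p)) c y) + (asr ((asr p c y) - ((com c y) * p)) (a * b) y)) = 0)
    (h79 : ((4 : ℤ) • (((asr ((asr p (a * b) y) - ((com (a * b) y) * p)) c y) - (p * ((asr (a * b) c y) * y))) + (y * (p * (asr (a * b) c y))))) = 0)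
    (h80 : ((asr ((asr p (b * a) y) - ((com (b * a) y) * p)) c y) + (asr ((asr p c y) - ((com c y) * p)) (b * a) y)) = 0)
    (h81 : ((4 : ℤ) • (((asr ((asr p (b * a) y) - ((com (b * a) y) * p)) c y) - (p * ((asr (b * a) c y) * y))) + (y * (p * (asr (b * a) c y))))) = 0)
    (h82 : ((asr ((asr p (a * c) y) - ((com (a * c) y) * p)) b y) + (asr ((asr p b y) - ((com b y) * p)) (a * c) y)) = 0)
    (h83 : ((4 : ℤ) • (((asr ((asr p (a * c) y) - ((com (a * c) y) * p)) b y) - (p * ((asr (a * c) b y) * y))) + (y * (p * (asr (a * c) b y))))) = 0)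
    (h84 : ((asr ((asr p (c * a) y) - ((com (c * a) y) * p)) b y) + (asr ((asr p b y) - ((com b y) * p)) (c * a) y)) = 0)
    (h85 : ((4 : ℤ) • (((asr ((asr p (c * a) y) - ((com (c * a) y) * p)) b y) - (p * ((asr (c * a) b y) * y))) + (y * (p * (asr (c * a) b y))))) = 0)
    (h86 : ((asr ((asr p (b * c) y) - ((com (b * c) y) * p)) a y) + (asr ((asr p a y) - ((com a y) * p)) (b * c) y)) = 0)
    (h87 : ((4 : ℤ) • (((asr ((asr p (b * c) y) - ((com (b * c) y) * p)) a y) - (p * ((asr (b * c) a y) * y))) + (y * (p * (asr (b * c) a y))))) = 0)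
    (h88 : ((asr ((asr p (c * b) y) - ((com (c * b) y) * p)) a y) + (asr ((asr p a y) - ((com a y) * p)) (c * b) y)) = 0)
    (h89 : ((4 : ℤ) • (((asr ((asr p (c * b) y) - ((com (c * b) y) * p)) a y) - (p * ((asr (c * b) a y) * y))) + (y * (p * (asr (c * b) a y))))) = 0) :
    ((8 : ℤ) • (((com (asr ((asr p a y) - ((com a y) * p)) b y) c) + (com (asr ((asr p b y) - ((com b y) * p)) c y) a)) + (com (asr ((asr p c y) - ((com c y) * p)) a y) b))) = 0 :=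
  Cert.eq_zero_of_check 0 [(S (M (M (V 0) (S (M (M (V 1) (M (V 2) (V 3))) (V 4)) (M (V 4) (M (V 1) (M (V 2) (V 3)))))) (V 4)) (M (M (V 4) (V 0)) (S (M (M (V 1) (M (V 2) (V 3))) (V 4)) (M (V 4) (M (V 1) (M (V 2) (V 3))))))),
    (S (M (M (V 0) (S (M (M (V 1) (M (V 3) (V 2))) (V 4)) (M (V 4) (M (V 1) (M (V 3) (V 2)))))) (V 4)) (M (M (V 4) (V 0)) (S (M (M (V 1) (M (V 3) (V 2))) (V 4)) (M (V 4) (M (V 1) (M (V 3) (V 2))))))),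
    (S (M (M (V 0) (S (M (M (V 2) (M (V 1) (V 3))) (V 4)) (M (V 4) (M (V 2) (M (V 1) (V 3)))))) (V 4)) (M (M (V 4) (V 0)) (S (M (M (V 2) (M (V 1) (V 3))) (V 4)) (M (V 4) (M (V 2) (M (V 1) (V 3))))))),
    (S (M (M (V 0) (S (M (M (V 2) (M (V 3) (V 1))) (V 4)) (M (V 4) (M (V 2) (M (V 3) (V 1)))))) (V 4)) (M (M (V 4) (V 0)) (S (M (M (V 2) (M (V 3) (V 1))) (V 4)) (M (V 4) (M (V 2) (M (V 3) (V 1))))))),
    (S (M (M (V 0) (S (M (M (V 3) (M (V 1) (V 2))) (V 4)) (M (V 4) (M (V 3) (M (V 1) (V 2)))))) (V 4)) (M (M (V 4) (V 0)) (S (M (M (V 3) (M (V 1) (V 2))) (V 4)) (M (V 4) (M (V 3) (M (V 1) (V 2))))))),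
    (S (M (M (V 0) (S (M (M (V 3) (M (V 2) (V 1))) (V 4)) (M (V 4) (M (V 3) (M (V 2) (V 1)))))) (V 4)) (M (M (V 4) (V 0)) (S (M (M (V 3) (M (V 2) (V 1))) (V 4)) (M (V 4) (M (V 3) (M (V 2) (V 1))))))),
    (S (M (M (V 0) (S (M (M (M (V 1) (V 2)) (V 3)) (V 4)) (M (V 4) (M (M (V 1) (V 2)) (V 3))))) (V 4)) (M (M (V 4) (V 0)) (S (M (M (M (V 1) (V 2)) (V 3)) (V 4)) (M (V 4) (M (M (V 1) (V 2)) (V 3)))))),
    (S (M (M (V 0) (S (M (M (M (V 2) (V 1)) (V 3)) (V 4)) (M (V 4) (M (M (V 2) (V 1)) (V 3))))) (V 4)) (M (M (V 4) (V 0)) (S (M (M (M (V 2) (V 1)) (V 3)) (V 4)) (M (V 4) (M (M (V 2) (V 1)) (V 3)))))),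
    (S (M (M (V 0) (S (M (M (M (V 1) (V 3)) (V 2)) (V 4)) (M (V 4) (M (M (V 1) (V 3)) (V 2))))) (V 4)) (M (M (V 4) (V 0)) (S (M (M (M (V 1) (V 3)) (V 2)) (V 4)) (M (V 4) (M (M (V 1) (V 3)) (V 2)))))),
    (S (M (M (V 0) (S (M (M (M (V 3) (V 1)) (V 2)) (V 4)) (M (V 4) (M (M (V 3) (V 1)) (V 2))))) (V 4)) (M (M (V 4) (V 0)) (S (M (M (M (V 3) (V 1)) (V 2)) (V 4)) (M (V 4) (M (M (V 3) (V 1)) (V 2)))))),
    (S (M (M (V 0) (S (M (M (M (V 2) (V 3)) (V 1)) (V 4)) (M (V 4) (M (M (V 2) (V 3)) (V 1))))) (V 4)) (M (M (V 4) (V 0)) (S (M (M (M (V 2) (V 3)) (V 1)) (V 4)) (M (V 4) (M (M (V 2) (V 3)) (V 1)))))),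
    (S (M (M (V 0) (S (M (M (M (V 3) (V 2)) (V 1)) (V 4)) (M (V 4) (M (M (V 3) (V 2)) (V 1))))) (V 4)) (M (M (V 4) (V 0)) (S (M (M (M (V 3) (V 2)) (V 1)) (V 4)) (M (V 4) (M (M (V 3) (V 2)) (V 1)))))),
    (Z 4 (P (S (S (M (M (S (S (M (M (V 0) (V 1)) (V 4)) (M (V 0) (M (V 1) (V 4)))) (M (S (M (V 1) (V 4)) (M (V 4) (V 1))) (V 0))) (M (V 2) (V 3))) (V 4)) (M (S (S (M (M (V 0) (V 1)) (V 4)) (M (V 0) (M (V 1) (V 4)))) (M (S (M (V 1) (V 4)) (M (V 4) (V 1))) (V 0))) (M (M (V 2) (V 3)) (V 4)))) (M (V 0) (M (S (M (M (V 1) (M (V 2) (V 3))) (V 4)) (M (V 1) (M (M (V 2) (V 3)) (V 4)))) (V 4)))) (M (V 4) (M (V 0) (S (M (M (V 1) (M (V 2) (V 3))) (V 4)) (M (V 1) (M (M (V 2) (V 3)) (V 4)))))))),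
    (Z 4 (P (S (S (M (M (S (S (M (M (V 0) (V 1)) (V 4)) (M (V 0) (M (V 1) (V 4)))) (M (S (M (V 1) (V 4)) (M (V 4) (V 1))) (V 0))) (M (V 3) (V 2))) (V 4)) (M (S (S (M (M (V 0) (V 1)) (V 4)) (M (V 0) (M (V 1) (V 4)))) (M (S (M (V 1) (V 4)) (M (V 4) (V 1))) (V 0))) (M (M (V 3) (V 2)) (V 4)))) (M (V 0) (M (S (M (M (V 1) (M (V 3) (V 2))) (V 4)) (M (V 1) (M (M (V 3) (V 2)) (V 4)))) (V 4)))) (M (V 4) (M (V 0) (S (M (M (V 1) (M (V 3) (V 2))) (V 4)) (M (V 1) (M (M (V 3) (V 2)) (V 4)))))))),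
    (Z 4 (P (S (S (M (M (S (S (M (M (V 0) (V 2)) (V 4)) (M (V 0) (M (V 2) (V 4)))) (M (S (M (V 2) (V 4)) (M (V 4) (V 2))) (V 0))) (M (V 1) (V 3))) (V 4)) (M (S (S (M (M (V 0) (V 2)) (V 4)) (M (V 0) (M (V 2) (V 4)))) (M (S (M (V 2) (V 4)) (M (V 4) (V 2))) (V 0))) (M (M (V 1) (V 3)) (V 4)))) (M (V 0) (M (S (M (M (V 2) (M (V 1) (V 3))) (V 4)) (M (V 2) (M (M (V 1) (V 3)) (V 4)))) (V 4)))) (M (V 4) (M (V 0) (S (M (M (V 2) (M (V 1) (V 3))) (V 4)) (M (V 2) (M (M (V 1) (V 3)) (V 4)))))))),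
    (Z 4 (P (S (S (M (M (S (S (M (M (V 0) (V 2)) (V 4)) (M (V 0) (M (V 2) (V 4)))) (M (S (M (V 2) (V 4)) (M (V 4) (V 2))) (V 0))) (M (V 3) (V 1))) (V 4)) (M (S (S (M (M (V 0) (V 2)) (V 4)) (M (V 0) (M (V 2) (V 4)))) (M (S (M (V 2) (V 4)) (M (V 4) (V 2))) (V 0))) (M (M (V 3) (V 1)) (V 4)))) (M (V 0) (M (S (M (M (V 2) (M (V 3) (V 1))) (V 4)) (M (V 2) (M (M (V 3) (V 1)) (V 4)))) (V 4)))) (M (V 4) (M (V 0) (S (M (M (V 2) (M (V 3) (V 1))) (V 4)) (M (V 2) (M (M (V 3) (V 1)) (V 4)))))))),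
    (Z 4 (P (S (S (M (M (S (S (M (M (V 0) (V 3)) (V 4)) (M (V 0) (M (V 3) (V 4)))) (M (S (M (V 3) (V 4)) (M (V 4) (V 3))) (V 0))) (M (V 1) (V 2))) (V 4)) (M (S (S (M (M (V 0) (V 3)) (V 4)) (M (V 0) (M (V 3) (V 4)))) (M (S (M (V 3) (V 4)) (M (V 4) (V 3))) (V 0))) (M (M (V 1) (V 2)) (V 4)))) (M (V 0) (M (S (M (M (V 3) (M (V 1) (V 2))) (V 4)) (M (V 3) (M (M (V 1) (V 2)) (V 4)))) (V 4)))) (M (V 4) (M (V 0) (S (M (M (V 3) (M (V 1) (V 2))) (V 4)) (M (V 3) (M (M (V 1) (V 2)) (V 4)))))))),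
    (Z 4 (P (S (S (M (M (S (S (M (M (V 0) (V 3)) (V 4)) (M (V 0) (M (V 3) (V 4)))) (M (S (M (V 3) (V 4)) (M (V 4) (V 3))) (V 0))) (M (V 2) (V 1))) (V 4)) (M (S (S (M (M (V 0) (V 3)) (V 4)) (M (V 0) (M (V 3) (V 4)))) (M (S (M (V 3) (V 4)) (M (V 4) (V 3))) (V 0))) (M (M (V 2) (V 1)) (V 4)))) (M (V 0) (M (S (M (M (V 3) (M (V 2) (V 1))) (V 4)) (M (V 3) (M (M (V 2) (V 1)) (V 4)))) (V 4)))) (M (V 4) (M (V 0) (S (M (M (V 3) (M (V 2) (V 1))) (V 4)) (M (V 3) (M (M (V 2) (V 1)) (V 4)))))))),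
    (P (S (M (M (S (S (M (M (V 0) (M (V 1) (V 2))) (V 4)) (M (V 0) (M (M (V 1) (V 2)) (V 4)))) (M (S (M (M (V 1) (V 2)) (V 4)) (M (V 4) (M (V 1) (V 2)))) (V 0))) (V 3)) (V 4)) (M (S (S (M (M (V 0) (M (V 1) (V 2))) (V 4)) (M (V 0) (M (M (V 1) (V 2)) (V 4)))) (M (S (M (M (V 1) (V 2)) (V 4)) (M (V 4) (M (V 1) (V 2)))) (V 0))) (M (V 3) (V 4)))) (S (M (M (S (S (M (M (V 0) (V 3)) (V 4)) (M (V 0) (M (V 3) (V 4)))) (M (S (M (V 3) (V 4)) (M (V 4) (V 3))) (V 0))) (M (V 1) (V 2))) (V 4)) (M (S (S (M (M (V 0) (V 3)) (V 4)) (M (V 0) (M (V 3) (V 4)))) (M (S (M (V 3) (V 4)) (M (V 4) (V 3))) (V 0))) (M (M (V 1) (V 2)) (V 4))))),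
    (Z 4 (P (S (S (M (M (S (S (M (M (V 0) (M (V 1) (V 2))) (V 4)) (M (V 0) (M (M (V 1) (V 2)) (V 4)))) (M (S (M (M (V 1) (V 2)) (V 4)) (M (V 4) (M (V 1) (V 2)))) (V 0))) (V 3)) (V 4)) (M (S (S (M (M (V 0) (M (V 1) (V 2))) (V 4)) (M (V 0) (M (M (V 1) (V 2)) (V 4)))) (M (S (M (M (V 1) (V 2)) (V 4)) (M (V 4) (M (V 1) (V 2)))) (V 0))) (M (V 3) (V 4)))) (M (V 0) (M (S (M (M (M (V 1) (V 2)) (V 3)) (V 4)) (M (M (V 1) (V 2)) (M (V 3) (V 4)))) (V 4)))) (M (V 4) (M (V 0) (S (M (M (M (V 1) (V 2)) (V 3)) (V 4)) (M (M (V 1) (V 2)) (M (V 3) (V 4)))))))),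
    (P (S (M (M (S (S (M (M (V 0) (M (V 2) (V 1))) (V 4)) (M (V 0) (M (M (V 2) (V 1)) (V 4)))) (M (S (M (M (V 2) (V 1)) (V 4)) (M (V 4) (M (V 2) (V 1)))) (V 0))) (V 3)) (V 4)) (M (S (S (M (M (V 0) (M (V 2) (V 1))) (V 4)) (M (V 0) (M (M (V 2) (V 1)) (V 4)))) (M (S (M (M (V 2) (V 1)) (V 4)) (M (V 4) (M (V 2) (V 1)))) (V 0))) (M (V 3) (V 4)))) (S (M (M (S (S (M (M (V 0) (V 3)) (V 4)) (M (V 0) (M (V 3) (V 4)))) (M (S (M (V 3) (V 4)) (M (V 4) (V 3))) (V 0))) (M (V 2) (V 1))) (V 4)) (M (S (S (M (M (V 0) (V 3)) (V 4)) (M (V 0) (M (V 3) (V 4)))) (M (S (M (V 3) (V 4)) (M (V 4) (V 3))) (V 0))) (M (M (V 2) (V 1)) (V 4))))),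
    (Z 4 (P (S (S (M (M (S (S (M (M (V 0) (M (V 2) (V 1))) (V 4)) (M (V 0) (M (M (V 2) (V 1)) (V 4)))) (M (S (M (M (V 2) (V 1)) (V 4)) (M (V 4) (M (V 2) (V 1)))) (V 0))) (V 3)) (V 4)) (M (S (S (M (M (V 0) (M (V 2) (V 1))) (V 4)) (M (V 0) (M (M (V 2) (V 1)) (V 4)))) (M (S (M (M (V 2) (V 1)) (V 4)) (M (V 4) (M (V 2) (V 1)))) (V 0))) (M (V 3) (V 4)))) (M (V 0) (M (S (M (M (M (V 2) (V 1)) (V 3)) (V 4)) (M (M (V 2) (V 1)) (M (V 3) (V 4)))) (V 4)))) (M (V 4) (M (V 0) (S (M (M (M (V 2) (V 1)) (V 3)) (V 4)) (M (M (V 2) (V 1)) (M (V 3) (V 4)))))))),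
    (P (S (M (M (S (S (M (M (V 0) (M (V 1) (V 3))) (V 4)) (M (V 0) (M (M (V 1) (V 3)) (V 4)))) (M (S (M (M (V 1) (V 3)) (V 4)) (M (V 4) (M (V 1) (V 3)))) (V 0))) (V 2)) (V 4)) (M (S (S (M (M (V 0) (M (V 1) (V 3))) (V 4)) (M (V 0) (M (M (V 1) (V 3)) (V 4)))) (M (S (M (M (V 1) (V 3)) (V 4)) (M (V 4) (M (V 1) (V 3)))) (V 0))) (M (V 2) (V 4)))) (S (M (M (S (S (M (M (V 0) (V 2)) (V 4)) (M (V 0) (M (V 2) (V 4)))) (M (S (M (V 2) (V 4)) (M (V 4) (V 2))) (V 0))) (M (V 1) (V 3))) (V 4)) (M (S (S (M (M (V 0) (V 2)) (V 4)) (M (V 0) (M (V 2) (V 4)))) (M (S (M (V 2) (V 4)) (M (V 4) (V 2))) (V 0))) (M (M (V 1) (V 3)) (V 4))))),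
    (Z 4 (P (S (S (M (M (S (S (M (M (V 0) (M (V 1) (V 3))) (V 4)) (M (V 0) (M (M (V 1) (V 3)) (V 4)))) (M (S (M (M (V 1) (V 3)) (V 4)) (M (V 4) (M (V 1) (V 3)))) (V 0))) (V 2)) (V 4)) (M (S (S (M (M (V 0) (M (V 1) (V 3))) (V 4)) (M (V 0) (M (M (V 1) (V 3)) (V 4)))) (M (S (M (M (V 1) (V 3)) (V 4)) (M (V 4) (M (V 1) (V 3)))) (V 0))) (M (V 2) (V 4)))) (M (V 0) (M (S (M (M (M (V 1) (V 3)) (V 2)) (V 4)) (M (M (V 1) (V 3)) (M (V 2) (V 4)))) (V 4)))) (M (V 4) (M (V 0) (S (M (M (M (V 1) (V 3)) (V 2)) (V 4)) (M (M (V 1) (V 3)) (M (V 2) (V 4)))))))),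
    (P (S (M (M (S (S (M (M (V 0) (M (V 3) (V 1))) (V 4)) (M (V 0) (M (M (V 3) (V 1)) (V 4)))) (M (S (M (M (V 3) (V 1)) (V 4)) (M (V 4) (M (V 3) (V 1)))) (V 0))) (V 2)) (V 4)) (M (S (S (M (M (V 0) (M (V 3) (V 1))) (V 4)) (M (V 0) (M (M (V 3) (V 1)) (V 4)))) (M (S (M (M (V 3) (V 1)) (V 4)) (M (V 4) (M (V 3) (V 1)))) (V 0))) (M (V 2) (V 4)))) (S (M (M (S (S (M (M (V 0) (V 2)) (V 4)) (M (V 0) (M (V 2) (V 4)))) (M (S (M (V 2) (V 4)) (M (V 4) (V 2))) (V 0))) (M (V 3) (V 1))) (V 4)) (M (S (S (M (M (V 0) (V 2)) (V 4)) (M (V 0) (M (V 2) (V 4)))) (M (S (M (V 2) (V 4)) (M (V 4) (V 2))) (V 0))) (M (M (V 3) (V 1)) (V 4))))),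
    (Z 4 (P (S (S (M (M (S (S (M (M (V 0) (M (V 3) (V 1))) (V 4)) (M (V 0) (M (M (V 3) (V 1)) (V 4)))) (M (S (M (M (V 3) (V 1)) (V 4)) (M (V 4) (M (V 3) (V 1)))) (V 0))) (V 2)) (V 4)) (M (S (S (M (M (V 0) (M (V 3) (V 1))) (V 4)) (M (V 0) (M (M (V 3) (V 1)) (V 4)))) (M (S (M (M (V 3) (V 1)) (V 4)) (M (V 4) (M (V 3) (V 1)))) (V 0))) (M (V 2) (V 4)))) (M (V 0) (M (S (M (M (M (V 3) (V 1)) (V 2)) (V 4)) (M (M (V 3) (V 1)) (M (V 2) (V 4)))) (V 4)))) (M (V 4) (M (V 0) (S (M (M (M (V 3) (V 1)) (V 2)) (V 4)) (M (M (V 3) (V 1)) (M (V 2) (V 4)))))))),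
    (P (S (M (M (S (S (M (M (V 0) (M (V 2) (V 3))) (V 4)) (M (V 0) (M (M (V 2) (V 3)) (V 4)))) (M (S (M (M (V 2) (V 3)) (V 4)) (M (V 4) (M (V 2) (V 3)))) (V 0))) (V 1)) (V 4)) (M (S (S (M (M (V 0) (M (V 2) (V 3))) (V 4)) (M (V 0) (M (M (V 2) (V 3)) (V 4)))) (M (S (M (M (V 2) (V 3)) (V 4)) (M (V 4) (M (V 2) (V 3)))) (V 0))) (M (V 1) (V 4)))) (S (M (M (S (S (M (M (V 0) (V 1)) (V 4)) (M (V 0) (M (V 1) (V 4)))) (M (S (M (V 1) (V 4)) (M (V 4) (V 1))) (V 0))) (M (V 2) (V 3))) (V 4)) (M (S (S (M (M (V 0) (V 1)) (V 4)) (M (V 0) (M (V 1) (V 4)))) (M (S (M (V 1) (V 4)) (M (V 4) (V 1))) (V 0))) (M (M (V 2) (V 3)) (V 4))))),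
    (Z 4 (P (S (S (M (M (S (S (M (M (V 0) (M (V 2) (V 3))) (V 4)) (M (V 0) (M (M (V 2) (V 3)) (V 4)))) (M (S (M (M (V 2) (V 3)) (V 4)) (M (V 4) (M (V 2) (V 3)))) (V 0))) (V 1)) (V 4)) (M (S (S (M (M (V 0) (M (V 2) (V 3))) (V 4)) (M (V 0) (M (M (V 2) (V 3)) (V 4)))) (M (S (M (M (V 2) (V 3)) (V 4)) (M (V 4) (M (V 2) (V 3)))) (V 0))) (M (V 1) (V 4)))) (M (V 0) (M (S (M (M (M (V 2) (V 3)) (V 1)) (V 4)) (M (M (V 2) (V 3)) (M (V 1) (V 4)))) (V 4)))) (M (V 4) (M (V 0) (S (M (M (M (V 2) (V 3)) (V 1)) (V 4)) (M (M (V 2) (V 3)) (M (V 1) (V 4)))))))),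
    (P (S (M (M (S (S (M (M (V 0) (M (V 3) (V 2))) (V 4)) (M (V 0) (M (M (V 3) (V 2)) (V 4)))) (M (S (M (M (V 3) (V 2)) (V 4)) (M (V 4) (M (V 3) (V 2)))) (V 0))) (V 1)) (V 4)) (M (S (S (M (M (V 0) (M (V 3) (V 2))) (V 4)) (M (V 0) (M (M (V 3) (V 2)) (V 4)))) (M (S (M (M (V 3) (V 2)) (V 4)) (M (V 4) (M (V 3) (V 2)))) (V 0))) (M (V 1) (V 4)))) (S (M (M (S (S (M (M (V 0) (V 1)) (V 4)) (M (V 0) (M (V 1) (V 4)))) (M (S (M (V 1) (V 4)) (M (V 4) (V 1))) (V 0))) (M (V 3) (V 2))) (V 4)) (M (S (S (M (M (V 0) (V 1)) (V 4)) (M (V 0) (M (V 1) (V 4)))) (M (S (M (V 1) (V 4)) (M (V 4) (V 1))) (V 0))) (M (M (V 3) (V 2)) (V 4))))),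
    (Z 4 (P (S (S (M (M (S (S (M (M (V 0) (M (V 3) (V 2))) (V 4)) (M (V 0) (M (M (V 3) (V 2)) (V 4)))) (M (S (M (M (V 3) (V 2)) (V 4)) (M (V 4) (M (V 3) (V 2)))) (V 0))) (V 1)) (V 4)) (M (S (S (M (M (V 0) (M (V 3) (V 2))) (V 4)) (M (V 0) (M (M (V 3) (V 2)) (V 4)))) (M (S (M (M (V 3) (V 2)) (V 4)) (M (V 4) (M (V 3) (V 2)))) (V 0))) (M (V 1) (V 4)))) (M (V 0) (M (S (M (M (M (V 3) (V 2)) (V 1)) (V 4)) (M (M (V 3) (V 2)) (M (V 1) (V 4)))) (V 4)))) (M (V 4) (M (V 0) (S (M (M (M (V 3) (V 2)) (V 1)) (V 4)) (M (M (V 3) (V 2)) (M (V 1) (V 4)))))))),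
    (S (S (S (S (M (M (V 4) (V 2)) (V 1)) (M (V 1) (M (V 4) (V 2)))) (M (V 4) (S (M (V 2) (V 1)) (M (V 1) (V 2))))) (M (S (M (V 4) (V 1)) (M (V 1) (V 4))) (V 2))) (Z 3 (S (M (M (V 4) (V 2)) (V 1)) (M (V 4) (M (V 2) (V 1)))))),
    (S (S (S (S (M (M (V 2) (V 4)) (V 1)) (M (V 1) (M (V 2) (V 4)))) (M (V 2) (S (M (V 4) (V 1)) (M (V 1) (V 4))))) (M (S (M (V 2) (V 1)) (M (V 1) (V 2))) (V 4))) (Z 3 (S (M (M (V 2) (V 4)) (V 1)) (M (V 2) (M (V 4) (V 1)))))),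
    (S (S (S (S (M (M (V 1) (V 4)) (V 2)) (M (V 2) (M (V 1) (V 4)))) (M (V 1) (S (M (V 4) (V 2)) (M (V 2) (V 4))))) (M (S (M (V 1) (V 2)) (M (V 2) (V 1))) (V 4))) (Z 3 (S (M (M (V 1) (V 4)) (V 2)) (M (V 1) (M (V 4) (V 2)))))),
    (S (S (S (S (M (M (V 4) (V 3)) (V 1)) (M (V 1) (M (V 4) (V 3)))) (M (V 4) (S (M (V 3) (V 1)) (M (V 1) (V 3))))) (M (S (M (V 4) (V 1)) (M (V 1) (V 4))) (V 3))) (Z 3 (S (M (M (V 4) (V 3)) (V 1)) (M (V 4) (M (V 3) (V 1)))))),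
    (S (S (S (S (M (M (V 4) (V 1)) (V 3)) (M (V 3) (M (V 4) (V 1)))) (M (V 4) (S (M (V 1) (V 3)) (M (V 3) (V 1))))) (M (S (M (V 4) (V 3)) (M (V 3) (V 4))) (V 1))) (Z 3 (S (M (M (V 4) (V 1)) (V 3)) (M (V 4) (M (V 1) (V 3)))))),
    (S (S (S (S (M (M (V 3) (V 4)) (V 1)) (M (V 1) (M (V 3) (V 4)))) (M (V 3) (S (M (V 4) (V 1)) (M (V 1) (V 4))))) (M (S (M (V 3) (V 1)) (M (V 1) (V 3))) (V 4))) (Z 3 (S (M (M (V 3) (V 4)) (V 1)) (M (V 3) (M (V 4) (V 1)))))),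
    (S (S (S (S (M (M (V 1) (V 4)) (V 3)) (M (V 3) (M (V 1) (V 4)))) (M (V 1) (S (M (V 4) (V 3)) (M (V 3) (V 4))))) (M (S (M (V 1) (V 3)) (M (V 3) (V 1))) (V 4))) (Z 3 (S (M (M (V 1) (V 4)) (V 3)) (M (V 1) (M (V 4) (V 3)))))),
    (S (S (S (S (M (M (V 4) (V 3)) (V 2)) (M (V 2) (M (V 4) (V 3)))) (M (V 4) (S (M (V 3) (V 2)) (M (V 2) (V 3))))) (M (S (M (V 4) (V 2)) (M (V 2) (V 4))) (V 3))) (Z 3 (S (M (M (V 4) (V 3)) (V 2)) (M (V 4) (M (V 3) (V 2)))))),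
    (S (S (S (S (M (M (V 4) (V 2)) (V 3)) (M (V 3) (M (V 4) (V 2)))) (M (V 4) (S (M (V 2) (V 3)) (M (V 3) (V 2))))) (M (S (M (V 4) (V 3)) (M (V 3) (V 4))) (V 2))) (Z 3 (S (M (M (V 4) (V 2)) (V 3)) (M (V 4) (M (V 2) (V 3)))))),
    (S (S (S (S (M (M (V 3) (V 2)) (V 4)) (M (V 4) (M (V 3) (V 2)))) (M (V 3) (S (M (V 2) (V 4)) (M (V 4) (V 2))))) (M (S (M (V 3) (V 4)) (M (V 4) (V 3))) (V 2))) (Z 3 (S (M (M (V 3) (V 2)) (V 4)) (M (V 3) (M (V 2) (V 4)))))),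
    (S (S (S (S (M (M (V 2) (V 3)) (V 4)) (M (V 4) (M (V 2) (V 3)))) (M (V 2) (S (M (V 3) (V 4)) (M (V 4) (V 3))))) (M (S (M (V 2) (V 4)) (M (V 4) (V 2))) (V 3))) (Z 3 (S (M (M (V 2) (V 3)) (V 4)) (M (V 2) (M (V 3) (V 4)))))),
    (S (S (S (S (M (M (V 3) (V 4)) (V 2)) (M (V 2) (M (V 3) (V 4)))) (M (V 3) (S (M (V 4) (V 2)) (M (V 2) (V 4))))) (M (S (M (V 3) (V 2)) (M (V 2) (V 3))) (V 4))) (Z 3 (S (M (M (V 3) (V 4)) (V 2)) (M (V 3) (M (V 4) (V 2)))))),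
    (S (S (S (S (M (M (V 2) (V 4)) (V 3)) (M (V 3) (M (V 2) (V 4)))) (M (V 2) (S (M (V 4) (V 3)) (M (V 3) (V 4))))) (M (S (M (V 2) (V 3)) (M (V 3) (V 2))) (V 4))) (Z 3 (S (M (M (V 2) (V 4)) (V 3)) (M (V 2) (M (V 4) (V 3)))))),
    (S (S (S (S (M (M (V 3) (V 1)) (V 4)) (M (V 4) (M (V 3) (V 1)))) (M (V 3) (S (M (V 1) (V 4)) (M (V 4) (V 1))))) (M (S (M (V 3) (V 4)) (M (V 4) (V 3))) (V 1))) (Z 3 (S (M (M (V 3) (V 1)) (V 4)) (M (V 3) (M (V 1) (V 4)))))),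
    (S (S (S (S (M (M (V 1) (V 3)) (V 4)) (M (V 4) (M (V 1) (V 3)))) (M (V 1) (S (M (V 3) (V 4)) (M (V 4) (V 3))))) (M (S (M (V 1) (V 4)) (M (V 4) (V 1))) (V 3))) (Z 3 (S (M (M (V 1) (V 3)) (V 4)) (M (V 1) (M (V 3) (V 4)))))),
    (S (S (S (S (M (M (V 2) (V 1)) (V 4)) (M (V 4) (M (V 2) (V 1)))) (M (V 2) (S (M (V 1) (V 4)) (M (V 4) (V 1))))) (M (S (M (V 2) (V 4)) (M (V 4) (V 2))) (V 1))) (Z 3 (S (M (M (V 2) (V 1)) (V 4)) (M (V 2) (M (V 1) (V 4)))))),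
    (S (S (S (S (M (M (V 1) (V 2)) (V 4)) (M (V 4) (M (V 1) (V 2)))) (M (V 1) (S (M (V 2) (V 4)) (M (V 4) (V 2))))) (M (S (M (V 1) (V 4)) (M (V 4) (V 1))) (V 2))) (Z 3 (S (M (M (V 1) (V 2)) (V 4)) (M (V 1) (M (V 2) (V 4)))))),
    (P (S (S (S (M (M (M (V 4) (V 3)) (V 2)) (V 1)) (M (M (V 4) (V 3)) (M (V 2) (V 1)))) (M (V 4) (S (M (M (V 3) (V 2)) (V 1)) (M (V 3) (M (V 2) (V 1)))))) (M (S (M (M (V 4) (V 2)) (V 1)) (M (V 4) (M (V 2) (V 1)))) (V 3))) (S (M (M (S (M (V 2) (V 1)) (M (V 1) (V 2))) (V 4)) (V 3)) (M (S (M (V 2) (V 1)) (M (V 1) (V 2))) (M (V 4) (V 3))))),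
    (P (S (S (S (M (M (M (V 4) (V 3)) (V 1)) (V 2)) (M (M (V 4) (V 3)) (M (V 1) (V 2)))) (M (V 4) (S (M (M (V 3) (V 1)) (V 2)) (M (V 3) (M (V 1) (V 2)))))) (M (S (M (M (V 4) (V 1)) (V 2)) (M (V 4) (M (V 1) (V 2)))) (V 3))) (S (M (M (S (M (V 1) (V 2)) (M (V 2) (V 1))) (V 4)) (V 3)) (M (S (M (V 1) (V 2)) (M (V 2) (V 1))) (M (V 4) (V 3))))),
    (P (S (S (S (M (M (M (V 4) (V 2)) (V 3)) (V 1)) (M (M (V 4) (V 2)) (M (V 3) (V 1)))) (M (V 4) (S (M (M (V 2) (V 3)) (V 1)) (M (V 2) (M (V 3) (V 1)))))) (M (S (M (M (V 4) (V 3)) (V 1)) (M (V 4) (M (V 3) (V 1)))) (V 2))) (S (M (M (S (M (V 3) (V 1)) (M (V 1) (V 3))) (V 4)) (V 2)) (M (S (M (V 3) (V 1)) (M (V 1) (V 3))) (M (V 4) (V 2))))),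
    (P (S (S (S (M (M (M (V 4) (V 1)) (V 3)) (V 2)) (M (M (V 4) (V 1)) (M (V 3) (V 2)))) (M (V 4) (S (M (M (V 1) (V 3)) (V 2)) (M (V 1) (M (V 3) (V 2)))))) (M (S (M (M (V 4) (V 3)) (V 2)) (M (V 4) (M (V 3) (V 2)))) (V 1))) (S (M (M (S (M (V 3) (V 2)) (M (V 2) (V 3))) (V 4)) (V 1)) (M (S (M (V 3) (V 2)) (M (V 2) (V 3))) (M (V 4) (V 1))))),
    (P (S (S (S (M (M (M (V 4) (V 1)) (V 2)) (V 3)) (M (M (V 4) (V 1)) (M (V 2) (V 3)))) (M (V 4) (S (M (M (V 1) (V 2)) (V 3)) (M (V 1) (M (V 2) (V 3)))))) (M (S (M (M (V 4) (V 2)) (V 3)) (M (V 4) (M (V 2) (V 3)))) (V 1))) (S (M (M (S (M (V 2) (V 3)) (M (V 3) (V 2))) (V 4)) (V 1)) (M (S (M (V 2) (V 3)) (M (V 3) (V 2))) (M (V 4) (V 1))))),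
    (P (S (S (S (M (M (M (V 3) (V 2)) (V 1)) (V 4)) (M (M (V 3) (V 2)) (M (V 1) (V 4)))) (M (V 3) (S (M (M (V 2) (V 1)) (V 4)) (M (V 2) (M (V 1) (V 4)))))) (M (S (M (M (V 3) (V 1)) (V 4)) (M (V 3) (M (V 1) (V 4)))) (V 2))) (S (M (M (S (M (V 1) (V 4)) (M (V 4) (V 1))) (V 3)) (V 2)) (M (S (M (V 1) (V 4)) (M (V 4) (V 1))) (M (V 3) (V 2))))),
    (P (S (S (S (M (M (M (V 3) (V 1)) (V 2)) (V 4)) (M (M (V 3) (V 1)) (M (V 2) (V 4)))) (M (V 3) (S (M (M (V 1) (V 2)) (V 4)) (M (V 1) (M (V 2) (V 4)))))) (M (S (M (M (V 3) (V 2)) (V 4)) (M (V 3) (M (V 2) (V 4)))) (V 1))) (S (M (M (S (M (V 2) (V 4)) (M (V 4) (V 2))) (V 3)) (V 1)) (M (S (M (V 2) (V 4)) (M (V 4) (V 2))) (M (V 3) (V 1))))),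
    (P (S (S (S (M (M (M (V 2) (V 3)) (V 1)) (V 4)) (M (M (V 2) (V 3)) (M (V 1) (V 4)))) (M (V 2) (S (M (M (V 3) (V 1)) (V 4)) (M (V 3) (M (V 1) (V 4)))))) (M (S (M (M (V 2) (V 1)) (V 4)) (M (V 2) (M (V 1) (V 4)))) (V 3))) (S (M (M (S (M (V 1) (V 4)) (M (V 4) (V 1))) (V 2)) (V 3)) (M (S (M (V 1) (V 4)) (M (V 4) (V 1))) (M (V 2) (V 3))))),
    (P (S (S (S (M (M (M (V 2) (V 1)) (V 3)) (V 4)) (M (M (V 2) (V 1)) (M (V 3) (V 4)))) (M (V 2) (S (M (M (V 1) (V 3)) (V 4)) (M (V 1) (M (V 3) (V 4)))))) (M (S (M (M (V 2) (V 3)) (V 4)) (M (V 2) (M (V 3) (V 4)))) (V 1))) (S (M (M (S (M (V 3) (V 4)) (M (V 4) (V 3))) (V 2)) (V 1)) (M (S (M (V 3) (V 4)) (M (V 4) (V 3))) (M (V 2) (V 1))))),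
    (P (S (S (S (M (M (M (V 1) (V 3)) (V 2)) (V 4)) (M (M (V 1) (V 3)) (M (V 2) (V 4)))) (M (V 1) (S (M (M (V 3) (V 2)) (V 4)) (M (V 3) (M (V 2) (V 4)))))) (M (S (M (M (V 1) (V 2)) (V 4)) (M (V 1) (M (V 2) (V 4)))) (V 3))) (S (M (M (S (M (V 2) (V 4)) (M (V 4) (V 2))) (V 1)) (V 3)) (M (S (M (V 2) (V 4)) (M (V 4) (V 2))) (M (V 1) (V 3))))),
    (P (S (S (S (M (M (M (V 1) (V 2)) (V 3)) (V 4)) (M (M (V 1) (V 2)) (M (V 3) (V 4)))) (M (V 1) (S (M (M (V 2) (V 3)) (V 4)) (M (V 2) (M (V 3) (V 4)))))) (M (S (M (M (V 1) (V 3)) (V 4)) (M (V 1) (M (V 3) (V 4)))) (V 2))) (S (M (M (S (M (V 3) (V 4)) (M (V 4) (V 3))) (V 1)) (V 2)) (M (S (M (V 3) (V 4)) (M (V 4) (V 3))) (M (V 1) (V 2))))),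
    (S (S (S (S (M (M (V 4) (M (V 3) (V 2))) (V 1)) (M (V 1) (M (V 4) (M (V 3) (V 2))))) (M (V 4) (S (M (M (V 3) (V 2)) (V 1)) (M (V 1) (M (V 3) (V 2)))))) (M (S (M (V 4) (V 1)) (M (V 1) (V 4))) (M (V 3) (V 2)))) (Z 3 (S (M (M (V 4) (M (V 3) (V 2))) (V 1)) (M (V 4) (M (M (V 3) (V 2)) (V 1)))))),
    (S (S (S (S (M (M (V 4) (M (V 2) (V 3))) (V 1)) (M (V 1) (M (V 4) (M (V 2) (V 3))))) (M (V 4) (S (M (M (V 2) (V 3)) (V 1)) (M (V 1) (M (V 2) (V 3)))))) (M (S (M (V 4) (V 1)) (M (V 1) (V 4))) (M (V 2) (V 3)))) (Z 3 (S (M (M (V 4) (M (V 2) (V 3))) (V 1)) (M (V 4) (M (M (V 2) (V 3)) (V 1)))))),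
    (S (S (S (S (M (M (V 4) (M (V 3) (V 1))) (V 2)) (M (V 2) (M (V 4) (M (V 3) (V 1))))) (M (V 4) (S (M (M (V 3) (V 1)) (V 2)) (M (V 2) (M (V 3) (V 1)))))) (M (S (M (V 4) (V 2)) (M (V 2) (V 4))) (M (V 3) (V 1)))) (Z 3 (S (M (M (V 4) (M (V 3) (V 1))) (V 2)) (M (V 4) (M (M (V 3) (V 1)) (V 2)))))),
    (S (S (S (S (M (M (V 4) (M (V 1) (V 3))) (V 2)) (M (V 2) (M (V 4) (M (V 1) (V 3))))) (M (V 4) (S (M (M (V 1) (V 3)) (V 2)) (M (V 2) (M (V 1) (V 3)))))) (M (S (M (V 4) (V 2)) (M (V 2) (V 4))) (M (V 1) (V 3)))) (Z 3 (S (M (M (V 4) (M (V 1) (V 3))) (V 2)) (M (V 4) (M (M (V 1) (V 3)) (V 2)))))),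
    (S (S (S (S (M (M (V 4) (M (V 2) (V 1))) (V 3)) (M (V 3) (M (V 4) (M (V 2) (V 1))))) (M (V 4) (S (M (M (V 2) (V 1)) (V 3)) (M (V 3) (M (V 2) (V 1)))))) (M (S (M (V 4) (V 3)) (M (V 3) (V 4))) (M (V 2) (V 1)))) (Z 3 (S (M (M (V 4) (M (V 2) (V 1))) (V 3)) (M (V 4) (M (M (V 2) (V 1)) (V 3)))))),
    (S (S (S (S (M (M (V 4) (M (V 1) (V 2))) (V 3)) (M (V 3) (M (V 4) (M (V 1) (V 2))))) (M (V 4) (S (M (M (V 1) (V 2)) (V 3)) (M (V 3) (M (V 1) (V 2)))))) (M (S (M (V 4) (V 3)) (M (V 3) (V 4))) (M (V 1) (V 2)))) (Z 3 (S (M (M (V 4) (M (V 1) (V 2))) (V 3)) (M (V 4) (M (M (V 1) (V 2)) (V 3)))))),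
    (S (S (S (S (M (M (V 3) (V 2)) (M (V 4) (V 1))) (M (M (V 4) (V 1)) (M (V 3) (V 2)))) (M (V 3) (S (M (V 2) (M (V 4) (V 1))) (M (M (V 4) (V 1)) (V 2))))) (M (S (M (V 3) (M (V 4) (V 1))) (M (M (V 4) (V 1)) (V 3))) (V 2))) (Z 3 (S (M (M (V 3) (V 2)) (M (V 4) (V 1))) (M (V 3) (M (V 2) (M (V 4) (V 1))))))),
    (S (S (S (S (M (M (V 3) (V 2)) (M (V 1) (V 4))) (M (M (V 1) (V 4)) (M (V 3) (V 2)))) (M (V 3) (S (M (V 2) (M (V 1) (V 4))) (M (M (V 1) (V 4)) (V 2))))) (M (S (M (V 3) (M (V 1) (V 4))) (M (M (V 1) (V 4)) (V 3))) (V 2))) (Z 3 (S (M (M (V 3) (V 2)) (M (V 1) (V 4))) (M (V 3) (M (V 2) (M (V 1) (V 4))))))),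
    (S (S (S (S (M (M (V 3) (V 1)) (M (V 4) (V 2))) (M (M (V 4) (V 2)) (M (V 3) (V 1)))) (M (V 3) (S (M (V 1) (M (V 4) (V 2))) (M (M (V 4) (V 2)) (V 1))))) (M (S (M (V 3) (M (V 4) (V 2))) (M (M (V 4) (V 2)) (V 3))) (V 1))) (Z 3 (S (M (M (V 3) (V 1)) (M (V 4) (V 2))) (M (V 3) (M (V 1) (M (V 4) (V 2))))))),
    (S (S (S (S (M (M (V 3) (V 1)) (M (V 2) (V 4))) (M (M (V 2) (V 4)) (M (V 3) (V 1)))) (M (V 3) (S (M (V 1) (M (V 2) (V 4))) (M (M (V 2) (V 4)) (V 1))))) (M (S (M (V 3) (M (V 2) (V 4))) (M (M (V 2) (V 4)) (V 3))) (V 1))) (Z 3 (S (M (M (V 3) (V 1)) (M (V 2) (V 4))) (M (V 3) (M (V 1) (M (V 2) (V 4))))))),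
    (S (S (S (S (M (M (V 3) (M (V 2) (V 1))) (V 4)) (M (V 4) (M (V 3) (M (V 2) (V 1))))) (M (V 3) (S (M (M (V 2) (V 1)) (V 4)) (M (V 4) (M (V 2) (V 1)))))) (M (S (M (V 3) (V 4)) (M (V 4) (V 3))) (M (V 2) (V 1)))) (Z 3 (S (M (M (V 3) (M (V 2) (V 1))) (V 4)) (M (V 3) (M (M (V 2) (V 1)) (V 4)))))),
    (S (S (S (S (M (M (V 3) (M (V 1) (V 2))) (V 4)) (M (V 4) (M (V 3) (M (V 1) (V 2))))) (M (V 3) (S (M (M (V 1) (V 2)) (V 4)) (M (V 4) (M (V 1) (V 2)))))) (M (S (M (V 3) (V 4)) (M (V 4) (V 3))) (M (V 1) (V 2)))) (Z 3 (S (M (M (V 3) (M (V 1) (V 2))) (V 4)) (M (V 3) (M (M (V 1) (V 2)) (V 4)))))),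
    (S (S (S (S (M (M (M (V 4) (V 3)) (V 2)) (V 1)) (M (V 1) (M (M (V 4) (V 3)) (V 2)))) (M (M (V 4) (V 3)) (S (M (V 2) (V 1)) (M (V 1) (V 2))))) (M (S (M (M (V 4) (V 3)) (V 1)) (M (V 1) (M (V 4) (V 3)))) (V 2))) (Z 3 (S (M (M (M (V 4) (V 3)) (V 2)) (V 1)) (M (M (V 4) (V 3)) (M (V 2) (V 1)))))),
    (S (S (S (S (M (M (M (V 4) (V 3)) (V 1)) (V 2)) (M (V 2) (M (M (V 4) (V 3)) (V 1)))) (M (M (V 4) (V 3)) (S (M (V 1) (V 2)) (M (V 2) (V 1))))) (M (S (M (M (V 4) (V 3)) (V 2)) (M (V 2) (M (V 4) (V 3)))) (V 1))) (Z 3 (S (M (M (M (V 4) (V 3)) (V 1)) (V 2)) (M (M (V 4) (V 3)) (M (V 1) (V 2)))))),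
    (S (S (S (S (M (M (V 2) (V 3)) (M (V 4) (V 1))) (M (M (V 4) (V 1)) (M (V 2) (V 3)))) (M (V 2) (S (M (V 3) (M (V 4) (V 1))) (M (M (V 4) (V 1)) (V 3))))) (M (S (M (V 2) (M (V 4) (V 1))) (M (M (V 4) (V 1)) (V 2))) (V 3))) (Z 3 (S (M (M (V 2) (V 3)) (M (V 4) (V 1))) (M (V 2) (M (V 3) (M (V 4) (V 1))))))),
    (S (S (S (S (M (M (V 2) (V 3)) (M (V 1) (V 4))) (M (M (V 1) (V 4)) (M (V 2) (V 3)))) (M (V 2) (S (M (V 3) (M (V 1) (V 4))) (M (M (V 1) (V 4)) (V 3))))) (M (S (M (V 2) (M (V 1) (V 4))) (M (M (V 1) (V 4)) (V 2))) (V 3))) (Z 3 (S (M (M (V 2) (V 3)) (M (V 1) (V 4))) (M (V 2) (M (V 3) (M (V 1) (V 4))))))),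
    (S (S (S (S (M (M (V 2) (V 1)) (M (V 4) (V 3))) (M (M (V 4) (V 3)) (M (V 2) (V 1)))) (M (V 2) (S (M (V 1) (M (V 4) (V 3))) (M (M (V 4) (V 3)) (V 1))))) (M (S (M (V 2) (M (V 4) (V 3))) (M (M (V 4) (V 3)) (V 2))) (V 1))) (Z 3 (S (M (M (V 2) (V 1)) (M (V 4) (V 3))) (M (V 2) (M (V 1) (M (V 4) (V 3))))))),
    (S (S (S (S (M (M (V 2) (V 1)) (M (V 3) (V 4))) (M (M (V 3) (V 4)) (M (V 2) (V 1)))) (M (V 2) (S (M (V 1) (M (V 3) (V 4))) (M (M (V 3) (V 4)) (V 1))))) (M (S (M (V 2) (M (V 3) (V 4))) (M (M (V 3) (V 4)) (V 2))) (V 1))) (Z 3 (S (M (M (V 2) (V 1)) (M (V 3) (V 4))) (M (V 2) (M (V 1) (M (V 3) (V 4))))))),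
    (S (S (S (S (M (M (V 2) (M (V 1) (V 4))) (V 3)) (M (V 3) (M (V 2) (M (V 1) (V 4))))) (M (V 2) (S (M (M (V 1) (V 4)) (V 3)) (M (V 3) (M (V 1) (V 4)))))) (M (S (M (V 2) (V 3)) (M (V 3) (V 2))) (M (V 1) (V 4)))) (Z 3 (S (M (M (V 2) (M (V 1) (V 4))) (V 3)) (M (V 2) (M (M (V 1) (V 4)) (V 3)))))),
    (S (S (S (S (M (M (V 2) (M (V 3) (V 1))) (V 4)) (M (V 4) (M (V 2) (M (V 3) (V 1))))) (M (V 2) (S (M (M (V 3) (V 1)) (V 4)) (M (V 4) (M (V 3) (V 1)))))) (M (S (M (V 2) (V 4)) (M (V 4) (V 2))) (M (V 3) (V 1)))) (Z 3 (S (M (M (V 2) (M (V 3) (V 1))) (V 4)) (M (V 2) (M (M (V 3) (V 1)) (V 4)))))),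
    (S (S (S (S (M (M (V 2) (M (V 1) (V 3))) (V 4)) (M (V 4) (M (V 2) (M (V 1) (V 3))))) (M (V 2) (S (M (M (V 1) (V 3)) (V 4)) (M (V 4) (M (V 1) (V 3)))))) (M (S (M (V 2) (V 4)) (M (V 4) (V 2))) (M (V 1) (V 3)))) (Z 3 (S (M (M (V 2) (M (V 1) (V 3))) (V 4)) (M (V 2) (M (M (V 1) (V 3)) (V 4)))))),
    (S (S (S (S (M (M (M (V 4) (V 2)) (V 3)) (V 1)) (M (V 1) (M (M (V 4) (V 2)) (V 3)))) (M (M (V 4) (V 2)) (S (M (V 3) (V 1)) (M (V 1) (V 3))))) (M (S (M (M (V 4) (V 2)) (V 1)) (M (V 1) (M (V 4) (V 2)))) (V 3))) (Z 3 (S (M (M (M (V 4) (V 2)) (V 3)) (V 1)) (M (M (V 4) (V 2)) (M (V 3) (V 1)))))),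
    (S (S (S (S (M (M (M (V 3) (V 2)) (V 4)) (V 1)) (M (V 1) (M (M (V 3) (V 2)) (V 4)))) (M (M (V 3) (V 2)) (S (M (V 4) (V 1)) (M (V 1) (V 4))))) (M (S (M (M (V 3) (V 2)) (V 1)) (M (V 1) (M (V 3) (V 2)))) (V 4))) (Z 3 (S (M (M (M (V 3) (V 2)) (V 4)) (V 1)) (M (M (V 3) (V 2)) (M (V 4) (V 1)))))),
    (S (S (S (S (M (M (V 1) (V 3)) (M (V 4) (V 2))) (M (M (V 4) (V 2)) (M (V 1) (V 3)))) (M (V 1) (S (M (V 3) (M (V 4) (V 2))) (M (M (V 4) (V 2)) (V 3))))) (M (S (M (V 1) (M (V 4) (V 2))) (M (M (V 4) (V 2)) (V 1))) (V 3))) (Z 3 (S (M (M (V 1) (V 3)) (M (V 4) (V 2))) (M (V 1) (M (V 3) (M (V 4) (V 2))))))),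
    (S (S (S (S (M (M (V 1) (V 3)) (M (V 2) (V 4))) (M (M (V 2) (V 4)) (M (V 1) (V 3)))) (M (V 1) (S (M (V 3) (M (V 2) (V 4))) (M (M (V 2) (V 4)) (V 3))))) (M (S (M (V 1) (M (V 2) (V 4))) (M (M (V 2) (V 4)) (V 1))) (V 3))) (Z 3 (S (M (M (V 1) (V 3)) (M (V 2) (V 4))) (M (V 1) (M (V 3) (M (V 2) (V 4))))))),
    (S (S (S (S (M (M (V 1) (M (V 3) (V 4))) (V 2)) (M (V 2) (M (V 1) (M (V 3) (V 4))))) (M (V 1) (S (M (M (V 3) (V 4)) (V 2)) (M (V 2) (M (V 3) (V 4)))))) (M (S (M (V 1) (V 2)) (M (V 2) (V 1))) (M (V 3) (V 4)))) (Z 3 (S (M (M (V 1) (M (V 3) (V 4))) (V 2)) (M (V 1) (M (M (V 3) (V 4)) (V 2)))))),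
    (S (S (S (S (M (M (V 1) (V 2)) (M (V 4) (V 3))) (M (M (V 4) (V 3)) (M (V 1) (V 2)))) (M (V 1) (S (M (V 2) (M (V 4) (V 3))) (M (M (V 4) (V 3)) (V 2))))) (M (S (M (V 1) (M (V 4) (V 3))) (M (M (V 4) (V 3)) (V 1))) (V 2))) (Z 3 (S (M (M (V 1) (V 2)) (M (V 4) (V 3))) (M (V 1) (M (V 2) (M (V 4) (V 3))))))),
    (S (S (S (S (M (M (V 1) (V 2)) (M (V 3) (V 4))) (M (M (V 3) (V 4)) (M (V 1) (V 2)))) (M (V 1) (S (M (V 2) (M (V 3) (V 4))) (M (M (V 3) (V 4)) (V 2))))) (M (S (M (V 1) (M (V 3) (V 4))) (M (M (V 3) (V 4)) (V 1))) (V 2))) (Z 3 (S (M (M (V 1) (V 2)) (M (V 3) (V 4))) (M (V 1) (M (V 2) (M (V 3) (V 4))))))),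
    (S (S (S (S (M (M (V 1) (M (V 2) (V 4))) (V 3)) (M (V 3) (M (V 1) (M (V 2) (V 4))))) (M (V 1) (S (M (M (V 2) (V 4)) (V 3)) (M (V 3) (M (V 2) (V 4)))))) (M (S (M (V 1) (V 3)) (M (V 3) (V 1))) (M (V 2) (V 4)))) (Z 3 (S (M (M (V 1) (M (V 2) (V 4))) (V 3)) (M (V 1) (M (M (V 2) (V 4)) (V 3)))))),
    (S (S (S (S (M (M (V 1) (M (V 3) (V 2))) (V 4)) (M (V 4) (M (V 1) (M (V 3) (V 2))))) (M (V 1) (S (M (M (V 3) (V 2)) (V 4)) (M (V 4) (M (V 3) (V 2)))))) (M (S (M (V 1) (V 4)) (M (V 4) (V 1))) (M (V 3) (V 2)))) (Z 3 (S (M (M (V 1) (M (V 3) (V 2))) (V 4)) (M (V 1) (M (M (V 3) (V 2)) (V 4)))))),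
    (S (S (S (S (M (M (V 1) (M (V 2) (V 3))) (V 4)) (M (V 4) (M (V 1) (M (V 2) (V 3))))) (M (V 1) (S (M (M (V 2) (V 3)) (V 4)) (M (V 4) (M (V 2) (V 3)))))) (M (S (M (V 1) (V 4)) (M (V 4) (V 1))) (M (V 2) (V 3)))) (Z 3 (S (M (M (V 1) (M (V 2) (V 3))) (V 4)) (M (V 1) (M (M (V 2) (V 3)) (V 4)))))),
    (S (S (S (S (M (M (M (V 4) (V 1)) (V 2)) (V 3)) (M (V 3) (M (M (V 4) (V 1)) (V 2)))) (M (M (V 4) (V 1)) (S (M (V 2) (V 3)) (M (V 3) (V 2))))) (M (S (M (M (V 4) (V 1)) (V 3)) (M (V 3) (M (V 4) (V 1)))) (V 2))) (Z 3 (S (M (M (M (V 4) (V 1)) (V 2)) (V 3)) (M (M (V 4) (V 1)) (M (V 2) (V 3)))))),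
    (S (S (S (S (M (M (M (V 1) (V 3)) (V 4)) (V 2)) (M (V 2) (M (M (V 1) (V 3)) (V 4)))) (M (M (V 1) (V 3)) (S (M (V 4) (V 2)) (M (V 2) (V 4))))) (M (S (M (M (V 1) (V 3)) (V 2)) (M (V 2) (M (V 1) (V 3)))) (V 4))) (Z 3 (S (M (M (M (V 1) (V 3)) (V 4)) (V 2)) (M (M (V 1) (V 3)) (M (V 4) (V 2)))))),
    (S (S (S (S (M (M (M (V 2) (V 1)) (V 4)) (V 3)) (M (V 3) (M (M (V 2) (V 1)) (V 4)))) (M (M (V 2) (V 1)) (S (M (V 4) (V 3)) (M (V 3) (V 4))))) (M (S (M (M (V 2) (V 1)) (V 3)) (M (V 3) (M (V 2) (V 1)))) (V 4))) (Z 3 (S (M (M (M (V 2) (V 1)) (V 4)) (V 3)) (M (M (V 2) (V 1)) (M (V 4) (V 3)))))),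
    (P (S (M (M (S (S (M (M (V 0) (V 1)) (V 4)) (M (V 0) (M (V 1) (V 4)))) (M (S (M (V 1) (V 4)) (M (V 4) (V 1))) (V 0))) (V 2)) (V 4)) (M (S (S (M (M (V 0) (V 1)) (V 4)) (M (V 0) (M (V 1) (V 4)))) (M (S (M (V 1) (V 4)) (M (V 4) (V 1))) (V 0))) (M (V 2) (V 4)))) (S (M (M (S (S (M (M (V 0) (V 2)) (V 4)) (M (V 0) (M (V 2) (V 4)))) (M (S (M (V 2) (V 4)) (M (V 4) (V 2))) (V 0))) (V 1)) (V 4)) (M (S (S (M (M (V 0) (V 2)) (V 4)) (M (V 0) (M (V 2) (V 4)))) (M (S (M (V 2) (V 4)) (M (V 4) (V 2))) (V 0))) (M (V 1) (V 4))))),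
    (S (S (S (S (M (M (V 1) (V 4)) (M (M (V 4) (V 2)) (V 0))) (M (M (M (V 4) (V 2)) (V 0)) (M (V 1) (V 4)))) (M (V 1) (S (M (V 4) (M (M (V 4) (V 2)) (V 0))) (M (M (M (V 4) (V 2)) (V 0)) (V 4))))) (M (S (M (V 1) (M (M (V 4) (V 2)) (V 0))) (M (M (M (V 4) (V 2)) (V 0)) (V 1))) (V 4))) (Z 3 (S (M (M (V 1) (V 4)) (M (M (V 4) (V 2)) (V 0))) (M (V 1) (M (V 4) (M (M (V 4) (V 2)) (V 0))))))),
    (S (S (S (S (M (M (V 1) (V 4)) (M (V 0) (M (V 2) (V 4)))) (M (M (V 0) (M (V 2) (V 4))) (M (V 1) (V 4)))) (M (V 1) (S (M (V 4) (M (V 0) (M (V 2) (V 4)))) (M (M (V 0) (M (V 2) (V 4))) (V 4))))) (M (S (M (V 1) (M (V 0) (M (V 2) (V 4)))) (M (M (V 0) (M (V 2) (V 4))) (V 1))) (V 4))) (Z 3 (S (M (M (V 1) (V 4)) (M (V 0) (M (V 2) (V 4)))) (M (V 1) (M (V 4) (M (V 0) (M (V 2) (V 4)))))))),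
    (P (S (M (M (S (S (M (M (V 0) (V 1)) (V 4)) (M (V 0) (M (V 1) (V 4)))) (M (S (M (V 1) (V 4)) (M (V 4) (V 1))) (V 0))) (V 3)) (V 4)) (M (S (S (M (M (V 0) (V 1)) (V 4)) (M (V 0) (M (V 1) (V 4)))) (M (S (M (V 1) (V 4)) (M (V 4) (V 1))) (V 0))) (M (V 3) (V 4)))) (S (M (M (S (S (M (M (V 0) (V 3)) (V 4)) (M (V 0) (M (V 3) (V 4)))) (M (S (M (V 3) (V 4)) (M (V 4) (V 3))) (V 0))) (V 1)) (V 4)) (M (S (S (M (M (V 0) (V 3)) (V 4)) (M (V 0) (M (V 3) (V 4)))) (M (S (M (V 3) (V 4)) (M (V 4) (V 3))) (V 0))) (M (V 1) (V 4))))),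
    (S (S (S (S (M (M (V 3) (V 4)) (M (M (V 1) (V 4)) (V 0))) (M (M (M (V 1) (V 4)) (V 0)) (M (V 3) (V 4)))) (M (V 3) (S (M (V 4) (M (M (V 1) (V 4)) (V 0))) (M (M (M (V 1) (V 4)) (V 0)) (V 4))))) (M (S (M (V 3) (M (M (V 1) (V 4)) (V 0))) (M (M (M (V 1) (V 4)) (V 0)) (V 3))) (V 4))) (Z 3 (S (M (M (V 3) (V 4)) (M (M (V 1) (V 4)) (V 0))) (M (V 3) (M (V 4) (M (M (V 1) (V 4)) (V 0))))))),
    (S (S (S (S (M (M (V 3) (V 4)) (M (V 0) (M (V 1) (V 4)))) (M (M (V 0) (M (V 1) (V 4))) (M (V 3) (V 4)))) (M (V 3) (S (M (V 4) (M (V 0) (M (V 1) (V 4)))) (M (M (V 0) (M (V 1) (V 4))) (V 4))))) (M (S (M (V 3) (M (V 0) (M (V 1) (V 4)))) (M (M (V 0) (M (V 1) (V 4))) (V 3))) (V 4))) (Z 3 (S (M (M (V 3) (V 4)) (M (V 0) (M (V 1) (V 4)))) (M (V 3) (M (V 4) (M (V 0) (M (V 1) (V 4)))))))),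
    (S (S (S (S (M (M (V 1) (V 4)) (M (M (V 4) (V 3)) (V 0))) (M (M (M (V 4) (V 3)) (V 0)) (M (V 1) (V 4)))) (M (V 1) (S (M (V 4) (M (M (V 4) (V 3)) (V 0))) (M (M (M (V 4) (V 3)) (V 0)) (V 4))))) (M (S (M (V 1) (M (M (V 4) (V 3)) (V 0))) (M (M (M (V 4) (V 3)) (V 0)) (V 1))) (V 4))) (Z 3 (S (M (M (V 1) (V 4)) (M (M (V 4) (V 3)) (V 0))) (M (V 1) (M (V 4) (M (M (V 4) (V 3)) (V 0))))))),
    (S (S (S (S (M (M (V 1) (V 4)) (M (M (V 0) (V 3)) (V 4))) (M (M (M (V 0) (V 3)) (V 4)) (M (V 1) (V 4)))) (M (V 1) (S (M (V 4) (M (M (V 0) (V 3)) (V 4))) (M (M (M (V 0) (V 3)) (V 4)) (V 4))))) (M (S (M (V 1) (M (M (V 0) (V 3)) (V 4))) (M (M (M (V 0) (V 3)) (V 4)) (V 1))) (V 4))) (Z 3 (S (M (M (V 1) (V 4)) (M (M (V 0) (V 3)) (V 4))) (M (V 1) (M (V 4) (M (M (V 0) (V 3)) (V 4))))))),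
    (P (S (M (M (S (S (M (M (V 0) (V 2)) (V 4)) (M (V 0) (M (V 2) (V 4)))) (M (S (M (V 2) (V 4)) (M (V 4) (V 2))) (V 0))) (V 3)) (V 4)) (M (S (S (M (M (V 0) (V 2)) (V 4)) (M (V 0) (M (V 2) (V 4)))) (M (S (M (V 2) (V 4)) (M (V 4) (V 2))) (V 0))) (M (V 3) (V 4)))) (S (M (M (S (S (M (M (V 0) (V 3)) (V 4)) (M (V 0) (M (V 3) (V 4)))) (M (S (M (V 3) (V 4)) (M (V 4) (V 3))) (V 0))) (V 2)) (V 4)) (M (S (S (M (M (V 0) (V 3)) (V 4)) (M (V 0) (M (V 3) (V 4)))) (M (S (M (V 3) (V 4)) (M (V 4) (V 3))) (V 0))) (M (V 2) (V 4))))),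
    (S (S (S (S (M (M (V 3) (V 4)) (M (M (V 4) (V 2)) (V 0))) (M (M (M (V 4) (V 2)) (V 0)) (M (V 3) (V 4)))) (M (V 3) (S (M (V 4) (M (M (V 4) (V 2)) (V 0))) (M (M (M (V 4) (V 2)) (V 0)) (V 4))))) (M (S (M (V 3) (M (M (V 4) (V 2)) (V 0))) (M (M (M (V 4) (V 2)) (V 0)) (V 3))) (V 4))) (Z 3 (S (M (M (V 3) (V 4)) (M (M (V 4) (V 2)) (V 0))) (M (V 3) (M (V 4) (M (M (V 4) (V 2)) (V 0))))))),
    (S (S (S (S (M (M (V 3) (V 4)) (M (M (V 0) (V 2)) (V 4))) (M (M (M (V 0) (V 2)) (V 4)) (M (V 3) (V 4)))) (M (V 3) (S (M (V 4) (M (M (V 0) (V 2)) (V 4))) (M (M (M (V 0) (V 2)) (V 4)) (V 4))))) (M (S (M (V 3) (M (M (V 0) (V 2)) (V 4))) (M (M (M (V 0) (V 2)) (V 4)) (V 3))) (V 4))) (Z 3 (S (M (M (V 3) (V 4)) (M (M (V 0) (V 2)) (V 4))) (M (V 3) (M (V 4) (M (M (V 0) (V 2)) (V 4))))))),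
    (S (S (S (S (M (M (V 2) (V 4)) (M (M (V 3) (V 4)) (V 0))) (M (M (M (V 3) (V 4)) (V 0)) (M (V 2) (V 4)))) (M (V 2) (S (M (V 4) (M (M (V 3) (V 4)) (V 0))) (M (M (M (V 3) (V 4)) (V 0)) (V 4))))) (M (S (M (V 2) (M (M (V 3) (V 4)) (V 0))) (M (M (M (V 3) (V 4)) (V 0)) (V 2))) (V 4))) (Z 3 (S (M (M (V 2) (V 4)) (M (M (V 3) (V 4)) (V 0))) (M (V 2) (M (V 4) (M (M (V 3) (V 4)) (V 0))))))),
    (S (S (S (S (M (M (V 2) (V 4)) (M (V 0) (M (V 3) (V 4)))) (M (M (V 0) (M (V 3) (V 4))) (M (V 2) (V 4)))) (M (V 2) (S (M (V 4) (M (V 0) (M (V 3) (V 4)))) (M (M (V 0) (M (V 3) (V 4))) (V 4))))) (M (S (M (V 2) (M (V 0) (M (V 3) (V 4)))) (M (M (V 0) (M (V 3) (V 4))) (V 2))) (V 4))) (Z 3 (S (M (M (V 2) (V 4)) (M (V 0) (M (V 3) (V 4)))) (M (V 2) (M (V 4) (M (V 0) (M (V 3) (V 4)))))))),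
    (S (S (S (S (M (M (V 2) (V 4)) (M (M (V 0) (V 3)) (V 4))) (M (M (M (V 0) (V 3)) (V 4)) (M (V 2) (V 4)))) (M (V 2) (S (M (V 4) (M (M (V 0) (V 3)) (V 4))) (M (M (M (V 0) (V 3)) (V 4)) (V 4))))) (M (S (M (V 2) (M (M (V 0) (V 3)) (V 4))) (M (M (M (V 0) (V 3)) (V 4)) (V 2))) (V 4))) (Z 3 (S (M (M (V 2) (V 4)) (M (M (V 0) (V 3)) (V 4))) (M (V 2) (M (V 4) (M (M (V 0) (V 3)) (V 4))))))),
    (S (S (S (S (M (M (V 4) (V 1)) (V 2)) (M (V 2) (M (V 4) (V 1)))) (M (V 4) (S (M (V 1) (V 2)) (M (V 2) (V 1))))) (M (S (M (V 4) (V 2)) (M (V 2) (V 4))) (V 1))) (Z 3 (S (M (M (V 4) (V 1)) (V 2)) (M (V 4) (M (V 1) (V 2)))))),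
    (S (S (S (S (M (M (V 1) (V 2)) (V 3)) (M (V 3) (M (V 1) (V 2)))) (M (V 1) (S (M (V 2) (V 3)) (M (V 3) (V 2))))) (M (S (M (V 1) (V 3)) (M (V 3) (V 1))) (V 2))) (Z 3 (S (M (M (V 1) (V 2)) (V 3)) (M (V 1) (M (V 2) (V 3)))))),
    (P (S (S (S (M (M (M (V 4) (V 2)) (V 1)) (V 3)) (M (M (V 4) (V 2)) (M (V 1) (V 3)))) (M (V 4) (S (M (M (V 2) (V 1)) (V 3)) (M (V 2) (M (V 1) (V 3)))))) (M (S (M (M (V 4) (V 1)) (V 3)) (M (V 4) (M (V 1) (V 3)))) (V 2))) (S (M (M (S (M (V 1) (V 3)) (M (V 3) (V 1))) (V 4)) (V 2)) (M (S (M (V 1) (V 3)) (M (V 3) (V 1))) (M (V 4) (V 2))))),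
    (S (S (S (S (M (M (V 3) (M (V 2) (V 4))) (V 1)) (M (V 1) (M (V 3) (M (V 2) (V 4))))) (M (V 3) (S (M (M (V 2) (V 4)) (V 1)) (M (V 1) (M (V 2) (V 4)))))) (M (S (M (V 3) (V 1)) (M (V 1) (V 3))) (M (V 2) (V 4)))) (Z 3 (S (M (M (V 3) (M (V 2) (V 4))) (V 1)) (M (V 3) (M (M (V 2) (V 4)) (V 1)))))),
    (S (S (S (S (M (M (M (V 4) (V 1)) (V 3)) (V 2)) (M (V 2) (M (M (V 4) (V 1)) (V 3)))) (M (M (V 4) (V 1)) (S (M (V 3) (V 2)) (M (V 2) (V 3))))) (M (S (M (M (V 4) (V 1)) (V 2)) (M (V 2) (M (V 4) (V 1)))) (V 3))) (Z 3 (S (M (M (M (V 4) (V 1)) (V 3)) (V 2)) (M (M (V 4) (V 1)) (M (V 3) (V 2)))))),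
    (S (S (S (S (M (M (M (V 1) (V 4)) (V 3)) (V 2)) (M (V 2) (M (M (V 1) (V 4)) (V 3)))) (M (M (V 1) (V 4)) (S (M (V 3) (V 2)) (M (V 2) (V 3))))) (M (S (M (M (V 1) (V 4)) (V 2)) (M (V 2) (M (V 1) (V 4)))) (V 3))) (Z 3 (S (M (M (M (V 1) (V 4)) (V 3)) (V 2)) (M (M (V 1) (V 4)) (M (V 3) (V 2)))))),
    (S (M (S (S (M (M (V 0) (V 3)) (V 4)) (M (V 0) (M (V 3) (V 4)))) (M (S (M (V 3) (V 4)) (M (V 4) (V 3))) (V 0))) (V 4)) (M (V 4) (S (S (M (M (V 0) (V 3)) (V 4)) (M (V 0) (M (V 3) (V 4)))) (M (S (M (V 3) (V 4)) (M (V 4) (V 3))) (V 0))))),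
    (S (M (S (S (M (M (V 0) (V 2)) (V 4)) (M (V 0) (M (V 2) (V 4)))) (M (S (M (V 2) (V 4)) (M (V 4) (V 2))) (V 0))) (V 4)) (M (V 4) (S (S (M (M (V 0) (V 2)) (V 4)) (M (V 0) (M (V 2) (V 4)))) (M (S (M (V 2) (V 4)) (M (V 4) (V 2))) (V 0))))),
    (S (S (S (S (M (M (V 3) (V 4)) (M (V 0) (M (V 2) (V 4)))) (M (M (V 0) (M (V 2) (V 4))) (M (V 3) (V 4)))) (M (V 3) (S (M (V 4) (M (V 0) (M (V 2) (V 4)))) (M (M (V 0) (M (V 2) (V 4))) (V 4))))) (M (S (M (V 3) (M (V 0) (M (V 2) (V 4)))) (M (M (V 0) (M (V 2) (V 4))) (V 3))) (V 4))) (Z 3 (S (M (M (V 3) (V 4)) (M (V 0) (M (V 2) (V 4)))) (M (V 3) (M (V 4) (M (V 0) (M (V 2) (V 4)))))))),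
    (S (S (S (S (M (M (V 2) (V 4)) (M (M (V 4) (V 3)) (V 0))) (M (M (M (V 4) (V 3)) (V 0)) (M (V 2) (V 4)))) (M (V 2) (S (M (V 4) (M (M (V 4) (V 3)) (V 0))) (M (M (M (V 4) (V 3)) (V 0)) (V 4))))) (M (S (M (V 2) (M (M (V 4) (V 3)) (V 0))) (M (M (M (V 4) (V 3)) (V 0)) (V 2))) (V 4))) (Z 3 (S (M (M (V 2) (V 4)) (M (M (V 4) (V 3)) (V 0))) (M (V 2) (M (V 4) (M (M (V 4) (V 3)) (V 0))))))),
    (S (M (S (S (M (M (V 0) (V 1)) (V 4)) (M (V 0) (M (V 1) (V 4)))) (M (S (M (V 1) (V 4)) (M (V 4) (V 1))) (V 0))) (V 4)) (M (V 4) (S (S (M (M (V 0) (V 1)) (V 4)) (M (V 0) (M (V 1) (V 4)))) (M (S (M (V 1) (V 4)) (M (V 4) (V 1))) (V 0))))),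
    (S (S (S (S (M (M (V 1) (V 4)) (M (M (V 3) (V 4)) (V 0))) (M (M (M (V 3) (V 4)) (V 0)) (M (V 1) (V 4)))) (M (V 1) (S (M (V 4) (M (M (V 3) (V 4)) (V 0))) (M (M (M (V 3) (V 4)) (V 0)) (V 4))))) (M (S (M (V 1) (M (M (V 3) (V 4)) (V 0))) (M (M (M (V 3) (V 4)) (V 0)) (V 1))) (V 4))) (Z 3 (S (M (M (V 1) (V 4)) (M (M (V 3) (V 4)) (V 0))) (M (V 1) (M (V 4) (M (M (V 3) (V 4)) (V 0))))))),
    (S (S (S (S (M (M (V 1) (V 4)) (M (V 0) (M (V 3) (V 4)))) (M (M (V 0) (M (V 3) (V 4))) (M (V 1) (V 4)))) (M (V 1) (S (M (V 4) (M (V 0) (M (V 3) (V 4)))) (M (M (V 0) (M (V 3) (V 4))) (V 4))))) (M (S (M (V 1) (M (V 0) (M (V 3) (V 4)))) (M (M (V 0) (M (V 3) (V 4))) (V 1))) (V 4))) (Z 3 (S (M (M (V 1) (V 4)) (M (V 0) (M (V 3) (V 4)))) (M (V 1) (M (V 4) (M (V 0) (M (V 3) (V 4)))))))),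
    (S (S (S (S (M (M (V 2) (V 4)) (M (M (V 1) (V 4)) (V 0))) (M (M (M (V 1) (V 4)) (V 0)) (M (V 2) (V 4)))) (M (V 2) (S (M (V 4) (M (M (V 1) (V 4)) (V 0))) (M (M (M (V 1) (V 4)) (V 0)) (V 4))))) (M (S (M (V 2) (M (M (V 1) (V 4)) (V 0))) (M (M (M (V 1) (V 4)) (V 0)) (V 2))) (V 4))) (Z 3 (S (M (M (V 2) (V 4)) (M (M (V 1) (V 4)) (V 0))) (M (V 2) (M (V 4) (M (M (V 1) (V 4)) (V 0))))))),
    (S (S (S (S (M (M (V 2) (V 4)) (M (V 0) (M (V 1) (V 4)))) (M (M (V 0) (M (V 1) (V 4))) (M (V 2) (V 4)))) (M (V 2) (S (M (V 4) (M (V 0) (M (V 1) (V 4)))) (M (M (V 0) (M (V 1) (V 4))) (V 4))))) (M (S (M (V 2) (M (V 0) (M (V 1) (V 4)))) (M (M (V 0) (M (V 1) (V 4))) (V 2))) (V 4))) (Z 3 (S (M (M (V 2) (V 4)) (M (V 0) (M (V 1) (V 4)))) (M (V 2) (M (V 4) (M (V 0) (M (V 1) (V 4)))))))),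
    (S (S (S (S (M (M (V 1) (V 4)) (M (M (V 0) (V 2)) (V 4))) (M (M (M (V 0) (V 2)) (V 4)) (M (V 1) (V 4)))) (M (V 1) (S (M (V 4) (M (M (V 0) (V 2)) (V 4))) (M (M (M (V 0) (V 2)) (V 4)) (V 4))))) (M (S (M (V 1) (M (M (V 0) (V 2)) (V 4))) (M (M (M (V 0) (V 2)) (V 4)) (V 1))) (V 4))) (Z 3 (S (M (M (V 1) (V 4)) (M (M (V 0) (V 2)) (V 4))) (M (V 1) (M (V 4) (M (M (V 0) (V 2)) (V 4))))))),
    (P (S (S (S (M (M (M (V 3) (V 2)) (M (M (V 4) (V 1)) (V 0))) (V 4)) (M (M (V 3) (V 2)) (M (M (M (V 4) (V 1)) (V 0)) (V 4)))) (M (V 3) (S (M (M (V 2) (M (M (V 4) (V 1)) (V 0))) (V 4)) (M (V 2) (M (M (M (V 4) (V 1)) (V 0)) (V 4)))))) (M (S (M (M (V 3) (M (M (V 4) (V 1)) (V 0))) (V 4)) (M (V 3) (M (M (M (V 4) (V 1)) (V 0)) (V 4)))) (V 2))) (S (M (M (S (M (M (M (V 4) (V 1)) (V 0)) (V 4)) (M (V 4) (M (M (V 4) (V 1)) (V 0)))) (V 3))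 (V 2)) (M (S (M (M (M (V 4) (V 1)) (V 0)) (V 4)) (M (V 4) (M (M (V 4) (V 1)) (V 0)))) (M (V 3) (V 2))))),
    (P (S (S (S (M (M (M (V 3) (V 2)) (M (M (V 1) (V 4)) (V 0))) (V 4)) (M (M (V 3) (V 2)) (M (M (M (V 1) (V 4)) (V 0)) (V 4)))) (M (V 3) (S (M (M (V 2) (M (M (V 1) (V 4)) (V 0))) (V 4)) (M (V 2) (M (M (M (V 1) (V 4)) (V 0)) (V 4)))))) (M (S (M (M (V 3) (M (M (V 1) (V 4)) (V 0))) (V 4)) (M (V 3) (M (M (M (V 1) (V 4)) (V 0)) (V 4)))) (V 2))) (S (M (M (S (M (M (M (V 1) (V 4)) (V 0)) (V 4)) (M (V 4) (M (M (V 1) (V 4)) (V 0)))) (V 3)) (V 2)) (M (S (M (M (M (V 1) (V 4)) (V 0)) (V 4)) (M (V 4) (M (M (V 1) (V 4)) (V 0)))) (M (V 3) (V 2))))),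
    (P (S (S (S (M (M (M (V 3) (V 2)) (M (V 0) (M (V 1) (V 4)))) (V 4)) (M (M (V 3) (V 2)) (M (M (V 0) (M (V 1) (V 4))) (V 4)))) (M (V 3) (S (M (M (V 2) (M (V 0) (M (V 1) (V 4)))) (V 4)) (M (V 2) (M (M (V 0) (M (V 1) (V 4))) (V 4)))))) (M (S (M (M (V 3) (M (V 0) (M (V 1) (V 4)))) (V 4)) (M (V 3) (M (M (V 0) (M (V 1) (V 4))) (V 4)))) (V 2))) (S (M (M (S (M (M (V 0) (M (V 1) (V 4))) (V 4)) (M (V 4) (M (V 0) (M (V 1) (V 4))))) (V 3)) (V 2)) (M (S (M (M (V 0) (M (V 1) (V 4))) (V 4)) (M (V 4) (M (V 0) (M (V 1) (V 4))))) (M (V 3) (V 2))))),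
    (P (S (S (S (M (M (M (V 3) (V 2)) (M (M (V 0) (V 1)) (V 4))) (V 4)) (M (M (V 3) (V 2)) (M (M (M (V 0) (V 1)) (V 4)) (V 4)))) (M (V 3) (S (M (M (V 2) (M (M (V 0) (V 1)) (V 4))) (V 4)) (M (V 2) (M (M (M (V 0) (V 1)) (V 4)) (V 4)))))) (M (S (M (M (V 3) (M (M (V 0) (V 1)) (V 4))) (V 4)) (M (V 3) (M (M (M (V 0) (V 1)) (V 4)) (V 4)))) (V 2))) (S (M (M (S (M (M (M (V 0) (V 1)) (V 4)) (V 4)) (M (V 4) (M (M (V 0) (V 1)) (V 4)))) (V 3)) (V 2)) (M (S (M (M (M (V 0) (V 1)) (V 4)) (V 4)) (M (V 4) (M (M (V 0) (V 1)) (V 4)))) (M (V 3) (V 2))))),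
    (P (S (S (S (M (M (M (V 3) (V 1)) (V 4)) (M (M (V 4) (V 2)) (V 0))) (M (M (V 3) (V 1)) (M (V 4) (M (M (V 4) (V 2)) (V 0))))) (M (V 3) (S (M (M (V 1) (V 4)) (M (M (V 4) (V 2)) (V 0))) (M (V 1) (M (V 4) (M (M (V 4) (V 2)) (V 0))))))) (M (S (M (M (V 3) (V 4)) (M (M (V 4) (V 2)) (V 0))) (M (V 3) (M (V 4) (M (M (V 4) (V 2)) (V 0))))) (V 1))) (S (M (M (S (M (V 4) (M (M (V 4) (V 2)) (V 0))) (M (M (M (V 4) (V 2)) (V 0)) (V 4))) (V 3)) (V 1)) (M (S (M (V 4) (M (M (V 4) (V 2)) (V 0))) (M (M (M (V 4) (V 2)) (V 0)) (V 4))) (M (V 3) (V 1))))),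
    (P (S (S (S (M (M (M (V 3) (V 1)) (V 4)) (M (V 0) (M (V 2) (V 4)))) (M (M (V 3) (V 1)) (M (V 4) (M (V 0) (M (V 2) (V 4)))))) (M (V 3) (S (M (M (V 1) (V 4)) (M (V 0) (M (V 2) (V 4)))) (M (V 1) (M (V 4) (M (V 0) (M (V 2) (V 4)))))))) (M (S (M (M (V 3) (V 4)) (M (V 0) (M (V 2) (V 4)))) (M (V 3) (M (V 4) (M (V 0) (M (V 2) (V 4)))))) (V 1))) (S (M (M (S (M (V 4) (M (V 0) (M (V 2) (V 4)))) (M (M (V 0) (M (V 2) (V 4))) (V 4))) (V 3)) (V 1)) (M (S (M (V 4) (M (V 0) (M (V 2) (V 4)))) (M (M (V 0) (M (V 2) (V 4))) (V 4))) (M (V 3) (V 1))))),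
    (P (S (S (S (M (M (M (V 3) (V 1)) (M (M (V 2) (V 4)) (V 0))) (V 4)) (M (M (V 3) (V 1)) (M (M (M (V 2) (V 4)) (V 0)) (V 4)))) (M (V 3) (S (M (M (V 1) (M (M (V 2) (V 4)) (V 0))) (V 4)) (M (V 1) (M (M (M (V 2) (V 4)) (V 0)) (V 4)))))) (M (S (M (M (V 3) (M (M (V 2) (V 4)) (V 0))) (V 4)) (M (V 3) (M (M (M (V 2) (V 4)) (V 0)) (V 4)))) (V 1))) (S (M (M (S (M (M (M (V 2) (V 4)) (V 0)) (V 4)) (M (V 4) (M (M (V 2) (V 4)) (V 0)))) (V 3)) (V 1)) (M (S (M (M (M (V 2) (V 4)) (V 0)) (V 4)) (M (V 4) (M (M (V 2) (V 4)) (V 0)))) (M (V 3) (V 1))))),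
    (P (S (S (S (M (M (M (V 3) (V 1)) (M (M (V 0) (V 2)) (V 4))) (V 4)) (M (M (V 3) (V 1)) (M (M (M (V 0) (V 2)) (V 4)) (V 4)))) (M (V 3) (S (M (M (V 1) (M (M (V 0) (V 2)) (V 4))) (V 4)) (M (V 1) (M (M (M (V 0) (V 2)) (V 4)) (V 4)))))) (M (S (M (M (V 3) (M (M (V 0) (V 2)) (V 4))) (V 4)) (M (V 3) (M (M (M (V 0) (V 2)) (V 4)) (V 4)))) (V 1))) (S (M (M (S (M (M (M (V 0) (V 2)) (V 4)) (V 4)) (M (V 4) (M (M (V 0) (V 2)) (V 4)))) (V 3)) (V 1)) (M (S (M (M (M (V 0) (V 2)) (V 4)) (V 4)) (M (V 4) (M (M (V 0) (V 2)) (V 4)))) (M (V 3) (V 1))))),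
    (P (S (S (S (M (M (M (V 2) (V 3)) (V 4)) (M (M (V 1) (V 4)) (V 0))) (M (M (V 2) (V 3)) (M (V 4) (M (M (V 1) (V 4)) (V 0))))) (M (V 2) (S (M (M (V 3) (V 4)) (M (M (V 1) (V 4)) (V 0))) (M (V 3) (M (V 4) (M (M (V 1) (V 4)) (V 0))))))) (M (S (M (M (V 2) (V 4)) (M (M (V 1) (V 4)) (V 0))) (M (V 2) (M (V 4) (M (M (V 1) (V 4)) (V 0))))) (V 3))) (S (M (M (S (M (V 4) (M (M (V 1) (V 4)) (V 0))) (M (M (M (V 1) (V 4)) (V 0)) (V 4))) (V 2)) (V 3)) (M (S (M (V 4) (M (M (V 1) (V 4)) (V 0))) (M (M (M (V 1) (V 4)) (V 0)) (V 4))) (M (V 2) (V 3))))),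
    (P (S (S (S (M (M (M (V 2) (V 3)) (V 4)) (M (V 0) (M (V 1) (V 4)))) (M (M (V 2) (V 3)) (M (V 4) (M (V 0) (M (V 1) (V 4)))))) (M (V 2) (S (M (M (V 3) (V 4)) (M (V 0) (M (V 1) (V 4)))) (M (V 3) (M (V 4) (M (V 0) (M (V 1) (V 4)))))))) (M (S (M (M (V 2) (V 4)) (M (V 0) (M (V 1) (V 4)))) (M (V 2) (M (V 4) (M (V 0) (M (V 1) (V 4)))))) (V 3))) (S (M (M (S (M (V 4) (M (V 0) (M (V 1) (V 4)))) (M (M (V 0) (M (V 1) (V 4))) (V 4))) (V 2)) (V 3)) (M (S (M (V 4) (M (V 0) (M (V 1) (V 4)))) (M (M (V 0) (M (V 1) (V 4))) (V 4))) (M (V 2) (V 3))))),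
    (P (S (S (S (M (M (M (V 2) (V 3)) (M (M (V 4) (V 1)) (V 0))) (V 4)) (M (M (V 2) (V 3)) (M (M (M (V 4) (V 1)) (V 0)) (V 4)))) (M (V 2) (S (M (M (V 3) (M (M (V 4) (V 1)) (V 0))) (V 4)) (M (V 3) (M (M (M (V 4) (V 1)) (V 0)) (V 4)))))) (M (S (M (M (V 2) (M (M (V 4) (V 1)) (V 0))) (V 4)) (M (V 2) (M (M (M (V 4) (V 1)) (V 0)) (V 4)))) (V 3))) (S (M (M (S (M (M (M (V 4) (V 1)) (V 0)) (V 4)) (M (V 4) (M (M (V 4) (V 1)) (V 0)))) (V 2)) (V 3)) (M (S (M (M (M (V 4) (V 1)) (V 0)) (V 4)) (M (V 4) (M (M (V 4) (V 1)) (V 0)))) (M (V 2) (V 3))))),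
    (P (S (S (S (M (M (M (V 2) (V 3)) (M (M (V 0) (V 1)) (V 4))) (V 4)) (M (M (V 2) (V 3)) (M (M (M (V 0) (V 1)) (V 4)) (V 4)))) (M (V 2) (S (M (M (V 3) (M (M (V 0) (V 1)) (V 4))) (V 4)) (M (V 3) (M (M (M (V 0) (V 1)) (V 4)) (V 4)))))) (M (S (M (M (V 2) (M (M (V 0) (V 1)) (V 4))) (V 4)) (M (V 2) (M (M (M (V 0) (V 1)) (V 4)) (V 4)))) (V 3))) (S (M (M (S (M (M (M (V 0) (V 1)) (V 4)) (V 4)) (M (V 4) (M (M (V 0) (V 1)) (V 4)))) (V 2)) (V 3)) (M (S (M (M (M (V 0) (V 1)) (V 4)) (V 4)) (M (V 4) (M (M (V 0) (V 1)) (V 4)))) (M (V 2) (V 3))))),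
    (P (S (S (S (M (M (M (V 2) (V 1)) (V 4)) (M (M (V 4) (V 3)) (V 0))) (M (M (V 2) (V 1)) (M (V 4) (M (M (V 4) (V 3)) (V 0))))) (M (V 2) (S (M (M (V 1) (V 4)) (M (M (V 4) (V 3)) (V 0))) (M (V 1) (M (V 4) (M (M (V 4) (V 3)) (V 0))))))) (M (S (M (M (V 2) (V 4)) (M (M (V 4) (V 3)) (V 0))) (M (V 2) (M (V 4) (M (M (V 4) (V 3)) (V 0))))) (V 1))) (S (M (M (S (M (V 4) (M (M (V 4) (V 3)) (V 0))) (M (M (M (V 4) (V 3)) (V 0)) (V 4))) (V 2)) (V 1)) (M (S (M (V 4) (M (M (V 4) (V 3)) (V 0))) (M (M (M (V 4) (V 3)) (V 0)) (V 4))) (M (V 2) (V 1))))),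
    (P (S (S (S (M (M (M (V 2) (V 1)) (V 4)) (M (M (V 0) (V 3)) (V 4))) (M (M (V 2) (V 1)) (M (V 4) (M (M (V 0) (V 3)) (V 4))))) (M (V 2) (S (M (M (V 1) (V 4)) (M (M (V 0) (V 3)) (V 4))) (M (V 1) (M (V 4) (M (M (V 0) (V 3)) (V 4))))))) (M (S (M (M (V 2) (V 4)) (M (M (V 0) (V 3)) (V 4))) (M (V 2) (M (V 4) (M (M (V 0) (V 3)) (V 4))))) (V 1))) (S (M (M (S (M (V 4) (M (M (V 0) (V 3)) (V 4))) (M (M (M (V 0) (V 3)) (V 4)) (V 4))) (V 2)) (V 1)) (M (S (M (V 4) (M (M (V 0) (V 3)) (V 4))) (M (M (M (V 0) (V 3)) (V 4)) (V 4))) (M (V 2) (V 1))))),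
    (P (S (S (S (M (M (M (V 2) (V 1)) (M (M (V 3) (V 4)) (V 0))) (V 4)) (M (M (V 2) (V 1)) (M (M (M (V 3) (V 4)) (V 0)) (V 4)))) (M (V 2) (S (M (M (V 1) (M (M (V 3) (V 4)) (V 0))) (V 4)) (M (V 1) (M (M (M (V 3) (V 4)) (V 0)) (V 4)))))) (M (S (M (M (V 2) (M (M (V 3) (V 4)) (V 0))) (V 4)) (M (V 2) (M (M (M (V 3) (V 4)) (V 0)) (V 4)))) (V 1))) (S (M (M (S (M (M (M (V 3) (V 4)) (V 0)) (V 4)) (M (V 4) (M (M (V 3) (V 4)) (V 0)))) (V 2)) (V 1)) (M (S (M (M (M (V 3) (V 4)) (V 0)) (V 4)) (M (V 4) (M (M (V 3) (V 4)) (V 0)))) (M (V 2) (V 1))))),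
    (P (S (S (S (M (M (M (V 2) (V 1)) (M (V 0) (M (V 3) (V 4)))) (V 4)) (M (M (V 2) (V 1)) (M (M (V 0) (M (V 3) (V 4))) (V 4)))) (M (V 2) (S (M (M (V 1) (M (V 0) (M (V 3) (V 4)))) (V 4)) (M (V 1) (M (M (V 0) (M (V 3) (V 4))) (V 4)))))) (M (S (M (M (V 2) (M (V 0) (M (V 3) (V 4)))) (V 4)) (M (V 2) (M (M (V 0) (M (V 3) (V 4))) (V 4)))) (V 1))) (S (M (M (S (M (M (V 0) (M (V 3) (V 4))) (V 4)) (M (V 4) (M (V 0) (M (V 3) (V 4))))) (V 2)) (V 1)) (M (S (M (M (V 0) (M (V 3) (V 4))) (V 4)) (M (V 4) (M (V 0) (M (V 3) (V 4))))) (M (V 2) (V 1))))),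
    (P (S (S (S (M (M (M (V 1) (V 3)) (V 4)) (M (M (V 4) (V 2)) (V 0))) (M (M (V 1) (V 3)) (M (V 4) (M (M (V 4) (V 2)) (V 0))))) (M (V 1) (S (M (M (V 3) (V 4)) (M (M (V 4) (V 2)) (V 0))) (M (V 3) (M (V 4) (M (M (V 4) (V 2)) (V 0))))))) (M (S (M (M (V 1) (V 4)) (M (M (V 4) (V 2)) (V 0))) (M (V 1) (M (V 4) (M (M (V 4) (V 2)) (V 0))))) (V 3))) (S (M (M (S (M (V 4) (M (M (V 4) (V 2)) (V 0))) (M (M (M (V 4) (V 2)) (V 0)) (V 4))) (V 1)) (V 3)) (M (S (M (V 4) (M (M (V 4) (V 2)) (V 0))) (M (M (M (V 4) (V 2)) (V 0)) (V 4))) (M (V 1) (V 3))))),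
    (P (S (S (S (M (M (M (V 1) (V 3)) (V 4)) (M (M (V 0) (V 2)) (V 4))) (M (M (V 1) (V 3)) (M (V 4) (M (M (V 0) (V 2)) (V 4))))) (M (V 1) (S (M (M (V 3) (V 4)) (M (M (V 0) (V 2)) (V 4))) (M (V 3) (M (V 4) (M (M (V 0) (V 2)) (V 4))))))) (M (S (M (M (V 1) (V 4)) (M (M (V 0) (V 2)) (V 4))) (M (V 1) (M (V 4) (M (M (V 0) (V 2)) (V 4))))) (V 3))) (S (M (M (S (M (V 4) (M (M (V 0) (V 2)) (V 4))) (M (M (M (V 0) (V 2)) (V 4)) (V 4))) (V 1)) (V 3)) (M (S (M (V 4) (M (M (V 0) (V 2)) (V 4))) (M (M (M (V 0) (V 2)) (V 4)) (V 4))) (M (V 1) (V 3))))),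
    (P (S (S (S (M (M (M (V 1) (V 3)) (M (M (V 2) (V 4)) (V 0))) (V 4)) (M (M (V 1) (V 3)) (M (M (M (V 2) (V 4)) (V 0)) (V 4)))) (M (V 1) (S (M (M (V 3) (M (M (V 2) (V 4)) (V 0))) (V 4)) (M (V 3) (M (M (M (V 2) (V 4)) (V 0)) (V 4)))))) (M (S (M (M (V 1) (M (M (V 2) (V 4)) (V 0))) (V 4)) (M (V 1) (M (M (M (V 2) (V 4)) (V 0)) (V 4)))) (V 3))) (S (M (M (S (M (M (M (V 2) (V 4)) (V 0)) (V 4)) (M (V 4) (M (M (V 2) (V 4)) (V 0)))) (V 1)) (V 3)) (M (S (M (M (M (V 2) (V 4)) (V 0)) (V 4)) (M (V 4) (M (M (V 2) (V 4)) (V 0)))) (M (V 1) (V 3))))),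
    (P (S (S (S (M (M (M (V 1) (V 3)) (M (V 0) (M (V 2) (V 4)))) (V 4)) (M (M (V 1) (V 3)) (M (M (V 0) (M (V 2) (V 4))) (V 4)))) (M (V 1) (S (M (M (V 3) (M (V 0) (M (V 2) (V 4)))) (V 4)) (M (V 3) (M (M (V 0) (M (V 2) (V 4))) (V 4)))))) (M (S (M (M (V 1) (M (V 0) (M (V 2) (V 4)))) (V 4)) (M (V 1) (M (M (V 0) (M (V 2) (V 4))) (V 4)))) (V 3))) (S (M (M (S (M (M (V 0) (M (V 2) (V 4))) (V 4)) (M (V 4) (M (V 0) (M (V 2) (V 4))))) (V 1)) (V 3)) (M (S (M (M (V 0) (M (V 2) (V 4))) (V 4)) (M (V 4) (M (V 0) (M (V 2) (V 4))))) (M (V 1) (V 3))))),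
    (P (S (S (S (M (M (M (V 1) (V 2)) (V 4)) (M (M (V 3) (V 4)) (V 0))) (M (M (V 1) (V 2)) (M (V 4) (M (M (V 3) (V 4)) (V 0))))) (M (V 1) (S (M (M (V 2) (V 4)) (M (M (V 3) (V 4)) (V 0))) (M (V 2) (M (V 4) (M (M (V 3) (V 4)) (V 0))))))) (M (S (M (M (V 1) (V 4)) (M (M (V 3) (V 4)) (V 0))) (M (V 1) (M (V 4) (M (M (V 3) (V 4)) (V 0))))) (V 2))) (S (M (M (S (M (V 4) (M (M (V 3) (V 4)) (V 0))) (M (M (M (V 3) (V 4)) (V 0)) (V 4))) (V 1)) (V 2)) (M (S (M (V 4) (M (M (V 3) (V 4)) (V 0))) (M (M (M (V 3) (V 4)) (V 0)) (V 4))) (M (V 1) (V 2))))),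
    (P (S (S (S (M (M (M (V 1) (V 2)) (V 4)) (M (V 0) (M (V 3) (V 4)))) (M (M (V 1) (V 2)) (M (V 4) (M (V 0) (M (V 3) (V 4)))))) (M (V 1) (S (M (M (V 2) (V 4)) (M (V 0) (M (V 3) (V 4)))) (M (V 2) (M (V 4) (M (V 0) (M (V 3) (V 4)))))))) (M (S (M (M (V 1) (V 4)) (M (V 0) (M (V 3) (V 4)))) (M (V 1) (M (V 4) (M (V 0) (M (V 3) (V 4)))))) (V 2))) (S (M (M (S (M (V 4) (M (V 0) (M (V 3) (V 4)))) (M (M (V 0) (M (V 3) (V 4))) (V 4))) (V 1)) (V 2)) (M (S (M (V 4) (M (V 0) (M (V 3) (V 4)))) (M (M (V 0) (M (V 3) (V 4))) (V 4))) (M (V 1) (V 2))))),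
    (P (S (S (S (M (M (M (V 1) (V 2)) (V 4)) (M (M (V 0) (V 3)) (V 4))) (M (M (V 1) (V 2)) (M (V 4) (M (M (V 0) (V 3)) (V 4))))) (M (V 1) (S (M (M (V 2) (V 4)) (M (M (V 0) (V 3)) (V 4))) (M (V 2) (M (V 4) (M (M (V 0) (V 3)) (V 4))))))) (M (S (M (M (V 1) (V 4)) (M (M (V 0) (V 3)) (V 4))) (M (V 1) (M (V 4) (M (M (V 0) (V 3)) (V 4))))) (V 2))) (S (M (M (S (M (V 4) (M (M (V 0) (V 3)) (V 4))) (M (M (M (V 0) (V 3)) (V 4)) (V 4))) (V 1)) (V 2)) (M (S (M (V 4) (M (M (V 0) (V 3)) (V 4))) (M (M (M (V 0) (V 3)) (V 4)) (V 4))) (M (V 1) (V 2))))),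
    (P (S (S (S (M (M (M (V 1) (V 2)) (M (M (V 4) (V 3)) (V 0))) (V 4)) (M (M (V 1) (V 2)) (M (M (M (V 4) (V 3)) (V 0)) (V 4)))) (M (V 1) (S (M (M (V 2) (M (M (V 4) (V 3)) (V 0))) (V 4)) (M (V 2) (M (M (M (V 4) (V 3)) (V 0)) (V 4)))))) (M (S (M (M (V 1) (M (M (V 4) (V 3)) (V 0))) (V 4)) (M (V 1) (M (M (M (V 4) (V 3)) (V 0)) (V 4)))) (V 2))) (S (M (M (S (M (M (M (V 4) (V 3)) (V 0)) (V 4)) (M (V 4) (M (M (V 4) (V 3)) (V 0)))) (V 1)) (V 2)) (M (S (M (M (M (V 4) (V 3)) (V 0)) (V 4)) (M (V 4) (M (M (V 4) (V 3)) (V 0)))) (M (V 1) (V 2))))),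
    (S (S (S (S (M (M (M (V 2) (V 3)) (V 4)) (M (M (V 1) (V 4)) (V 0))) (M (M (M (V 1) (V 4)) (V 0)) (M (M (V 2) (V 3)) (V 4)))) (M (M (V 2) (V 3)) (S (M (V 4) (M (M (V 1) (V 4)) (V 0))) (M (M (M (V 1) (V 4)) (V 0)) (V 4))))) (M (S (M (M (V 2) (V 3)) (M (M (V 1) (V 4)) (V 0))) (M (M (M (V 1) (V 4)) (V 0)) (M (V 2) (V 3)))) (V 4))) (Z 3 (S (M (M (M (V 2) (V 3)) (V 4)) (M (M (V 1) (V 4)) (V 0))) (M (M (V 2) (V 3)) (M (V 4) (M (M (V 1) (V 4)) (V 0))))))),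
    (S (S (S (S (M (M (M (V 2) (V 3)) (V 4)) (M (V 0) (M (V 1) (V 4)))) (M (M (V 0) (M (V 1) (V 4))) (M (M (V 2) (V 3)) (V 4)))) (M (M (V 2) (V 3)) (S (M (V 4) (M (V 0) (M (V 1) (V 4)))) (M (M (V 0) (M (V 1) (V 4))) (V 4))))) (M (S (M (M (V 2) (V 3)) (M (V 0) (M (V 1) (V 4)))) (M (M (V 0) (M (V 1) (V 4))) (M (V 2) (V 3)))) (V 4))) (Z 3 (S (M (M (M (V 2) (V 3)) (V 4)) (M (V 0) (M (V 1) (V 4)))) (M (M (V 2) (V 3)) (M (V 4) (M (V 0) (M (V 1) (V 4)))))))),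
    (S (S (S (S (M (M (M (V 3) (V 1)) (V 4)) (M (M (V 4) (V 2)) (V 0))) (M (M (M (V 4) (V 2)) (V 0)) (M (M (V 3) (V 1)) (V 4)))) (M (M (V 3) (V 1)) (S (M (V 4) (M (M (V 4) (V 2)) (V 0))) (M (M (M (V 4) (V 2)) (V 0)) (V 4))))) (M (S (M (M (V 3) (V 1)) (M (M (V 4) (V 2)) (V 0))) (M (M (M (V 4) (V 2)) (V 0)) (M (V 3) (V 1)))) (V 4))) (Z 3 (S (M (M (M (V 3) (V 1)) (V 4)) (M (M (V 4) (V 2)) (V 0))) (M (M (V 3) (V 1)) (M (V 4) (M (M (V 4) (V 2)) (V 0))))))),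
    (S (S (S (S (M (M (M (V 3) (V 1)) (V 4)) (M (V 0) (M (V 2) (V 4)))) (M (M (V 0) (M (V 2) (V 4))) (M (M (V 3) (V 1)) (V 4)))) (M (M (V 3) (V 1)) (S (M (V 4) (M (V 0) (M (V 2) (V 4)))) (M (M (V 0) (M (V 2) (V 4))) (V 4))))) (M (S (M (M (V 3) (V 1)) (M (V 0) (M (V 2) (V 4)))) (M (M (V 0) (M (V 2) (V 4))) (M (V 3) (V 1)))) (V 4))) (Z 3 (S (M (M (M (V 3) (V 1)) (V 4)) (M (V 0) (M (V 2) (V 4)))) (M (M (V 3) (V 1)) (M (V 4) (M (V 0) (M (V 2) (V 4)))))))),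
    (S (S (S (S (M (M (M (V 1) (V 3)) (V 4)) (M (M (V 4) (V 2)) (V 0))) (M (M (M (V 4) (V 2)) (V 0)) (M (M (V 1) (V 3)) (V 4)))) (M (M (V 1) (V 3)) (S (M (V 4) (M (M (V 4) (V 2)) (V 0))) (M (M (M (V 4) (V 2)) (V 0)) (V 4))))) (M (S (M (M (V 1) (V 3)) (M (M (V 4) (V 2)) (V 0))) (M (M (M (V 4) (V 2)) (V 0)) (M (V 1) (V 3)))) (V 4))) (Z 3 (S (M (M (M (V 1) (V 3)) (V 4)) (M (M (V 4) (V 2)) (V 0))) (M (M (V 1) (V 3)) (M (V 4) (M (M (V 4) (V 2)) (V 0))))))),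
    (S (S (S (S (M (M (M (V 1) (V 3)) (V 4)) (M (M (V 0) (V 2)) (V 4))) (M (M (M (V 0) (V 2)) (V 4)) (M (M (V 1) (V 3)) (V 4)))) (M (M (V 1) (V 3)) (S (M (V 4) (M (M (V 0) (V 2)) (V 4))) (M (M (M (V 0) (V 2)) (V 4)) (V 4))))) (M (S (M (M (V 1) (V 3)) (M (M (V 0) (V 2)) (V 4))) (M (M (M (V 0) (V 2)) (V 4)) (M (V 1) (V 3)))) (V 4))) (Z 3 (S (M (M (M (V 1) (V 3)) (V 4)) (M (M (V 0) (V 2)) (V 4))) (M (M (V 1) (V 3)) (M (V 4) (M (M (V 0) (V 2)) (V 4))))))),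
    (S (S (S (S (M (M (M (V 2) (V 1)) (V 4)) (M (M (V 4) (V 3)) (V 0))) (M (M (M (V 4) (V 3)) (V 0)) (M (M (V 2) (V 1)) (V 4)))) (M (M (V 2) (V 1)) (S (M (V 4) (M (M (V 4) (V 3)) (V 0))) (M (M (M (V 4) (V 3)) (V 0)) (V 4))))) (M (S (M (M (V 2) (V 1)) (M (M (V 4) (V 3)) (V 0))) (M (M (M (V 4) (V 3)) (V 0)) (M (V 2) (V 1)))) (V 4))) (Z 3 (S (M (M (M (V 2) (V 1)) (V 4)) (M (M (V 4) (V 3)) (V 0))) (M (M (V 2) (V 1)) (M (V 4) (M (M (V 4) (V 3)) (V 0))))))),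
    (S (S (S (S (M (M (M (V 2) (V 1)) (V 4)) (M (M (V 0) (V 3)) (V 4))) (M (M (M (V 0) (V 3)) (V 4)) (M (M (V 2) (V 1)) (V 4)))) (M (M (V 2) (V 1)) (S (M (V 4) (M (M (V 0) (V 3)) (V 4))) (M (M (M (V 0) (V 3)) (V 4)) (V 4))))) (M (S (M (M (V 2) (V 1)) (M (M (V 0) (V 3)) (V 4))) (M (M (M (V 0) (V 3)) (V 4)) (M (V 2) (V 1)))) (V 4))) (Z 3 (S (M (M (M (V 2) (V 1)) (V 4)) (M (M (V 0) (V 3)) (V 4))) (M (M (V 2) (V 1)) (M (V 4) (M (M (V 0) (V 3)) (V 4))))))),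
    (S (S (S (S (M (M (M (V 1) (V 2)) (V 4)) (M (M (V 3) (V 4)) (V 0))) (M (M (M (V 3) (V 4)) (V 0)) (M (M (V 1) (V 2)) (V 4)))) (M (M (V 1) (V 2)) (S (M (V 4) (M (M (V 3) (V 4)) (V 0))) (M (M (M (V 3) (V 4)) (V 0)) (V 4))))) (M (S (M (M (V 1) (V 2)) (M (M (V 3) (V 4)) (V 0))) (M (M (M (V 3) (V 4)) (V 0)) (M (V 1) (V 2)))) (V 4))) (Z 3 (S (M (M (M (V 1) (V 2)) (V 4)) (M (M (V 3) (V 4)) (V 0))) (M (M (V 1) (V 2)) (M (V 4) (M (M (V 3) (V 4)) (V 0))))))),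
    (S (S (S (S (M (M (M (V 1) (V 2)) (V 4)) (M (V 0) (M (V 3) (V 4)))) (M (M (V 0) (M (V 3) (V 4))) (M (M (V 1) (V 2)) (V 4)))) (M (M (V 1) (V 2)) (S (M (V 4) (M (V 0) (M (V 3) (V 4)))) (M (M (V 0) (M (V 3) (V 4))) (V 4))))) (M (S (M (M (V 1) (V 2)) (M (V 0) (M (V 3) (V 4)))) (M (M (V 0) (M (V 3) (V 4))) (M (V 1) (V 2)))) (V 4))) (Z 3 (S (M (M (M (V 1) (V 2)) (V 4)) (M (V 0) (M (V 3) (V 4)))) (M (M (V 1) (V 2)) (M (V 4) (M (V 0) (M (V 3) (V 4)))))))),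
    (S (S (S (S (M (M (M (V 1) (V 2)) (V 4)) (M (M (V 0) (V 3)) (V 4))) (M (M (M (V 0) (V 3)) (V 4)) (M (M (V 1) (V 2)) (V 4)))) (M (M (V 1) (V 2)) (S (M (V 4) (M (M (V 0) (V 3)) (V 4))) (M (M (M (V 0) (V 3)) (V 4)) (V 4))))) (M (S (M (M (V 1) (V 2)) (M (M (V 0) (V 3)) (V 4))) (M (M (M (V 0) (V 3)) (V 4)) (M (V 1) (V 2)))) (V 4))) (Z 3 (S (M (M (M (V 1) (V 2)) (V 4)) (M (M (V 0) (V 3)) (V 4))) (M (M (V 1) (V 2)) (M (V 4) (M (M (V 0) (V 3)) (V 4))))))),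
    (S (S (S (S (M (M (V 0) (M (V 4) (M (V 3) (M (V 2) (V 1))))) (V 4)) (M (V 4) (M (V 0) (M (V 4) (M (V 3) (M (V 2) (V 1))))))) (M (V 0) (S (M (M (V 4) (M (V 3) (M (V 2) (V 1)))) (V 4)) (M (V 4) (M (V 4) (M (V 3) (M (V 2) (V 1)))))))) (M (S (M (V 0) (V 4)) (M (V 4) (V 0))) (M (V 4) (M (V 3) (M (V 2) (V 1)))))) (Z 3 (S (M (M (V 0) (M (V 4) (M (V 3) (M (V 2) (V 1))))) (V 4)) (M (V 0) (M (M (V 4) (M (V 3) (M (V 2) (V 1)))) (V 4)))))),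
    (S (S (S (S (M (M (V 0) (M (V 4) (M (V 3) (M (V 1) (V 2))))) (V 4)) (M (V 4) (M (V 0) (M (V 4) (M (V 3) (M (V 1) (V 2))))))) (M (V 0) (S (M (M (V 4) (M (V 3) (M (V 1) (V 2)))) (V 4)) (M (V 4) (M (V 4) (M (V 3) (M (V 1) (V 2)))))))) (M (S (M (V 0) (V 4)) (M (V 4) (V 0))) (M (V 4) (M (V 3) (M (V 1) (V 2)))))) (Z 3 (S (M (M (V 0) (M (V 4) (M (V 3) (M (V 1) (V 2))))) (V 4)) (M (V 0) (M (M (V 4) (M (V 3) (M (V 1) (V 2)))) (V 4)))))),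
    (S (S (S (S (M (M (V 0) (M (V 4) (M (V 2) (M (V 3) (V 1))))) (V 4)) (M (V 4) (M (V 0) (M (V 4) (M (V 2) (M (V 3) (V 1))))))) (M (V 0) (S (M (M (V 4) (M (V 2) (M (V 3) (V 1)))) (V 4)) (M (V 4) (M (V 4) (M (V 2) (M (V 3) (V 1)))))))) (M (S (M (V 0) (V 4)) (M (V 4) (V 0))) (M (V 4) (M (V 2) (M (V 3) (V 1)))))) (Z 3 (S (M (M (V 0) (M (V 4) (M (V 2) (M (V 3) (V 1))))) (V 4)) (M (V 0) (M (M (V 4) (M (V 2) (M (V 3) (V 1)))) (V 4)))))),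
    (S (S (S (S (M (M (V 0) (M (V 4) (M (V 2) (M (V 1) (V 3))))) (V 4)) (M (V 4) (M (V 0) (M (V 4) (M (V 2) (M (V 1) (V 3))))))) (M (V 0) (S (M (M (V 4) (M (V 2) (M (V 1) (V 3)))) (V 4)) (M (V 4) (M (V 4) (M (V 2) (M (V 1) (V 3)))))))) (M (S (M (V 0) (V 4)) (M (V 4) (V 0))) (M (V 4) (M (V 2) (M (V 1) (V 3)))))) (Z 3 (S (M (M (V 0) (M (V 4) (M (V 2) (M (V 1) (V 3))))) (V 4)) (M (V 0) (M (M (V 4) (M (V 2) (M (V 1) (V 3)))) (V 4)))))),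
    (S (S (S (S (M (M (V 0) (M (V 4) (M (M (V 3) (V 2)) (V 1)))) (V 4)) (M (V 4) (M (V 0) (M (V 4) (M (M (V 3) (V 2)) (V 1)))))) (M (V 0) (S (M (M (V 4) (M (M (V 3) (V 2)) (V 1))) (V 4)) (M (V 4) (M (V 4) (M (M (V 3) (V 2)) (V 1))))))) (M (S (M (V 0) (V 4)) (M (V 4) (V 0))) (M (V 4) (M (M (V 3) (V 2)) (V 1))))) (Z 3 (S (M (M (V 0) (M (V 4) (M (M (V 3) (V 2)) (V 1)))) (V 4)) (M (V 0) (M (M (V 4) (M (M (V 3) (V 2)) (V 1))) (V 4)))))),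
    (S (S (S (S (M (M (V 0) (M (V 4) (M (M (V 2) (V 3)) (V 1)))) (V 4)) (M (V 4) (M (V 0) (M (V 4) (M (M (V 2) (V 3)) (V 1)))))) (M (V 0) (S (M (M (V 4) (M (M (V 2) (V 3)) (V 1))) (V 4)) (M (V 4) (M (V 4) (M (M (V 2) (V 3)) (V 1))))))) (M (S (M (V 0) (V 4)) (M (V 4) (V 0))) (M (V 4) (M (M (V 2) (V 3)) (V 1))))) (Z 3 (S (M (M (V 0) (M (V 4) (M (M (V 2) (V 3)) (V 1)))) (V 4)) (M (V 0) (M (M (V 4) (M (M (V 2) (V 3)) (V 1))) (V 4)))))),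
    (S (S (S (S (M (M (V 0) (M (V 4) (M (V 1) (M (V 3) (V 2))))) (V 4)) (M (V 4) (M (V 0) (M (V 4) (M (V 1) (M (V 3) (V 2))))))) (M (V 0) (S (M (M (V 4) (M (V 1) (M (V 3) (V 2)))) (V 4)) (M (V 4) (M (V 4) (M (V 1) (M (V 3) (V 2)))))))) (M (S (M (V 0) (V 4)) (M (V 4) (V 0))) (M (V 4) (M (V 1) (M (V 3) (V 2)))))) (Z 3 (S (M (M (V 0) (M (V 4) (M (V 1) (M (V 3) (V 2))))) (V 4)) (M (V 0) (M (M (V 4) (M (V 1) (M (V 3) (V 2)))) (V 4)))))),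
    (S (S (S (S (M (M (V 0) (M (V 4) (M (V 1) (M (V 2) (V 3))))) (V 4)) (M (V 4) (M (V 0) (M (V 4) (M (V 1) (M (V 2) (V 3))))))) (M (V 0) (S (M (M (V 4) (M (V 1) (M (V 2) (V 3)))) (V 4)) (M (V 4) (M (V 4) (M (V 1) (M (V 2) (V 3)))))))) (M (S (M (V 0) (V 4)) (M (V 4) (V 0))) (M (V 4) (M (V 1) (M (V 2) (V 3)))))) (Z 3 (S (M (M (V 0) (M (V 4) (M (V 1) (M (V 2) (V 3))))) (V 4)) (M (V 0) (M (M (V 4) (M (V 1) (M (V 2) (V 3)))) (V 4)))))),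
    (S (S (S (S (M (M (V 0) (M (V 4) (M (M (V 3) (V 1)) (V 2)))) (V 4)) (M (V 4) (M (V 0) (M (V 4) (M (M (V 3) (V 1)) (V 2)))))) (M (V 0) (S (M (M (V 4) (M (M (V 3) (V 1)) (V 2))) (V 4)) (M (V 4) (M (V 4) (M (M (V 3) (V 1)) (V 2))))))) (M (S (M (V 0) (V 4)) (M (V 4) (V 0))) (M (V 4) (M (M (V 3) (V 1)) (V 2))))) (Z 3 (S (M (M (V 0) (M (V 4) (M (M (V 3) (V 1)) (V 2)))) (V 4)) (M (V 0) (M (M (V 4) (M (M (V 3) (V 1)) (V 2))) (V 4)))))),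
    (S (S (S (S (M (M (V 0) (M (V 4) (M (M (V 1) (V 3)) (V 2)))) (V 4)) (M (V 4) (M (V 0) (M (V 4) (M (M (V 1) (V 3)) (V 2)))))) (M (V 0) (S (M (M (V 4) (M (M (V 1) (V 3)) (V 2))) (V 4)) (M (V 4) (M (V 4) (M (M (V 1) (V 3)) (V 2))))))) (M (S (M (V 0) (V 4)) (M (V 4) (V 0))) (M (V 4) (M (M (V 1) (V 3)) (V 2))))) (Z 3 (S (M (M (V 0) (M (V 4) (M (M (V 1) (V 3)) (V 2)))) (V 4)) (M (V 0) (M (M (V 4) (M (M (V 1) (V 3)) (V 2))) (V 4)))))),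
    (S (S (S (S (M (M (V 0) (M (V 4) (M (M (V 2) (V 1)) (V 3)))) (V 4)) (M (V 4) (M (V 0) (M (V 4) (M (M (V 2) (V 1)) (V 3)))))) (M (V 0) (S (M (M (V 4) (M (M (V 2) (V 1)) (V 3))) (V 4)) (M (V 4) (M (V 4) (M (M (V 2) (V 1)) (V 3))))))) (M (S (M (V 0) (V 4)) (M (V 4) (V 0))) (M (V 4) (M (M (V 2) (V 1)) (V 3))))) (Z 3 (S (M (M (V 0) (M (V 4) (M (M (V 2) (V 1)) (V 3)))) (V 4)) (M (V 0) (M (M (V 4) (M (M (V 2) (V 1)) (V 3))) (V 4)))))),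
    (S (S (S (S (M (M (V 0) (M (V 4) (M (M (V 1) (V 2)) (V 3)))) (V 4)) (M (V 4) (M (V 0) (M (V 4) (M (M (V 1) (V 2)) (V 3)))))) (M (V 0) (S (M (M (V 4) (M (M (V 1) (V 2)) (V 3))) (V 4)) (M (V 4) (M (V 4) (M (M (V 1) (V 2)) (V 3))))))) (M (S (M (V 0) (V 4)) (M (V 4) (V 0))) (M (V 4) (M (M (V 1) (V 2)) (V 3))))) (Z 3 (S (M (M (V 0) (M (V 4) (M (M (V 1) (V 2)) (V 3)))) (V 4)) (M (V 0) (M (M (V 4) (M (M (V 1) (V 2)) (V 3))) (V 4)))))),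
    (S (S (S (S (M (M (V 0) (M (M (V 3) (M (V 2) (V 1))) (V 4))) (V 4)) (M (V 4) (M (V 0) (M (M (V 3) (M (V 2) (V 1))) (V 4))))) (M (V 0) (S (M (M (M (V 3) (M (V 2) (V 1))) (V 4)) (V 4)) (M (V 4) (M (M (V 3) (M (V 2) (V 1))) (V 4)))))) (M (S (M (V 0) (V 4)) (M (V 4) (V 0))) (M (M (V 3) (M (V 2) (V 1))) (V 4)))) (Z 3 (S (M (M (V 0) (M (M (V 3) (M (V 2) (V 1))) (V 4))) (V 4)) (M (V 0) (M (M (M (V 3) (M (V 2) (V 1))) (V 4)) (V 4)))))),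
    (S (S (S (S (M (M (V 0) (M (M (V 3) (M (V 1) (V 2))) (V 4))) (V 4)) (M (V 4) (M (V 0) (M (M (V 3) (M (V 1) (V 2))) (V 4))))) (M (V 0) (S (M (M (M (V 3) (M (V 1) (V 2))) (V 4)) (V 4)) (M (V 4) (M (M (V 3) (M (V 1) (V 2))) (V 4)))))) (M (S (M (V 0) (V 4)) (M (V 4) (V 0))) (M (M (V 3) (M (V 1) (V 2))) (V 4)))) (Z 3 (S (M (M (V 0) (M (M (V 3) (M (V 1) (V 2))) (V 4))) (V 4)) (M (V 0) (M (M (M (V 3) (M (V 1) (V 2))) (V 4)) (V 4)))))),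
    (S (S (S (S (M (M (V 0) (M (M (V 2) (M (V 3) (V 1))) (V 4))) (V 4)) (M (V 4) (M (V 0) (M (M (V 2) (M (V 3) (V 1))) (V 4))))) (M (V 0) (S (M (M (M (V 2) (M (V 3) (V 1))) (V 4)) (V 4)) (M (V 4) (M (M (V 2) (M (V 3) (V 1))) (V 4)))))) (M (S (M (V 0) (V 4)) (M (V 4) (V 0))) (M (M (V 2) (M (V 3) (V 1))) (V 4)))) (Z 3 (S (M (M (V 0) (M (M (V 2) (M (V 3) (V 1))) (V 4))) (V 4)) (M (V 0) (M (M (M (V 2) (M (V 3) (V 1))) (V 4)) (V 4)))))),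
    (S (S (S (S (M (M (V 0) (M (M (V 2) (M (V 1) (V 3))) (V 4))) (V 4)) (M (V 4) (M (V 0) (M (M (V 2) (M (V 1) (V 3))) (V 4))))) (M (V 0) (S (M (M (M (V 2) (M (V 1) (V 3))) (V 4)) (V 4)) (M (V 4) (M (M (V 2) (M (V 1) (V 3))) (V 4)))))) (M (S (M (V 0) (V 4)) (M (V 4) (V 0))) (M (M (V 2) (M (V 1) (V 3))) (V 4)))) (Z 3 (S (M (M (V 0) (M (M (V 2) (M (V 1) (V 3))) (V 4))) (V 4)) (M (V 0) (M (M (M (V 2) (M (V 1) (V 3))) (V 4)) (V 4)))))),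
    (S (S (S (S (M (M (V 0) (M (M (M (V 3) (V 2)) (V 1)) (V 4))) (V 4)) (M (V 4) (M (V 0) (M (M (M (V 3) (V 2)) (V 1)) (V 4))))) (M (V 0) (S (M (M (M (M (V 3) (V 2)) (V 1)) (V 4)) (V 4)) (M (V 4) (M (M (M (V 3) (V 2)) (V 1)) (V 4)))))) (M (S (M (V 0) (V 4)) (M (V 4) (V 0))) (M (M (M (V 3) (V 2)) (V 1)) (V 4)))) (Z 3 (S (M (M (V 0) (M (M (M (V 3) (V 2)) (V 1)) (V 4))) (V 4)) (M (V 0) (M (M (M (M (V 3) (V 2)) (V 1)) (V 4)) (V 4)))))),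
    (S (S (S (S (M (M (V 0) (M (M (M (V 2) (V 3)) (V 1)) (V 4))) (V 4)) (M (V 4) (M (V 0) (M (M (M (V 2) (V 3)) (V 1)) (V 4))))) (M (V 0) (S (M (M (M (M (V 2) (V 3)) (V 1)) (V 4)) (V 4)) (M (V 4) (M (M (M (V 2) (V 3)) (V 1)) (V 4)))))) (M (S (M (V 0) (V 4)) (M (V 4) (V 0))) (M (M (M (V 2) (V 3)) (V 1)) (V 4)))) (Z 3 (S (M (M (V 0) (M (M (M (V 2) (V 3)) (V 1)) (V 4))) (V 4)) (M (V 0) (M (M (M (M (V 2) (V 3)) (V 1)) (V 4)) (V 4)))))),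
    (S (S (S (S (M (M (V 0) (M (M (V 1) (M (V 3) (V 2))) (V 4))) (V 4)) (M (V 4) (M (V 0) (M (M (V 1) (M (V 3) (V 2))) (V 4))))) (M (V 0) (S (M (M (M (V 1) (M (V 3) (V 2))) (V 4)) (V 4)) (M (V 4) (M (M (V 1) (M (V 3) (V 2))) (V 4)))))) (M (S (M (V 0) (V 4)) (M (V 4) (V 0))) (M (M (V 1) (M (V 3) (V 2))) (V 4)))) (Z 3 (S (M (M (V 0) (M (M (V 1) (M (V 3) (V 2))) (V 4))) (V 4)) (M (V 0) (M (M (M (V 1) (M (V 3) (V 2))) (V 4)) (V 4)))))),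
    (S (S (S (S (M (M (V 0) (M (M (V 1) (M (V 2) (V 3))) (V 4))) (V 4)) (M (V 4) (M (V 0) (M (M (V 1) (M (V 2) (V 3))) (V 4))))) (M (V 0) (S (M (M (M (V 1) (M (V 2) (V 3))) (V 4)) (V 4)) (M (V 4) (M (M (V 1) (M (V 2) (V 3))) (V 4)))))) (M (S (M (V 0) (V 4)) (M (V 4) (V 0))) (M (M (V 1) (M (V 2) (V 3))) (V 4)))) (Z 3 (S (M (M (V 0) (M (M (V 1) (M (V 2) (V 3))) (V 4))) (V 4)) (M (V 0) (M (M (M (V 1) (M (V 2) (V 3))) (V 4)) (V 4)))))),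
    (S (S (S (S (M (M (V 0) (M (M (M (V 3) (V 1)) (V 2)) (V 4))) (V 4)) (M (V 4) (M (V 0) (M (M (M (V 3) (V 1)) (V 2)) (V 4))))) (M (V 0) (S (M (M (M (M (V 3) (V 1)) (V 2)) (V 4)) (V 4)) (M (V 4) (M (M (M (V 3) (V 1)) (V 2)) (V 4)))))) (M (S (M (V 0) (V 4)) (M (V 4) (V 0))) (M (M (M (V 3) (V 1)) (V 2)) (V 4)))) (Z 3 (S (M (M (V 0) (M (M (M (V 3) (V 1)) (V 2)) (V 4))) (V 4)) (M (V 0) (M (M (M (M (V 3) (V 1)) (V 2)) (V 4)) (V 4)))))),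
    (S (S (S (S (M (M (V 0) (M (M (M (V 1) (V 3)) (V 2)) (V 4))) (V 4)) (M (V 4) (M (V 0) (M (M (M (V 1) (V 3)) (V 2)) (V 4))))) (M (V 0) (S (M (M (M (M (V 1) (V 3)) (V 2)) (V 4)) (V 4)) (M (V 4) (M (M (M (V 1) (V 3)) (V 2)) (V 4)))))) (M (S (M (V 0) (V 4)) (M (V 4) (V 0))) (M (M (M (V 1) (V 3)) (V 2)) (V 4)))) (Z 3 (S (M (M (V 0) (M (M (M (V 1) (V 3)) (V 2)) (V 4))) (V 4)) (M (V 0) (M (M (M (M (V 1) (V 3)) (V 2)) (V 4)) (V 4)))))),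
    (S (S (S (S (M (M (V 0) (M (M (M (V 2) (V 1)) (V 3)) (V 4))) (V 4)) (M (V 4) (M (V 0) (M (M (M (V 2) (V 1)) (V 3)) (V 4))))) (M (V 0) (S (M (M (M (M (V 2) (V 1)) (V 3)) (V 4)) (V 4)) (M (V 4) (M (M (M (V 2) (V 1)) (V 3)) (V 4)))))) (M (S (M (V 0) (V 4)) (M (V 4) (V 0))) (M (M (M (V 2) (V 1)) (V 3)) (V 4)))) (Z 3 (S (M (M (V 0) (M (M (M (V 2) (V 1)) (V 3)) (V 4))) (V 4)) (M (V 0) (M (M (M (M (V 2) (V 1)) (V 3)) (V 4)) (V 4)))))),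
    (S (S (S (S (M (M (V 0) (M (M (M (V 1) (V 2)) (V 3)) (V 4))) (V 4)) (M (V 4) (M (V 0) (M (M (M (V 1) (V 2)) (V 3)) (V 4))))) (M (V 0) (S (M (M (M (M (V 1) (V 2)) (V 3)) (V 4)) (V 4)) (M (V 4) (M (M (M (V 1) (V 2)) (V 3)) (V 4)))))) (M (S (M (V 0) (V 4)) (M (V 4) (V 0))) (M (M (M (V 1) (V 2)) (V 3)) (V 4)))) (Z 3 (S (M (M (V 0) (M (M (M (V 1) (V 2)) (V 3)) (V 4))) (V 4)) (M (V 0) (M (M (M (M (V 1) (V 2)) (V 3)) (V 4)) (V 4))))))]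
    (Z 8 (P (P (S (M (S (M (M (S (S (M (M (V 0) (V 1)) (V 4)) (M (V 0) (M (V 1) (V 4)))) (M (S (M (V 1) (V 4)) (M (V 4) (V 1))) (V 0))) (V 2)) (V 4)) (M (S (S (M (M (V 0) (V 1)) (V 4)) (M (V 0) (M (V 1) (V 4)))) (M (S (M (V 1) (V 4)) (M (V 4) (V 1))) (V 0))) (M (V 2) (V 4)))) (V 3)) (M (V 3) (S (M (M (S (S (M (M (V 0) (V 1)) (V 4)) (M (V 0) (M (V 1) (V 4)))) (M (S (M (V 1) (V 4)) (M (V 4) (V 1))) (V 0))) (V 2)) (V 4)) (M (S (S (M (M (V 0) (V 1)) (V 4)) (M (V 0) (M (V 1) (V 4)))) (M (S (M (V 1) (V 4)) (M (V 4) (V 1))) (V 0))) (M (V 2) (V 4)))))) (S (M (S (M (M (S (S (M (M (V 0) (V 2)) (V 4)) (M (V 0) (M (V 2) (V 4)))) (M (S (M (V 2) (V 4)) (M (V 4) (V 2))) (V 0))) (V 3)) (V 4)) (M (S (S (M (M (V 0) (V 2)) (V 4)) (M (V 0) (M (V 2) (V 4)))) (M (S (M (V 2) (V 4)) (M (V 4) (V 2))) (V 0))) (M (V 3) (V 4)))) (V 1))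 (M (V 1) (S (M (M (S (S (M (M (V 0) (V 2)) (V 4)) (M (V 0) (M (V 2) (V 4)))) (M (S (M (V 2) (V 4)) (M (V 4) (V 2))) (V 0))) (V 3)) (V 4)) (M (S (S (M (M (V 0) (V 2)) (V 4)) (M (V 0) (M (V 2) (V 4)))) (M (S (M (V 2) (V 4)) (M (V 4) (V 2))) (V 0))) (M (V 3) (V 4))))))) (S (M (S (M (M (S (S (M (M (V 0) (V 3)) (V 4)) (M (V 0) (M (V 3) (V 4)))) (M (S (M (V 3) (V 4)) (M (V 4) (V 3))) (V 0))) (V 1)) (V 4)) (M (S (S (M (M (V 0) (V 3)) (V 4)) (M (V 0) (M (V 3) (V 4)))) (M (S (M (V 3) (V 4)) (M (V 4) (V 3))) (V 0))) (M (V 1) (V 4)))) (V 2)) (M (V 2) (S (M (M (S (S (M (M (V 0) (V 3)) (V 4)) (M (V 0) (M (V 3) (V 4)))) (M (S (M (V 3) (V 4)) (M (V 4) (V 3))) (V 0))) (V 1)) (V 4)) (M (S (S (M (M (V 0) (V 3)) (V 4)) (M (V 0) (M (V 3) (V 4)))) (M (S (M (V 3) (V 4)) (M (V 4) (V 3))) (V 0))) (M (V 1) (V 4))))))))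
    [(-4408, (H 0)),
     (-6056, (H 1)),
     (-4920, (H 2)),
     (-4632, (H 3)),
     (-1896, (H 4)),
     (32, (H 5)),
     (4408, (H 6)),
     (4920, (H 7)),
     (6056, (H 8)),
     (1896, (H 9)),
     (4632, (H 10)),
     (-32, (H 11)),
     (-8964, (H 12)),
     (-8489, (H 13)),
     (-8157, (H 14)),
     (-11046, (H 15)),
     (-9628, (H 16)),
     (-9198, (H 17)),
     (-1424, (H 18)),
     (356, (H 19)),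
     (-3152, (H 20)),
     (788, (H 21)),
     (-7316, (H 22)),
     (1829, (H 23)),
     (4248, (H 24)),
     (-1062, (H 25)),
     (-4080, (H 26)),
     (1020, (H 27)),
     (-5988, (H 28)),
     (1497, (H 29)),
     (1608, (M (V 4) (M (V 0) (M (V 3) (L (V 2) (V 4) (V 1)))))),
     (2976, (M (V 4) (M (V 0) (M (V 3) (H 30))))),
     (1392, (M (V 4) (M (V 0) (M (V 3) (H 31))))),
     (-2856, (M (V 4) (M (V 0) (M (V 3) (H 32))))),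
     (4104, (M (V 4) (M (V 0) (M (V 2) (H 33))))),
     (-888, (M (V 4) (M (V 0) (M (V 2) (H 34))))),
     (-2772, (M (V 4) (M (V 0) (M (V 2) (H 35))))),
     (-6852, (M (V 4) (M (V 0) (M (V 2) (H 36))))),
     (-8988, (M (V 4) (M (V 0) (M (L (V 2) (V 4) (V 3)) (V 1))))),
     (-5160, (M (V 4) (M (V 0) (M (H 37) (V 1))))),
     (-6828, (M (V 4) (M (V 0) (M (H 38) (V 1))))),
     (-2484, (M (V 4) (M (V 0) (M (H 39) (V 1))))),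
     (-6828, (M (V 4) (M (V 0) (M (H 40) (V 1))))),
     (12688, (M (V 4) (M (V 0) (M (V 1) (L (V 3) (V 4) (V 2)))))),
     (3400, (M (V 4) (M (V 0) (M (V 1) (H 37))))),
     (1948, (M (V 4) (M (V 0) (M (V 1) (H 41))))),
     (3372, (M (V 4) (M (V 0) (M (V 1) (H 42))))),
     (3624, (M (V 4) (M (V 0) (M (L (V 3) (V 4) (V 1)) (V 2))))),
     (-8804, (M (V 4) (M (V 0) (M (H 34) (V 2))))),
     (-2204, (M (V 4) (M (V 0) (M (H 43) (V 2))))),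
     (-5888, (M (V 4) (M (V 0) (M (H 44) (V 2))))),
     (-2844, (M (V 4) (M (V 0) (M (L (V 1) (V 4) (V 2)) (V 3))))),
     (-11508, (M (V 4) (M (V 0) (M (L (V 2) (V 4) (V 1)) (V 3))))),
     (-2624, (M (V 4) (M (V 0) (M (H 30) (V 3))))),
     (-9180, (M (V 4) (M (V 0) (M (H 45) (V 3))))),
     (-2068, (M (V 4) (M (V 0) (M (H 46) (V 3))))),
     (-420, (M (V 4) (M (V 0) (L (V 1) (M (V 4) (V 2)) (V 3))))),
     (-6656, (M (V 4) (M (V 0) (L (V 3) (M (V 4) (V 1)) (V 2))))),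
     (3540, (M (V 4) (M (V 0) (L (V 3) (M (V 1) (V 4)) (V 2))))),
     (-8804, (M (V 4) (M (V 0) (L (V 1) (V 4) (M (V 3) (V 2)))))),
     (-5664, (M (V 4) (M (V 0) (L (V 1) (V 4) (M (V 2) (V 3)))))),
     (5072, (M (V 4) (M (V 0) (L (V 2) (M (V 4) (V 3)) (V 1))))),
     (-3000, (M (V 4) (M (V 0) (L (V 2) (V 4) (M (V 3) (V 1)))))),
     (-1296, (M (V 4) (M (V 0) (L (V 2) (V 4) (M (V 1) (V 3)))))),
     (-7992, (M (V 4) (M (V 0) (L (V 3) (V 4) (M (V 2) (V 1)))))),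
     (-7968, (M (V 4) (M (V 0) (L (V 3) (V 4) (M (V 1) (V 2)))))),
     (-20360, (M (V 4) (M (V 0) (H 47)))),
     (-17016, (M (V 4) (M (V 0) (H 48)))),
     (-8688, (M (V 4) (M (V 0) (H 49)))),
     (-5664, (M (V 4) (M (V 0) (H 50)))),
     (-10320, (M (V 4) (M (V 0) (H 51)))),
     (-4280, (M (V 4) (M (V 0) (H 52)))),
     (6144, (M (V 4) (M (V 0) (H 53)))),
     (552, (M (V 4) (M (V 0) (H 54)))),
     (9000, (M (V 4) (M (V 0) (H 55)))),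
     (7480, (M (V 4) (M (V 0) (H 56)))),
     (2984, (M (V 4) (M (V 0) (H 57)))),
     (-10164, (M (V 4) (M (V 0) (H 58)))),
     (-6660, (M (V 4) (M (V 0) (H 59)))),
     (-9456, (M (V 4) (M (V 0) (H 60)))),
     (-5860, (M (V 4) (M (V 0) (H 61)))),
     (-2460, (M (V 4) (M (V 0) (H 62)))),
     (-7364, (M (V 4) (M (V 0) (H 63)))),
     (-588, (M (V 4) (M (V 0) (H 64)))),
     (-5148, (M (V 4) (M (V 0) (H 65)))),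
     (4344, (M (V 4) (M (V 0) (H 66)))),
     (1176, (M (V 4) (M (V 0) (H 67)))),
     (-14796, (M (V 4) (M (V 0) (H 68)))),
     (-18308, (M (V 4) (M (V 0) (H 69)))),
     (4216, (M (V 4) (M (V 0) (H 70)))),
     (-3488, (M (V 4) (M (V 0) (H 71)))),
     (2328, (M (V 4) (M (V 0) (H 72)))),
     (2848, (M (V 4) (M (V 0) (H 73)))),
     (8904, (M (V 4) (M (V 0) (H 74)))),
     (-4656, (M (V 4) (M (V 0) (H 75)))),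
     (-10328, (M (V 4) (M (V 0) (H 76)))),
     (-19776, (M (V 4) (M (V 0) (H 77)))),
     (-9484, (M (V 4) (M (V 0) (H 78)))),
     (1416, (M (V 4) (M (V 0) (H 79)))),
     (1740, (M (V 4) (M (V 0) (H 80)))),
     (4396, (M (V 4) (M (V 0) (H 81)))),
     (-5152, (M (V 4) (M (V 0) (H 82)))),
     (-4392, (M (V 4) (M (V 0) (H 83)))),
     (-1672, (M (V 4) (M (V 0) (H 84)))),
     (-8, (M (V 4) (M (V 0) (H 85)))),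
     (4248, (M (V 4) (M (V 0) (H 86)))),
     (-13080, (M (V 4) (M (V 0) (H 87)))),
     (-15724, (M (V 4) (M (V 0) (H 88)))),
     (3092, (M (V 4) (M (V 0) (H 89)))),
     (8740, (M (V 4) (M (V 0) (H 90)))),
     (7232, (M (V 4) (M (V 0) (H 91)))),
     (39936, (M (V 3) (H 92))),
     (-39944, (M (V 3) (L (V 2) (M (M (V 4) (V 1)) (V 0)) (V 4)))),
     (39944, (M (V 3) (L (V 2) (M (M (V 1) (V 4)) (V 0)) (V 4)))),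
     (39944, (M (V 3) (L (V 2) (M (V 0) (M (V 1) (V 4))) (V 4)))),
     (-39944, (M (V 3) (L (V 2) (M (M (V 0) (V 1)) (V 4)) (V 4)))),
     (-19968, (M (V 3) (L (V 1) (M (M (V 4) (V 2)) (V 0)) (V 4)))),
     (39936, (M (V 3) (L (V 1) (M (M (V 2) (V 4)) (V 0)) (V 4)))),
     (19968, (M (V 3) (L (V 1) (M (V 0) (M (V 2) (V 4))) (V 4)))),
     (-39936, (M (V 3) (L (V 1) (M (M (V 0) (V 2)) (V 4)) (V 4)))),
     (-19968, (M (V 3) (H 93))),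
     (19968, (M (V 3) (H 94))),
     (39936, (M (V 2) (H 95))),
     (-39936, (M (V 2) (L (V 3) (M (M (V 4) (V 1)) (V 0)) (V 4)))),
     (19968, (M (V 2) (L (V 3) (M (M (V 1) (V 4)) (V 0)) (V 4)))),
     (19968, (M (V 2) (L (V 3) (M (V 0) (M (V 1) (V 4))) (V 4)))),
     (-39936, (M (V 2) (L (V 3) (M (M (V 0) (V 1)) (V 4)) (V 4)))),
     (-19972, (M (V 2) (L (V 1) (M (M (V 4) (V 3)) (V 0)) (V 4)))),
     (39944, (M (V 2) (L (V 1) (M (M (V 3) (V 4)) (V 0)) (V 4)))),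
     (39944, (M (V 2) (L (V 1) (M (V 0) (M (V 3) (V 4))) (V 4)))),
     (-19972, (M (V 2) (L (V 1) (M (M (V 0) (V 3)) (V 4)) (V 4)))),
     (19968, (M (V 2) (H 96))),
     (19968, (M (V 2) (H 97))),
     (-19972, (M (V 2) (H 98))),
     (-19972, (M (V 2) (H 99))),
     (39936, (M (V 1) (H 100))),
     (-19972, (M (V 1) (L (V 3) (M (M (V 4) (V 2)) (V 0)) (V 4)))),
     (39944, (M (V 1) (L (V 3) (M (M (V 2) (V 4)) (V 0)) (V 4)))),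
     (39944, (M (V 1) (L (V 3) (M (V 0) (M (V 2) (V 4))) (V 4)))),
     (-19972, (M (V 1) (L (V 3) (M (M (V 0) (V 2)) (V 4)) (V 4)))),
     (-39936, (M (V 1) (L (V 2) (M (M (V 4) (V 3)) (V 0)) (V 4)))),
     (19968, (M (V 1) (L (V 2) (M (M (V 3) (V 4)) (V 0)) (V 4)))),
     (19968, (M (V 1) (L (V 2) (M (V 0) (M (V 3) (V 4))) (V 4)))),
     (-19968, (M (V 1) (L (V 2) (M (M (V 0) (V 3)) (V 4)) (V 4)))),
     (-19972, (M (V 1) (H 101))),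
     (-19972, (M (V 1) (H 102))),
     (19968, (M (V 1) (H 103))),
     (19968, (M (V 1) (H 104))),
     (-19968, (M (V 1) (H 105))),
     (1512, (M (V 0) (M (M (V 3) (L (V 1) (V 4) (V 2))) (V 4)))),
     (-1464, (M (V 0) (M (M (V 3) (H 30)) (V 4)))),
     (-1296, (M (V 0) (M (M (V 3) (H 31)) (V 4)))),
     (2952, (M (V 0) (M (M (V 3) (H 32)) (V 4)))),
     (1908, (M (V 0) (M (M (V 2) (L (V 3) (V 4) (V 1))) (V 4)))),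
     (-2580, (M (V 0) (M (M (V 2) (H 34)) (V 4)))),
     (2700, (M (V 0) (M (M (V 2) (H 35)) (V 4)))),
     (6780, (M (V 0) (M (M (V 2) (H 36)) (V 4)))),
     (4032, (M (V 0) (M (M (L (V 2) (V 4) (V 3)) (V 1)) (V 4)))),
     (7992, (M (V 0) (M (M (H 37) (V 1)) (V 4)))),
     (5412, (M (V 0) (M (M (H 38) (V 1)) (V 4)))),
     (2484, (M (V 0) (M (M (H 39) (V 1)) (V 4)))),
     (7536, (M (V 0) (M (M (H 40) (V 1)) (V 4)))),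
     (9176, (M (V 0) (M (M (V 1) (L (V 2) (V 4) (V 3))) (V 4)))),
     (-1304, (M (V 0) (M (M (V 1) (H 37)) (V 4)))),
     (5812, (M (V 0) (M (M (V 1) (H 41)) (V 4)))),
     (4388, (M (V 0) (M (M (V 1) (H 42)) (V 4)))),
     (3456, (M (V 0) (M (M (L (V 3) (V 4) (V 1)) (V 2)) (V 4)))),
     (8496, (M (V 0) (M (M (H 33) (V 2)) (V 4)))),
     (308, (M (V 0) (M (M (H 34) (V 2)) (V 4)))),
     (788, (M (V 0) (M (M (H 43) (V 2)) (V 4)))),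
     (5888, (M (V 0) (M (M (H 44) (V 2)) (V 4)))),
     (22140, (M (V 0) (M (M (L (V 1) (V 4) (V 2)) (V 3)) (V 4)))),
     (-8176, (M (V 0) (M (M (H 30) (V 3)) (V 4)))),
     (12216, (M (V 0) (M (M (H 106) (V 3)) (V 4)))),
     (7056, (M (V 0) (M (M (H 45) (V 3)) (V 4)))),
     (3484, (M (V 0) (M (M (H 46) (V 3)) (V 4)))),
     (1416, (M (V 0) (M (M (H 107) (V 4)) (V 4)))),
     (4668, (M (V 0) (M (L (V 1) (M (V 4) (V 2)) (V 3)) (V 4)))),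
     (8780, (M (V 0) (M (L (V 3) (M (V 4) (V 1)) (V 2)) (V 4)))),
     (1724, (M (V 0) (M (L (V 1) (V 4) (M (V 3) (V 2))) (V 4)))),
     (-116, (M (V 0) (M (L (V 2) (M (V 4) (V 3)) (V 1)) (V 4)))),
     (4416, (M (V 0) (M (L (V 2) (V 4) (M (V 3) (V 1))) (V 4)))),
     (1296, (M (V 0) (M (L (V 2) (V 4) (M (V 1) (V 3))) (V 4)))),
     (7992, (M (V 0) (M (L (V 3) (V 4) (M (V 2) (V 1))) (V 4)))),
     (9384, (M (V 0) (M (L (V 3) (V 4) (M (V 1) (V 2))) (V 4)))),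
     (18944, (M (V 0) (M (H 47) (V 4)))),
     (19848, (M (V 0) (M (H 48) (V 4)))),
     (8688, (M (V 0) (M (H 49) (V 4)))),
     (2832, (M (V 0) (M (H 108) (V 4)))),
     (6072, (M (V 0) (M (H 51) (V 4)))),
     (4280, (M (V 0) (M (H 52) (V 4)))),
     (-7560, (M (V 0) (M (H 53) (V 4)))),
     (-552, (M (V 0) (M (H 54) (V 4)))),
     (-9000, (M (V 0) (M (H 55) (V 4)))),
     (-6064, (M (V 0) (M (H 56) (V 4)))),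
     (-152, (M (V 0) (M (H 57) (V 4)))),
     (9456, (M (V 0) (M (H 58) (V 4)))),
     (6660, (M (V 0) (M (H 59) (V 4)))),
     (10872, (M (V 0) (M (H 60) (V 4)))),
     (3028, (M (V 0) (M (H 61) (V 4)))),
     (3876, (M (V 0) (M (H 62) (V 4)))),
     (5240, (M (V 0) (M (H 63) (V 4)))),
     (1296, (M (V 0) (M (H 64) (V 4)))),
     (5856, (M (V 0) (M (H 65) (V 4)))),
     (-2832, (M (V 0) (M (H 109) (V 4)))),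
     (-2928, (M (V 0) (M (H 66) (V 4)))),
     (3072, (M (V 0) (M (H 67) (V 4)))),
     (14796, (M (V 0) (M (H 68) (V 4)))),
     (17600, (M (V 0) (M (H 69) (V 4)))),
     (2156, (M (V 0) (M (H 70) (V 4)))),
     (-2176, (M (V 0) (M (H 71) (V 4)))),
     (-3036, (M (V 0) (M (H 72) (V 4)))),
     (-3556, (M (V 0) (M (H 73) (V 4)))),
     (-6780, (M (V 0) (M (H 74) (V 4)))),
     (6072, (M (V 0) (M (H 75) (V 4)))),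
     (11744, (M (V 0) (M (H 76) (V 4)))),
     (19776, (M (V 0) (M (H 77) (V 4)))),
     (9484, (M (V 0) (M (H 78) (V 4)))),
     (-1740, (M (V 0) (M (H 80) (V 4)))),
     (-5812, (M (V 0) (M (H 81) (V 4)))),
     (904, (M (V 0) (M (H 82) (V 4)))),
     (7224, (M (V 0) (M (H 83) (V 4)))),
     (-452, (M (V 0) (M (H 84) (V 4)))),
     (-2824, (M (V 0) (M (H 85) (V 4)))),
     (13788, (M (V 0) (M (H 87) (V 4)))),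
     (17140, (M (V 0) (M (H 88) (V 4)))),
     (2124, (M (V 0) (M (H 110) (V 4)))),
     (6372, (M (V 0) (M (H 111) (V 4)))),
     (-4508, (M (V 0) (M (H 89) (V 4)))),
     (-8740, (M (V 0) (M (H 90) (V 4)))),
     (-7232, (M (V 0) (M (H 91) (V 4)))),
     (-39944, (M (H 112) (M (V 2) (V 1)))),
     (-39936, (M (H 112) (M (V 1) (V 2)))),
     (-39936, (M (H 113) (M (V 3) (V 1)))),
     (-39944, (M (H 113) (M (V 1) (V 3)))),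
     (39944, (M (H 100) (V 1))),
     (39944, (M (M (H 112) (V 2)) (V 1))),
     (39936, (M (M (H 113) (V 3)) (V 1))),
     (-19968, (M (L (V 3) (M (M (V 4) (V 2)) (V 0)) (V 4)) (V 1))),
     (39936, (M (L (V 3) (M (M (V 2) (V 4)) (V 0)) (V 4)) (V 1))),
     (19968, (M (L (V 3) (M (V 0) (M (V 2) (V 4))) (V 4)) (V 1))),
     (-39936, (M (L (V 3) (M (M (V 0) (V 2)) (V 4)) (V 4)) (V 1))),
     (-19972, (M (L (V 2) (M (M (V 4) (V 3)) (V 0)) (V 4)) (V 1))),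
     (39944, (M (L (V 2) (M (M (V 3) (V 4)) (V 0)) (V 4)) (V 1))),
     (39944, (M (L (V 2) (M (V 0) (M (V 3) (V 4))) (V 4)) (V 1))),
     (-19972, (M (L (V 2) (M (M (V 0) (V 3)) (V 4)) (V 4)) (V 1))),
     (-19968, (M (H 101) (V 1))),
     (19968, (M (H 114) (V 1))),
     (-19972, (M (H 115) (V 1))),
     (-19972, (M (H 105) (V 1))),
     (-39944, (M (H 116) (M (V 3) (V 2)))),
     (-39936, (M (H 116) (M (V 2) (V 3)))),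
     (39944, (M (H 95) (V 2))),
     (39936, (M (M (H 112) (V 1)) (V 2))),
     (39944, (M (M (H 116) (V 3)) (V 2))),
     (-39944, (M (L (V 3) (M (M (V 4) (V 1)) (V 0)) (V 4)) (V 2))),
     (39944, (M (L (V 3) (M (M (V 1) (V 4)) (V 0)) (V 4)) (V 2))),
     (39944, (M (L (V 3) (M (V 0) (M (V 1) (V 4))) (V 4)) (V 2))),
     (-39944, (M (L (V 3) (M (M (V 0) (V 1)) (V 4)) (V 4)) (V 2))),
     (-39936, (M (L (V 1) (M (M (V 4) (V 3)) (V 0)) (V 4)) (V 2))),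
     (19968, (M (L (V 1) (M (M (V 3) (V 4)) (V 0)) (V 4)) (V 2))),
     (19968, (M (L (V 1) (M (V 0) (M (V 3) (V 4))) (V 4)) (V 2))),
     (-19968, (M (L (V 1) (M (M (V 0) (V 3)) (V 4)) (V 4)) (V 2))),
     (19968, (M (H 117) (V 2))),
     (19968, (M (H 118) (V 2))),
     (-19968, (M (H 99) (V 2))),
     (39944, (M (H 92) (V 3))),
     (39944, (M (M (H 113) (V 1)) (V 3))),
     (39936, (M (M (H 116) (V 2)) (V 3))),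
     (-39936, (M (L (V 2) (M (M (V 4) (V 1)) (V 0)) (V 4)) (V 3))),
     (19968, (M (L (V 2) (M (M (V 1) (V 4)) (V 0)) (V 4)) (V 3))),
     (19968, (M (L (V 2) (M (V 0) (M (V 1) (V 4))) (V 4)) (V 3))),
     (-39936, (M (L (V 2) (M (M (V 0) (V 1)) (V 4)) (V 4)) (V 3))),
     (-19972, (M (L (V 1) (M (M (V 4) (V 2)) (V 0)) (V 4)) (V 3))),
     (39944, (M (L (V 1) (M (M (V 2) (V 4)) (V 0)) (V 4)) (V 3))),
     (39944, (M (L (V 1) (M (V 0) (M (V 2) (V 4))) (V 4)) (V 3))),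
     (-19972, (M (L (V 1) (M (M (V 0) (V 2)) (V 4)) (V 4)) (V 3))),
     (19968, (M (H 119) (V 3))),
     (19968, (M (H 120) (V 3))),
     (-19972, (M (H 93) (V 3))),
     (-19972, (M (H 121) (V 3))),
     (39944, (L (M (V 3) (V 2)) (M (M (V 4) (V 1)) (V 0)) (V 4))),
     (-39944, (L (M (V 3) (V 2)) (M (M (V 1) (V 4)) (V 0)) (V 4))),
     (-39944, (L (M (V 3) (V 2)) (M (V 0) (M (V 1) (V 4))) (V 4))),
     (39944, (L (M (V 3) (V 2)) (M (M (V 0) (V 1)) (V 4)) (V 4))),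
     (39936, (L (M (V 2) (V 3)) (M (M (V 4) (V 1)) (V 0)) (V 4))),
     (-19968, (L (M (V 2) (V 3)) (M (M (V 1) (V 4)) (V 0)) (V 4))),
     (-19968, (L (M (V 2) (V 3)) (M (V 0) (M (V 1) (V 4))) (V 4))),
     (39936, (L (M (V 2) (V 3)) (M (M (V 0) (V 1)) (V 4)) (V 4))),
     (19968, (L (M (V 3) (V 1)) (M (M (V 4) (V 2)) (V 0)) (V 4))),
     (-39936, (L (M (V 3) (V 1)) (M (M (V 2) (V 4)) (V 0)) (V 4))),
     (-19968, (L (M (V 3) (V 1)) (M (V 0) (M (V 2) (V 4))) (V 4))),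
     (39936, (L (M (V 3) (V 1)) (M (M (V 0) (V 2)) (V 4)) (V 4))),
     (19972, (L (M (V 1) (V 3)) (M (M (V 4) (V 2)) (V 0)) (V 4))),
     (-39944, (L (M (V 1) (V 3)) (M (M (V 2) (V 4)) (V 0)) (V 4))),
     (-39944, (L (M (V 1) (V 3)) (M (V 0) (M (V 2) (V 4))) (V 4))),
     (19972, (L (M (V 1) (V 3)) (M (M (V 0) (V 2)) (V 4)) (V 4))),
     (19972, (L (M (V 2) (V 1)) (M (M (V 4) (V 3)) (V 0)) (V 4))),
     (-39944, (L (M (V 2) (V 1)) (M (M (V 3) (V 4)) (V 0)) (V 4))),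
     (-39944, (L (M (V 2) (V 1)) (M (V 0) (M (V 3) (V 4))) (V 4))),
     (19972, (L (M (V 2) (V 1)) (M (M (V 0) (V 3)) (V 4)) (V 4))),
     (39936, (L (M (V 1) (V 2)) (M (M (V 4) (V 3)) (V 0)) (V 4))),
     (-19968, (L (M (V 1) (V 2)) (M (M (V 3) (V 4)) (V 0)) (V 4))),
     (-19968, (L (M (V 1) (V 2)) (M (V 0) (M (V 3) (V 4))) (V 4))),
     (19968, (L (M (V 1) (V 2)) (M (M (V 0) (V 3)) (V 4)) (V 4))),
     (-16, (L (V 0) (V 4) (M (V 4) (M (V 3) (M (V 2) (V 1)))))),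
     (948, (L (V 0) (V 4) (M (V 4) (M (V 3) (M (V 1) (V 2)))))),
     (2316, (L (V 0) (V 4) (M (V 4) (M (V 2) (M (V 3) (V 1)))))),
     (2460, (L (V 0) (V 4) (M (V 4) (M (V 2) (M (V 1) (V 3)))))),
     (16, (L (V 0) (V 4) (M (V 4) (M (M (V 3) (V 2)) (V 1))))),
     (-2316, (L (V 0) (V 4) (M (V 4) (M (M (V 2) (V 3)) (V 1))))),
     (3028, (L (V 0) (V 4) (M (V 4) (M (V 1) (M (V 3) (V 2)))))),
     (2204, (L (V 0) (V 4) (M (V 4) (M (V 1) (M (V 2) (V 3)))))),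
     (-948, (L (V 0) (V 4) (M (V 4) (M (M (V 3) (V 1)) (V 2))))),
     (-3028, (L (V 0) (V 4) (M (V 4) (M (M (V 1) (V 3)) (V 2))))),
     (-2460, (L (V 0) (V 4) (M (V 4) (M (M (V 2) (V 1)) (V 3))))),
     (-2204, (L (V 0) (V 4) (M (V 4) (M (M (V 1) (V 2)) (V 3))))),
     (16, (L (V 0) (V 4) (M (M (V 3) (M (V 2) (V 1))) (V 4)))),
     (-948, (L (V 0) (V 4) (M (M (V 3) (M (V 1) (V 2))) (V 4)))),
     (-2316, (L (V 0) (V 4) (M (M (V 2) (M (V 3) (V 1))) (V 4)))),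
     (-2460, (L (V 0) (V 4) (M (M (V 2) (M (V 1) (V 3))) (V 4)))),
     (-16, (L (V 0) (V 4) (M (M (M (V 3) (V 2)) (V 1)) (V 4)))),
     (2316, (L (V 0) (V 4) (M (M (M (V 2) (V 3)) (V 1)) (V 4)))),
     (-3028, (L (V 0) (V 4) (M (M (V 1) (M (V 3) (V 2))) (V 4)))),
     (-2204, (L (V 0) (V 4) (M (M (V 1) (M (V 2) (V 3))) (V 4)))),
     (948, (L (V 0) (V 4) (M (M (M (V 3) (V 1)) (V 2)) (V 4)))),
     (3028, (L (V 0) (V 4) (M (M (M (V 1) (V 3)) (V 2)) (V 4)))),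
     (2460, (L (V 0) (V 4) (M (M (M (V 2) (V 1)) (V 3)) (V 4)))),
     (2204, (L (V 0) (V 4) (M (M (M (V 1) (V 2)) (V 3)) (V 4)))),
     (-39944, (H 122)),
     (39944, (H 123)),
     (39944, (H 124)),
     (-39944, (H 125)),
     (39936, (H 126)),
     (-39936, (H 127)),
     (39936, (H 128)),
     (-39936, (H 129)),
     (-39936, (H 130)),
     (-39936, (H 131)),
     (-39936, (H 132)),
     (-39936, (H 133)),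
     (39944, (H 134)),
     (39944, (H 135)),
     (39944, (H 136)),
     (39944, (H 137)),
     (39944, (H 138)),
     (39944, (H 139)),
     (39944, (H 140)),
     (39944, (H 141)),
     (-39936, (H 142)),
     (-39936, (H 143)),
     (39936, (H 144)),
     (-39936, (H 145)),
     (-19968, (H 146)),
     (-19968, (H 147)),
     (19968, (H 148)),
     (-19968, (H 149)),
     (19972, (H 150)),
     (19972, (H 151)),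
     (19972, (H 152)),
     (19972, (H 153)),
     (-19968, (H 154)),
     (-19968, (H 155)),
     (19968, (H 156)),
     (-16, (H 157)),
     (948, (H 158)),
     (2316, (H 159)),
     (2460, (H 160)),
     (16, (H 161)),
     (-2316, (H 162)),
     (3028, (H 163)),
     (2204, (H 164)),
     (-948, (H 165)),
     (-3028, (H 166)),
     (-2460, (H 167)),
     (-2204, (H 168)),
     (16, (H 169)),
     (-948, (H 170)),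
     (-2316, (H 171)),
     (-2460, (H 172)),
     (-16, (H 173)),
     (2316, (H 174)),
     (-3028, (H 175)),
     (-2204, (H 176)),
     (948, (H 177)),
     (3028, (H 178)),
     (2460, (H 179)),
     (2204, (H 180))]
    (by decide +kernel) ⟨hA, fun a => zero_smul _ a⟩ (env [p, a, b, c, y]) ⟨h28,
      h31,
      h34,
      h37,
      h40,
      h43,
      h46,
      h49,
      h52,
      h55,
      h58,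
      h61,
      h67,
      h68,
      h72,
      h73,
      h76,
      h77,
      h78,
      h79,
      h80,
      h81,
      h82,
      h83,
      h84,
      h85,
      h86,
      h87,
      h88,
      h89,
      (lem_com_mul hA y b a),
      (lem_com_mul hA b y a),
      (lem_com_mul hA a y b),
      (lem_com_mul hA y c a),
      (lem_com_mul hA y a c),
      (lem_com_mul hA c y a),
      (lem_com_mul hA a y c),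
      (lem_com_mul hA y c b),
      (lem_com_mul hA y b c),
      (lem_com_mul hA c b y),
      (lem_com_mul hA b c y),
      (lem_com_mul hA c y b),
      (lem_com_mul hA b y c),
      (lem_com_mul hA c a y),
      (lem_com_mul hA a c y),
      (lem_com_mul hA b a y),
      (lem_com_mul hA a b y),
      (lem_asr_mul hA y c b a),
      (lem_asr_mul hA y c a b),
      (lem_asr_mul hA y b c a),
      (lem_asr_mul hA y a c b),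
      (lem_asr_mul hA y a b c),
      (lem_asr_mul hA c b a y),
      (lem_asr_mul hA c a b y),
      (lem_asr_mul hA b c a y),
      (lem_asr_mul hA b a c y),
      (lem_asr_mul hA a c b y),
      (lem_asr_mul hA a b c y),
      (lem_com_mul hA y (c * b) a),
      (lem_com_mul hA y (b * c) a),
      (lem_com_mul hA y (c * a) b),
      (lem_com_mul hA y (a * c) b),
      (lem_com_mul hA y (b * a) c),
      (lem_com_mul hA y (a * b) c),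
      (lem_com_mul hA c b (y * a)),
      (lem_com_mul hA c b (a * y)),
      (lem_com_mul hA c a (y * b)),
      (lem_com_mul hA c a (b * y)),
      (lem_com_mul hA c (b * a) y),
      (lem_com_mul hA c (a * b) y),
      (lem_com_mul hA (y * c) b a),
      (lem_com_mul hA (y * c) a b),
      (lem_com_mul hA b c (y * a)),
      (lem_com_mul hA b c (a * y)),
      (lem_com_mul hA b a (y * c)),
      (lem_com_mul hA b a (c * y)),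
      (lem_com_mul hA b (a * y) c),
      (lem_com_mul hA b (c * a) y),
      (lem_com_mul hA b (a * c) y),
      (lem_com_mul hA (y * b) c a),
      (lem_com_mul hA (c * b) y a),
      (lem_com_mul hA a c (y * b)),
      (lem_com_mul hA a c (b * y)),
      (lem_com_mul hA a (c * y) b),
      (lem_com_mul hA a b (y * c)),
      (lem_com_mul hA a b (c * y)),
      (lem_com_mul hA a (b * y) c),
      (lem_com_mul hA a (c * b) y),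
      (lem_com_mul hA a (b * c) y),
      (lem_com_mul hA (y * a) b c),
      (lem_com_mul hA (a * c) y b),
      (lem_com_mul hA (b * a) y c),
      h63,
      (lem_com_mul hA a y ((y * b) * p)),
      (lem_com_mul hA a y (p * (b * y))),
      h65,
      (lem_com_mul hA c y ((a * y) * p)),
      (lem_com_mul hA c y (p * (a * y))),
      (lem_com_mul hA a y ((y * c) * p)),
      (lem_com_mul hA a y ((p * c) * y)),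
      h70,
      (lem_com_mul hA c y ((y * b) * p)),
      (lem_com_mul hA c y ((p * b) * y)),
      (lem_com_mul hA b y ((c * y) * p)),
      (lem_com_mul hA b y (p * (c * y))),
      (lem_com_mul hA b y ((p * c) * y)),
      (lem_com_mul hA y a b),
      (lem_com_mul hA a b c),
      (lem_asr_mul hA y b a c),
      (lem_com_mul hA c (b * y) a),
      (lem_com_mul hA (y * a) c b),
      (lem_com_mul hA (a * y) c b),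
      h8,
      h5,
      (lem_com_mul hA c y (p * (b * y))),
      (lem_com_mul hA b y ((y * c) * p)),
      h2,
      (lem_com_mul hA a y ((c * y) * p)),
      (lem_com_mul hA a y (p * (c * y))),
      (lem_com_mul hA b y ((a * y) * p)),
      (lem_com_mul hA b y (p * (a * y))),
      (lem_com_mul hA a y ((p * b) * y)),
      (lem_asr_mul hA c b ((y * a) * p) y),
      (lem_asr_mul hA c b ((a * y) * p) y),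
      (lem_asr_mul hA c b (p * (a * y)) y),
      (lem_asr_mul hA c b ((p * a) * y) y),
      (lem_asr_mul hA c a y ((y * b) * p)),
      (lem_asr_mul hA c a y (p * (b * y))),
      (lem_asr_mul hA c a ((b * y) * p) y),
      (lem_asr_mul hA c a ((p * b) * y) y),
      (lem_asr_mul hA b c y ((a * y) * p)),
      (lem_asr_mul hA b c y (p * (a * y))),
      (lem_asr_mul hA b c ((y * a) * p) y),
      (lem_asr_mul hA b c ((p * a) * y) y),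
      (lem_asr_mul hA b a y ((y * c) * p)),
      (lem_asr_mul hA b a y ((p * c) * y)),
      (lem_asr_mul hA b a ((c * y) * p) y),
      (lem_asr_mul hA b a (p * (c * y)) y),
      (lem_asr_mul hA a c y ((y * b) * p)),
      (lem_asr_mul hA a c y ((p * b) * y)),
      (lem_asr_mul hA a c ((b * y) * p) y),
      (lem_asr_mul hA a c (p * (b * y)) y),
      (lem_asr_mul hA a b y ((c * y) * p)),
      (lem_asr_mul hA a b y (p * (c * y))),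
      (lem_asr_mul hA a b y ((p * c) * y)),
      (lem_asr_mul hA a b ((y * c) * p) y),
      (lem_com_mul hA (b * c) y ((a * y) * p)),
      (lem_com_mul hA (b * c) y (p * (a * y))),
      (lem_com_mul hA (c * a) y ((y * b) * p)),
      (lem_com_mul hA (c * a) y (p * (b * y))),
      (lem_com_mul hA (a * c) y ((y * b) * p)),
      (lem_com_mul hA (a * c) y ((p * b) * y)),
      (lem_com_mul hA (b * a) y ((y * c) * p)),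
      (lem_com_mul hA (b * a) y ((p * c) * y)),
      (lem_com_mul hA (a * b) y ((c * y) * p)),
      (lem_com_mul hA (a * b) y (p * (c * y))),
      (lem_com_mul hA (a * b) y ((p * c) * y)),
      (lem_com_mul hA p (y * (c * (b * a))) y),
      (lem_com_mul hA p (y * (c * (a * b))) y),
      (lem_com_mul hA p (y * (b * (c * a))) y),
      (lem_com_mul hA p (y * (b * (a * c))) y),
      (lem_com_mul hA p (y * ((c * b) * a)) y),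
      (lem_com_mul hA p (y * ((b * c) * a)) y),
      (lem_com_mul hA p (y * (a * (c * b))) y),
      (lem_com_mul hA p (y * (a * (b * c))) y),
      (lem_com_mul hA p (y * ((c * a) * b)) y),
      (lem_com_mul hA p (y * ((a * c) * b)) y),
      (lem_com_mul hA p (y * ((b * a) * c)) y),
      (lem_com_mul hA p (y * ((a * b) * c)) y),
      (lem_com_mul hA p ((c * (b * a)) * y) y),
      (lem_com_mul hA p ((c * (a * b)) * y) y),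
      (lem_com_mul hA p ((b * (c * a)) * y) y),
      (lem_com_mul hA p ((b * (a * c)) * y) y),
      (lem_com_mul hA p (((c * b) * a) * y) y),
      (lem_com_mul hA p (((b * c) * a) * y) y),
      (lem_com_mul hA p ((a * (c * b)) * y) y),
      (lem_com_mul hA p ((a * (b * c)) * y) y),
      (lem_com_mul hA p (((c * a) * b) * y) y),
      (lem_com_mul hA p (((a * c) * b) * y) y),
      (lem_com_mul hA p (((b * a) * c) * y) y),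
      (lem_com_mul hA p (((a * b) * c) * y) y),
      trivial⟩

end MP6489b8
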