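import Mathlib
import Pool.Agent.Lib.MP_6489b8_al.CertCyc
import Pool.Agent.Lib.MP_6489b8_al.Kappa

/-!
# The commutators of `F` with the ring
-/

namespace MP6489b8

universe u

open Function Equiv MulOpposite

section Mirror

variable {A : Type*} [NonUnitalNonAssocRing A]

theorem isAlt_op (hA : IsAlt A) : IsAlt Aᵐᵒᵖ := by
  intro x y
  induction x using MulOpposite.rec' with | _ x => ?_
  induction y using MulOpposite.rec' with | _ y => ?_
  constructor
  · simp only [← op_mul]
    rw [(hA x y).2]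
  · simp only [← op_mul]
    rw [(hA x y).1]

theorem asr_op (hA : IsAlt A) (a b c : A) : asr (op a) (op b) (op c) = op (asr a b c) := by
  have h : asr a b c = -asr c b a := asr_sw13 hA a b c
  rw [h]
  simp only [asr, ← op_mul, ← op_sub, ← op_neg, neg_sub]

theorem com_op (a b : A) : com (op a) (op b) = -op (com a b) := by
  simp only [com, ← op_mul, ← op_sub, ← op_neg, neg_sub]

/-- **(I1)**, right form: `((v,a,y) [c,y]) y = (y (v,a,y)) [c,y]`. -/
theorem I1_right (hA : IsAlt A) (y v a c : A) :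
    (asr v a y * com c y) * y = (y * asr v a y) * com c y := by
  have h := I1_left (isAlt_op hA) (op y) (op v) (op a) (op c)
  rw [asr_op hA, com_op] at h
  simp only [← op_neg, ← op_mul] at h
  have h2 := op_injective h
  simp only [mul_neg, neg_mul, neg_inj] at h2
  exact h2

end Mirror

section Cyc

variable {A : Type*} [NonUnitalNonAssocRing A] (hA : IsAlt A)
include hA

theorem psi4 (p u v y : A) :
    (4 : ℤ) • (((asr ((asr p u y) - ((com u y) * p)) v y) - (p * ((asr u v y) * y))) +
      (y * (p * (asr u v y)))) = 0 := cert_psi hA p u v y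

theorem FF_cyc (y a b c d e : A) :
    8 • (com (FF y a b c d) e + com (FF y a b d e) c + com (FF y a b e c) d) = 0 := by
  have m2 : ∀ u : A, (asr a b y * com u y) * y - (y * asr a b y) * com u y = 0 :=
    fun u => sub_eq_zero.2 (I1_right hA y a b u)
  have hc : ∀ u : A, com (asr (asr a b y) u y - com u y * asr a b y) y = 0 :=
    fun u => com_EE hA y a b u
  have hs : ∀ u v : A, asr (asr (asr a b y) u y - com u y * asr a b y) v y +
      asr (asr (asr a b y) v y - com v y * asr a b y) u y = 0 := by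
    intro u v
    have := FF_sw34 hA y a b u v
    rw [FF, FF] at this
    exact add_eq_zero_iff_eq_neg.2 this
  have h := cert_cyc hA (asr a b y) c d e y (hc _) (hc _) (hc _) (m2 _) (m2 _) (m2 _) (m2 _)
    (m2 _) (m2 _) (m2 _) (m2 _) (m2 _) (m2 _) (m2 _) (m2 _) (hs _ _) (hs _ _) (psi4 hA _ _ _ _)
    (psi4 hA _ _ _ _) (hs _ _) (psi4 hA _ _ _ _) (psi4 hA _ _ _ _) (psi4 hA _ _ _ _)
    (psi4 hA _ _ _ _) (hs _ _) (psi4 hA _ _ _ _) (hs _ _) (psi4 hA _ _ _ _) (hs _ _)
    (psi4 hA _ _ _ _) (hs _ _) (psi4 hA _ _ _ _) (hs _ _) (psi4 hA _ _ _ _) (hs _ _)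
    (psi4 hA _ _ _ _)
  rw [← h, ← Nat.cast_smul_eq_nsmul ℤ]
  rfl

theorem FF_com_skew (y a b c d e : A) :
    8 • (com (FF y a b c d) e + com (FF y a b c e) d) = 0 := by
  -- letters: 3 = a, 4 = d, 1 = b, 2 = c, 5 = e
  have h1 := FF_cyc hA y a d b c e
  have h2 := FF_cyc hA y a e b c d
  have e1 : FF y a d b c = FF y a b c d := by
    rw [FF_sw23 hA y a d b c, FF_sw34 hA y a b d c, neg_neg]
  have e2 : FF y a e b c = FF y a b c e := by
    rw [FF_sw23 hA y a e b c, FF_sw34 hA y a b e c, neg_neg]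
  have e3 : FF y a e c d = -FF y a d c e := by
    rw [FF_sw23 hA y a e c d, FF_sw34 hA y a c e d, FF_sw23 hA y a c d e, neg_neg]
  have e4 : FF y a e d b = -FF y a d e b := FF_sw23 hA y a e d b
  rw [e1] at h1
  rw [e2, e3, e4, com_neg_left, com_neg_left] at h2
  rw [← add_zero (0 : A)]
  nth_rewrite 1 [← h1]
  rw [← h2, ← smul_add]
  congr 1
  abel

theorem FF_com (y a b c d e : A) : 24 • com (FF y a b c d) e = 0 := by
  have h := FF_cyc hA y a b c d e
  have s1 := FF_com_skew hA y a b d e c
  have s2 := FF_com_skew hA y a b e c d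
  -- `G(abde;c) = -G(abdc;e) = G(abcd;e)`
  have e1 : FF y a b d c = -FF y a b c d := FF_sw34 hA y a b d c
  have e2 : FF y a b e d = -FF y a b d e := FF_sw34 hA y a b e d
  rw [e1, com_neg_left] at s1
  rw [e2, com_neg_left] at s2
  have t1 : 8 • com (FF y a b d e) c = 8 • com (FF y a b c d) e := by
    rw [← sub_eq_zero, ← smul_sub, sub_eq_add_neg, s1]
  have t2 : 8 • com (FF y a b e c) d = 8 • com (FF y a b d e) c := by
    rw [← sub_eq_zero, ← smul_sub, sub_eq_add_neg, s2]
  rw [smul_add, smul_add, t2, t1] at h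
  have e : (24 : ℕ) • com (FF y a b c d) e =
      8 • com (FF y a b c d) e + 8 • com (FF y a b c d) e + 8 • com (FF y a b c d) e := by
    rw [← add_smul, ← add_smul]
  rw [e]; exact h

end Cyc

/-- Multiples of good functions. -/
def scl (c : ℕ) {r : ℕ} (T : ∀ (B : Type u) [NonUnitalNonAssocRing B], (Fin r → B) → B → B) :
    ∀ (B : Type u) [NonUnitalNonAssocRing B], (Fin r → B) → B → B :=
  fun B _ x y => c • T B x y

theorem Good.scl {n r : ℕ} {T : ∀ (B : Type u) [NonUnitalNonAssocRing B], (Fin r → B) → B → B}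
    (hT : Good n r T) (c : ℕ) : Good n r (scl c T) := by
  refine ⟨?_, ?_, ?_⟩
  · intro B C _ _ φ x y
    simp only [MP6489b8.scl, map_nsmul, hT.nat]
  · intro B _ hB y
    have h := hT.der B hB y
    refine ⟨?_, ?_, ?_, ?_⟩
    · intro x i a b
      simp only [MP6489b8.scl, h.add, smul_add]
    · intro x i a b
      simp only [MP6489b8.scl, h.mul, smul_add, smul_mul_assoc, mul_smul_comm]
    · intro S x i a
      simp only [MP6489b8.scl, h.centr, map_nsmul]
    · intro x i j hij hx
      simp only [MP6489b8.scl, h.alt x i j hij hx, smul_zero]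
  · intro B _ hB x i
    simp only [MP6489b8.scl, hT.self B hB, smul_zero]

theorem goodC_24T4 : GoodC.{u} 0 4 (scl 24 T4) := by
  refine { toGood := good_T4.scl 24, comm := ?_ }
  intro B _ hB x y z
  have h := FF_com hB.1 y (x 0) (x 1) (x 2) (x 3) z
  have e : com (24 • FF y (x 0) (x 1) (x 2) (x 3)) z = 0 := by
    rw [← h, com, com, smul_sub, smul_mul_assoc, mul_smul_comm]
  exact sub_eq_zero.1 e

/-- The functions of even order for residue characteristics different from 2 and 3. -/
def TE : ∀ k : ℕ, ∀ (B : Type u) [NonUnitalNonAssocRing B], (Fin (2 * k + 4) → B) → B → B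
  | 0 => scl 24 T4
  | k + 1 => kap (TE k)

theorem goodC_TE (k : ℕ) : GoodC.{u} 0 (2 * k + 4) (TE k) := by
  induction k with
  | zero => exact goodC_24T4
  | succ k ih => exact GoodC.kap (m := 2 * k + 3) ih

end MP6489b8
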