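import Mathlib
import Pool.Agent.Lib.MP_6489b8_al.Cyc

/-!
# Linear parts of functions on alternative rings, and the function of order five
-/

namespace MP6489b8

universe u

open Function Equiv

namespace Pol

variable {A B : Type u} [NonUnitalNonAssocRing A] [NonUnitalNonAssocRing B]

/-- The homomorphism of polynomial rings induced by a homomorphism of coefficients. -/
noncomputable def map (φ : A →ₙ+* B) : Pol A →ₙ+* Pol B where
  toFun := liftHom (fun n => (mono n).comp (φ : A →+ B))
  map_zero' := map_zero _
  map_add' := map_add _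
  map_mul' f g := by
    induction f using Pol.induction with
    | h0 => simp
    | hadd f f' hf hf' => rw [add_mul, map_add, hf, hf', map_add, add_mul]
    | hmono m a =>
      induction g using Pol.induction with
      | h0 => simp
      | hadd g g' hg hg' => rw [mul_add, map_add, hg, hg', map_add, mul_add]
      | hmono k b => simp

@[simp] theorem map_mono (φ : A →ₙ+* B) (n : ℕ) (a : A) : map φ (mono n a) = mono n (φ a) :=
  liftHom_mono _ _ _

theorem coeff_map (φ : A →ₙ+* B) (n : ℕ) (f : Pol A) : coeff n (map φ f) = φ (coeff n f) := by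
  induction f using Pol.induction with
  | h0 => simp
  | hadd f f' hf hf' => rw [map_add, map_add, hf, hf', map_add, map_add]
  | hmono m a =>
    rw [map_mono, coeff_mono, coeff_mono]
    split_ifs <;> simp

theorem coeff_zero_mul (f g : Pol A) : coeff 0 (f * g) = coeff 0 f * coeff 0 g :=
  const.map_mul' f g

theorem coeff_one_mul (f g : Pol A) :
    coeff 1 (f * g) = coeff 0 f * coeff 1 g + coeff 1 f * coeff 0 g := by
  induction f using Pol.induction with
  | h0 => simp
  | hadd f f' hf hf' =>
    rw [add_mul, map_add, hf, hf', map_add, map_add, add_mul, add_mul]; abel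
  | hmono m a =>
    induction g using Pol.induction with
    | h0 => simp
    | hadd g g' hg hg' =>
      rw [mul_add, map_add, hg, hg', map_add, map_add, mul_add, mul_add]; abel
    | hmono k b =>
      rw [mono_mul_mono]
      simp only [coeff_mono]
      rcases Nat.lt_trichotomy m 1 with hm | hm | hm
      · have : m = 0 := by omega
        subst this
        rcases Nat.lt_trichotomy k 1 with hk | hk | hk
        · have : k = 0 := by omega
          subst this; simp
        · subst hk; simp
        · have h1 : ¬ k = 1 := by omega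
          have h2 : ¬ k = 0 := by omega
          simp [h1, h2]
      · subst hm
        rcases Nat.lt_trichotomy k 1 with hk | hk | hk
        · have : k = 0 := by omega
          subst this; simp
        · subst hk; simp
        · have h1 : ¬ k = 1 := by omega
          have h2 : ¬ k = 0 := by omega
          have h3 : ¬ (1 + k = 1) := by omega
          simp [h1, h2]
      · have h1 : ¬ m = 1 := by omega
        have h2 : ¬ m = 0 := by omega
        have h3 : ¬ (m + k = 1) := by omega
        simp [h1, h2, h3]

theorem coeff_zero_asr (f g h : Pol A) :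
    coeff 0 (asr f g h) = asr (coeff 0 f) (coeff 0 g) (coeff 0 h) := by
  simp only [asr, map_sub, coeff_zero_mul]

theorem coeff_one_asr (f g h : Pol A) :
    coeff 1 (asr f g h) = asr (coeff 1 f) (coeff 0 g) (coeff 0 h) +
      asr (coeff 0 f) (coeff 1 g) (coeff 0 h) + asr (coeff 0 f) (coeff 0 g) (coeff 1 h) := by
  simp only [asr, map_sub, coeff_zero_mul, coeff_one_mul, add_mul, mul_add]
  abel

theorem coeff_zero_com (f g : Pol A) : coeff 0 (com f g) = com (coeff 0 f) (coeff 0 g) := by
  simp only [com, map_sub, coeff_zero_mul]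

theorem coeff_one_com (f g : Pol A) :
    coeff 1 (com f g) = com (coeff 1 f) (coeff 0 g) + com (coeff 0 f) (coeff 1 g) := by
  simp only [com, map_sub, coeff_one_mul]
  abel

end Pol

section Identity

variable {A : Type u} [NonUnitalNonAssocRing A] (hA : IsAlt A)
include hA

theorem asr_asr' (u c y : A) : asr (asr u c y) c y = -(asr u c y * com c y) := by
  have h := asr_asr (isAlt_op hA) (MulOpposite.op u) (MulOpposite.op c) (MulOpposite.op y)
  rw [asr_op hA, asr_op hA, com_op] at h
  simp only [← MulOpposite.op_neg, ← MulOpposite.op_mul] at h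
  have h2 := MulOpposite.op_injective h
  rw [h2, mul_neg]

/-- `[c,y] ∘ (u,c,y) = 0`. -/
theorem jor_zero (u c y : A) : com c y * asr u c y + asr u c y * com c y = 0 := by
  rw [← asr_asr hA, asr_asr' hA]; abel

theorem jor_lin (u c d y : A) : com c y * asr u d y + asr u d y * com c y +
    (com d y * asr u c y + asr u c y * com d y) = 0 := by
  have h := jor_zero hA u (c + d) y
  have h1 := jor_zero hA u c y
  have h2 := jor_zero hA u d y
  simp only [asr_add_mid, com_add_left, add_mul, mul_add] at h
  linear_combination (norm := abel) h - h1 - h2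

/-- Linearisation of `(u, y v, y) = (u, v, y) y`. -/
theorem asr_ll (u v y w : A) : asr u (y * v) w + asr u (w * v) y =
    asr u v w * y + asr u v y * w := by
  have h := asr_mul_left hA u v (y + w)
  have h1 := asr_mul_left hA u v y
  have h2 := asr_mul_left hA u v w
  simp only [asr_add_right, asr_add_mid, add_mul, mul_add] at h
  linear_combination (norm := abel) h - h1 - h2

/-- `(k, u v, y)`. -/
theorem asr_mul_mid (k u v y : A) : asr k (u * v) y =
    u * asr k v y + asr k u y * v + asr (com k y) u v := by
  have h := asr_mul hA u v k y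
  rw [asr_sw12 hA k (u * v) y, h, asr_sw12 hA v k y, asr_sw12 hA u k y]
  simp only [mul_neg, neg_mul]; abel

/-- The polarised form of (I1) (right form). -/
theorem I1_right_pol (y z v a c : A) :
    (asr v a y * com c y) * z + (asr v a y * com c z) * y + (asr v a z * com c y) * y =
    (y * asr v a y) * com c z + (y * asr v a z) * com c y + (z * asr v a y) * com c y := by
  have h := I1_right (Pol.isAlt hA) (Pol.mono 0 y + Pol.mono 1 z) (Pol.mono 0 v) (Pol.mono 0 a)
    (Pol.mono 0 c)
  have h1 := congrArg (Pol.coeff 1) h
  simp only [Pol.coeff_one_mul, Pol.coeff_one_asr, Pol.coeff_zero_asr, Pol.coeff_zero_mul,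
    Pol.coeff_zero_com, Pol.coeff_one_com, map_add, Pol.coeff_mono, if_true, zero_ne_one,
    if_false, one_ne_zero, add_zero, zero_add] at h1
  simp only [asr, com, mul_zero, zero_mul, sub_zero, add_zero, zero_add] at h1 ⊢
  linear_combination (norm := (simp only [add_mul, mul_add, sub_mul, mul_sub]; abel)) h1

/-- `((q w) y - (y q) w, b, e)` for `w = [e, y]`. -/
theorem S_identity (e b q y : A) :
    (com (asr e b y) e * (q * y) - y * (com (asr e b y) e * q)) +
    ((asr e b y) * (com e q * y) - y * ((asr e b y) * com e q)) +
    ((asr e b y) * (q * com e y) - com e y * ((asr e b y) * q)) =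
    asr ((q * com e y) * y - (y * q) * com e y) b e := by
  set p := asr e b y with hp
  set w := com e y with hw
  set g := com p e with hg
  set k := com b e with hk
  set s := asr q b e with hs
  -- values at `y` and `w`
  have v1 : asr y b e = -p := asr_sw13 hA _ _ _
  have v2 : asr w b e = -g := by
    rw [asr_cyc hA w b e, asr_sw23 hA b e w, hw, com_swap e y, asr_neg_mid, neg_neg,
      asr_com hA b y e, ← asr_cyc hA e b y, ← hp]
  have v3 : asr e b q = -s := asr_sw13 hA _ _ _
  -- expansion of the right side
  have f3 := asr_mul hA q w b e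
  have f4 := asr_mul hA (q * w) y b e
  have f5 := asr_mul hA (y * q) w b e
  have f6 := asr_mul hA y q b e
  rw [v1, f3, v2] at f4
  rw [v2, f6, v1] at f5
  rw [← hk, ← hs] at f4 f5
  have i1 := I1_right_pol hA y q e b e
  rw [v3, ← hp, ← hw] at i1
  -- the terms with `k`
  have k1 := asr_ll hA k q y w
  have k2 := asr_mul_mid hA k q w y
  have k3 := asr_mul_mid hA k w q y
  have k4 : asr k e y = g := by
    rw [asr_cyc' hA k e y, hk, asr_com hA y b e, v1, com_neg_left, neg_neg]
  have k5 : asr k w y = -com g y := by
    rw [hw, asr_com hA k e y, k4]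
  rw [k5] at k2 k3
  have k6 := jor_lin hA k e q y
  rw [k4, ← hw] at k6
  have k7 : p * w + w * p = 0 := by
    have := jor_zero hA b e y
    rw [asr_sw12 hA b e y, ← hp, ← hw] at this
    simp only [mul_neg, neg_mul] at this
    linear_combination (norm := abel) -this
  have c1 : asr (com k y) w q = -asr (com k y) q w := asr_sw23 hA _ _ _
  rw [c1] at k3
  have c2 : asr k y q = -asr k q y := asr_sw23 hA _ _ _
  rw [c2] at f5
  -- associators
  have a1 : asr y g q = -asr g y q := asr_sw12 hA _ _ _
  have a2 : asr q g y = asr g y q := asr_cyc hA _ _ _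
  have a3 : asr q y g = -asr g y q := asr_sw13 hA _ _ _
  have b1 : asr q w p = asr p q w := by rw [asr_cyc hA p q w]
  have b2 : asr w p q = asr p q w := by rw [asr_cyc hA w p q]
  have b3 : asr q p w = -asr p q w := asr_sw12 hA _ _ _
  have d1 : asr p (com e q) y = asr y p (com e q) := asr_cyc' hA _ _ _
  have k7q : q * (p * w) + q * (w * p) = 0 := by rw [← mul_add, k7, mul_zero]
  have k7r : (p * w) * q + (w * p) * q = 0 := by rw [← add_mul, k7, zero_mul]
  rw [asr_sub_left, f4, f5]
  simp only [asr] at a1 a2 a3 b1 b2 b3 d1
  simp only [com, mul_neg, neg_mul, mul_sub, sub_mul, mul_add, add_mul] at *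
  linear_combination (norm := abel) -d1 + i1 - k1 + k2 + k3 + k6 + a1 + a2 - a3 + b1 + b2 + b3 +
    k7q - k7r

omit hA in
/-- The part of `F` which is linear in one of the three occurrences of `y`. -/
def FF1 (y z a b c d : A) : A :=
  asr (asr (asr a b z) c y + asr (asr a b y) c z - (com c z * asr a b y + com c y * asr a b z))
    d y + asr (EE y a b c) d z

omit hA in
theorem coeff_FF (y z a b c d : A) :
    Pol.coeff 1 (FF (Pol.mono 0 y + Pol.mono 1 z) (Pol.mono 0 a) (Pol.mono 0 b) (Pol.mono 0 c)
      (Pol.mono 0 d)) = FF1 y z a b c d := by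
  simp only [FF, EE, Pol.coeff_one_mul, Pol.coeff_one_asr, Pol.coeff_zero_asr, Pol.coeff_zero_mul,
    Pol.coeff_zero_com, Pol.coeff_one_com, map_add, map_sub, Pol.coeff_mono, if_true, zero_ne_one,
    if_false, one_ne_zero, add_zero, zero_add, FF1]
  simp only [asr, com, mul_zero, zero_mul, sub_zero, zero_sub, add_zero, zero_add, add_mul,
    mul_add, sub_mul, mul_sub, mul_neg, neg_mul]
  abel

omit hA in
theorem FF1_add (y z z' a b c d : A) :
    FF1 y (z + z') a b c d = FF1 y z a b c d + FF1 y z' a b c d := by
  simp only [FF1, asr, com, EE, add_mul, mul_add, sub_mul, mul_sub]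
  abel

/-- `4 F = 4 (p (q y) - y (p q))` with `p = (a,b,y)`, `q = (c,d,y)`. -/
theorem FF_psi (y a b c d : A) :
    4 • FF y a b c d = 4 • (asr a b y * (asr c d y * y) - y * (asr a b y * asr c d y)) := by
  have h := psi4 hA (asr a b y) c d y
  have h' : (4 : ℤ) • FF y a b c d -
      (4 : ℤ) • (asr a b y * (asr c d y * y) - y * (asr a b y * asr c d y)) = 0 := by
    rw [← h, ← smul_sub]
    congr 1
    rw [FF, EE]; abel
  have h2 := sub_eq_zero.1 h'
  rw [← Nat.cast_smul_eq_nsmul ℤ, ← Nat.cast_smul_eq_nsmul ℤ]
  exact h2

theorem FF1_psi (y z a b c d : A) : 4 • FF1 y z a b c d =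
    4 • ((asr a b z * (asr c d y * y) - y * (asr a b z * asr c d y)) +
      (asr a b y * (asr c d z * y) - y * (asr a b y * asr c d z)) +
      (asr a b y * (asr c d y * z) - z * (asr a b y * asr c d y))) := by
  have h := FF_psi (Pol.isAlt hA) (Pol.mono 0 y + Pol.mono 1 z) (Pol.mono 0 a) (Pol.mono 0 b)
    (Pol.mono 0 c) (Pol.mono 0 d)
  have h1 := congrArg (Pol.coeff 1) h
  rw [map_nsmul, coeff_FF] at h1
  rw [h1, map_nsmul]
  congr 1
  simp only [Pol.coeff_one_mul, Pol.coeff_one_asr, Pol.coeff_zero_asr, Pol.coeff_zero_mul,
    Pol.coeff_zero_com, Pol.coeff_one_com, map_add, map_sub, Pol.coeff_mono, if_true, zero_ne_one,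
    if_false, one_ne_zero, add_zero, zero_add]
  simp only [asr, com, mul_zero, zero_mul, sub_zero, zero_sub, add_zero, zero_add, add_mul,
    mul_add, sub_mul, mul_sub, mul_neg, neg_mul]
  abel

theorem FF_self14 (y e b c : A) : FF y e b c e = 0 := by
  rw [FF_sw34 hA, FF_sw23 hA, FF, EE, asr_self_left hA]
  simp [asr]

/-- The identity which makes the linear part of `F` alternating. -/
theorem FF1_com (y e b c d : A) : 4 • FF1 y (com e y) e b c d = 0 := by
  rw [FF1_psi hA]
  set p := asr e b y with hp
  set q := asr c d y with hq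
  set w := com e y with hw
  set r := asr c d e with hr
  have h1 : asr e b w = com p e := by
    rw [asr_sw13 hA e b w, asr_cyc hA w b e, asr_sw23 hA b e w, hw, com_swap e y, asr_neg_mid,
      neg_neg, asr_com hA b y e, ← asr_cyc hA e b y, ← hp, neg_neg]
  have h2 : asr c d w = com e q + com r y - 2 • asr (com c d) e y := by
    have e1 := asr_mul hA e y c d
    have e2 := asr_mul hA y e c d
    have e3 : asr y c d = q := asr_cyc hA y c d
    have e4 : asr e c d = r := asr_cyc hA e c d
    have e5 : asr (com c d) y e = -asr (com c d) e y := asr_sw23 hA _ _ _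
    rw [e3, e4] at e1 e2
    rw [asr_cyc' hA c d w, hw]
    have e6 : asr (com e y) c d = asr (e * y) c d - asr (y * e) c d := by
      rw [com, asr_sub_left]
    have e7 : com e q = e * q - q * e := rfl
    have e8 : com r y = r * y - y * r := rfl
    rw [e6, e1, e2, e5, two_nsmul, e7, e8]
    abel
  have h3 := S_identity hA e b q y
  have h4 : (q * w) * y - (y * q) * w = 0 := sub_eq_zero.2 (I1_right hA y c d e)
  rw [← hp, ← hw, h4] at h3
  have h5 : p * (com r y * y) - y * (p * com r y) = 0 := by
    have i1 := I1_right hA y e b r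
    rw [← hp] at i1
    have i2 : asr p (com r y) y = asr y p (com r y) := asr_cyc' hA _ _ _
    have i3 : asr p (com r y) y = (p * com r y) * y - p * (com r y * y) := rfl
    have i4 : asr y p (com r y) = (y * p) * com r y - y * (p * com r y) := rfl
    linear_combination (norm := abel) i1 - i2 + i3 - i4
  have h6 : 4 • (p * (asr (com c d) e y * y) - y * (p * asr (com c d) e y)) = 0 := by
    rw [hp, ← FF_psi hA, FF_self14 hA, smul_zero]
  have h7 : asr (0 : A) b e = 0 := by simp [asr]
  rw [h7] at h3
  have h8 : com p e * (q * y) - y * (com p e * q) +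
      (p * ((com e q + com r y - 2 • asr (com c d) e y) * y) -
        y * (p * (com e q + com r y - 2 • asr (com c d) e y))) +
      (p * (q * w) - w * (p * q)) =
      -(2 • (p * (asr (com c d) e y * y) - y * (p * asr (com c d) e y))) := by
    have e1 : (2 • asr (com c d) e y) * y = 2 • (asr (com c d) e y * y) := smul_mul_assoc _ _ _
    simp only [add_mul, mul_add, sub_mul, mul_sub, two_nsmul] at h3 h5 ⊢
    linear_combination (norm := abel) h3 + h5
  rw [h1, h2, h8, smul_neg, smul_comm, h6, smul_zero, neg_zero]

end Identity

section Lin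

variable {n r : ℕ} {T : ∀ (B : Type u) [NonUnitalNonAssocRing B], (Fin r → B) → B → B}

/-- The linear part of `T` at `y` in the direction `z`. -/
noncomputable def lin1 {r : ℕ}
    (T : ∀ (B : Type u) [NonUnitalNonAssocRing B], (Fin r → B) → B → B)
    (B : Type u) [NonUnitalNonAssocRing B] (x : Fin r → B) (y z : B) : B :=
  Pol.coeff 1 (T (Pol B) (fun i => Pol.mono 0 (x i)) (Pol.mono 0 y + Pol.mono 1 z))

theorem mono_update {A : Type u} [NonUnitalNonAssocRing A] (x : Fin r → A) (i : Fin r) (a : A) :
    (fun j => Pol.mono 0 (update x i a j)) = update (fun j => Pol.mono 0 (x j)) i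
      (Pol.mono 0 a) := by
  funext j
  by_cases h : j = i
  · subst h; simp
  · rw [update_of_ne h, update_of_ne h]

theorem Good.lin1_der (hT : Good n r T) (B : Type u) [NonUnitalNonAssocRing B]
    (hB : IsAltN n B) (y z : B) : IsAltDer r (fun x => lin1 T B x y z) := by
  have hd := hT.der (Pol B) hB.pol (Pol.mono 0 y + Pol.mono 1 z)
  refine ⟨?_, ?_, ?_, ?_⟩
  · intro x i a b
    simp only [lin1]
    rw [mono_update, mono_update, mono_update, map_add, hd.add, map_add]
  · intro x i a b
    simp only [lin1]
    rw [mono_update, mono_update, mono_update]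
    have := hd.mul (fun j => Pol.mono 0 (x j)) i (Pol.mono 0 a) (Pol.mono 0 b)
    rw [Pol.mono_mul_mono, add_zero] at this
    rw [this, map_add, Pol.coeff_mul_mono_zero, Pol.coeff_mono_zero_mul]
  · intro S x i a
    simp only [lin1]
    rw [mono_update, mono_update]
    have := hd.centr S.polMap (fun j => Pol.mono 0 (x j)) i (Pol.mono 0 a)
    simp only [Centr.polMap_mono] at this
    rw [this, Centr.coeff_polMap]
  · intro x i j hij hx
    simp only [lin1]
    rw [hd.alt _ i j hij (by simp only [hx]), map_zero]

theorem Good.lin1_nat (hT : Good n r T) {B C : Type u} [NonUnitalNonAssocRing B]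
    [NonUnitalNonAssocRing C] (φ : B →ₙ+* C) (x : Fin r → B) (y z : B) :
    φ (lin1 T B x y z) = lin1 T C (fun i => φ (x i)) (φ y) (φ z) := by
  simp only [lin1]
  rw [← Pol.coeff_map, hT.nat, map_add]
  simp only [Pol.map_mono]

/-- The relation from the linearisation of `T(y, ...; y) = 0`. -/
theorem Good.lin1_self (hT : Good n r T) (B : Type u) [NonUnitalNonAssocRing B]
    (hB : IsAltN n B) (x : Fin r → B) (i : Fin r) (y z : B) :
    lin1 T B (update x i y) y z = -T B (update x i z) y := by
  set Y : Pol B := Pol.mono 0 y + Pol.mono 1 z with hY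
  set G : Fin r → Pol B := fun j => Pol.mono 0 (x j) with hG
  have hd := hT.der (Pol B) hB.pol Y
  have h1 := hT.self (Pol B) hB.pol (update G i Y) i
  rw [update_self] at h1
  have h2 := hd.add G i (Pol.mono 0 y) (Pol.mono 1 z)
  rw [← hY, h1] at h2
  have h3 := hd.centr Centr.shift G i (Pol.mono 0 z)
  simp only [Centr.shift_mono] at h3
  rw [zero_add] at h3
  rw [h3] at h2
  have h4 := congrArg (Pol.coeff 1) h2
  rw [map_zero, map_add, Centr.coeff_succ_shift] at h4
  have h5 : Pol.coeff 0 (T (Pol B) (update G i (Pol.mono 0 z)) Y) = T B (update x i z) y := by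
    have := hT.nat (Pol B) B Pol.const (update G i (Pol.mono 0 z)) Y
    rw [Pol.const_apply] at this
    rw [this]
    have e1 : (fun j => Pol.const (update G i (Pol.mono 0 z) j)) = update x i z := by
      rw [hG, ← mono_update]
      funext j
      simp [Pol.coeff_mono]
    have e2 : Pol.const Y = y := by simp [Y, Pol.coeff_mono]
    rw [e1, e2]
  rw [h5] at h4
  simp only [lin1]
  rw [mono_update]
  exact eq_neg_of_add_eq_zero_left h4.symm

/-- The new function of `r + 1` arguments. -/
noncomputable def LL {r : ℕ} (T : ∀ (B : Type u) [NonUnitalNonAssocRing B], (Fin r → B) → B → B) :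
    ∀ (B : Type u) [NonUnitalNonAssocRing B], (Fin (r + 1) → B) → B → B :=
  fun B _ x y => lin1 T B (Fin.init x) y (com (x (Fin.last r)) y)

end Lin

theorem GoodC.lin {n m : ℕ}
    {T : ∀ (B : Type u) [NonUnitalNonAssocRing B], (Fin (m + 2) → B) → B → B}
    (hT : GoodC n (m + 2) T)
    (hadd : ∀ (B : Type u) [NonUnitalNonAssocRing B] (x : Fin (m + 2) → B) (y z z' : B),
      lin1 T B x y (z + z') = lin1 T B x y z + lin1 T B x y z')
    (hid : ∀ (B : Type u) [NonUnitalNonAssocRing B], IsAltN n B →
      ∀ (x : Fin (m + 2) → B) (y : B), lin1 T B x y (com (x (Fin.last (m + 1))) y) = 0) :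
    GoodC n (m + 3) (LL T) := by
  have hder : ∀ (B : Type u) [NonUnitalNonAssocRing B], IsAltN n B → ∀ y : B,
      IsAltDer (m + 3) (fun x => LL T B x y) := by
    intro B _ hB y
    have hd : ∀ z, IsAltDer (m + 2) (fun x => lin1 T B x y z) :=
      fun z => hT.toGood.lin1_der B hB y z
    have upd : ∀ (x : Fin (m + 3) → B) (a : B), LL T B (update x 0 a) y =
        lin1 T B (update (Fin.init x) 0 a) y (com (x (Fin.last (m + 2))) y) := by
      intro x a
      simp only [LL]
      have e0 : (0 : Fin (m + 3)) = (0 : Fin (m + 2)).castSucc := rfl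
      rw [e0, init_update_castSucc, update_of_ne]
      intro h
      have := congrArg Fin.val h
      simp at this
    refine IsAltDer.of_swap (n := m + 1) ?_ ?_ ?_ ?_ ?_
    · intro i x
      refine Fin.lastCases ?_ (fun j => ?_) i
      · -- the last two arguments
        set a := x (Fin.last (m + 1)).castSucc with ha
        set b := x (Fin.last (m + 2)) with hb
        have e0 : (Fin.last (m + 1)).succ = Fin.last (m + 2) := rfl
        have e1 : Fin.init (x ∘ swap (Fin.last (m + 1)).castSucc (Fin.last (m + 1)).succ) =
            update (Fin.init x) (Fin.last (m + 1)) b := by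
          funext k
          by_cases hk : k = Fin.last (m + 1)
          · subst hk
            rw [update_self]
            simp only [Fin.init, comp_apply, swap_apply_left]
            rfl
          · rw [update_of_ne hk]
            simp only [Fin.init, comp_apply]
            rw [swap_apply_of_ne_of_ne]
            · intro h
              exact hk (Fin.castSucc_injective _ h)
            · intro h
              have := congrArg Fin.val h
              simp at this
              omega
        have e2 : (x ∘ swap (Fin.last (m + 1)).castSucc (Fin.last (m + 1)).succ)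
            (Fin.last (m + 2)) = a := by
          rw [e0]
          simp only [comp_apply, swap_apply_right]
          rfl
        have e3 : Fin.init x = update (Fin.init x) (Fin.last (m + 1)) a := by
          rw [ha]
          exact (update_eq_self (Fin.last (m + 1)) (Fin.init x)).symm
        change lin1 T B _ y (com _ y) = -lin1 T B _ y (com _ y)
        rw [e1, e2]
        have hab := hid B hB (update (Fin.init x) (Fin.last (m + 1)) (a + b)) y
        have haa := hid B hB (update (Fin.init x) (Fin.last (m + 1)) a) y
        have hbb := hid B hB (update (Fin.init x) (Fin.last (m + 1)) b) y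
        rw [update_self] at hab haa hbb
        rw [(hd _).add, com_add_left, hadd, hadd, haa, hbb, zero_add, add_zero] at hab
        rw [← e3] at hab
        exact eq_neg_of_add_eq_zero_right hab
      · have e1 : Fin.init (x ∘ swap j.castSucc.castSucc j.castSucc.succ) =
            Fin.init x ∘ swap j.castSucc j.succ := by
          have h1 : j.castSucc.succ = j.succ.castSucc := rfl
          rw [h1, init_comp_swap]
        have e2 : (x ∘ swap j.castSucc.castSucc j.castSucc.succ) (Fin.last (m + 2)) =
            x (Fin.last (m + 2)) := by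
          simp only [comp_apply]
          rw [swap_apply_of_ne_of_ne]
          · intro h
            have := congrArg Fin.val h
            simp at this
            omega
          · intro h
            have := congrArg Fin.val h
            simp at this
            omega
        have key := (hd (com (x (Fin.last (m + 2))) y)).toAlt.map_swap (Fin.init x)
          (i := j.castSucc) (j := j.succ) (Fin.castSucc_lt_succ).ne
        simp only [IsAltDer.toAlt_apply] at key
        change lin1 T B _ y (com _ y) = -lin1 T B _ y (com _ y)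
        rw [e1, e2, key]
    · intro x h
      refine (hd _).alt _ 0 1 ?_ h
      intro h
      have := congrArg Fin.val h
      simp at this
    · intro x a b
      rw [upd, upd, upd, (hd _).add]
    · intro x a b
      rw [upd, upd, upd, (hd _).mul]
    · intro S x a
      rw [upd, upd, (hd _).centr]
  refine { nat := ?_, der := hder, self := ?_, comm := ?_ }
  · intro B C _ _ φ x y
    simp only [LL]
    rw [hT.toGood.lin1_nat, map_com]
    rfl
  · intro B _ hB x i
    have h0 : ∀ (x : Fin (m + 3) → B) (y : B), x 0 = y → LL T B x y = 0 := by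
      intro x y hx
      have e3 : Fin.init x = update (Fin.init x) 0 y := by
        have : Fin.init x 0 = y := hx
        rw [← this, update_eq_self]
      simp only [LL]
      rw [e3, hT.toGood.lin1_self B hB]
      have hd := hT.der B hB y
      have h1 : T B (update (Fin.init x) 0 y) y = 0 := by
        have := hT.self B hB (update (Fin.init x) 0 y) 0
        rwa [update_self] at this
      have h2 := kap_T0 hd (fun x => hT.comm B hB x y) (Fin.init x) 0 (x (Fin.last (m + 2))) y
      rw [h2, neg_zero]
    by_cases hi : i = 0
    · subst hi; exact h0 x _ rfl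
    · have h4 := (hder B hB (x i)).toAlt.map_swap x hi
      simp only [IsAltDer.toAlt_apply] at h4
      have h5 : LL T B (x ∘ swap i 0) (x i) = 0 := h0 _ _ (by simp)
      rw [h5] at h4
      exact neg_eq_zero.1 h4.symm
  · intro B _ hB x y z
    have h := hT.comm (Pol B) hB.pol (fun i => Pol.mono 0 (Fin.init x i))
      (Pol.mono 0 y + Pol.mono 1 (com (x (Fin.last (m + 2))) y)) (Pol.mono 0 z)
    have h1 := congrArg (Pol.coeff 1) h
    rw [Pol.coeff_mul_mono_zero, Pol.coeff_mono_zero_mul] at h1
    exact h1

/-- The linear part of `F` in the form used by the mechanism. -/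
theorem lin1_scl_T4 (c : ℕ) (B : Type u) [NonUnitalNonAssocRing B] (x : Fin 4 → B) (y z : B) :
    lin1 (scl c T4) B x y z = c • FF1 y z (x 0) (x 1) (x 2) (x 3) := by
  simp only [lin1, scl, T4]
  rw [map_nsmul, coeff_FF]

theorem FF1_com' {A : Type u} [NonUnitalNonAssocRing A] (hA : IsAlt A) (x : Fin 4 → A) (y : A) :
    4 • FF1 y (com (x 3) y) (x 0) (x 1) (x 2) (x 3) = 0 := by
  have hd := (good_T4.{u}).lin1_der A (n := 0) ⟨hA, fun a => zero_smul _ a⟩ y (com (x 3) y)
  have h4 := hd.toAlt.map_swap x (i := 0) (j := 3) (by decide)
  simp only [IsAltDer.toAlt_apply] at h4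
  have e : ∀ (x : Fin 4 → A) (z : A), lin1 T4 A x y z = FF1 y z (x 0) (x 1) (x 2) (x 3) := by
    intro x z
    simp only [lin1, T4]
    rw [coeff_FF]
  rw [e, e] at h4
  have h5 : (x ∘ swap 0 3) 0 = x 3 := by simp
  have h6 := FF1_com hA y (x 3) ((x ∘ swap 0 3) 1) ((x ∘ swap 0 3) 2) ((x ∘ swap 0 3) 3)
  rw [h5] at h4
  rw [h4, smul_neg, neg_eq_zero] at h6
  exact h6

/-- The function of order five for residue characteristics different from 2 and 3. -/
theorem goodC_L : GoodC.{u} 0 5 (LL (scl 24 T4)) := by
  refine GoodC.lin (m := 2) goodC_24T4 ?_ ?_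
  · intro B _ x y z z'
    rw [lin1_scl_T4, lin1_scl_T4, lin1_scl_T4, FF1_add, smul_add]
  · intro B _ hB x y
    rw [lin1_scl_T4]
    have h := FF1_com' hB.1 x y
    have e : (24 : ℕ) = 6 * 4 := rfl
    rw [e, mul_smul]
    have : x (Fin.last (2 + 1)) = x 3 := rfl
    rw [this, h, smul_zero]

/-- The functions of odd order for residue characteristics different from 2 and 3. -/
noncomputable def TO : ∀ k : ℕ, ∀ (B : Type u) [NonUnitalNonAssocRing B],
    (Fin (2 * k + 5) → B) → B → B
  | 0 => LL (scl 24 T4)
  | k + 1 => kap (TO k)

theorem goodC_TO (k : ℕ) : GoodC.{u} 0 (2 * k + 5) (TO k) := by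
  induction k with
  | zero => exact goodC_L
  | succ k ih => exact GoodC.kap (m := 2 * k + 4) ih

end MP6489b8
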