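import Mathlib
import Pool.Agent.Lib.MP_6489b8_al.Poly

/-!
# Grassmann envelopes of superalgebras given by multiplication tables

The multiplication table has integer entries; the envelope is formed over any commutative ring.
-/

namespace MP6489b8

universe u

open Finset

/-- Number of inversions between two sets. -/
def inv (S T : Finset ℕ) : ℕ := ∑ s ∈ S, (T.filter (fun t => t < s)).card

theorem inv_union_left {S T : Finset ℕ} (h : Disjoint S T) (U : Finset ℕ) :
    inv (S ∪ T) U = inv S U + inv T U := sum_union h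

theorem inv_union_right (S : Finset ℕ) {T U : Finset ℕ} (h : Disjoint T U) :
    inv S (T ∪ U) = inv S T + inv S U := by
  rw [inv, inv, inv, ← sum_add_distrib]
  refine sum_congr rfl fun s _ => ?_
  rw [filter_union, card_union_of_disjoint (disjoint_filter_filter h)]

theorem inv_eq_card (S T : Finset ℕ) :
    inv S T = ((S ×ˢ T).filter (fun x => x.2 < x.1)).card := by
  rw [inv, card_filter, sum_product]
  refine sum_congr rfl fun s _ => ?_
  rw [card_filter]

theorem inv_add_inv {S T : Finset ℕ} (h : Disjoint S T) : inv S T + inv T S = S.card * T.card := by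
  have h1 : inv T S = ((S ×ˢ T).filter (fun x => ¬ x.2 < x.1)).card := by
    rw [inv_eq_card]
    refine card_bij (fun x _ => (x.2, x.1)) ?_ ?_ ?_
    · rintro ⟨a, b⟩ hx
      simp only [mem_filter, mem_product] at hx ⊢
      exact ⟨⟨hx.1.2, hx.1.1⟩, by omega⟩
    · rintro ⟨a, b⟩ _ ⟨c, d⟩ _ hab
      simp only [Prod.mk.injEq] at hab ⊢
      exact ⟨hab.2, hab.1⟩
    · rintro ⟨a, b⟩ hx
      simp only [mem_filter, mem_product] at hx
      refine ⟨(b, a), ?_, rfl⟩
      simp only [mem_filter, mem_product]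
      refine ⟨⟨hx.1.2, hx.1.1⟩, ?_⟩
      have hne : a ≠ b := fun hab => disjoint_left.1 h hx.1.1 (hab ▸ hx.1.2)
      omega
  rw [inv_eq_card S T, h1, card_filter_add_card_filter_not, card_product]

/-- The sign of a shuffle. -/
def sgn (S T : Finset ℕ) : ℤ := (-1) ^ inv S T

theorem sgn_assoc {S T U : Finset ℕ} (h1 : Disjoint S T) (h3 : Disjoint T U) :
    sgn S T * sgn (S ∪ T) U = sgn T U * sgn S (T ∪ U) := by
  rw [sgn, sgn, sgn, sgn, inv_union_left h1, inv_union_right S h3]
  ring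

theorem sgn_comm {S T : Finset ℕ} (h : Disjoint S T) :
    sgn T S = (-1) ^ (S.card * T.card) * sgn S T := by
  rw [← inv_add_inv h, sgn, sgn, pow_add, mul_comm, ← mul_assoc, ← pow_add, ← two_mul,
    pow_mul]
  simp

/-- Multiplication tables: dimension, parity, and products of basis elements. -/
structure Tab where
  d : ℕ
  p : ℕ → Bool
  m : ℕ → ℕ → List (ℕ × ℤ)

namespace Tab

variable (t : Tab)

/-- Scale a formal linear combination. -/
def scal (c : ℤ) : List (ℕ × ℤ) → List (ℕ × ℤ)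
  | [] => []
  | x :: l => (x.1, c * x.2) :: scal c l

/-- Multiply a formal linear combination by a basis element on the right. -/
def mulR (k : ℕ) : List (ℕ × ℤ) → List (ℕ × ℤ)
  | [] => []
  | x :: l => scal x.2 (t.m x.1 k) ++ mulR k l

/-- Multiply a formal linear combination by a basis element on the left. -/
def mulL (k : ℕ) : List (ℕ × ℤ) → List (ℕ × ℤ)
  | [] => []
  | x :: l => scal x.2 (t.m k x.1) ++ mulL k l

/-- The coefficient of a basis element. -/
def cf (n : ℕ) : List (ℕ × ℤ) → ℤ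
  | [] => 0
  | x :: l => (bif Nat.beq x.1 n then x.2 else 0) + cf n l

/-- All coefficients are divisible by `N`. -/
def zer (N : ℕ) (l : List (ℕ × ℤ)) : Bool :=
  l.all (fun x => Nat.beq ((cf x.1 l).natAbs % N) 0)

/-- The sign of a transposition. -/
def sg (a b : Bool) : ℤ := bif a && b then -1 else 1

/-- The table is compatible with the parity. -/
def Par : Prop := ∀ i j, ∀ x ∈ t.m i j, t.p x.1 = xor (t.p i) (t.p j)

/-- The alternative laws (modulo `N`). -/
structure Alt (N : ℕ) : Prop where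
  par : t.Par
  l1 : ∀ i k, t.p i = false → zer N (t.mulR k (t.m i i) ++ scal (-1) (t.mulL i (t.m i k))) = true
  l2 : ∀ i j k, zer N (t.mulR k (t.m i j) ++ scal (sg (t.p i) (t.p j)) (t.mulR k (t.m j i)) ++
    scal (-1) (t.mulL i (t.m j k) ++ scal (sg (t.p i) (t.p j)) (t.mulL j (t.m i k)))) = true
  r1 : ∀ i k, t.p i = false → zer N (t.mulR i (t.m k i) ++ scal (-1) (t.mulL k (t.m i i))) = true
  r2 : ∀ i j k, zer N (t.mulR j (t.m k i) ++ scal (sg (t.p i) (t.p j)) (t.mulR i (t.m k j)) ++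
    scal (-1) (t.mulL k (t.m i j) ++ scal (sg (t.p i) (t.p j)) (t.mulL k (t.m j i)))) = true

end Tab

/-- The Grassmann envelope; the basis elements are indexed by a finite set (a monomial of the
Grassmann algebra) and a basis element of the superalgebra. -/
def Env (_t : Tab) (Φ : Type u) [CommRing Φ] : Type u := (Finset ℕ × ℕ) →₀ Φ

namespace Env

variable (t : Tab) (Φ : Type u) [CommRing Φ]

noncomputable instance : AddCommGroup (Env t Φ) :=
  inferInstanceAs (AddCommGroup ((Finset ℕ × ℕ) →₀ Φ))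
noncomputable instance : Module Φ (Env t Φ) := inferInstanceAs (Module Φ ((Finset ℕ × ℕ) →₀ Φ))

variable {Φ}

/-- Basis elements. -/
noncomputable def bas (s : Finset ℕ × ℕ) : Env t Φ := Finsupp.single s 1

/-- The element of degree `S` given by a formal linear combination. -/
noncomputable def vec (S : Finset ℕ) : List (ℕ × ℤ) → Env t Φ
  | [] => 0
  | x :: l => x.2 • bas t (S, x.1) + vec S l

/-- Basis elements of the right parity. -/
def good (s : Finset ℕ × ℕ) : Prop := t.p s.2 = decide (s.1.card % 2 = 1)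

instance (s : Finset ℕ × ℕ) : Decidable (good t s) := by unfold good; infer_instance

/-- Products of basis elements. -/
noncomputable def bmul (s s' : Finset ℕ × ℕ) : Env t Φ :=
  if good t s ∧ good t s' ∧ Disjoint s.1 s'.1 then
    sgn s.1 s'.1 • vec t (s.1 ∪ s'.1) (t.m s.2 s'.2) else 0

/-- Multiplication. -/
noncomputable def mulHom : Env t Φ →ₗ[Φ] Env t Φ →ₗ[Φ] Env t Φ :=
  Finsupp.linearCombination Φ (fun s => Finsupp.linearCombination Φ (bmul t s))

noncomputable instance : Mul (Env t Φ) := ⟨fun f g => mulHom t f g⟩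

variable {t}

theorem mul_def (f g : Env t Φ) : f * g = mulHom t f g := rfl

noncomputable instance : NonUnitalNonAssocRing (Env t Φ) where
  left_distrib f g h := by simp only [mul_def, map_add]
  right_distrib f g h := by simp only [mul_def, map_add, LinearMap.add_apply]
  zero_mul f := by simp only [mul_def, map_zero, LinearMap.zero_apply]
  mul_zero f := by simp only [mul_def, map_zero]

instance : IsScalarTower Φ (Env t Φ) (Env t Φ) where
  smul_assoc c f g := by simp only [mul_def, smul_eq_mul, map_smul, LinearMap.smul_apply]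

instance : SMulCommClass Φ (Env t Φ) (Env t Φ) where
  smul_comm c f g := by simp only [mul_def, smul_eq_mul, map_smul]

theorem bas_mul_bas (s s' : Finset ℕ × ℕ) : (bas t s * bas t s' : Env t Φ) = bmul t s s' := by
  rw [mul_def, mulHom, bas, bas]
  erw [Finsupp.linearCombination_single, one_smul, Finsupp.linearCombination_single, one_smul]

theorem vec_append (S : Finset ℕ) (l l' : List (ℕ × ℤ)) :
    (vec t S (l ++ l') : Env t Φ) = vec t S l + vec t S l' := by
  induction l with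
  | nil => simp [vec]
  | cons x l ih => simp only [List.cons_append, vec, ih, add_assoc]

theorem vec_scal (S : Finset ℕ) (c : ℤ) (l : List (ℕ × ℤ)) :
    (vec t S (Tab.scal c l) : Env t Φ) = c • vec t S l := by
  induction l with
  | nil => simp [vec, Tab.scal]
  | cons x l ih => rw [Tab.scal, vec, ih, vec, smul_add, mul_smul]

/-- Coefficients. -/
def coef (s : Finset ℕ × ℕ) : Env t Φ →+ Φ := Finsupp.applyAddHom s

theorem ext {f g : Env t Φ} (h : ∀ s, coef s f = coef s g) : f = g := Finsupp.ext h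

theorem coef_bas (s s' : Finset ℕ × ℕ) : coef s (bas t s' : Env t Φ) = if s' = s then 1 else 0 :=
  Finsupp.single_apply

theorem coef_vec (S : Finset ℕ) (k : ℕ) (l : List (ℕ × ℤ)) :
    coef (S, k) (vec t S l : Env t Φ) = ((Tab.cf k l : ℤ) : Φ) := by
  induction l with
  | nil => simp [vec, Tab.cf]
  | cons x l ih =>
    rw [vec, Tab.cf, map_add, map_zsmul, ih, Int.cast_add, coef_bas]
    congr 1
    cases hb : Nat.beq x.1 k with
    | true =>
      have : x.1 = k := Nat.eq_of_beq_eq_true hb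
      simp [this]
    | false =>
      have : x.1 ≠ k := Nat.ne_of_beq_eq_false hb
      simp [this]

theorem coef_vec_of_ne (S : Finset ℕ) (s : Finset ℕ × ℕ) (l : List (ℕ × ℤ))
    (hs : ∀ x ∈ l, s ≠ (S, x.1)) : coef s (vec t S l : Env t Φ) = 0 := by
  induction l with
  | nil => simp [vec]
  | cons x l ih =>
    rw [vec, map_add, map_zsmul, ih (fun y hy => hs y (List.mem_cons_of_mem _ hy)), add_zero,
      coef_bas, if_neg (fun h => hs x List.mem_cons_self h.symm), smul_zero]

/-- `vec` vanishes if all coefficients are divisible by `N` and `N = 0` in `Φ`. -/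
theorem vec_eq_zero {N : ℕ} (hN : (N : Φ) = 0) (S : Finset ℕ) (l : List (ℕ × ℤ))
    (h : Tab.zer N l = true) : (vec t S l : Env t Φ) = 0 := by
  apply ext
  intro s
  rw [map_zero]
  by_cases hs : ∃ x ∈ l, s = (S, x.1)
  · obtain ⟨x, hx, rfl⟩ := hs
    rw [coef_vec]
    have h4 := List.all_eq_true.1 h x hx
    have h5 : (N : ℤ) ∣ Tab.cf x.1 l :=
      Int.natCast_dvd.2 (Nat.dvd_of_mod_eq_zero (Nat.eq_of_beq_eq_true h4))
    obtain ⟨d, hd⟩ := h5
    rw [hd, Int.cast_mul, Int.cast_natCast, hN, zero_mul]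
  · push Not at hs
    exact coef_vec_of_ne S s l hs

theorem vec_mul_bas {S : Finset ℕ} {l : List (ℕ × ℤ)} {s : Finset ℕ × ℕ}
    (h1 : ∀ x ∈ l, good t (S, x.1)) (h2 : good t s) (h3 : Disjoint S s.1) :
    (vec t S l * bas t s : Env t Φ) = sgn S s.1 • vec t (S ∪ s.1) (t.mulR s.2 l) := by
  induction l with
  | nil => simp [vec, Tab.mulR]
  | cons x l ih =>
    rw [vec, add_mul, ih (fun y hy => h1 y (List.mem_cons_of_mem _ hy)), Tab.mulR, vec_append,
      smul_add, vec_scal, smul_mul_assoc, bas_mul_bas, bmul,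
      if_pos ⟨h1 x List.mem_cons_self, h2, h3⟩, smul_comm]

theorem bas_mul_vec {S : Finset ℕ} {l : List (ℕ × ℤ)} {s : Finset ℕ × ℕ}
    (h1 : ∀ x ∈ l, good t (S, x.1)) (h2 : good t s) (h3 : Disjoint s.1 S) :
    (bas t s * vec t S l : Env t Φ) = sgn s.1 S • vec t (s.1 ∪ S) (t.mulL s.2 l) := by
  induction l with
  | nil => simp [vec, Tab.mulL]
  | cons x l ih =>
    rw [vec, mul_add, ih (fun y hy => h1 y (List.mem_cons_of_mem _ hy)), Tab.mulL, vec_append,
      smul_add, vec_scal, mul_smul_comm, bas_mul_bas, bmul,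
      if_pos ⟨h2, h1 x List.mem_cons_self, h3⟩, smul_comm]

theorem vec_mul_bas_zero {S : Finset ℕ} {l : List (ℕ × ℤ)} {s : Finset ℕ × ℕ}
    (h : ¬ (good t s ∧ Disjoint S s.1)) : (vec t S l * bas t s : Env t Φ) = 0 := by
  induction l with
  | nil => simp [vec]
  | cons x l ih =>
    rw [vec, add_mul, ih, smul_mul_assoc, bas_mul_bas, bmul, if_neg (fun h' => h h'.2),
      smul_zero, add_zero]

theorem bas_mul_vec_zero {S : Finset ℕ} {l : List (ℕ × ℤ)} {s : Finset ℕ × ℕ}
    (h : ¬ (good t s ∧ Disjoint s.1 S)) : (bas t s * vec t S l : Env t Φ) = 0 := by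
  induction l with
  | nil => simp [vec]
  | cons x l ih =>
    rw [vec, mul_add, ih, mul_smul_comm, bas_mul_bas, bmul,
      if_neg (fun h' => h ⟨h'.1, h'.2.2⟩), smul_zero, add_zero]

theorem good_mul (ht : t.Par) {s s' : Finset ℕ × ℕ} (h1 : good t s) (h2 : good t s')
    (h3 : Disjoint s.1 s'.1) : ∀ x ∈ t.m s.2 s'.2, good t (s.1 ∪ s'.1, x.1) := by
  intro x hx
  unfold good at *
  rw [ht _ _ x hx, h1, h2]
  simp only [card_union_of_disjoint h3]
  rcases Nat.mod_two_eq_zero_or_one s.1.card with h | h <;>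
    rcases Nat.mod_two_eq_zero_or_one s'.1.card with h' | h' <;>
    simp [h, h', Nat.add_mod]

/-- Three monomials whose product does not vanish for trivial reasons. -/
def Tri (t : Tab) (s s' s'' : Finset ℕ × ℕ) : Prop :=
  good t s ∧ good t s' ∧ good t s'' ∧ Disjoint s.1 s'.1 ∧ Disjoint s.1 s''.1 ∧
    Disjoint s'.1 s''.1

theorem mul_left_eq (ht : t.Par) {s s' s'' : Finset ℕ × ℕ} (h : Tri t s s' s'') :
    ((bas t s * bas t s') * bas t s'' : Env t Φ) =
      (sgn s.1 s'.1 * sgn (s.1 ∪ s'.1) s''.1) •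
        vec t (s.1 ∪ s'.1 ∪ s''.1) (t.mulR s''.2 (t.m s.2 s'.2)) := by
  obtain ⟨h1, h2, h3, h4, h5, h6⟩ := h
  rw [bas_mul_bas, bmul, if_pos ⟨h1, h2, h4⟩, smul_mul_assoc,
    vec_mul_bas (good_mul ht h1 h2 h4) h3 (disjoint_union_left.2 ⟨h5, h6⟩), mul_smul]

theorem mul_right_eq (ht : t.Par) {s s' s'' : Finset ℕ × ℕ} (h : Tri t s s' s'') :
    (bas t s * (bas t s' * bas t s'') : Env t Φ) =
      (sgn s'.1 s''.1 * sgn s.1 (s'.1 ∪ s''.1)) •
        vec t (s.1 ∪ (s'.1 ∪ s''.1)) (t.mulL s.2 (t.m s'.2 s''.2)) := by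
  obtain ⟨h1, h2, h3, h4, h5, h6⟩ := h
  rw [bas_mul_bas, bmul, if_pos ⟨h2, h3, h6⟩, mul_smul_comm,
    bas_mul_vec (good_mul ht h2 h3 h6) h1 (disjoint_union_right.2 ⟨h4, h5⟩), mul_smul]

theorem mul_left_zero {s s' s'' : Finset ℕ × ℕ} (h : ¬ Tri t s s' s'') :
    ((bas t s * bas t s') * bas t s'' : Env t Φ) = 0 := by
  rw [bas_mul_bas, bmul]
  split_ifs with h1
  · rw [smul_mul_assoc, vec_mul_bas_zero, smul_zero]
    rintro ⟨h3, h4⟩
    rw [disjoint_union_left] at h4
    exact h ⟨h1.1, h1.2.1, h3, h1.2.2, h4.1, h4.2⟩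
  · rw [zero_mul]

theorem mul_right_zero {s s' s'' : Finset ℕ × ℕ} (h : ¬ Tri t s s' s'') :
    (bas t s * (bas t s' * bas t s'') : Env t Φ) = 0 := by
  rw [bas_mul_bas, bmul]
  split_ifs with h1
  · rw [mul_smul_comm, bas_mul_vec_zero, smul_zero]
    rintro ⟨h3, h4⟩
    rw [disjoint_union_right] at h4
    exact h ⟨h3, h1.1, h1.2.1, h4.1, h4.2, h1.2.2⟩
  · rw [mul_zero]

theorem sg_eq {s s' : Finset ℕ × ℕ} (h1 : good t s) (h2 : good t s') :
    (-1 : ℤ) ^ (s.1.card * s'.1.card) = Tab.sg (t.p s.2) (t.p s'.2) := by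
  unfold good at *
  rw [h1, h2, Tab.sg]
  rcases Nat.even_or_odd s.1.card with h | h
  · have e : s.1.card % 2 = 0 := Nat.even_iff.1 h
    rw [(h.mul_right _).neg_one_pow]
    simp [e]
  · have e : s.1.card % 2 = 1 := Nat.odd_iff.1 h
    rcases Nat.even_or_odd s'.1.card with h' | h'
    · have e' : s'.1.card % 2 = 0 := Nat.even_iff.1 h'
      rw [(h'.mul_left _).neg_one_pow]
      simp [e']
    · have e' : s'.1.card % 2 = 1 := Nat.odd_iff.1 h'
      rw [(h.mul h').neg_one_pow]
      simp [e, e']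

theorem bas_lin_left {N : ℕ} (hN : (N : Φ) = 0) (ht : t.Alt N) (s s' s'' : Finset ℕ × ℕ) :
    ((bas t s * bas t s') * bas t s'' + (bas t s' * bas t s) * bas t s'' : Env t Φ) =
      bas t s * (bas t s' * bas t s'') + bas t s' * (bas t s * bas t s'') := by
  by_cases h : Tri t s s' s''
  · have h' : Tri t s' s s'' := ⟨h.2.1, h.1, h.2.2.1, h.2.2.2.1.symm, h.2.2.2.2.2, h.2.2.2.2.1⟩
    rw [mul_left_eq ht.par h, mul_left_eq ht.par h', mul_right_eq ht.par h,
      mul_right_eq ht.par h']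
    obtain ⟨h1, h2, h3, h4, h5, h6⟩ := h
    rw [← sgn_assoc h4 h6, ← sgn_assoc h4.symm h5, sgn_comm h4, sg_eq h1 h2, union_comm s'.1 s.1,
      union_left_comm s'.1 s.1 s''.1, ← union_assoc]
    have h0 := vec_eq_zero (t := t) hN (s.1 ∪ s'.1 ∪ s''.1) _ (ht.l2 s.2 s'.2 s''.2)
    simp only [vec_append, vec_scal] at h0
    have h00 := congrArg (fun v => (sgn s.1 s'.1 * sgn (s.1 ∪ s'.1) s''.1) • v) h0
    simp only [smul_zero, smul_add] at h00
    rw [← sub_eq_zero, ← h00]
    simp only [mul_smul, neg_smul, one_smul]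
    simp only [smul_comm (Tab.sg (t.p s.2) (t.p s'.2)), smul_neg]
    abel
  · have h' : ¬ Tri t s' s s'' := fun h' =>
      h ⟨h'.2.1, h'.1, h'.2.2.1, h'.2.2.2.1.symm, h'.2.2.2.2.2, h'.2.2.2.2.1⟩
    rw [mul_left_zero h, mul_left_zero h', mul_right_zero h, mul_right_zero h']

theorem bas_lin_right {N : ℕ} (hN : (N : Φ) = 0) (ht : t.Alt N) (s s' s'' : Finset ℕ × ℕ) :
    ((bas t s'' * bas t s) * bas t s' + (bas t s'' * bas t s') * bas t s : Env t Φ) =
      bas t s'' * (bas t s * bas t s') + bas t s'' * (bas t s' * bas t s) := by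
  by_cases h : Tri t s'' s s'
  · have h' : Tri t s'' s' s := ⟨h.1, h.2.2.1, h.2.1, h.2.2.2.2.1, h.2.2.2.1, h.2.2.2.2.2.symm⟩
    rw [mul_left_eq ht.par h, mul_left_eq ht.par h', mul_right_eq ht.par h,
      mul_right_eq ht.par h']
    obtain ⟨h1, h2, h3, h4, h5, h6⟩ := h
    rw [sgn_assoc h4 h6, sgn_assoc h5 h6.symm, sgn_comm h6, sg_eq h2 h3, union_comm s'.1 s.1,
      union_right_comm s''.1 s'.1 s.1, ← union_assoc]
    have h0 := vec_eq_zero (t := t) hN (s''.1 ∪ s.1 ∪ s'.1) _ (ht.r2 s.2 s'.2 s''.2)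
    simp only [vec_append, vec_scal] at h0
    have h00 := congrArg (fun v => (sgn s.1 s'.1 * sgn s''.1 (s.1 ∪ s'.1)) • v) h0
    simp only [smul_zero, smul_add] at h00
    rw [← sub_eq_zero, ← h00]
    simp only [mul_smul, neg_smul, one_smul]
    simp only [smul_comm (Tab.sg (t.p s.2) (t.p s'.2)), smul_neg]
    abel
  · have h' : ¬ Tri t s'' s' s := fun h' =>
      h ⟨h'.1, h'.2.2.1, h'.2.1, h'.2.2.2.2.1, h'.2.2.2.1, h'.2.2.2.2.2.symm⟩
    rw [mul_left_zero h, mul_left_zero h', mul_right_zero h, mul_right_zero h']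

theorem bas_left {N : ℕ} (hN : (N : Φ) = 0) (ht : t.Alt N) (s s' : Finset ℕ × ℕ) :
    ((bas t s * bas t s) * bas t s' : Env t Φ) = bas t s * (bas t s * bas t s') := by
  by_cases h : Tri t s s s'
  · rw [mul_left_eq ht.par h, mul_right_eq ht.par h]
    obtain ⟨h1, -, h3, h4, h5, -⟩ := h
    have e : s.1 = ∅ := disjoint_self.1 h4
    rw [← sgn_assoc h4 h5, ← union_assoc]
    have hp : t.p s.2 = false := by
      unfold good at h1
      rw [h1, e]; rfl
    have h0 := vec_eq_zero (t := t) hN (s.1 ∪ s.1 ∪ s'.1) _ (ht.l1 s.2 s'.2 hp)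
    simp only [vec_append, vec_scal, neg_smul, one_smul] at h0
    rw [add_neg_eq_zero.1 h0]
  · rw [mul_left_zero h, mul_right_zero h]

theorem bas_right {N : ℕ} (hN : (N : Φ) = 0) (ht : t.Alt N) (s s' : Finset ℕ × ℕ) :
    ((bas t s' * bas t s) * bas t s : Env t Φ) = bas t s' * (bas t s * bas t s) := by
  by_cases h : Tri t s' s s
  · rw [mul_left_eq ht.par h, mul_right_eq ht.par h]
    obtain ⟨h3, h1, -, h4, -, h5⟩ := h
    have e : s.1 = ∅ := disjoint_self.1 h5
    rw [← sgn_assoc h4 h5, ← union_assoc]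
    have hp : t.p s.2 = false := by
      unfold good at h1
      rw [h1, e]; rfl
    have h0 := vec_eq_zero (t := t) hN (s'.1 ∪ s.1 ∪ s.1) _ (ht.r1 s.2 s'.2 hp)
    simp only [vec_append, vec_scal, neg_smul, one_smul] at h0
    rw [add_neg_eq_zero.1 h0]
  · rw [mul_left_zero h, mul_right_zero h]

theorem mem_closure (f : Env t Φ) :
    f ∈ AddSubmonoid.closure {g : Env t Φ | ∃ (s : Finset ℕ × ℕ) (a : Φ), g = a • bas t s} := by
  have h : ∀ f : (Finset ℕ × ℕ) →₀ Φ, (f : Env t Φ) ∈
      AddSubmonoid.closure {g : Env t Φ | ∃ (s : Finset ℕ × ℕ) (a : Φ), g = a • bas t s} := by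
    intro f
    induction f using Finsupp.induction_linear with
    | zero => exact zero_mem _
    | add f g hf hg => exact add_mem hf hg
    | single s a =>
      refine AddSubmonoid.subset_closure ⟨s, a, ?_⟩
      have : (Finsupp.single s a : (Finset ℕ × ℕ) →₀ Φ) = a • Finsupp.single s 1 := by
        rw [Finsupp.smul_single, smul_eq_mul, mul_one]
      exact this
  exact h f

/-- **The Grassmann envelope of a superalternative table is alternative.** -/
theorem isAlt {N : ℕ} (hN : (N : Φ) = 0) (ht : t.Alt N) : IsAlt (Env t Φ) := by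
  apply isAlt_of_gen {g : Env t Φ | ∃ (s : Finset ℕ × ℕ) (a : Φ), g = a • bas t s} mem_closure
  · rintro _ ⟨s, a, rfl⟩ _ ⟨u, c, rfl⟩
    simp only [smul_mul_assoc, mul_smul_comm, bas_left hN ht]
  · rintro _ ⟨s, a, rfl⟩ _ ⟨s', b, rfl⟩ _ ⟨u, c, rfl⟩
    simp only [smul_mul_assoc, mul_smul_comm]
    have h := bas_lin_left (Φ := Φ) hN ht s s' u
    rw [smul_comm a b (bas t s' * bas t s * bas t u), smul_comm a b (bas t s' * (bas t s * bas t u))]
    rw [← smul_add, ← smul_add, ← smul_add, ← smul_add, h, smul_add, smul_add]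
  · rintro _ ⟨s, a, rfl⟩ _ ⟨u, c, rfl⟩
    simp only [smul_mul_assoc, mul_smul_comm, bas_right hN ht]
  · rintro _ ⟨s, a, rfl⟩ _ ⟨s', b, rfl⟩ _ ⟨u, c, rfl⟩
    simp only [smul_mul_assoc, mul_smul_comm]
    have h := bas_lin_right (Φ := Φ) hN ht s s' u
    rw [smul_comm a b (c • (bas t u * bas t s' * bas t s)),
      smul_comm a b (c • (bas t u * (bas t s' * bas t s)))]
    rw [← smul_add, ← smul_add, ← smul_add, h, smul_add, smul_add, smul_add]

end Env

end MP6489b8
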