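import Mathlib
import Pool.Agent.Lib.MP_6489b8_al.Super
import Pool.Agent.Lib.MP_6489b8_al.Lin

/-!
# Concrete multiplication tables and computations in Grassmann envelopes
-/

namespace MP6489b8

universe u

open Finset

namespace Tab

/-- A table given by lists. -/
def ofList (d : ℕ) (pl : List Bool) (ml : List (List (List (ℕ × ℤ)))) : Tab where
  d := d
  p i := pl.getD i false
  m i j := bif Nat.blt i d && Nat.blt j d then (ml.getD i []).getD j [] else []

/-- The boolean test of the alternative laws. -/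
def check (N : ℕ) (t : Tab) : Bool :=
  (List.range t.d).all fun i => (List.range t.d).all fun j =>
    ((t.m i j).all fun x => Nat.blt x.1 t.d && (t.p x.1 == xor (t.p i) (t.p j))) &&
    ((List.range t.d).all fun k =>
      (t.p i || ! Nat.beq i j || (zer N (t.mulR k (t.m i i) ++ scal (-1) (t.mulL i (t.m i k))) &&
        zer N (t.mulR i (t.m k i) ++ scal (-1) (t.mulL k (t.m i i))))) &&
      zer N (t.mulR k (t.m i j) ++ scal (sg (t.p i) (t.p j)) (t.mulR k (t.m j i)) ++
        scal (-1) (t.mulL i (t.m j k) ++ scal (sg (t.p i) (t.p j)) (t.mulL j (t.m i k)))) &&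
      zer N (t.mulR j (t.m k i) ++ scal (sg (t.p i) (t.p j)) (t.mulR i (t.m k j)) ++
        scal (-1) (t.mulL k (t.m i j) ++ scal (sg (t.p i) (t.p j)) (t.mulL k (t.m j i)))))

theorem ofList_m_eq_nil {d : ℕ} {pl : List Bool} {ml : List (List (List (ℕ × ℤ)))} {i j : ℕ}
    (h : d ≤ i ∨ d ≤ j) : (ofList d pl ml).m i j = [] := by
  simp only [ofList]
  have : (Nat.blt i d && Nat.blt j d) = false := by
    rw [Bool.and_eq_false_iff]
    rcases h with h | h
    · left
      rw [← Bool.not_eq_true, Nat.blt_eq]; omega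
    · right
      rw [← Bool.not_eq_true, Nat.blt_eq]; omega
  rw [this]; rfl

theorem zer_nil (N : ℕ) : zer N [] = true := rfl

theorem alt_of_check {d : ℕ} {pl : List Bool} {ml : List (List (List (ℕ × ℤ)))} {N : ℕ}
    (h : check N (ofList d pl ml) = true) : (ofList d pl ml).Alt N := by
  set t := ofList d pl ml with ht
  have hd : t.d = d := rfl
  have nil : ∀ {i j : ℕ}, d ≤ i ∨ d ≤ j → t.m i j = [] := fun h => ofList_m_eq_nil h
  unfold check at h
  rw [hd] at h
  simp only [List.all_eq_true, List.mem_range, Bool.and_eq_true, Bool.or_eq_true,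
    Nat.blt_eq, beq_iff_eq, Bool.not_eq_true'] at h
  have ent : ∀ i j, ∀ x ∈ t.m i j, x.1 < d := by
    intro i j x hx
    by_cases hi : i < d
    · by_cases hj : j < d
      · exact ((h i hi j hj).1 x hx).1
      · rw [nil (Or.inr (not_lt.1 hj))] at hx; cases hx
    · rw [nil (Or.inl (not_lt.1 hi))] at hx; cases hx
  have mulR0 : ∀ (k : ℕ) (l : List (ℕ × ℤ)), d ≤ k → t.mulR k l = [] := by
    intro k l hk
    induction l with
    | nil => rfl
    | cons x l ih => rw [mulR, ih, nil (Or.inr hk)]; rfl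
  have mulL0 : ∀ (k : ℕ) (l : List (ℕ × ℤ)), d ≤ k → t.mulL k l = [] := by
    intro k l hk
    induction l with
    | nil => rfl
    | cons x l ih => rw [mulL, ih, nil (Or.inl hk)]; rfl
  have R0 : ∀ k, t.mulR k [] = [] := fun _ => rfl
  have L0 : ∀ k, t.mulL k [] = [] := fun _ => rfl
  have S0 : ∀ c, scal c [] = [] := fun _ => rfl
  refine ⟨?_, ?_, ?_, ?_, ?_⟩
  · intro i j x hx
    by_cases hi : i < d
    · by_cases hj : j < d
      · exact ((h i hi j hj).1 x hx).2
      · rw [nil (Or.inr (not_lt.1 hj))] at hx; cases hx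
    · rw [nil (Or.inl (not_lt.1 hi))] at hx; cases hx
  · intro i k hp
    by_cases hi : i < d
    · by_cases hk : k < d
      · have := ((h i hi i hi).2 k hk).1.1
        rcases this with (h1 | h1) | h1
        · rw [hp] at h1; cases h1
        · simp at h1
        · exact h1.1
      · rw [mulR0 k _ (not_lt.1 hk), nil (Or.inr (not_lt.1 hk))]; rfl
    · rw [nil (Or.inl (not_lt.1 hi)), nil (Or.inl (not_lt.1 hi))]; rfl
  · intro i j k
    by_cases hi : i < d
    · by_cases hj : j < d
      · by_cases hk : k < d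
        · exact ((h i hi j hj).2 k hk).1.2
        · rw [mulR0 k _ (not_lt.1 hk), mulR0 k _ (not_lt.1 hk), nil (Or.inr (not_lt.1 hk)),
            nil (Or.inr (not_lt.1 hk))]; rfl
      · rw [nil (Or.inr (not_lt.1 hj)), nil (Or.inl (not_lt.1 hj)), nil (Or.inl (not_lt.1 hj)),
          mulL0 j _ (not_lt.1 hj)]; rfl
    · rw [nil (Or.inl (not_lt.1 hi)), nil (Or.inr (not_lt.1 hi)), nil (Or.inl (not_lt.1 hi)),
        mulL0 i _ (not_lt.1 hi)]; rfl
  · intro i k hp
    by_cases hi : i < d
    · by_cases hk : k < d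
      · have := ((h i hi i hi).2 k hk).1.1
        rcases this with (h1 | h1) | h1
        · rw [hp] at h1; cases h1
        · simp at h1
        · exact h1.2
      · rw [mulL0 k _ (not_lt.1 hk), nil (Or.inl (not_lt.1 hk))]; rfl
    · rw [nil (Or.inr (not_lt.1 hi)), nil (Or.inr (not_lt.1 hi))]; rfl
  · intro i j k
    by_cases hi : i < d
    · by_cases hj : j < d
      · by_cases hk : k < d
        · exact ((h i hi j hj).2 k hk).2
        · rw [mulL0 k _ (not_lt.1 hk), mulL0 k _ (not_lt.1 hk), nil (Or.inl (not_lt.1 hk)),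
            nil (Or.inl (not_lt.1 hk))]; rfl
      · rw [mulR0 j _ (not_lt.1 hj), nil (Or.inr (not_lt.1 hj)), nil (Or.inl (not_lt.1 hj)),
          nil (Or.inr (not_lt.1 hj))]; rfl
    · rw [nil (Or.inr (not_lt.1 hi)), mulR0 i _ (not_lt.1 hi), nil (Or.inl (not_lt.1 hi)),
        nil (Or.inr (not_lt.1 hi))]; rfl

end Tab

namespace Env

variable {t : Tab} {Φ : Type u} [CommRing Φ]

/-- Formal linear combinations of basis elements. -/
abbrev Comb : Type := List ((Finset ℕ × ℕ) × ℤ)

/-- The value of a formal linear combination. -/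
noncomputable def ev (t : Tab) (Φ : Type u) [CommRing Φ] : Comb → Env t Φ
  | [] => 0
  | x :: l => x.2 • bas t x.1 + ev t Φ l

/-- Insert a term into a formal linear combination. -/
def ins (x : (Finset ℕ × ℕ) × ℤ) : Comb → Comb
  | [] => [x]
  | y :: l => if x.1 = y.1 then (if x.2 + y.2 = 0 then l else (x.1, x.2 + y.2) :: l) else
      y :: ins x l

theorem ev_ins (x : (Finset ℕ × ℕ) × ℤ) (l : Comb) :
    ev t Φ (ins x l) = x.2 • bas t x.1 + ev t Φ l := by
  induction l with
  | nil => rfl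
  | cons y l ih =>
    rw [ins]
    split_ifs with h h2
    · rw [ev, ← h, ← add_assoc, ← add_smul, h2, zero_smul, zero_add]
    · rw [ev, ev, ← h, add_smul, add_assoc]
    · rw [ev, ih, ev]; abel

/-- The sum. -/
def cadd : Comb → Comb → Comb
  | [], l' => l'
  | x :: l, l' => cadd l (ins x l')

theorem ev_cadd (l l' : Comb) : ev t Φ (cadd l l') = ev t Φ l + ev t Φ l' := by
  induction l generalizing l' with
  | nil => rw [cadd, ev, zero_add]
  | cons x l ih => rw [cadd, ih, ev_ins, ev]; abel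

/-- The opposite. -/
def cneg : Comb → Comb
  | [] => []
  | x :: l => (x.1, -x.2) :: cneg l

theorem ev_cneg (l : Comb) : ev t Φ (cneg l) = -ev t Φ l := by
  induction l with
  | nil => simp [cneg, ev]
  | cons x l ih => rw [cneg, ev, ih, ev, neg_add, neg_smul]

/-- The difference. -/
def csub (l l' : Comb) : Comb := cadd (cneg l') l

theorem ev_csub (l l' : Comb) : ev t Φ (csub l l') = ev t Φ l - ev t Φ l' := by
  rw [csub, ev_cadd, ev_cneg]; abel

/-- The combination `c (S, l)`. -/
def cvec (S : Finset ℕ) (c : ℤ) : List (ℕ × ℤ) → Comb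
  | [] => []
  | x :: l => ((S, x.1), c * x.2) :: cvec S c l

theorem ev_cvec (S : Finset ℕ) (c : ℤ) (l : List (ℕ × ℤ)) :
    ev t Φ (cvec S c l) = c • vec t S l := by
  induction l with
  | nil => simp [cvec, ev, vec]
  | cons x l ih => rw [cvec, ev, ih, vec, smul_add, mul_smul]

/-- Products with a term. -/
def cmul1 (t : Tab) (x : (Finset ℕ × ℕ) × ℤ) : Comb → Comb
  | [] => []
  | y :: l => cadd (if good t x.1 ∧ good t y.1 ∧ Disjoint x.1.1 y.1.1 then
      cvec (x.1.1 ∪ y.1.1) (x.2 * y.2 * sgn x.1.1 y.1.1) (t.m x.1.2 y.1.2) else [])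
      (cmul1 t x l)

theorem ev_cmul1 (x : (Finset ℕ × ℕ) × ℤ) (l : Comb) :
    ev t Φ (cmul1 t x l) = (x.2 • bas t x.1) * ev t Φ l := by
  induction l with
  | nil => simp [cmul1, ev]
  | cons y l ih =>
    rw [cmul1, ev_cadd, ih, ev, mul_add]
    congr 1
    rw [smul_mul_assoc, mul_smul_comm, bas_mul_bas, bmul]
    split_ifs with h
    · rw [ev_cvec, mul_smul, mul_smul]
    · simp [ev]

/-- The product. -/
def cmul (t : Tab) : Comb → Comb → Comb
  | [], _ => []
  | x :: l, l' => cadd (cmul1 t x l') (cmul t l l')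

theorem ev_cmul (l l' : Comb) : ev t Φ (cmul t l l') = ev t Φ l * ev t Φ l' := by
  induction l with
  | nil => simp [cmul, ev]
  | cons x l ih => rw [cmul, ev_cadd, ev_cmul1, ih, ev, add_mul]

/-- The associator. -/
def casr (t : Tab) (a b c : Comb) : Comb := csub (cmul t (cmul t a b) c) (cmul t a (cmul t b c))

theorem ev_casr (a b c : Comb) :
    ev t Φ (casr t a b c) = asr (ev t Φ a) (ev t Φ b) (ev t Φ c) := by
  rw [casr, ev_csub, ev_cmul, ev_cmul, ev_cmul, ev_cmul, asr]

/-- The commutator. -/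
def ccom (t : Tab) (a b : Comb) : Comb := csub (cmul t a b) (cmul t b a)

theorem ev_ccom (a b : Comb) : ev t Φ (ccom t a b) = com (ev t Φ a) (ev t Φ b) := by
  rw [ccom, ev_csub, ev_cmul, ev_cmul, com]

def cEE (t : Tab) (y v a c : Comb) : Comb :=
  csub (casr t (casr t v a y) c y) (cmul t (ccom t c y) (casr t v a y))

theorem ev_cEE (y v a c : Comb) :
    ev t Φ (cEE t y v a c) = EE (ev t Φ y) (ev t Φ v) (ev t Φ a) (ev t Φ c) := by
  rw [cEE, ev_csub, ev_casr, ev_casr, ev_cmul, ev_ccom, ev_casr, EE]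

def cFF (t : Tab) (y a b c d : Comb) : Comb := casr t (cEE t y a b c) d y

theorem ev_cFF (y a b c d : Comb) : ev t Φ (cFF t y a b c d) =
    FF (ev t Φ y) (ev t Φ a) (ev t Φ b) (ev t Φ c) (ev t Φ d) := by
  rw [cFF, ev_casr, ev_cEE, FF]

def cFF1 (t : Tab) (y z a b c d : Comb) : Comb :=
  cadd (casr t (csub (cadd (casr t (casr t a b z) c y) (casr t (casr t a b y) c z))
    (cadd (cmul t (ccom t c z) (casr t a b y)) (cmul t (ccom t c y) (casr t a b z)))) d y)
    (casr t (cEE t y a b c) d z)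

theorem ev_cFF1 (y z a b c d : Comb) : ev t Φ (cFF1 t y z a b c d) =
    FF1 (ev t Φ y) (ev t Φ z) (ev t Φ a) (ev t Φ b) (ev t Φ c) (ev t Φ d) := by
  simp only [cFF1, ev_cadd, ev_csub, ev_cmul, ev_casr, ev_ccom, ev_cEE, FF1]

/-- The coefficient of a basis element. -/
def ccoef (s : Finset ℕ × ℕ) : Comb → ℤ
  | [] => 0
  | x :: l => (if x.1 = s then x.2 else 0) + ccoef s l

theorem coef_ev (s : Finset ℕ × ℕ) (l : Comb) : coef s (ev t Φ l) = ((ccoef s l : ℤ) : Φ) := by
  induction l with
  | nil => simp [ev, ccoef]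
  | cons x l ih =>
    rw [ev, ccoef, map_add, map_zsmul, ih, Int.cast_add, coef_bas]
    split_ifs <;> simp

end Env

end MP6489b8
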