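import Mathlib
import Pool.Agent.Lib.MP_6489b8_al.Eval

/-!
# The eight-dimensional model
-/

namespace MP6489b8

universe u

open Finset

/-- The eight-dimensional superalgebra with basis `1, x, p, w, q, u, n, m`. -/
def M8 : Tab := Tab.ofList 8 [false, true, true, false, true, false, false, true]
  [[[(0, 1)], [(1, 1)], [(2, 1)], [(3, 1)], [(4, 1)], [(5, 1)], [(6, 1)], [(7, 1)]],
   [[(1, 1)], [(0, 1)], [], [(2, -1)], [(5, 1)], [(4, 2)], [(7, 1)], [(6, 1)]],
   [[(2, 1)], [(3, 1)], [], [], [], [(7, -1)], [], []],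
   [[(3, 1)], [(2, 2)], [], [], [(7, -1)], [(6, 1)], [], []],
   [[(4, 1)], [], [(6, -1)], [(7, -1)], [], [], [], []],
   [[(5, 1)], [(4, -1)], [(7, -1)], [(6, -2)], [], [], [], []],
   [[(6, 1)], [(7, 1)], [], [], [], [], [], []],
   [[(7, 1)], [(6, 1)], [], [], [], [], [], []]]


theorem M8_alt : M8.Alt 0 := Tab.alt_of_check (by decide +kernel)

namespace Env

variable {t : Tab} {Φ : Type u} [CommRing Φ]

theorem bas_mul_bas_lt {S T : Finset ℕ} {i j : ℕ} (hS : good t (S, i)) (hT : good t (T, j))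
    (h : ∀ s ∈ S, ∀ t ∈ T, s < t) :
    (bas t (S, i) * bas t (T, j) : Env t Φ) = vec t (S ∪ T) (t.m i j) := by
  have hd : Disjoint S T := by
    rw [disjoint_left]
    intro a ha hb
    exact lt_irrefl _ (h a ha a hb)
  have h0 : sgn S T = 1 := by
    have : inv S T = 0 := by
      rw [inv]
      apply sum_eq_zero
      intro s hs
      rw [card_eq_zero, filter_eq_empty_iff]
      intro a ha
      exact not_lt.2 (h s hs a ha).le
    rw [sgn, this, pow_zero]
  rw [bas_mul_bas, bmul, if_pos ⟨hS, hT, hd⟩, h0, one_smul]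

theorem ev_singleton (s : Finset ℕ × ℕ) : ev t Φ [(s, 1)] = bas t s := by
  simp [ev]

end Env

section M8

open Env

variable (K : Type u) [CommRing K]

/-- The letters. -/
noncomputable def x8 (i : ℕ) : Env M8 K := bas M8 ({i + 3}, 1)

/-- The commutators of the letters. -/
theorem com_x8 {i j : ℕ} (h : i < j) :
    com (x8 K i) (x8 K j) = (2 : ℤ) • bas M8 ({i + 3, j + 3}, 0) := by
  have hg : ∀ k : ℕ, good M8 ({k}, 1) := by
    intro k
    simp [good, M8, Tab.ofList]
  have e1 : (x8 K i * x8 K j : Env M8 K) = bas M8 ({i + 3, j + 3}, 0) := by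
    rw [x8, x8, bas_mul_bas_lt (hg _) (hg _) (by simp [h])]
    have : M8.m 1 1 = [(0, 1)] := rfl
    rw [this, vec, vec, one_smul, add_zero]
    rfl
  have e2 : (x8 K j * x8 K i : Env M8 K) = -bas M8 ({i + 3, j + 3}, 0) := by
    rw [x8, x8, bas_mul_bas, bmul]
    have hd : Disjoint ({j + 3} : Finset ℕ) {i + 3} := by
      simp [h.ne']
    rw [if_pos ⟨hg _, hg _, hd⟩]
    have h0 : sgn {j + 3} {i + 3} = -1 := by
      have : inv {j + 3} {i + 3} = 1 := by
        rw [inv, sum_singleton, filter_singleton, if_pos (by omega), card_singleton]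
      rw [sgn, this, pow_one]
    have : M8.m 1 1 = [(0, 1)] := rfl
    rw [h0, this, vec, vec, one_smul, add_zero, neg_smul, one_smul, union_comm]
    rfl
  rw [com, e1, e2, two_smul, sub_neg_eq_add]

/-- The second argument for even order. -/
noncomputable def yE : Env M8 K := ev M8 K [(({0}, 2), 1), ((∅, 5), 1), (({1}, 1), 1)]

theorem FF_x8 : FF (yE K) (x8 K 0) (x8 K 1) (x8 K 2) (x8 K 3) =
    (4 : ℤ) • bas M8 ({0, 1, 3, 4, 5, 6}, 6) := by
  have hx : ∀ i, x8 K i = ev M8 K [(({i + 3}, 1), 1)] := fun i => (ev_singleton _).symm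
  rw [hx, hx, hx, hx, yE, ← ev_cFF]
  have : cFF M8 [(({0}, 2), 1), ((∅, 5), 1), (({1}, 1), 1)] [(({0 + 3}, 1), 1)]
      [(({1 + 3}, 1), 1)] [(({2 + 3}, 1), 1)] [(({3 + 3}, 1), 1)] =
      [((({0, 1, 3, 4, 5, 6} : Finset ℕ), 6), 4)] := by
    decide +kernel
  rw [this, ev, ev, add_zero]

/-- The set of the indices. -/
def S8 (k : ℕ) : Finset ℕ := {0, 1} ∪ Finset.Ico 3 (2 * k + 7)

theorem good_S8 (k : ℕ) : good M8 (S8 k, 6) := by
  have hc : (S8 k).card = 2 * k + 6 := by
    rw [S8, card_union_of_disjoint]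
    · simp; omega
    · rw [disjoint_left]
      intro a ha hb
      simp at ha hb
      omega
  have hp : M8.p 6 = false := rfl
  unfold good
  rw [hc, hp]
  have : (2 * k + 6) % 2 = 0 := by omega
  simp [this]

theorem S8_succ (k : ℕ) : S8 (k + 1) = S8 k ∪ {2 * k + 7, 2 * k + 8} := by
  ext a
  simp only [S8, mem_union, mem_insert, mem_singleton, mem_Ico]
  omega

theorem TE_x8 (k : ℕ) : TE k (Env M8 K) (fun i => x8 K i.1) (yE K) =
    ((96 * 4 ^ k : ℕ) : ℤ) • bas M8 (S8 k, 6) := by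
  induction k with
  | zero =>
    change 24 • FF (yE K) (x8 K 0) (x8 K 1) (x8 K 2) (x8 K 3) = _
    rw [FF_x8, ← Nat.cast_smul_eq_nsmul ℤ, smul_smul]
    rfl
  | succ k ih =>
    change 2 • (TE k (Env M8 K) (fun i => x8 K i.1) (yE K) *
      com (x8 K (2 * k + 4)) (x8 K (2 * k + 5))) = _
    rw [ih, com_x8 K (by omega), smul_mul_assoc, mul_smul_comm, bas_mul_bas_lt (good_S8 k)]
    · have : M8.m 6 0 = [(6, 1)] := rfl
      rw [this, vec, vec, one_smul, add_zero, S8_succ, ← Nat.cast_smul_eq_nsmul ℤ, smul_smul,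
        smul_smul]
      congr 1
      push_cast
      ring
    · unfold good
      have hp : M8.p 0 = false := rfl
      have : ({2 * k + 4 + 3, 2 * k + 5 + 3} : Finset ℕ).card = 2 := by
        rw [card_pair (by omega)]
      simp only [hp, this]
      rfl
    · intro s hs t ht
      simp only [S8, mem_union, mem_insert, mem_singleton, mem_Ico] at hs ht
      omega

end M8

end MP6489b8
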