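import Mathlib
import Pool.Agent.Lib.MP_6489b8_al.Mech

/-!
# From a good function to a strict step of the chain
-/

namespace MP6489b8

universe u v w

open Function

/-- The free alternative algebra is generated by its free generators. -/
theorem gen_freeAlt {Φ : Type u} [CommRing Φ] {X : Type v} (a : FreeAlt Φ X) :
    Gen (gen : X → FreeAlt Φ X) a := by
  obtain ⟨a, rfl⟩ := toFreeAlt_surjective a
  have key : ∀ m : FreeMagma X, Gen (gen : X → FreeAlt Φ X)
      (toFreeAlt (MonoidAlgebra.single m (1 : Φ))) := by
    intro m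
    induction m with
    | ih1 i => exact Gen.of i
    | ih2 p q hp hq =>
      have : (MonoidAlgebra.single (p * q) (1 : Φ) : FreeNA Φ X) =
          MonoidAlgebra.single p 1 * MonoidAlgebra.single q 1 := by
        rw [MonoidAlgebra.single_mul_single, one_mul]
      rw [this, toFreeAlt_mul]
      exact Gen.mul hp hq
  induction a using MonoidAlgebra.induction_linear with
  | zero => rw [map_zero]; exact Gen.zero
  | add f g hf hg => rw [map_add]; exact Gen.add hf hg
  | single m c =>
    have : (MonoidAlgebra.single m c : FreeNA Φ X) = c • MonoidAlgebra.single m 1 := by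
      rw [MonoidAlgebra.smul_single, smul_eq_mul, mul_one]
    rw [this, map_smul]
    exact Gen.centr (Centr.smul (FreeAlt Φ X) c) (key m)

section Quot

variable (n : ℕ) (A : Type u) [NonUnitalNonAssocRing A]

/-- The subgroup of multiples of `n`. -/
def multiples : AddSubgroup A := (nsmulAddMonoidHom (α := A) n).range

variable {n A}

theorem mem_multiples {a : A} : a ∈ multiples n A ↔ ∃ b, n • b = a := Iff.rfl

variable (n A)

/-- The quotient ring `A / nA`. -/
def ModN : Type u := A ⧸ multiples n A

instance : AddCommGroup (ModN n A) := inferInstanceAs (AddCommGroup (A ⧸ multiples n A))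

variable {n A}

/-- The quotient map `A → A / nA`. -/
def toModN : A →+ ModN n A := QuotientAddGroup.mk' (multiples n A)

theorem toModN_surjective : Surjective (toModN (n := n) (A := A)) :=
  QuotientAddGroup.mk'_surjective _

theorem toModN_eq_zero {a : A} : toModN (n := n) a = 0 ↔ ∃ b, n • b = a := by
  have := QuotientAddGroup.eq_zero_iff (N := multiples n A) a
  exact this

theorem toModN_eq {a b : A} : toModN (n := n) a = toModN b ↔ ∃ c, n • c = a - b := by
  rw [← sub_eq_zero, ← map_sub, toModN_eq_zero]

instance : Mul (ModN n A) where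
  mul := Quotient.map₂ (fun a b : A => a * b) (by
    intro a a' ha b b' hb
    obtain ⟨c, hc⟩ := toModN_eq.1 (Quotient.sound ha : toModN (n := n) a = toModN a')
    obtain ⟨d, hd⟩ := toModN_eq.1 (Quotient.sound hb : toModN (n := n) b = toModN b')
    have : toModN (n := n) (a * b) = toModN (a' * b') := by
      refine toModN_eq.2 ⟨c * b + a' * d, ?_⟩
      rw [nsmul_add, ← smul_mul_assoc, ← mul_smul_comm, hc, hd, sub_mul, mul_sub]
      abel
    exact Quotient.exact this)

theorem toModN_mul (a b : A) : toModN (n := n) (a * b) = toModN a * toModN b := rfl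

instance : NonUnitalNonAssocRing (ModN n A) where
  left_distrib a b c := by
    obtain ⟨a, rfl⟩ := toModN_surjective a
    obtain ⟨b, rfl⟩ := toModN_surjective b
    obtain ⟨c, rfl⟩ := toModN_surjective c
    rw [← map_add, ← toModN_mul, ← toModN_mul, ← toModN_mul, ← map_add, mul_add]
  right_distrib a b c := by
    obtain ⟨a, rfl⟩ := toModN_surjective a
    obtain ⟨b, rfl⟩ := toModN_surjective b
    obtain ⟨c, rfl⟩ := toModN_surjective c
    rw [← map_add, ← toModN_mul, ← toModN_mul, ← toModN_mul, ← map_add, add_mul]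
  zero_mul a := by
    obtain ⟨a, rfl⟩ := toModN_surjective a
    rw [← map_zero toModN, ← toModN_mul, zero_mul]
  mul_zero a := by
    obtain ⟨a, rfl⟩ := toModN_surjective a
    rw [← map_zero toModN, ← toModN_mul, mul_zero]

/-- The quotient map as a homomorphism of rings. -/
def toModNHom : A →ₙ+* ModN n A where
  toFun := toModN
  map_zero' := map_zero _
  map_add' := map_add _
  map_mul' := toModN_mul

@[simp] theorem toModNHom_apply (a : A) : toModNHom (n := n) a = toModN a := rfl

theorem isAltN_modN (hA : IsAlt A) : IsAltN n (ModN n A) := by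
  refine ⟨fun x y => ?_, fun a => ?_⟩
  · obtain ⟨x, rfl⟩ := toModN_surjective x
    obtain ⟨y, rfl⟩ := toModN_surjective y
    simp only [← toModN_mul, (hA x y).1, (hA x y).2, and_self]
  · obtain ⟨a, rfl⟩ := toModN_surjective a
    rw [← map_nsmul, toModN_eq_zero]
    exact ⟨a, rfl⟩

/-- A centroid map of `A` induces one of the quotient. -/
def Centr.modN (S : Centr A) : Centr (ModN n A) where
  f := QuotientAddGroup.map (multiples n A) (multiples n A) S.f (by
    rintro _ ⟨b, rfl⟩
    exact ⟨S.f b, (map_nsmul S.f n b).symm⟩)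
  left a b := by
    obtain ⟨a, rfl⟩ := toModN_surjective a
    obtain ⟨b, rfl⟩ := toModN_surjective b
    exact congrArg toModN (S.left a b)
  right a b := by
    obtain ⟨a, rfl⟩ := toModN_surjective a
    obtain ⟨b, rfl⟩ := toModN_surjective b
    exact congrArg toModN (S.right a b)

theorem Centr.modN_toModN (S : Centr A) (a : A) :
    (Centr.modN (n := n) S).f (toModN a) = toModN (S.f a) := rfl

theorem Gen.modN {ι : Type*} {g : ι → A} {a : A} (h : Gen g a) :
    Gen (fun i => toModN (n := n) (g i)) (toModN (n := n) a) := by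
  induction h with
  | of i => exact Gen.of (g := fun i => toModN (n := n) (g i)) i
  | zero => rw [map_zero]; exact Gen.zero
  | add _ _ ha hb => rw [map_add]; exact Gen.add ha hb
  | mul _ _ ha hb => rw [toModN_mul]; exact Gen.mul ha hb
  | centr S _ ha => rw [← Centr.modN_toModN]; exact Gen.centr _ ha

end Quot

section Sep

variable {n r : ℕ} {T : ∀ (B : Type u) [NonUnitalNonAssocRing B], (Fin r → B) → B → B}

/-- In a ring generated by `r` elements all values of a good function are multiples of `n`. -/
theorem Good.vanish_mod (hT : Good n r T) (hr : 0 < r) {A : Type u} [NonUnitalNonAssocRing A]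
    (hA : IsAlt A) (g : Fin r → A) (hg : ∀ a : A, Gen g a) (x : Fin r → A) (y : A) :
    ∃ b, n • b = T A x y := by
  rw [← toModN_eq_zero]
  have h1 := hT.nat A (ModN n A) toModNHom x y
  rw [toModNHom_apply] at h1
  rw [h1]
  apply hT.vanish hr (isAltN_modN hA) (fun i => toModN (n := n) (g i))
  intro a
  obtain ⟨a, rfl⟩ := toModN_surjective a
  exact (hg a).modN

/-- The ring homomorphism underlying an algebra homomorphism. -/
def ringOf {Φ : Type u} [CommRing Φ] {A : Type v} {B : Type w}
    [NonUnitalNonAssocRing A] [Module Φ A] [NonUnitalNonAssocRing B] [Module Φ B]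
    (φ : A →ₙₐ[Φ] B) : A →ₙ+* B where
  toFun := φ
  map_zero' := map_zero φ
  map_add' := map_add φ
  map_mul' := map_mul φ

@[simp] theorem ringOf_apply {Φ : Type u} [CommRing Φ] {A : Type v} {B : Type w}
    [NonUnitalNonAssocRing A] [Module Φ A] [NonUnitalNonAssocRing B] [Module Φ B]
    (φ : A →ₙₐ[Φ] B) (a : A) : ringOf φ a = φ a := rfl

/-- **Separation.** If `T` is a good function of order `r` for exponent `n`, if `s n = 0` in `Φ`
and if `s T` does not vanish in some alternative `Φ`-algebra, then the step from `Alt_r(Φ)` to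
`Alt_{r+1}(Φ)` is strict. -/
theorem Good.strictStep (hT : Good n r T) (hr : 0 < r) (Φ : Type u) [CommRing Φ] (s : Φ)
    (hs : s * (n : Φ) = 0) (A : Type u) [NonUnitalNonAssocRing A] [Module Φ A]
    [IsScalarTower Φ A A] [SMulCommClass Φ A A] (hA : IsAlt A) (x : Fin r → A) (y : A)
    (hne : s • T A x y ≠ 0) : StrictStep Φ r := by
  apply strictStep_of hr
  let xs : Fin r → FreeNA Φ ℕ := fun i => FreeNonUnitalNonAssocAlgebra.of Φ i.1
  let ys : FreeNA Φ ℕ := FreeNonUnitalNonAssocAlgebra.of Φ r
  let f : FreeNA Φ ℕ := s • T (FreeNA Φ ℕ) xs ys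
  have hf : ∀ (B : Type u) [NonUnitalNonAssocRing B] [Module Φ B]
      [IsScalarTower Φ B B] [SMulCommClass Φ B B] (g : ℕ → B),
      FreeNonUnitalNonAssocAlgebra.lift Φ g f = s • T B (fun i => g i.1) (g r) := by
    intro B _ _ _ _ g
    have h1 := hT.nat (FreeNA Φ ℕ) B (ringOf (FreeNonUnitalNonAssocAlgebra.lift Φ g)) xs ys
    simp only [ringOf_apply] at h1
    rw [show FreeNonUnitalNonAssocAlgebra.lift Φ g f =
      s • FreeNonUnitalNonAssocAlgebra.lift Φ g (T (FreeNA Φ ℕ) xs ys) from map_smul _ _ _, h1]
    simp only [xs, ys, FreeNonUnitalNonAssocAlgebra.lift_of_apply]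
  refine ⟨f, ?_, ?_⟩
  · intro g
    rw [hf]
    obtain ⟨b, hb⟩ := hT.vanish_mod hr (isAlt_freeAlt (Φ := Φ) (X := Fin r)) gen
      gen_freeAlt (fun i => g i.1) (g r)
    rw [← hb, ← Nat.cast_smul_eq_nsmul Φ, smul_smul, hs, zero_smul]
  · intro h
    have h1 := h (fun i => gen (Fin.ofNat (r + 1) i))
    rw [hf] at h1
    let a : Fin (r + 1) → A := Fin.snoc (α := fun _ => A) x y
    have h2 := congrArg (liftAlt (Φ := Φ) hA a) h1
    rw [map_smul, map_zero] at h2
    have h3 := hT.nat (FreeAlt Φ (Fin (r + 1))) A (ringOf (liftAlt (Φ := Φ) hA a))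
      (fun i => gen (Fin.ofNat (r + 1) i.1)) (gen (Fin.ofNat (r + 1) r))
    simp only [ringOf_apply, liftAlt_gen] at h3
    rw [h3] at h2
    apply hne
    rw [← h2]
    congr 2
    · funext i
      have : Fin.ofNat (r + 1) i.1 = i.castSucc := by
        ext
        simp
      rw [this]
      exact (Fin.snoc_castSucc (α := fun _ => A) y x i).symm
    · have : Fin.ofNat (r + 1) r = Fin.last r := by
        ext
        simp
      rw [this]
      exact (Fin.snoc_last (α := fun _ => A) y x).symm

end Sep

end MP6489b8
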