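import Mathlib
import Pool.Agent.Lib.MP_6489b8_al.Model8
import Pool.Agent.Lib.MP_6489b8_al.Sep

/-!
# Strict steps from models over residue rings
-/

namespace MP6489b8

universe u

open Env

/-- A good function which does not vanish in the envelope of an alternative superalgebra over a
`Φ`-algebra `K` gives a strict step. -/
theorem Good.strictStep_env {r : ℕ}
    {T : ∀ (B : Type u) [NonUnitalNonAssocRing B], (Fin r → B) → B → B}
    (hT : Good 0 r T) (hr : 0 < r) (Φ : Type u) [CommRing Φ] (K : Type u) [CommRing K]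
    (f : Φ →+* K) (t : Tab) {N : ℕ} (hN : (N : K) = 0) (ht : t.Alt N)
    (x : Fin r → Env t K) (y : Env t K) (hne : T (Env t K) x y ≠ 0) : StrictStep Φ r := by
  letI : Module Φ (Env t K) := Module.compHom (Env t K) f
  have hs : ∀ (c : Φ) (a : Env t K), c • a = f c • a := fun _ _ => rfl
  haveI : IsScalarTower Φ (Env t K) (Env t K) := ⟨fun c a b => by
    rw [hs, hs, smul_eq_mul, smul_eq_mul, smul_mul_assoc]⟩
  haveI : SMulCommClass Φ (Env t K) (Env t K) := ⟨fun c a b => by
    rw [hs, hs, smul_eq_mul, smul_eq_mul, mul_smul_comm]⟩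
  refine hT.strictStep hr Φ 1 (by simp) (Env t K) (Env.isAlt hN ht) x y ?_
  rw [one_smul]
  exact hne

theorem zsmul_bas_ne_zero {t : Tab} {K : Type u} [CommRing K] (s : Finset ℕ × ℕ) (c : ℤ)
    (h : (c : K) ≠ 0) : c • (bas t s : Env t K) ≠ 0 := by
  intro h0
  have := congrArg (coef s) h0
  rw [map_zsmul, coef_bas, if_pos rfl, map_zero, zsmul_eq_mul, mul_one] at this
  exact h this

/-- Even order, residue characteristic different from 2 and 3. -/
theorem strictStep_even_of_six (Φ : Type u) [CommRing Φ] (K : Type u) [Field K] (f : Φ →+* K)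
    (h6 : (6 : K) ≠ 0) (k : ℕ) : StrictStep Φ (2 * k + 4) := by
  refine (goodC_TE k).toGood.strictStep_env (by omega) Φ K f M8 (N := 0) (by simp) M8_alt
    (fun i => x8 K i.1) (yE K) ?_
  rw [TE_x8]
  apply zsmul_bas_ne_zero
  have h2 : (2 : K) ≠ 0 := by
    intro h; apply h6
    have : (6 : K) = 2 * 3 := by norm_num
    rw [this, h, zero_mul]
  have h3 : (3 : K) ≠ 0 := by
    intro h; apply h6
    have : (6 : K) = 2 * 3 := by norm_num
    rw [this, h, mul_zero]
  push_cast
  have e : (96 : K) * 4 ^ k = 2 ^ 5 * 3 * (2 ^ 2) ^ k := by norm_num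
  rw [e]
  exact mul_ne_zero (mul_ne_zero (pow_ne_zero _ h2) h3) (pow_ne_zero _ (pow_ne_zero _ h2))

end MP6489b8
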